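import Pool.Agent.GK.TStmts

/-!
# Graph knots: statements of the algebraic part

The field `k(x)`, the automorphism `x ↦ u x`, and the algebraic independence theorem.
All modules take the statements they need as hypotheses.
-/

namespace Pool.Agent.GK
open LaurentPolynomial
open scoped BigOperators

/-- `U a` plays the role of `exp (a h)`. -/
structure UOk {k : Type} [Field k] (U : ℚ → k) : Prop where
  zero : U 0 = 1
  add : ∀ a b, U (a + b) = U a * U b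
  inj : ∀ a, U a = 1 → a = 0

/-- the field `k(x)` -/
abbrev KX (k : Type) [Field k] : Type := FractionRing k[T;T⁻¹]

section Base

variable {k : Type} [Field k]

/-- the constants -/
noncomputable def cst : k →+* KX k := (algebraMap k[T;T⁻¹] (KX k)).comp C

/-- the powers of `x` -/
noncomputable def xe (n : ℤ) : KX k := algebraMap k[T;T⁻¹] (KX k) (T n)

/-- the Laurent polynomial with the given coefficients -/
noncomputable def lap (a : ℤ →₀ k) : KX k := a.sum fun n y => cst y * xe n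

/-- the automorphism `x ↦ u x` -/
structure Sg (U : ℚ → k) (σ : KX k ≃+* KX k) : Prop where
  cst : ∀ y, σ (cst y) = cst y
  xe : ∀ n : ℤ, σ (xe n) = Pool.Agent.GK.cst (U n) * xe n

/-- `x ^ W u ^ s - x ^ (-W) u ^ (-s)` -/
noncomputable def ph (U : ℚ → k) (W s : ℤ) : KX k :=
  cst (U s) * xe W - cst (U (-s)) * xe (-W)

/-- `u ^ (Q s² / 2p) x ^ (Q w s) (x ^ (p w) u ^ s - x ^ (-p w) u ^ (-s)) ^ (1 - m)` -/
noncomputable def Tt (U : ℚ → k) (p : ℕ) (Q : ℤ) (w m : ℕ) (s : ℤ) : KX k :=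
  cst (U ((Q : ℚ) * (s : ℚ) ^ 2 / (2 * p))) * xe (Q * w * s) * ph U (p * w) s ^ (1 - (m : ℤ))

/-- `0` or `1` -/
def bt (b : Bool) : ℤ := if b then 1 else 0

/-- the data on which the inhomogeneous terms depend -/
structure At where
  p : ℕ
  Q : ℤ
  w : ℕ
  b : Bool
  m : ℕ
deriving DecidableEq

/-- the atom is admissible with slope `c` -/
structure AtOk (c : ℤ) (a : At) : Prop where
  hp : 2 ≤ a.p
  hg : Int.gcd a.p a.Q = 1
  hw : 1 ≤ a.w
  hb : a.p = 2 → a.b = false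
  hm : a.m = 0 → (a.p : ℤ) < |a.Q|
  hc : (a.p : ℤ) * a.Q * (a.w : ℤ) ^ 2 = c

/-- the inhomogeneous term -/
noncomputable def Rf (U : ℚ → k) (a : At) : KX k :=
  ∑ i ∈ Finset.range a.w,
    (Tt U a.p a.Q a.w a.m (a.p * (bt a.b + (2 * (i : ℤ) - ((a.w : ℤ) - 1))) + 1) -
      Tt U a.p a.Q a.w a.m (a.p * (bt a.b + (2 * (i : ℤ) - ((a.w : ℤ) - 1))) - 1))

/-- the operator `x ^ c σ - x ^ (-c) σ⁻¹` -/
noncomputable def Lc (σ : KX k ≃+* KX k) (c : ℤ) (r : KX k) : KX k :=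
  xe c * σ r - xe (-c) * σ.symm r

open Classical in
/-- the sum of the coefficients in a class modulo `2 c`, with Gaussian weights -/
noncomputable def Lam (U : ℚ → k) (c ρ : ℤ) (a : ℤ →₀ k) : k :=
  a.sum fun n y => if 2 * c ∣ n - ρ then U (-((n : ℚ) ^ 2 / (2 * c))) * y else 0

end Base

open Classical in
/-- `1` if `ρ` is congruent to `y` modulo `2 D` -/
noncomputable def ind (D y ρ : ℤ) : ℤ := if 2 * D ∣ ρ - y then 1 else 0

/-- the class function of an atom with `m = 1` -/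
noncomputable def g1 (a : At) (ρ : ℤ) : ℤ :=
  ind (a.p * a.Q * a.w) ((bt a.b - ((a.w : ℤ) - 1)) * (a.p * a.Q * a.w) + a.Q * a.w) ρ -
  ind (a.p * a.Q * a.w) ((bt a.b - ((a.w : ℤ) - 1)) * (a.p * a.Q * a.w) - a.Q * a.w) ρ

/-- the class function of an atom with `m = 0` -/
noncomputable def g0 (a : At) (ρ : ℤ) : ℤ :=
  ind (a.p * a.Q * a.w)
    ((bt a.b - ((a.w : ℤ) - 1)) * (a.p * a.Q * a.w) + (a.Q * a.w + a.p * a.w)) ρ +
  ind (a.p * a.Q * a.w)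
    ((bt a.b - ((a.w : ℤ) - 1)) * (a.p * a.Q * a.w) - (a.Q * a.w + a.p * a.w)) ρ -
  ind (a.p * a.Q * a.w)
    ((bt a.b - ((a.w : ℤ) - 1)) * (a.p * a.Q * a.w) + (a.Q * a.w - a.p * a.w)) ρ -
  ind (a.p * a.Q * a.w)
    ((bt a.b - ((a.w : ℤ) - 1)) * (a.p * a.Q * a.w) - (a.Q * a.w - a.p * a.w)) ρ

/-! ## A. The field `k(x)` -/

/-- BASE: Laurent polynomials, fractions, the automorphism. -/
def BASE_Stmt : Prop :=
  ∀ (k : Type) [Field k],
    (∀ m n : ℤ, (xe (m + n) : KX k) = xe m * xe n) ∧ (xe 0 : KX k) = 1 ∧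
    (∀ a : ℤ →₀ k, lap a = 0 → a = 0) ∧
    (∀ a b : ℤ →₀ k, lap (a + b) = lap a + lap b) ∧
    (∀ (n : ℤ) (y : k), lap (Finsupp.single n y) = cst y * xe n) ∧
    (∀ a b : ℤ →₀ k, ∃ c, lap a * lap b = lap c) ∧
    (∀ r : KX k, ∃ a b : ℤ →₀ k, b ≠ 0 ∧ r * lap b = lap a) ∧
    ∀ U : ℚ → k, UOk U → ∃ σ : KX k ≃+* KX k, Sg U σ

/-- SIMP: the ring of Laurent polynomials has no ideals stable under `x ↦ u² x`. -/
def SIMP_Stmt : Prop :=
  ∀ (k : Type) [Field k] (U : ℚ → k) (σ : KX k ≃+* KX k), UOk U → Sg U σ →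
    (∀ (D : Set (KX k)), (∀ a ∈ D, ∃ f : ℤ →₀ k, a = lap f) → (∀ a ∈ D, ∀ b ∈ D, a - b ∈ D) →
      (∀ a ∈ D, ∀ (y : k) (n : ℤ), cst y * xe n * a ∈ D) → (∀ a ∈ D, σ (σ a) ∈ D) →
      (∃ a ∈ D, a ≠ 0) → (1 : KX k) ∈ D) ∧
    (∀ (a : KX k) (d : ℤ), a ≠ 0 → σ (σ a) = cst (U (2 * d)) * xe (2 * d) * a →
      d = 0 ∧ ∃ y, a = cst y) ∧
    (∀ (r : KX k) (c : ℤ) (f : ℤ →₀ k), Lc σ c r = lap f → ∃ g, r = lap g)

/-- the interface of the pole orders: `Fil e n` is the set of the functions with a pole of order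
at most `n` at `x = u ^ e` -/
structure FilOk {k : Type} [Field k] (U : ℚ → k) (σ : KX k ≃+* KX k)
    (Fil : ℚ → ℤ → AddSubgroup (KX k)) : Prop where
  mono : ∀ e m n, m ≤ n → Fil e m ≤ Fil e n
  mul : ∀ e m n a b, a ∈ Fil e m → b ∈ Fil e n → a * b ∈ Fil e (m + n)
  unit : ∀ e (y : k) n, cst y * xe n ∈ Fil e 0
  sg : ∀ e m a, σ a ∈ Fil e m ↔ a ∈ Fil (e + 1) m
  fin : ∀ a, {e | a ∉ Fil e 0}.Finite
  ph1 : ∀ (e : ℚ) (W s : ℤ) (j : ℕ), W ≠ 0 → ph U W s ^ (-(j : ℤ)) ∈ Fil e j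
  ph0 : ∀ (e : ℚ) (W s : ℤ) (j : ℕ), W ≠ 0 → e * W + s ≠ 0 → ph U W s ^ (-(j : ℤ)) ∈ Fil e 0
  phn : ∀ (e : ℚ) (W s : ℤ) (j : ℕ) (y : k) (n : ℤ), W ≠ 0 → e * W + s = 0 → 1 ≤ j → y ≠ 0 →
    cst y * xe n * ph U W s ^ (-(j : ℤ)) ∉ Fil e ((j : ℤ) - 1)

/-- VAL: pole orders exist. -/
def VAL_Stmt : Prop :=
  ∀ (k : Type) [Field k] [CharZero k] (U : ℚ → k) (σ : KX k ≃+* KX k), UOk U → Sg U σ →
    ∃ Fil : ℚ → ℤ → AddSubgroup (KX k), FilOk U σ Fil

/-- POLE: the poles of `L_c r` come in pairs at distance at least two. -/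
def POLE_Stmt : Prop :=
  ∀ (k : Type) [Field k] (U : ℚ → k) (σ : KX k ≃+* KX k), UOk U → Sg U σ →
    ∀ Fil : ℚ → ℤ → AddSubgroup (KX k), FilOk U σ Fil →
    ∀ (c : ℤ) (r : KX k) (n : ℤ) (e : ℚ), 0 ≤ n → Lc σ c r ∉ Fil e n →
      ∃ e1 e2 : ℚ, e1 + 2 ≤ e2 ∧ Lc σ c r ∉ Fil e1 n ∧ Lc σ c r ∉ Fil e2 n

/-- LAM: the class sums of `L_c r` vanish. -/
def LAM_Stmt : Prop :=
  ∀ (k : Type) [Field k] (U : ℚ → k) (σ : KX k ≃+* KX k), UOk U → Sg U σ →
    ∀ (c : ℤ) (r : KX k) (f : ℤ →₀ k), c ≠ 0 → Lc σ c r = lap f → ∀ ρ : ℤ, Lam U c ρ f = 0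

/-- ATL: the atoms with `m ≤ 1` are Laurent polynomials with known class sums. -/
def ATL_Stmt : Prop :=
  ∀ (k : Type) [Field k] (U : ℚ → k), UOk U → ∀ (c : ℤ) (a : At), AtOk c a →
    (a.m = 1 → ∃ f : ℤ →₀ k, Rf U a = lap f ∧ ∀ ρ : ℤ, Lam U c ρ f = (g1 a ρ : k)) ∧
    (a.m = 0 → ∃ f : ℤ →₀ k, Rf U a = lap f ∧
      ∀ ρ : ℤ, Lam U c ρ f = U (-((a.p : ℚ) / (2 * a.Q))) * (g0 a ρ : k))

/-- LFIX: the functions of the leaves with a given dilation are independent. -/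
def LFIX_Stmt : Prop :=
  ∀ (k : Type) [Field k] [CharZero k] (c : ℤ) (w : ℕ) (l : At →₀ k),
    (∀ a ∈ l.support, AtOk c a ∧ a.m = 0 ∧ a.w = w) →
    (∀ ρ : ℤ, l.sum (fun a y => y * (g0 a ρ : k)) = 0) → l = 0

/-- LEAF: the functions of all leaves are independent. -/
def LEAF_Stmt : Prop :=
  ∀ (k : Type) [Field k] [CharZero k] (c : ℤ) (l : At →₀ k),
    (∀ a ∈ l.support, AtOk c a ∧ a.m = 0) →
    (∀ ρ : ℤ, l.sum (fun a y => y * (g0 a ρ : k)) = 0) → l = 0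

/-- The restricted independence of the inhomogeneous terms, for a given bound of `m`. -/
def BIn (P : ℕ → Prop) : Prop :=
  ∀ (k : Type) [Field k] [CharZero k] (U : ℚ → k) (σ : KX k ≃+* KX k), UOk U → Sg U σ →
    ∀ (c : ℤ) (l : At →₀ k) (r : KX k) (a0 : At), P a0.m → (∀ a ∈ l.support, AtOk c a) →
      Lc σ c r = l.sum (fun a y => cst y * Rf U a) → a0 ∈ l.support →
      (∀ a ∈ l.support, a.m ≤ a0.m) →
      (∀ a ∈ l.support, a.m ≠ 0 → a.p = a0.p ∧ a.Q = a0.Q ∧ a.w = a0.w) → False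

/-- BI2: `m ≥ 2`. -/
def BI2_Stmt : Prop := BIn fun m => 2 ≤ m
/-- BI1: `m = 1`. -/
def BI1_Stmt : Prop := BIn fun m => m = 1
/-- BI0: `m = 0`. -/
def BI0_Stmt : Prop := BIn fun m => m = 0
/-- BI: all `m`. -/
def BI_Stmt : Prop := BIn fun _ => True

/-- MINR: a stable space of relations contains a relation with constant coefficients and a single
slope. -/
def MINR_Stmt : Prop :=
  ∀ (k : Type) [Field k] (U : ℚ → k) (σ : KX k ≃+* KX k), UOk U → Sg U σ →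
    ∀ (I : Type) (c : I → ℤ) (R : Submodule (KX k) (I →₀ KX k)),
    (∀ a ∈ R, ∀ b : I →₀ KX k,
      (∀ i, b i = cst (U (-(2 * c i))) * xe (-(2 * c i)) * σ (σ (a i))) → b ∈ R) →
    R ≠ ⊥ → ∃ κ ∈ R, κ ≠ 0 ∧ ∃ c0 : ℤ, ∀ i ∈ κ.support, c i = c0 ∧ ∃ y : k, κ i = cst y

/-! ## B. The algebraic independence theorem -/

/-- the effective parameter `q - p ∑ p_j q_j` of a node -/
def Tr.Q {ι : Type} (t : Tr ι) (i : ι) : ℤ :=
  t.q i - t.p i * ((t.ch i).map fun j => (t.p j : ℤ) * t.q j).sum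

/-- A solution of the functional equations of a family of primes in a field `L` that contains
`k(x)`; `Y i w s` is the normalised `F_i (w z + s h)`. -/
structure Ctx where
  k : Type
  [fk : Field k]
  [ck : CharZero k]
  U : ℚ → k
  hU : UOk U
  s0 : KX k ≃+* KX k
  hs0 : Sg U s0
  ι : Type
  t : Tr ι
  L : Type
  [fL : Field L]
  [aL : Algebra (KX k) L]
  sg : L ≃+* L
  Y : ι → ℕ → ℤ → L
  alg : ∀ r, sg (algebraMap (KX k) L r) = algebraMap (KX k) L (s0 r)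
  shift : ∀ (i : ι) (w : ℕ) (s : ℤ), 1 ≤ w → sg (Y i w s) =
    algebraMap (KX k) L (cst (U (-((t.p i : ℚ) * t.q i * (w : ℚ) ^ 2 / 2))) *
      xe (-((t.p i : ℤ) * t.q i * (w : ℤ) ^ 2))) * Y i w (s + w)
  rec1 : ∀ (i : ι) (w : ℕ) (s : ℤ), 1 ≤ w → Y i w (s + 1) - Y i w (s - 1) =
    algebraMap (KX k) L (cst (U ((t.p i : ℚ) * t.q i / 2 - t.q i / (2 * t.p i)))) *
      (algebraMap (KX k) L (Tt U (t.p i) (t.Q i) w (Multiset.card (t.ch i)) (t.p i * s + 1)) *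
          ((t.ch i).map fun j => Y j (t.p i * w) (t.p i * s + 1)).prod -
        algebraMap (KX k) L (Tt U (t.p i) (t.Q i) w (Multiset.card (t.ch i)) (t.p i * s - 1)) *
          ((t.ch i).map fun j => Y j (t.p i * w) (t.p i * s - 1)).prod)
  rec2 : ∀ (i : ι) (w : ℕ) (s : ℤ), 1 ≤ w → t.p i = 2 → Y i w (s + 1) + Y i w s =
    algebraMap (KX k) L (cst (U ((t.p i : ℚ) * t.q i / 2 - t.q i / (2 * t.p i)))) *
      (algebraMap (KX k) L (Tt U (t.p i) (t.Q i) w (Multiset.card (t.ch i)) (2 * s + 1)) *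
          ((t.ch i).map fun j => Y j (t.p i * w) (2 * s + 1)).prod)

attribute [instance] Ctx.fk Ctx.ck Ctx.fL Ctx.aL

/-- the labels of the generators: `t = 0, 1`, only `t = 0` if `p = 2` -/
structure Gen {ι : Type} (t : Tr ι) where
  i : ι
  w : ℕ
  b : Bool
  hw : 1 ≤ w
  hb : t.p i = 2 → b = false

section Comb

variable {ι : Type} (t : Tr ι)

/-- the generator of the class of `s` -/
def red (i : ι) (w : ℕ) (hw : 1 ≤ w) (s : ℤ) : Gen t :=
  ⟨i, w, if t.p i = 2 then false else decide (s % 2 = 1), hw, fun h => by rw [if_pos h]⟩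

/-- the sign of the reduction -/
def sgn (i : ι) (s : ℤ) : ℤ := if t.p i = 2 ∧ s % 2 = 1 then -1 else 1

variable {t}

/-- the level of a monomial: the total number of nodes -/
def lv (M : Multiset (Gen t)) : ℕ := (M.map fun g => t.sz g.i).sum

/-- the slope of a generator -/
def sl (g : Gen t) : ℤ := (t.p g.i : ℤ) * t.q g.i * (g.w : ℤ) ^ 2

/-- the slope of a monomial -/
def cs (M : Multiset (Gen t)) : ℤ := (M.map sl).sum

/-- the effect of `σ` on the generators, up to constants and lower terms -/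
def shp (g : Gen t) : Gen t := red t g.i g.w g.hw (bt g.b + g.w)

/-- the children of a generator -/
def chg (g : Gen t) : Multiset (Gen t) :=
  (t.ch g.i).map fun j => red t j (t.p g.i * g.w)
    (Nat.mul_pos (lt_of_lt_of_le Nat.zero_lt_two (t.hp g.i)) g.hw)
    (t.p g.i * (bt g.b + ((g.w : ℤ) - 1)) + 1)

/-- the atom of a generator -/
def atg (g : Gen t) : At :=
  ⟨t.p g.i, t.Q g.i, g.w, g.b, Multiset.card (t.ch g.i)⟩

open Classical in
/-- the monomial that arises from `M` when the root of `g ∈ M` is removed -/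
noncomputable def rmv (M : Multiset (Gen t)) (g : Gen t) : Multiset (Gen t) :=
  chg g + (M.erase g).map shp

end Comb

namespace Ctx

variable (C : Ctx)

/-- the generators -/
def yg (g : Gen C.t) : C.L := C.Y g.i g.w (bt g.b)

/-- the monomials -/
def mono (M : Multiset (Gen C.t)) : C.L := (M.map C.yg).prod

/-- the span of the monomials of level less than `n` -/
noncomputable def V (n : ℕ) : Submodule (KX C.k) C.L :=
  Submodule.span (KX C.k) (C.mono '' {M | lv M < n})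

/-- the inclusion of `k(x)` -/
noncomputable def al : KX C.k →+* C.L := algebraMap (KX C.k) C.L

/-- independence of the monomials of level less than `n` -/
def Ind (n : ℕ) : Prop :=
  ∀ a : Multiset (Gen C.t) →₀ KX C.k, (∀ M ∈ a.support, lv M < n) →
    a.sum (fun M r => C.al r * C.mono M) = 0 → a = 0

end Ctx

/-- VMUL: products. -/
def VMUL_Stmt : Prop :=
  ∀ (C : Ctx) (m n : ℕ) (a b : C.L),
    (m ≤ n → a ∈ C.V m → a ∈ C.V n) ∧
    (a ∈ C.V m → b ∈ C.V (n + 1) → a * b ∈ C.V (m + n)) ∧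
    (∀ M : Multiset (Gen C.t), lv M ≤ n → C.mono M ∈ C.V (n + 1)) ∧
    (∀ a' b' : C.L, a' ∈ C.V (m + 1) → b' ∈ C.V (n + 1) → a - a' ∈ C.V m → b - b' ∈ C.V n →
      a * b - a' * b' ∈ C.V (m + n)) ∧
    (∀ M N : Multiset (Gen C.t), C.mono (M + N) = C.mono M * C.mono N)

/-- RED: reduction of `Y i w s` to the generators. -/
def RED_Stmt : Prop :=
  ∀ (C : Ctx) (i : C.ι) (w : ℕ) (hw : 1 ≤ w) (s : ℤ),
    C.Y i w s - (sgn C.t i s : C.L) * C.yg (red C.t i w hw s) ∈ C.V (C.t.sz i)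

/-- PRD: reduction of products. -/
def PRD_Stmt : Prop :=
  ∀ (C : Ctx) (S : Multiset (C.ι × {w : ℕ // 1 ≤ w} × ℤ)),
    (S.map fun x => C.Y x.1 x.2.1 x.2.2).prod -
      ((S.map fun x => sgn C.t x.1 x.2.2).prod : ℤ) *
        C.mono (S.map fun x => red C.t x.1 x.2.1 x.2.1.2 x.2.2) ∈
      C.V (S.map fun x => C.t.sz x.1).sum

/-- SQA: the action of `σ`, `σ⁻¹` and `σ²`. -/
def SQA_Stmt : Prop :=
  ∀ (C : Ctx),
    (∀ (n : ℕ) (a : C.L), a ∈ C.V n → C.sg a ∈ C.V n ∧ C.sg.symm a ∈ C.V n) ∧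
    (∀ M : Multiset (Gen C.t), C.sg (C.sg (C.mono M)) -
      C.al (cst (C.U (-(2 * cs M))) * xe (-(2 * cs M))) * C.mono M ∈ C.V (lv M)) ∧
    (∀ M : Multiset (Gen C.t), ∃ ε : ℤ, (ε = 1 ∨ ε = -1) ∧
      C.sg (C.mono M) - (ε : C.L) * C.al (cst (C.U (-((cs M : ℚ) / 2))) * xe (-(cs M))) *
        C.mono (M.map shp) ∈ C.V (lv M) ∧
      C.sg.symm (C.mono M) - (ε : C.L) * C.al (cst (C.U (-((cs M : ℚ) / 2))) * xe (cs M)) *
        C.mono (M.map shp) ∈ C.V (lv M))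

/-- DIF: the difference of `Y` at `s + w` and `s - w`. -/
def DIF_Stmt : Prop :=
  ∀ (C : Ctx) (g : Gen C.t), ∃ ν : C.k, ν ≠ 0 ∧
    C.Y g.i g.w (bt g.b + g.w) - C.Y g.i g.w (bt g.b - g.w) -
      C.al (cst ν * Rf C.U (atg g)) * C.mono (chg g) ∈ C.V (C.t.sz g.i - 1)

/-- EXPN: the operator `L_c` on a monomial of slope `c`. -/
def EXPN_Stmt : Prop :=
  ∀ (C : Ctx) (M : Multiset (Gen C.t)), ∃ ν : Gen C.t → C.k, (∀ g, ν g ≠ 0) ∧
    C.al (xe (cs M)) * C.sg (C.mono M) - C.al (xe (-(cs M))) * C.sg.symm (C.mono M) -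
      (M.map fun g => C.al (cst (ν g) * Rf C.U (atg g)) * C.mono (rmv M g)).sum ∈
      C.V (lv M - 1)

/-- SHP: combinatorics of the labels. -/
def SHP_Stmt : Prop :=
  ∀ (ι : Type) (t : Tr ι),
    (∀ g : Gen t, shp (shp g) = g) ∧
    (∀ M : Multiset (Gen t), lv (M.map shp) = lv M ∧ cs (M.map shp) = cs M) ∧
    (∀ g : Gen t, lv (chg g) + 1 = t.sz g.i) ∧
    (∀ g : Gen t, sl g - cs (chg g) = (t.p g.i : ℤ) * t.Q g.i * (g.w : ℤ) ^ 2) ∧
    (∀ (M : Multiset (Gen t)), ∀ g ∈ M, lv (rmv M g) + 1 = lv M ∧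
      cs M - cs (rmv M g) = (t.p g.i : ℤ) * t.Q g.i * (g.w : ℤ) ^ 2) ∧
    (∀ i : ι, Int.gcd (t.p i) (t.Q i) = 1 ∧ (t.ch i = 0 → (t.p i : ℤ) < |t.Q i|))

/-- PSI: the choice of the monomial and of the factor. -/
def PSI_Stmt : Prop :=
  ∀ (ι : Type) (t : Tr ι) (S : Finset (Multiset (Gen t))) (n : ℕ) (c : ℤ), S.Nonempty → 1 ≤ n →
    (∀ M ∈ S, lv M = n ∧ cs M = c) →
    ∃ M ∈ S, ∃ g ∈ M, ∀ M' ∈ S, ∀ g' ∈ M', rmv M' g' = rmv M g →
      (atg g').m ≤ (atg g).m ∧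
      ((atg g').m ≠ 0 → (atg g').p = (atg g).p ∧ (atg g').Q = (atg g).Q ∧
        (atg g').w = (atg g).w) ∧
      (atg g' = atg g → M' = M ∧ g' = g)

/-- COEF: the coefficient of a monomial of level `n - 1` in the relation `L_c` applied to a
relation with constant coefficients. -/
def COEF_Stmt : Prop :=
  ∀ (C : Ctx) (n : ℕ), 1 ≤ n → C.Ind n → ∀ (c : ℤ) (κ : Multiset (Gen C.t) →₀ C.k),
    (∀ M ∈ κ.support, lv M = n ∧ cs M = c) →
    κ.sum (fun M y => C.al (cst y) * C.mono M) ∈ C.V n →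
    ∃ ν : Multiset (Gen C.t) → Gen C.t → C.k, (∀ M g, ν M g ≠ 0) ∧
    ∀ N : Multiset (Gen C.t), lv N + 1 = n → ∃ r : KX C.k,
      Lc C.s0 (c - cs N) r =
        κ.sum (fun M y => (M.map fun g => open Classical in
          if rmv M g = N then cst (ν M g * y) * Rf C.U (atg g) else 0).sum)

/-- STEP: the induction step. -/
def STEP_Stmt : Prop := ∀ (C : Ctx) (n : ℕ), C.Ind n → C.Ind (n + 1)

/-- AI: the algebraic independence theorem. -/
def AI_Stmt : Prop :=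
  ∀ (C : Ctx) (M M' : Multiset (Gen C.t)) (r r' : KX C.k), r ≠ 0 → r' ≠ 0 →
    C.al r * C.mono M = C.al r' * C.mono M' → M = M'

end Pool.Agent.GK
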