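import Pool.Agent.GK.AStmts

/-!
# ATL: the atoms with `m ≤ 1`
-/

namespace Pool.Agent.GK

namespace ATL

open scoped BigOperators

section

variable {k : Type} [Field k] (U : ℚ → k)

theorem lam_single (c ρ n : ℤ) (y : k) : Lam U c ρ (Finsupp.single n y) =
    if 2 * c ∣ n - ρ then U (-((n : ℚ) ^ 2 / (2 * c))) * y else 0 := by
  classical
  unfold Lam
  rw [Finsupp.sum_single_index]
  split_ifs <;> simp

/-- the class sum as a homomorphism -/
noncomputable def lamH (c ρ : ℤ) : (ℤ →₀ k) →+ k where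
  toFun := Lam U c ρ
  map_zero' := by
    unfold Lam
    rw [Finsupp.sum_zero_index]
  map_add' a b := by
    classical
    unfold Lam
    rw [Finsupp.sum_add_index']
    · intro n
      split_ifs <;> simp
    · intro n x y
      split_ifs
      · rw [mul_add]
      · rw [add_zero]

theorem lamH_apply (c ρ : ℤ) (a : ℤ →₀ k) : lamH U c ρ a = Lam U c ρ a := rfl

/-- `lap` as a homomorphism -/
noncomputable def lapH (h : ∀ a b : ℤ →₀ k, lap (a + b) = lap a + lap b) :
    (ℤ →₀ k) →+ KX k where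
  toFun := lap
  map_zero' := by
    unfold lap
    rw [Finsupp.sum_zero_index]
  map_add' := h

end

theorem count (k : Type) [Field k] (w : ℕ) (hw : 1 ≤ w) (z : ℤ) :
    ∑ i ∈ Finset.range w, (if (w : ℤ) ∣ z + i then (1 : k) else 0) = 1 := by
  have hw0 : (0 : ℤ) < w := by exact_mod_cast hw
  have h1 := Int.emod_nonneg (-z) hw0.ne'
  have h2 := Int.emod_lt_of_pos (-z) hw0
  rw [Finset.sum_eq_single ((-z) % w).toNat]
  · rw [if_pos]
    rw [Int.toNat_of_nonneg h1]
    have h3 := Int.emod_add_mul_ediv (-z) w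
    refine ⟨-((-z) / w), ?_⟩
    linarith
  · intro i hi hne
    rw [if_neg]
    intro hd
    apply hne
    rw [Finset.mem_range] at hi
    have hi' : (i : ℤ) < w := by exact_mod_cast hi
    have h3 : (-z) % w = i := by
      obtain ⟨q, hq⟩ := hd
      have h4 : -z = (i : ℤ) + w * (-q) := by linarith
      rw [h4, Int.add_mul_emod_self_left]
      exact Int.emod_eq_of_lt (by omega) hi'
    omega
  · intro h3
    exfalso
    apply h3
    rw [Finset.mem_range]
    omega

theorem count2 (k : Type) [Field k] (w : ℕ) (hw : 1 ≤ w) (D y ρ : ℤ) (hD : D ≠ 0) :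
    ∑ i ∈ Finset.range w, (if 2 * (D * w) ∣ y + 2 * D * i - ρ then (1 : k) else 0) =
      (ind D y ρ : k) := by
  unfold ind
  by_cases h : 2 * D ∣ ρ - y
  · rw [if_pos h]
    obtain ⟨z, hz⟩ := h
    rw [Int.cast_one]
    refine Eq.trans (Finset.sum_congr rfl fun i _ => ?_) (count k w hw (-z))
    have h1 : y + 2 * D * i - ρ = (2 * D) * (-z + i) := by linarith
    have h2 : 2 * (D * (w : ℤ)) = (2 * D) * w := by ring
    have h3 : 2 * (D * (w : ℤ)) ∣ y + 2 * D * i - ρ ↔ (w : ℤ) ∣ -z + i := by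
      rw [h1, h2]
      exact mul_dvd_mul_iff_left (by simpa using hD)
    simp only [h3]
  · rw [if_neg h, Int.cast_zero]
    refine Finset.sum_eq_zero fun i _ => ?_
    rw [if_neg]
    intro hd
    apply h
    have h1 : 2 * D ∣ y + 2 * D * i - ρ := (Dvd.intro _ (by ring : 2 * D * w = 2 * (D * w))).trans hd
    have h2 : ρ - y = 2 * D * i - (y + 2 * D * i - ρ) := by ring
    rw [h2]
    exact dvd_sub (Dvd.intro _ rfl) h1

end ATL

open ATL in
theorem atl (h : BASE_Stmt) : ATL_Stmt := by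
  intro k _ U hU c a ha
  obtain ⟨hxa, hx0, -, hla, hls, -, -, -⟩ := h k
  have hp := ha.hp
  have hw := ha.hw
  have hc := ha.hc
  have hQ : a.Q ≠ 0 := by
    intro h0
    have h1 := ha.hg
    rw [h0, Int.gcd_zero_right, Int.natAbs_natCast] at h1
    omega
  have hpq : (a.p : ℚ) ≠ 0 := by
    have : a.p ≠ 0 := by omega
    exact_mod_cast this
  have hwq : (a.w : ℚ) ≠ 0 := by
    have : a.w ≠ 0 := by omega
    exact_mod_cast this
  have hQq : (a.Q : ℚ) ≠ 0 := by exact_mod_cast hQ
  have hcq : (c : ℚ) = a.p * a.Q * (a.w : ℚ) ^ 2 := by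
    rw [← hc]
    push_cast
    ring
  set D : ℤ := (a.p : ℤ) * a.Q * a.w with hD
  have hD0 : D ≠ 0 := by
    rw [hD]
    have h1 : (a.p : ℤ) ≠ 0 := by omega
    have h2 : (a.w : ℤ) ≠ 0 := by omega
    exact mul_ne_zero (mul_ne_zero h1 hQ) h2
  have hcD : c = D * a.w := by
    rw [← hc, hD]
    ring
  set t0 : ℤ := bt a.b - ((a.w : ℤ) - 1) with ht0
  -- the class sums of the terms
  have key : ∀ (ρ y : ℤ) (n : ℕ → ℤ) (v : ℕ → k) (K : k),
      (∀ i : ℕ, n i = t0 * D + y + 2 * D * i) →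
      (∀ i, U (-((n i : ℚ) ^ 2 / (2 * c))) * v i = K) →
      ∑ i ∈ Finset.range a.w, lamH U c ρ (Finsupp.single (n i) (v i)) =
        K * (ind D (t0 * D + y) ρ : k) := by
    intro ρ y n v K hn hv
    rw [← count2 k a.w hw D (t0 * D + y) ρ hD0, Finset.mul_sum]
    refine Finset.sum_congr rfl fun i _ => ?_
    rw [lamH_apply, lam_single, hv, hn, hcD]
    split_ifs
    · rw [mul_one]
    · rw [mul_zero]
  -- the arguments
  let sg : ℤ → ℕ → ℤ := fun d i => a.p * (bt a.b + (2 * (i : ℤ) - ((a.w : ℤ) - 1))) + d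
  have hR : Rf U a = ∑ i ∈ Finset.range a.w,
      (Tt U a.p a.Q a.w a.m (sg 1 i) - Tt U a.p a.Q a.w a.m (sg (-1) i)) := rfl
  refine ⟨?_, ?_⟩
  · intro hm
    have hT : ∀ s, Tt U a.p a.Q a.w a.m s =
        lapH hla (Finsupp.single (a.Q * a.w * s) (U ((a.Q : ℚ) * (s : ℚ) ^ 2 / (2 * a.p)))) := by
      intro s
      unfold Tt
      rw [hm]
      have h1 : (1 - ((1 : ℕ) : ℤ)) = 0 := by norm_num
      rw [h1, zpow_zero, mul_one]
      exact (hls _ _).symm
    refine ⟨∑ i ∈ Finset.range a.w, (Finsupp.single (a.Q * a.w * sg 1 i)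
        (U ((a.Q : ℚ) * ((sg 1 i : ℤ) : ℚ) ^ 2 / (2 * a.p))) -
      Finsupp.single (a.Q * a.w * sg (-1) i)
        (U ((a.Q : ℚ) * ((sg (-1) i : ℤ) : ℚ) ^ 2 / (2 * a.p)))), ?_, ?_⟩
    · rw [hR]
      change _ = lapH hla _
      rw [map_sum]
      refine Finset.sum_congr rfl fun i _ => ?_
      rw [map_sub, hT, hT]
    · intro ρ
      rw [← lamH_apply, map_sum]
      have h1 : ∀ d : ℤ, ∑ i ∈ Finset.range a.w, lamH U c ρ
          (Finsupp.single (a.Q * a.w * sg d i)
            (U ((a.Q : ℚ) * ((sg d i : ℤ) : ℚ) ^ 2 / (2 * a.p)))) =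
          1 * (ind D (t0 * D + d * (a.Q * a.w)) ρ : k) := by
        intro d
        refine key ρ _ (fun i => a.Q * a.w * sg d i) _ 1 ?_ ?_
        · intro i
          simp only [sg]
          rw [ht0, hD]
          ring
        · intro i
          rw [← hU.add]
          have h2 : -((((a.Q * a.w * sg d i : ℤ)) : ℚ) ^ 2 / (2 * c)) +
              (a.Q : ℚ) * ((sg d i : ℤ) : ℚ) ^ 2 / (2 * a.p) = 0 := by
            rw [hcq]
            push_cast
            field_simp
            ring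
          rw [h2, hU.zero]
      simp only [map_sub, Finset.sum_sub_distrib]
      rw [h1 1, h1 (-1)]
      unfold g1
      rw [← hD, ← ht0]
      have e1 : t0 * D + 1 * (a.Q * a.w) = t0 * D + a.Q * a.w := by ring
      have e2 : t0 * D + -1 * (a.Q * a.w) = t0 * D - a.Q * a.w := by ring
      rw [e1, e2]
      push_cast
      ring
  · intro hm
    have hT : ∀ s, Tt U a.p a.Q a.w a.m s =
        lapH hla (Finsupp.single (a.Q * a.w * s + a.p * a.w)
          (U ((a.Q : ℚ) * (s : ℚ) ^ 2 / (2 * a.p)) * U (s : ℚ)) -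
          Finsupp.single (a.Q * a.w * s - a.p * a.w)
          (U ((a.Q : ℚ) * (s : ℚ) ^ 2 / (2 * a.p)) * U (-(s : ℚ)))) := by
      intro s
      rw [map_sub]
      change _ = lap _ - lap _
      rw [hls, hls]
      unfold Tt ph
      rw [hm]
      have h1 : (1 - ((0 : ℕ) : ℤ)) = 1 := by norm_num
      rw [h1, zpow_one, sub_eq_add_neg (a.Q * a.w * s), hxa, hxa, map_mul, map_mul]
      push_cast
      ring
    refine ⟨∑ i ∈ Finset.range a.w,
        ((Finsupp.single (a.Q * a.w * sg 1 i + a.p * a.w)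
          (U ((a.Q : ℚ) * ((sg 1 i : ℤ) : ℚ) ^ 2 / (2 * a.p)) * U ((sg 1 i : ℤ) : ℚ)) -
          Finsupp.single (a.Q * a.w * sg 1 i - a.p * a.w)
          (U ((a.Q : ℚ) * ((sg 1 i : ℤ) : ℚ) ^ 2 / (2 * a.p)) * U (-((sg 1 i : ℤ) : ℚ)))) -
        (Finsupp.single (a.Q * a.w * sg (-1) i + a.p * a.w)
          (U ((a.Q : ℚ) * ((sg (-1) i : ℤ) : ℚ) ^ 2 / (2 * a.p)) * U ((sg (-1) i : ℤ) : ℚ)) -
          Finsupp.single (a.Q * a.w * sg (-1) i - a.p * a.w)
          (U ((a.Q : ℚ) * ((sg (-1) i : ℤ) : ℚ) ^ 2 / (2 * a.p)) *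
            U (-((sg (-1) i : ℤ) : ℚ))))), ?_, ?_⟩
    · rw [hR]
      change _ = lapH hla _
      rw [map_sum]
      refine Finset.sum_congr rfl fun i _ => ?_
      rw [map_sub, hT, hT]
    · intro ρ
      rw [← lamH_apply, map_sum]
      have h1 : ∀ d : ℤ, ∑ i ∈ Finset.range a.w, lamH U c ρ
          (Finsupp.single (a.Q * a.w * sg d i + a.p * a.w)
            (U ((a.Q : ℚ) * ((sg d i : ℤ) : ℚ) ^ 2 / (2 * a.p)) * U ((sg d i : ℤ) : ℚ))) =
          U (-((a.p : ℚ) / (2 * a.Q))) *
            (ind D (t0 * D + (d * (a.Q * a.w) + a.p * a.w)) ρ : k) := by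
        intro d
        refine key ρ _ (fun i => a.Q * a.w * sg d i + a.p * a.w) _ _ ?_ ?_
        · intro i
          simp only [sg]
          rw [ht0, hD]
          ring
        · intro i
          rw [← hU.add, ← hU.add]
          congr 1
          rw [hcq]
          push_cast
          field_simp
          ring
      have h2 : ∀ d : ℤ, ∑ i ∈ Finset.range a.w, lamH U c ρ
          (Finsupp.single (a.Q * a.w * sg d i - a.p * a.w)
            (U ((a.Q : ℚ) * ((sg d i : ℤ) : ℚ) ^ 2 / (2 * a.p)) * U (-((sg d i : ℤ) : ℚ)))) =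
          U (-((a.p : ℚ) / (2 * a.Q))) *
            (ind D (t0 * D + (d * (a.Q * a.w) - a.p * a.w)) ρ : k) := by
        intro d
        refine key ρ _ (fun i => a.Q * a.w * sg d i - a.p * a.w) _ _ ?_ ?_
        · intro i
          simp only [sg]
          rw [ht0, hD]
          ring
        · intro i
          rw [← hU.add, ← hU.add]
          congr 1
          rw [hcq]
          push_cast
          field_simp
          ring
      simp only [map_sub, Finset.sum_sub_distrib]
      rw [h1 1, h1 (-1), h2 1, h2 (-1)]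
      unfold g0
      rw [← hD, ← ht0]
      have e1 : t0 * D + (1 * (a.Q * a.w) + a.p * a.w) = t0 * D + (a.Q * a.w + a.p * a.w) := by
        ring
      have e2 : t0 * D + (1 * (a.Q * a.w) - a.p * a.w) = t0 * D + (a.Q * a.w - a.p * a.w) := by
        ring
      have e3 : t0 * D + (-1 * (a.Q * a.w) + a.p * a.w) = t0 * D - (a.Q * a.w - a.p * a.w) := by
        ring
      have e4 : t0 * D + (-1 * (a.Q * a.w) - a.p * a.w) = t0 * D - (a.Q * a.w + a.p * a.w) := by
        ring
      rw [e1, e2, e3, e4]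
      push_cast
      ring

end Pool.Agent.GK
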