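import Pool.Agent.GK.AStmts

/-!
# BASE: Laurent polynomials, fractions, the automorphism `x ↦ u x`
-/

namespace Pool.Agent.GK
open LaurentPolynomial
open scoped BigOperators

namespace BASE

variable {k : Type} [Field k]

theorem lap_eq (a : ℤ →₀ k) :
    lap a = algebraMap k[T;T⁻¹] (KX k) (AddMonoidAlgebra.ofCoeff a) := by
  have h : (AddMonoidAlgebra.ofCoeff a : k[T;T⁻¹]) = a.sum fun n y => C y * T n := by
    have h1 := AddMonoidAlgebra.sum_coeff_single (AddMonoidAlgebra.ofCoeff a : k[T;T⁻¹])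
    rw [← h1]
    change a.sum _ = _
    refine Finsupp.sum_congr fun n _ => ?_
    exact single_eq_C_mul_T _ _
  rw [h, map_finsuppSum]
  unfold lap
  refine Finsupp.sum_congr fun n _ => ?_
  rw [map_mul]
  rfl

theorem ex_lap (f : k[T;T⁻¹]) : ∃ a : ℤ →₀ k, algebraMap k[T;T⁻¹] (KX k) f = lap a :=
  ⟨f.coeff, by rw [lap_eq, AddMonoidAlgebra.ofCoeff_coeff]⟩

theorem inj : Function.Injective (algebraMap k[T;T⁻¹] (KX k)) :=
  IsFractionRing.injective k[T;T⁻¹] (KX k)

/-- `n ↦ V n x ^ n` -/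
noncomputable def mh (V : ℤ → k) (h0 : V 0 = 1) (ha : ∀ a b, V (a + b) = V a * V b) :
    Multiplicative ℤ →* k[T;T⁻¹] where
  toFun n := C (V n.toAdd) * T n.toAdd
  map_one' := by
    rw [toAdd_one, h0, map_one, T_zero, one_mul]
  map_mul' a b := by
    rw [toAdd_mul, ha, map_mul, T_add]
    ring

/-- `x ↦ V x` -/
noncomputable def ah (V : ℤ → k) (h0 : V 0 = 1) (ha : ∀ a b, V (a + b) = V a * V b) :
    k[T;T⁻¹] →ₐ[k] k[T;T⁻¹] := AddMonoidAlgebra.lift k k[T;T⁻¹] ℤ (mh V h0 ha)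

theorem ah_T (V : ℤ → k) (h0 : V 0 = 1) (ha : ∀ a b, V (a + b) = V a * V b) (n : ℤ) :
    ah V h0 ha (T n) = C (V n) * T n := by
  unfold ah T
  rw [AddMonoidAlgebra.lift_single, one_smul]
  rfl

theorem ah_C (V : ℤ → k) (h0 : V 0 = 1) (ha : ∀ a b, V (a + b) = V a * V b) (y : k) :
    ah V h0 ha (C y) = C y := by
  rw [C_eq_algebraMap]
  exact AlgHom.commutes _ y

theorem comp_eq (V W : ℤ → k) (h0 : V 0 = 1) (ha : ∀ a b, V (a + b) = V a * V b)
    (g0 : W 0 = 1) (ga : ∀ a b, W (a + b) = W a * W b) (h : ∀ n, V n * W n = 1) :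
    (ah V h0 ha).comp (ah W g0 ga) = AlgHom.id k _ := by
  apply AddMonoidAlgebra.algHom_ext
  · intro m
    change ah V h0 ha (ah W g0 ga (T m)) = T m
    rw [ah_T, map_mul, ah_C, ah_T, ← mul_assoc, ← map_mul, mul_comm (W m), h, map_one, one_mul]
  · exact AlgHom.ext fun y => by
      change ah V h0 ha (ah W g0 ga (C y)) = C y
      rw [ah_C, ah_C]

end BASE

open BASE in
theorem base : BASE_Stmt := by
  intro k _
  have hxe : ∀ m n : ℤ, (xe (m + n) : KX k) = xe m * xe n := by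
    intro m n
    unfold xe
    rw [T_add, map_mul]
  have hx0 : (xe 0 : KX k) = 1 := by
    unfold xe
    rw [T_zero, map_one]
  refine ⟨hxe, hx0, ?_, ?_, ?_, ?_, ?_, ?_⟩
  · intro a ha
    rw [lap_eq, map_eq_zero_iff _ inj] at ha
    have h1 := congrArg AddMonoidAlgebra.coeff ha
    simpa using h1
  · intro a b
    rw [lap_eq, lap_eq, lap_eq, ← map_add]
    rfl
  · intro n y
    unfold lap
    rw [Finsupp.sum_single_index]
    rw [map_zero, zero_mul]
  · intro a b
    rw [lap_eq a, lap_eq b, ← map_mul]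
    exact ex_lap _
  · intro r
    obtain ⟨⟨x, s⟩, hs⟩ := IsLocalization.surj (nonZeroDivisors k[T;T⁻¹]) r
    refine ⟨x.coeff, (s : k[T;T⁻¹]).coeff, ?_, ?_⟩
    · intro h
      rw [AddMonoidAlgebra.coeff_eq_zero] at h
      exact nonZeroDivisors.ne_zero s.2 h
    · rw [lap_eq, lap_eq, AddMonoidAlgebra.ofCoeff_coeff, AddMonoidAlgebra.ofCoeff_coeff]
      exact hs
  · intro U hU
    have h0 : (fun n : ℤ => U (n : ℚ)) 0 = 1 := by
      simp only [Int.cast_zero]
      exact hU.zero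
    have ha : ∀ a b : ℤ, (fun n : ℤ => U (n : ℚ)) (a + b) =
        (fun n : ℤ => U (n : ℚ)) a * (fun n : ℤ => U (n : ℚ)) b := by
      intro a b
      simp only [Int.cast_add]
      exact hU.add _ _
    have g0 : (fun n : ℤ => U (-(n : ℚ))) 0 = 1 := by
      simp only [Int.cast_zero, neg_zero]
      exact hU.zero
    have ga : ∀ a b : ℤ, (fun n : ℤ => U (-(n : ℚ))) (a + b) =
        (fun n : ℤ => U (-(n : ℚ))) a * (fun n : ℤ => U (-(n : ℚ))) b := by
      intro a b
      simp only [Int.cast_add, neg_add]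
      exact hU.add _ _
    have hm : ∀ n : ℤ, U (n : ℚ) * U (-(n : ℚ)) = 1 := by
      intro n
      rw [← hU.add, add_neg_cancel, hU.zero]
    let e : k[T;T⁻¹] ≃ₐ[k] k[T;T⁻¹] := AlgEquiv.ofAlgHom (ah _ h0 ha) (ah _ g0 ga)
      (comp_eq _ _ h0 ha g0 ga hm)
      (comp_eq _ _ g0 ga h0 ha fun n => by rw [mul_comm]; exact hm n)
    refine ⟨IsFractionRing.ringEquivOfRingEquiv e.toRingEquiv, ?_, ?_⟩
    · intro y
      change IsFractionRing.ringEquivOfRingEquiv e.toRingEquiv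
        (algebraMap k[T;T⁻¹] (KX k) (C y)) = algebraMap k[T;T⁻¹] (KX k) (C y)
      rw [IsFractionRing.ringEquivOfRingEquiv_algebraMap]
      congr 1
      exact ah_C _ h0 ha y
    · intro n
      change IsFractionRing.ringEquivOfRingEquiv e.toRingEquiv
        (algebraMap k[T;T⁻¹] (KX k) (T n)) =
          algebraMap k[T;T⁻¹] (KX k) (C (U n)) * algebraMap k[T;T⁻¹] (KX k) (T n)
      rw [IsFractionRing.ringEquivOfRingEquiv_algebraMap, ← map_mul]
      congr 1
      exact ah_T _ h0 ha n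

end Pool.Agent.GK
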