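import Pool.Agent.GK.AStmts

/-!
# BI0: independence of the inhomogeneous terms for `m = 0`, and BI
-/

namespace Pool.Agent.GK
open LaurentPolynomial
open scoped BigOperators

namespace BI0

variable {k : Type} [Field k]

theorem U_neg {U : ℚ → k} (hU : UOk U) (a : ℚ) : U (-a) ≠ 0 := by
  intro h
  have := hU.add a (-a)
  rw [add_neg_cancel, hU.zero, h, mul_zero] at this
  exact one_ne_zero this

theorem c_ne {c : ℤ} {a : At} (h : AtOk c a) : c ≠ 0 := by
  rw [← h.hc]
  have hp := h.hp
  have hw := h.hw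
  have hQ : a.Q ≠ 0 := by
    intro hQ
    have := h.hg
    rw [hQ, Int.gcd_zero_right, Int.natAbs_natCast] at this
    omega
  have h1 : (a.p : ℤ) ≠ 0 := by omega
  have h2 : (a.w : ℤ) ≠ 0 := by omega
  exact mul_ne_zero (mul_ne_zero h1 hQ) (pow_ne_zero 2 h2)

theorem lam_zero (U : ℚ → k) (c ρ : ℤ) : Lam U c ρ 0 = 0 := by
  simp [Lam]

theorem lam_add (U : ℚ → k) (c ρ : ℤ) (f g : ℤ →₀ k) :
    Lam U c ρ (f + g) = Lam U c ρ f + Lam U c ρ g := by
  classical
  unfold Lam
  refine Finsupp.sum_add_index' ?_ ?_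
  · intro n
    simp
  · intro n y z
    split_ifs
    · ring
    · simp

theorem lam_smul (U : ℚ → k) (c ρ : ℤ) (y : k) (f : ℤ →₀ k) :
    Lam U c ρ (y • f) = y * Lam U c ρ f := by
  classical
  unfold Lam
  rw [Finsupp.sum_smul_index' (fun n => by simp), Finsupp.mul_sum]
  refine Finsupp.sum_congr fun n _ => ?_
  rw [smul_eq_mul]
  split_ifs
  · ring
  · simp

theorem lam_sum (U : ℚ → k) (c ρ : ℤ) {I : Type} (s : Finset I) (F : I → ℤ →₀ k) :
    Lam U c ρ (∑ i ∈ s, F i) = ∑ i ∈ s, Lam U c ρ (F i) := by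
  classical
  induction s using Finset.induction_on with
  | empty => simp [lam_zero]
  | insert a s ha ih => rw [Finset.sum_insert ha, Finset.sum_insert ha, lam_add, ih]

theorem lap_zero : (lap (0 : ℤ →₀ k) : KX k) = 0 := by
  simp [lap]

theorem lap_add (f g : ℤ →₀ k) : lap (f + g) = lap f + lap g := by
  unfold lap
  refine Finsupp.sum_add_index' ?_ ?_
  · intro n
    simp
  · intro n y z
    rw [map_add]
    ring

theorem lap_smul (y : k) (f : ℤ →₀ k) : lap (y • f) = cst y * lap f := by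
  unfold lap
  rw [Finsupp.sum_smul_index' (fun n => by simp), Finsupp.mul_sum]
  refine Finsupp.sum_congr fun n _ => ?_
  rw [smul_eq_mul, map_mul]
  ring

theorem lap_sum {I : Type} (s : Finset I) (F : I → ℤ →₀ k) :
    lap (∑ i ∈ s, F i) = ∑ i ∈ s, lap (F i) := by
  classical
  induction s using Finset.induction_on with
  | empty => simp [lap_zero]
  | insert a s ha ih => rw [Finset.sum_insert ha, Finset.sum_insert ha, lap_add, ih]

end BI0

open BI0 in
theorem bi0 (h : BASE_Stmt) (h1 : LAM_Stmt) (h2 : ATL_Stmt) (h3 : LEAF_Stmt) : BI0_Stmt := by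
  classical
  intro k _ _ U σ hU hσ c l r a0 ha0 hok hL ha hm _
  have hm0 : ∀ a ∈ l.support, a.m = 0 := by
    intro a h
    have := hm a h
    omega
  have hc : c ≠ 0 := c_ne (hok a0 ha)
  have hf : ∀ a : At, ∃ f : ℤ →₀ k, a ∈ l.support → Rf U a = lap f ∧
      ∀ ρ : ℤ, Lam U c ρ f = U (-((a.p : ℚ) / (2 * a.Q))) * (g0 a ρ : k) := by
    intro a
    by_cases h : a ∈ l.support
    · obtain ⟨f, hf⟩ := (h2 k U hU c a (hok a h)).2 (hm0 a h)
      exact ⟨f, fun _ => hf⟩
    · exact ⟨0, fun h' => absurd h' h⟩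
  choose f hf using hf
  have h4 : Lc σ c r = lap (∑ a ∈ l.support, l a • f a) := by
    rw [hL, lap_sum, Finsupp.sum]
    refine Finset.sum_congr rfl fun a h => ?_
    rw [lap_smul, (hf a h).1]
  have h5 := h1 k U σ hU hσ c r _ hc h4
  let V : At → k := fun a => U (-((a.p : ℚ) / (2 * a.Q)))
  have hV : ∀ a, V a ≠ 0 := fun a => U_neg hU _
  let L : At →₀ k := Finsupp.onFinset l.support (fun a => l a * V a) (by
    intro a h
    rw [Finsupp.mem_support_iff]
    intro h'
    exact h (by rw [h', zero_mul]))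
  have hLs : L.support = l.support := by
    ext a
    rw [Finsupp.mem_support_iff, Finsupp.mem_support_iff]
    simp only [L, Finsupp.onFinset_apply]
    constructor
    · intro h h'
      exact h (by rw [h', zero_mul])
    · intro h
      exact mul_ne_zero h (hV a)
  have h6 : L = 0 := by
    refine h3 k c L ?_ ?_
    · intro a h
      rw [hLs] at h
      exact ⟨hok a h, hm0 a h⟩
    · intro ρ
      have h7 := h5 ρ
      rw [lam_sum] at h7
      rw [Finsupp.sum, hLs, ← h7]
      refine Finset.sum_congr rfl fun a h => ?_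
      rw [lam_smul, (hf a h).2 ρ]
      simp only [L, Finsupp.onFinset_apply, V]
      ring
  have h8 : L a0 = 0 := by rw [h6]; rfl
  simp only [L, Finsupp.onFinset_apply] at h8
  rcases mul_eq_zero.1 h8 with h9 | h9
  · exact (Finsupp.mem_support_iff.1 ha) h9
  · exact hV a0 h9

theorem bi (h0 : BI0_Stmt) (h1 : BI1_Stmt) (h2 : BI2_Stmt) : BI_Stmt := by
  intro k _ _ U σ hU hσ c l r a0 _
  rcases Nat.lt_trichotomy a0.m 1 with h | h | h
  · exact h0 k U σ hU hσ c l r a0 (by show a0.m = 0; omega)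
  · exact h1 k U σ hU hσ c l r a0 h
  · exact h2 k U σ hU hσ c l r a0 h

end Pool.Agent.GK
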