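import Pool.Agent.GK.AStmts

/-!
# BI1: independence of the inhomogeneous terms, the case `m = 1`
-/

namespace Pool.Agent.GK

namespace BI1

/-! ### linearity -/

section Lin

variable {k : Type} [Field k]

theorem lap_zero : lap (0 : ℤ →₀ k) = 0 := by
  unfold lap
  exact Finsupp.sum_zero_index

theorem lap_smul (y : k) (f : ℤ →₀ k) : lap (y • f) = cst y * lap f := by
  unfold lap
  rw [Finsupp.sum_smul_index, Finsupp.sum, Finsupp.sum, Finset.mul_sum]
  · refine Finset.sum_congr rfl fun n _ => ?_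
    rw [map_mul, mul_assoc]
  · intro n
    rw [map_zero, zero_mul]

theorem lap_sum (hadd : ∀ a b : ℤ →₀ k, lap (a + b) = lap a + lap b) {ι : Type}
    (s : Finset ι) (f : ι → ℤ →₀ k) : lap (∑ i ∈ s, f i) = ∑ i ∈ s, lap (f i) := by
  classical
  induction s using Finset.induction_on with
  | empty => rw [Finset.sum_empty, Finset.sum_empty, lap_zero]
  | insert i s hi ih => rw [Finset.sum_insert hi, Finset.sum_insert hi, hadd, ih]

theorem Lam_zero (U : ℚ → k) (c ρ : ℤ) : Lam U c ρ 0 = 0 := by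
  unfold Lam
  exact Finsupp.sum_zero_index

theorem Lam_add (U : ℚ → k) (c ρ : ℤ) (a b : ℤ →₀ k) :
    Lam U c ρ (a + b) = Lam U c ρ a + Lam U c ρ b := by
  classical
  unfold Lam
  rw [Finsupp.sum_add_index']
  · intro n
    simp
  · intro n x y
    split_ifs
    · rw [mul_add]
    · rw [add_zero]

theorem Lam_smul (U : ℚ → k) (c ρ : ℤ) (y : k) (f : ℤ →₀ k) :
    Lam U c ρ (y • f) = y * Lam U c ρ f := by
  classical
  unfold Lam
  rw [Finsupp.sum_smul_index, Finsupp.sum, Finsupp.sum, Finset.mul_sum]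
  · refine Finset.sum_congr rfl fun n _ => ?_
    split_ifs
    · ring
    · rw [mul_zero]
  · intro n
    simp

theorem Lam_sum (U : ℚ → k) (c ρ : ℤ) {ι : Type} (s : Finset ι) (f : ι → ℤ →₀ k) :
    Lam U c ρ (∑ i ∈ s, f i) = ∑ i ∈ s, Lam U c ρ (f i) := by
  classical
  induction s using Finset.induction_on with
  | empty => rw [Finset.sum_empty, Finset.sum_empty, Lam_zero]
  | insert i s hi ih => rw [Finset.sum_insert hi, Finset.sum_insert hi, Lam_add, ih]

end Lin

/-! ### the class functions -/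

theorem ind_neg (D e V ρ : ℤ) : ind D (e * D + V) (-ρ) = ind D (e * D - V) ρ := by
  classical
  unfold ind
  have h : 2 * D ∣ -ρ - (e * D + V) ↔ 2 * D ∣ ρ - (e * D - V) := by
    constructor
    · rintro ⟨t, ht⟩
      exact ⟨-t - e, by linear_combination -ht⟩
    · rintro ⟨t, ht⟩
      exact ⟨-t - e, by linear_combination -ht⟩
  simp only [h]

theorem ind_neg' (D e V ρ : ℤ) : ind D (e * D - V) (-ρ) = ind D (e * D + V) ρ := by
  have h := ind_neg D e (-V) ρ
  rw [sub_neg_eq_add, ← sub_eq_add_neg] at h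
  exact h

theorem g1_neg (a : At) (ρ : ℤ) : g1 a (-ρ) = - g1 a ρ := by
  unfold g1
  rw [ind_neg, ind_neg']
  ring

theorem g0_neg (a : At) (ρ : ℤ) : g0 a (-ρ) = g0 a ρ := by
  unfold g0
  rw [ind_neg, ind_neg', ind_neg, ind_neg']
  ring

theorem Q_ne {c : ℤ} {a : At} (h : AtOk c a) : a.Q ≠ 0 := by
  intro h0
  have h1 := h.hg
  rw [h0] at h1
  simp at h1
  have h2 := h.hp
  omega

theorem c_ne {c : ℤ} {a : At} (h : AtOk c a) : c ≠ 0 := by
  rw [← h.hc]
  have h1 := h.hp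
  have h2 := h.hw
  have h3 : (a.p : ℤ) ≠ 0 := by omega
  have h4 : (a.w : ℤ) ≠ 0 := by omega
  exact mul_ne_zero (mul_ne_zero h3 (Q_ne h)) (pow_ne_zero _ h4)

/-- The value of the class function of the atom at its own residue. -/
theorem g1_self {c : ℤ} {a : At} (h : AtOk c a) :
    g1 a ((bt a.b - ((a.w : ℤ) - 1)) * (a.p * a.Q * a.w) + a.Q * a.w) = 1 := by
  classical
  have hp := h.hp
  have hw : (a.w : ℤ) ≠ 0 := by
    have := h.hw
    omega
  have hV : a.Q * (a.w : ℤ) ≠ 0 := mul_ne_zero (Q_ne h) hw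
  unfold g1 ind
  rw [if_pos (by rw [sub_self]; exact dvd_zero _), if_neg, sub_zero]
  rintro ⟨t, ht⟩
  have h0 : 2 * (a.Q * (a.w : ℤ) * (1 - a.p * t)) = 0 := by linear_combination ht
  have h1 : a.Q * (a.w : ℤ) * (1 - a.p * t) = 0 := (mul_eq_zero.mp h0).resolve_left two_ne_zero
  rcases mul_eq_zero.mp h1 with h2 | h2
  · exact hV h2
  · have h3 : (a.p : ℤ) ∣ 1 := ⟨t, by linarith⟩
    have h4 : (a.p : ℤ) ≤ 1 := Int.le_of_dvd one_pos h3
    omega

/-- The value of the class function of the other atom. -/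
theorem g1_other {c : ℤ} {a b : At} (ha : AtOk c a) (hb : AtOk c b) (hp : b.p = a.p)
    (hQ : b.Q = a.Q) (hw : b.w = a.w) (hne : b.b ≠ a.b) :
    g1 b ((bt a.b - ((a.w : ℤ) - 1)) * (a.p * a.Q * a.w) + a.Q * a.w) = 0 := by
  classical
  have hp3 : 3 ≤ a.p := by
    have h1 := ha.hp
    by_contra h2
    have h3 : a.p = 2 := by omega
    apply hne
    rw [ha.hb h3, hb.hb (by rw [hp, h3])]
  have hw0 : (a.w : ℤ) ≠ 0 := by
    have := ha.hw
    omega
  have hV : a.Q * (a.w : ℤ) ≠ 0 := mul_ne_zero (Q_ne ha) hw0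
  have hpz : (3 : ℤ) ≤ a.p := by exact_mod_cast hp3
  have hD : (a.p : ℤ) * a.Q * a.w ≠ 0 := by
    rw [mul_assoc]
    exact mul_ne_zero (by omega) hV
  obtain ⟨s, hs, hbt⟩ : ∃ s : ℤ, (s = 1 ∨ s = -1) ∧ bt a.b - bt b.b = s := by
    refine ⟨_, ?_, rfl⟩
    cases ha' : a.b <;> cases hb' : b.b
    · exact absurd (by rw [ha', hb']) hne
    · right; simp [bt]
    · left; simp [bt]
    · exact absurd (by rw [ha', hb']) hne
  unfold g1 ind
  rw [hp, hQ, hw, if_neg, if_neg, sub_zero]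
  · rintro ⟨t, ht⟩
    have h1 : a.Q * (a.w : ℤ) * (a.p * (2 * t - s) - 2) = 0 := by
      rw [← hbt]
      linear_combination -ht
    rcases mul_eq_zero.mp h1 with h2 | h2
    · exact hV h2
    · have h3 : (a.p : ℤ) ∣ 2 := ⟨2 * t - s, by linarith⟩
      have h4 : (a.p : ℤ) ≤ 2 := Int.le_of_dvd two_pos h3
      omega
  · rintro ⟨t, ht⟩
    have h1 : (a.p : ℤ) * a.Q * a.w * (2 * t - s) = 0 := by
      rw [← hbt]
      linear_combination -ht
    rcases mul_eq_zero.mp h1 with h2 | h2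
    · exact hD h2
    · rcases hs with rfl | rfl <;> omega

end BI1

open BI1 in
/-- BI1: `m = 1`. -/
theorem bi1 (h : BASE_Stmt) (h1 : LAM_Stmt) (h2 : ATL_Stmt) : BI1_Stmt := by
  classical
  intro k _ _ U σ hU hσ c l r a0 ha0 hok hL hmem hmax hsame
  change a0.m = 1 at ha0
  obtain ⟨-, -, -, hadd, -, -, -, -⟩ := h k
  let lam : At → ℤ → k := fun a ρ => if a.m = 1 then (g1 a ρ : k) else
    U (-((a.p : ℚ) / (2 * a.Q))) * (g0 a ρ : k)
  have hex : ∀ a : At, ∃ f : ℤ →₀ k, a ∈ l.support →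
      (Rf U a = lap f ∧ ∀ ρ, Lam U c ρ f = lam a ρ) := by
    intro a
    by_cases ha : a ∈ l.support
    · have hm := hmax a ha
      rw [ha0] at hm
      obtain ⟨e1, e2⟩ := h2 k U hU c a (hok a ha)
      by_cases hm1 : a.m = 1
      · obtain ⟨f, hf, hf'⟩ := e1 hm1
        refine ⟨f, fun _ => ⟨hf, fun ρ => ?_⟩⟩
        rw [hf' ρ]
        simp only [lam, if_pos hm1]
      · obtain ⟨f, hf, hf'⟩ := e2 (by omega)
        refine ⟨f, fun _ => ⟨hf, fun ρ => ?_⟩⟩
        rw [hf' ρ]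
        simp only [lam, if_neg hm1]
    · exact ⟨0, fun h => absurd h ha⟩
  choose f hf using hex
  have hLF : Lc σ c r = lap (∑ a ∈ l.support, l a • f a) := by
    rw [hL, lap_sum hadd, Finsupp.sum]
    refine Finset.sum_congr rfl fun a ha => ?_
    rw [lap_smul, (hf a ha).1]
  have hc : c ≠ 0 := c_ne (hok a0 hmem)
  have hsum : ∀ ρ : ℤ, ∑ a ∈ l.support, l a * lam a ρ = 0 := by
    intro ρ
    have e := h1 k U σ hU hσ c r _ hc hLF ρ
    rw [Lam_sum] at e
    rw [← e]
    refine Finset.sum_congr rfl fun a ha => ?_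
    rw [Lam_smul, (hf a ha).2 ρ]
  set ρ0 : ℤ := (bt a0.b - ((a0.w : ℤ) - 1)) * (a0.p * a0.Q * a0.w) + a0.Q * a0.w with hρ0
  have hdiff : ∑ a ∈ l.support, l a * (lam a ρ0 - lam a (-ρ0)) = 0 := by
    have e : ∀ a ∈ l.support, l a * (lam a ρ0 - lam a (-ρ0)) =
        l a * lam a ρ0 - l a * lam a (-ρ0) := fun a _ => mul_sub _ _ _
    rw [Finset.sum_congr rfl e, Finset.sum_sub_distrib, hsum, hsum, sub_zero]
  rw [Finset.sum_eq_single a0] at hdiff
  · have e1 : lam a0 ρ0 - lam a0 (-ρ0) = 2 := by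
      simp only [lam, if_pos ha0]
      rw [g1_neg, g1_self (hok a0 hmem)]
      push_cast
      ring
    rw [e1] at hdiff
    rcases mul_eq_zero.mp hdiff with e2 | e2
    · exact (Finsupp.mem_support_iff.mp hmem) e2
    · exact two_ne_zero e2
  · intro a ha hne
    have e1 : lam a ρ0 - lam a (-ρ0) = 0 := by
      by_cases hm1 : a.m = 1
      · obtain ⟨ep, eQ, ew⟩ := hsame a ha (by omega)
        have hb : a.b ≠ a0.b := by
          intro hb
          apply hne
          rcases a with ⟨p, Q, w, b, m⟩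
          rcases a0 with ⟨p', Q', w', b', m'⟩
          simp only at ep eQ ew hb hm1 ha0
          rw [ep, eQ, ew, hb, hm1, ha0]
        simp only [lam, if_pos hm1]
        rw [g1_neg, g1_other (hok a0 hmem) (hok a ha) ep eQ ew hb]
        simp
      · simp only [lam, if_neg hm1]
        rw [g0_neg, sub_self]
    rw [e1, mul_zero]
  · intro h0
    exact absurd hmem h0

end Pool.Agent.GK
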