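import Pool.Agent.GK.AStmts

/-!
# BI2: independence of the inhomogeneous terms with `m ≥ 2`
-/

namespace Pool.Agent.GK
open LaurentPolynomial
open scoped BigOperators

namespace BI2

variable {k : Type} [Field k] {U : ℚ → k} {σ : KX k ≃+* KX k} {Fil : ℚ → ℤ → AddSubgroup (KX k)}

theorem U_ne (h : UOk U) (a : ℚ) : U a ≠ 0 := by
  intro h0
  have h1 := h.add a (-a)
  rw [add_neg_cancel, h.zero, h0, zero_mul] at h1
  exact one_ne_zero h1

/-- the argument of the term with index `i` and sign `ε` -/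
def sv (p w : ℕ) (b : Bool) (i : ℕ) (ε : ℤ) : ℤ :=
  p * (bt b + (2 * (i : ℤ) - ((w : ℤ) - 1))) + ε

theorem bt_cases (b : Bool) : (b = false ∧ bt b = 0) ∨ (b = true ∧ bt b = 1) := by
  cases b
  · exact Or.inl ⟨rfl, rfl⟩
  · exact Or.inr ⟨rfl, rfl⟩

/-- The arguments are different. -/
theorem sv_inj {p w : ℕ} (hp : 2 ≤ p) {b b' : Bool} (hb : p = 2 → b = false)
    (hb' : p = 2 → b' = false) {i i' : ℕ} {ε ε' : ℤ} (hε : ε = 1 ∨ ε = -1)
    (hε' : ε' = 1 ∨ ε' = -1) (h : sv p w b i ε = sv p w b' i' ε') :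
    b = b' ∧ i = i' ∧ ε = ε' := by
  unfold sv at h
  have h1 : (p : ℤ) * ((bt b + 2 * (i : ℤ)) - (bt b' + 2 * (i' : ℤ))) = ε' - ε := by
    linear_combination h
  have hp' : (2 : ℤ) ≤ p := by exact_mod_cast hp
  set d : ℤ := (bt b + 2 * (i : ℤ)) - (bt b' + 2 * (i' : ℤ)) with hd
  have hd0 : d = 0 := by
    by_contra hne
    have h2 : 1 ≤ |d| := Int.one_le_abs hne
    have h3 : |(p : ℤ) * d| ≤ 2 := by
      rw [h1]
      rcases hε with rfl | rfl <;> rcases hε' with rfl | rfl <;> norm_num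
    rw [abs_mul, abs_of_nonneg (by linarith : (0 : ℤ) ≤ p)] at h3
    have h4 : (p : ℤ) = 2 := by nlinarith
    have h4' : p = 2 := by exact_mod_cast h4
    have h5 : |d| = 1 := by
      rw [h4] at h3
      omega
    rw [hb h4', hb' h4'] at hd
    have h6 : d = 2 * ((i : ℤ) - i') := by
      rw [hd]
      show (0 + 2 * (i : ℤ)) - (0 + 2 * (i' : ℤ)) = _
      ring
    rw [h6] at h5
    rcases abs_eq (by norm_num : (0 : ℤ) ≤ 1) |>.1 h5 with h7 | h7 <;> omega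
  rw [hd0, mul_zero] at h1
  have h2 : ε = ε' := by linarith
  have h3 : (bt b + 2 * (i : ℤ)) - (bt b' + 2 * (i' : ℤ)) = 0 := by rw [← hd]; exact hd0
  rcases bt_cases b with ⟨e1, e2⟩ | ⟨e1, e2⟩ <;> rcases bt_cases b' with ⟨e3, e4⟩ | ⟨e3, e4⟩ <;>
    rw [e2, e4] at h3
  · exact ⟨by rw [e1, e3], by omega, h2⟩
  · omega
  · omega
  · exact ⟨by rw [e1, e3], by omega, h2⟩

/-- The arguments lie in a short interval. -/
theorem sv_diff {p w : ℕ} (hp : 2 ≤ p) {b b' : Bool} (hb : p = 2 → b = false)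
    (hb' : p = 2 → b' = false) {i i' : ℕ} (hi : i < w) (hi' : i' < w) {ε ε' : ℤ}
    (hε : ε = 1 ∨ ε = -1) (hε' : ε' = 1 ∨ ε' = -1) :
    sv p w b i ε - sv p w b' i' ε' < 2 * ((p : ℤ) * w) := by
  unfold sv
  have hi2 : (i : ℤ) + 1 ≤ w := by exact_mod_cast hi
  have hi3 : (0 : ℤ) ≤ i' := Int.natCast_nonneg _
  have hεd : ε - ε' ≤ 2 := by
    rcases hε with rfl | rfl <;> rcases hε' with rfl | rfl <;> norm_num
  rcases Nat.lt_or_ge 2 p with hp3 | hp2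
  · have hp' : (3 : ℤ) ≤ p := by exact_mod_cast hp3
    have hb1 : bt b ≤ 1 := by
      rcases bt_cases b with ⟨-, e⟩ | ⟨-, e⟩ <;> rw [e] <;> norm_num
    have hb2 : 0 ≤ bt b' := by
      rcases bt_cases b' with ⟨-, e⟩ | ⟨-, e⟩ <;> rw [e] <;> norm_num
    have h1 : (bt b + (2 * (i : ℤ) - ((w : ℤ) - 1))) - (bt b' + (2 * (i' : ℤ) - ((w : ℤ) - 1))) ≤
        2 * w - 1 := by linarith
    have h2 := mul_le_mul_of_nonneg_left h1 (by linarith : (0 : ℤ) ≤ p)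
    nlinarith
  · have hp4 : p = 2 := le_antisymm hp2 hp
    subst hp4
    rw [hb rfl, hb' rfl]
    show ((2 : ℕ) : ℤ) * (0 + (2 * (i : ℤ) - ((w : ℤ) - 1))) + ε -
      (((2 : ℕ) : ℤ) * (0 + (2 * (i' : ℤ) - ((w : ℤ) - 1))) + ε') < 2 * (((2 : ℕ) : ℤ) * w)
    push_cast
    linarith

section fil

variable (hF : FilOk U σ Fil)

include hF

theorem ph_mem (e : ℚ) (W s : ℤ) : ph U W s ∈ Fil e 0 :=
  (Fil e 0).sub_mem (hF.unit e _ _) (hF.unit e _ _)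

/-- Terms with `m = 0`. -/
theorem tt_zero (e : ℚ) (y : k) (p : ℕ) (Q : ℤ) (w : ℕ) (s : ℤ) :
    cst y * Tt U p Q w 0 s ∈ Fil e 0 := by
  have h1 : cst y * Tt U p Q w 0 s =
      (cst (y * U ((Q : ℚ) * (s : ℚ) ^ 2 / (2 * p))) * xe (Q * w * s)) * ph U (p * w) s := by
    unfold Tt
    rw [map_mul, Nat.cast_zero, sub_zero, zpow_one]
    ring
  rw [h1]
  exact hF.mul e 0 0 _ _ (hF.unit e _ _) (ph_mem hF e _ _)

theorem tt_eq (y : k) (p : ℕ) (Q : ℤ) (w m : ℕ) (s : ℤ) (hm : 1 ≤ m) :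
    cst y * Tt U p Q w m s =
      (cst (y * U ((Q : ℚ) * (s : ℚ) ^ 2 / (2 * p))) * xe (Q * w * s)) *
        ph U (p * w) s ^ (-((m - 1 : ℕ) : ℤ)) := by
  unfold Tt
  rw [map_mul, Nat.cast_sub hm, Nat.cast_one, neg_sub]
  ring

/-- Terms with `m ≥ 1`: the pole order is at most `m - 1`. -/
theorem tt_one (e : ℚ) (y : k) (p : ℕ) (Q : ℤ) (w m : ℕ) (s : ℤ) (hm : 1 ≤ m)
    (hW : (p : ℤ) * w ≠ 0) : cst y * Tt U p Q w m s ∈ Fil e ((m - 1 : ℕ) : ℤ) := by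
  rw [tt_eq hF y p Q w m s hm]
  have h1 := hF.mul e 0 ((m - 1 : ℕ) : ℤ) _ _ (hF.unit e (y * U ((Q : ℚ) * (s : ℚ) ^ 2 / (2 * p)))
    (Q * w * s)) (hF.ph1 e (p * w) s (m - 1) hW)
  rwa [zero_add] at h1

/-- Terms with `m ≥ 1` have no pole outside `e = - s / (p w)`. -/
theorem tt_off (e : ℚ) (y : k) (p : ℕ) (Q : ℤ) (w m : ℕ) (s : ℤ) (hm : 1 ≤ m)
    (hW : (p : ℤ) * w ≠ 0) (he : e * ((p : ℤ) * w : ℤ) + s ≠ 0) :
    cst y * Tt U p Q w m s ∈ Fil e 0 := by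
  rw [tt_eq hF y p Q w m s hm]
  exact hF.mul e 0 0 _ _ (hF.unit e _ _) (hF.ph0 e (p * w) s (m - 1) hW he)

/-- Terms with `m ≥ 2` have a pole of order `m - 1` at `e = - s / (p w)`. -/
theorem tt_on (hU : UOk U) (e : ℚ) (y : k) (hy : y ≠ 0) (p : ℕ) (Q : ℤ) (w m : ℕ) (s : ℤ)
    (hm : 2 ≤ m) (hW : (p : ℤ) * w ≠ 0) (he : e * ((p : ℤ) * w : ℤ) + s = 0) :
    cst y * Tt U p Q w m s ∉ Fil e ((m : ℤ) - 2) := by
  rw [tt_eq hF y p Q w m s (by omega)]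
  have h1 := hF.phn e (p * w) s (m - 1) (y * U ((Q : ℚ) * (s : ℚ) ^ 2 / (2 * p))) (Q * w * s)
    hW he (by omega) (mul_ne_zero hy (U_ne hU _))
  have h2 : ((m - 1 : ℕ) : ℤ) - 1 = (m : ℤ) - 2 := by omega
  rwa [h2] at h1

end fil

theorem at_ext {a b : At} (h1 : a.p = b.p) (h2 : a.Q = b.Q) (h3 : a.w = b.w) (h4 : a.b = b.b)
    (h5 : a.m = b.m) : a = b := by
  cases a
  cases b
  simp only [At.mk.injEq]
  exact ⟨h1, h2, h3, h4, h5⟩

theorem Rf_eq (y : k) (a : At) : cst y * Rf U a = ∑ i ∈ Finset.range a.w,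
    (cst y * Tt U a.p a.Q a.w a.m (sv a.p a.w a.b i 1) -
      cst y * Tt U a.p a.Q a.w a.m (sv a.p a.w a.b i (-1))) := by
  unfold Rf
  rw [Finset.mul_sum]
  refine Finset.sum_congr rfl fun i _ => ?_
  rw [mul_sub]
  rfl

end BI2

open BI2 in
theorem bi2 (h : BASE_Stmt) (h1 : VAL_Stmt) (h2 : POLE_Stmt) : BI2_Stmt := by
  classical
  intro k _ _ U σ hU hσ c l r a0 hm0 hok hL ha0 hle hsame
  obtain ⟨Fil, hF⟩ := h1 k U σ hU hσ
  set m := a0.m with hmdef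
  have hp0 : 2 ≤ a0.p := (hok a0 ha0).hp
  have hw0 : 1 ≤ a0.w := (hok a0 ha0).hw
  have hpZ : (0 : ℤ) < a0.p := by exact_mod_cast (by omega : 0 < a0.p)
  have hwZ : (0 : ℤ) < a0.w := by exact_mod_cast hw0
  have hW0 : (0 : ℤ) < (a0.p : ℤ) * a0.w := mul_pos hpZ hwZ
  have hn : (0 : ℤ) ≤ (m : ℤ) - 2 := by omega
  -- atoms with smaller `m`
  have hsmall : ∀ e : ℚ, ∀ a ∈ l.support, a.m < m → ∀ y : k, cst y * Rf U a ∈ Fil e ((m : ℤ) - 2) := by
    intro e a ha hlt y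
    rw [Rf_eq]
    have hWa : (a.p : ℤ) * a.w ≠ 0 := by
      have e1 := (hok a ha).hp
      have e2 := (hok a ha).hw
      have e3 : (0 : ℤ) < a.p := by exact_mod_cast (by omega : 0 < a.p)
      have e4 : (0 : ℤ) < a.w := by exact_mod_cast e2
      exact (mul_pos e3 e4).ne'
    have key : ∀ s : ℤ, cst y * Tt U a.p a.Q a.w a.m s ∈ Fil e ((m : ℤ) - 2) := by
      intro s
      rcases Nat.eq_zero_or_pos a.m with h0 | hpos
      · rw [h0]
        exact hF.mono e 0 _ hn (tt_zero hF e y _ _ _ _)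
      · refine hF.mono e _ _ ?_ (tt_one hF e y _ _ _ _ s hpos hWa)
        omega
    exact AddSubgroup.sum_mem _ fun i _ => AddSubgroup.sub_mem _ (key _) (key _)
  -- the terms of the atoms with `a.m = m`
  have hoff : ∀ e : ℚ, ∀ a ∈ l.support, a.m = m → ∀ (y : k) (s : ℤ),
      e * ((a0.p : ℤ) * a0.w : ℤ) + s ≠ 0 →
        cst y * Tt U a.p a.Q a.w a.m s ∈ Fil e ((m : ℤ) - 2) := by
    intro e a ha ham y s hs
    obtain ⟨e1, e2, e3⟩ := hsame a ha (by omega)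
    rw [e1, e3, ham]
    exact hF.mono e 0 _ hn (tt_off hF e y _ _ _ _ s (by omega) hW0.ne' hs)
  -- the total
  set R : KX k := l.sum (fun a y => cst y * Rf U a) with hR
  have hout : ∀ e : ℚ, R ∉ Fil e ((m : ℤ) - 2) → ∃ (b : Bool) (i : ℕ) (ε : ℤ),
      (a0.p = 2 → b = false) ∧ i < a0.w ∧ (ε = 1 ∨ ε = -1) ∧
        e * ((a0.p : ℤ) * a0.w : ℤ) + sv a0.p a0.w b i ε = 0 := by
    intro e he
    by_contra hno
    push Not at hno
    apply he
    rw [hR]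
    refine AddSubgroup.sum_mem _ fun a ha => ?_
    rcases lt_or_eq_of_le (hle a ha) with hlt | heq
    · exact hsmall e a ha hlt _
    · show cst (l a) * Rf U a ∈ _
      rw [Rf_eq]
      obtain ⟨e1, e2, e3⟩ := hsame a ha (by omega)
      have hba : a0.p = 2 → a.b = false := fun h => (hok a ha).hb (by rw [e1]; exact h)
      refine AddSubgroup.sum_mem _ fun i hi => AddSubgroup.sub_mem _ ?_ ?_
      · refine hoff e a ha heq _ _ ?_
        rw [e1, e3]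
        exact hno a.b i 1 hba (by rw [← e3]; exact Finset.mem_range.1 hi) (Or.inl rfl)
      · refine hoff e a ha heq _ _ ?_
        rw [e1, e3]
        exact hno a.b i (-1) hba (by rw [← e3]; exact Finset.mem_range.1 hi) (Or.inr rfl)
  -- a pole
  have hpole : ∃ e : ℚ, R ∉ Fil e ((m : ℤ) - 2) := by
    set s0 := sv a0.p a0.w a0.b 0 1 with hs0
    have hWQ : (((a0.p : ℤ) * a0.w : ℤ) : ℚ) ≠ 0 := by exact_mod_cast hW0.ne'
    refine ⟨-(s0 : ℚ) / (((a0.p : ℤ) * a0.w : ℤ) : ℚ), ?_⟩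
    set e : ℚ := -(s0 : ℚ) / (((a0.p : ℤ) * a0.w : ℤ) : ℚ) with he
    have hes : e * ((a0.p : ℤ) * a0.w : ℤ) = -(s0 : ℚ) := by
      rw [he]
      exact div_mul_cancel₀ _ hWQ
    have hb0 : a0.p = 2 → a0.b = false := (hok a0 ha0).hb
    have hne : ∀ (b : Bool) (i : ℕ) (ε : ℤ), (a0.p = 2 → b = false) → (ε = 1 ∨ ε = -1) →
        ¬(b = a0.b ∧ i = 0 ∧ ε = 1) → e * ((a0.p : ℤ) * a0.w : ℤ) + sv a0.p a0.w b i ε ≠ 0 := by
      intro b i ε hb hε hno h0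
      rw [hes] at h0
      have h3 : sv a0.p a0.w b i ε = s0 := by
        have : ((sv a0.p a0.w b i ε : ℤ) : ℚ) = (s0 : ℚ) := by linarith
        exact_mod_cast this
      exact hno (sv_inj hp0 hb hb0 hε (Or.inl rfl) h3)
    have hy0 : l a0 ≠ 0 := Finsupp.mem_support_iff.1 ha0
    have hon : cst (l a0) * Tt U a0.p a0.Q a0.w a0.m s0 ∉ Fil e ((m : ℤ) - 2) :=
      tt_on hF hU e _ hy0 _ _ _ _ _ hm0 hW0.ne' (by rw [hes]; ring)
    intro hRin
    apply hon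
    -- the rest
    have h3 : R = (cst (l a0) * Rf U a0) +
        ∑ a ∈ l.support.erase a0, cst (l a) * Rf U a := by
      rw [hR]
      exact (Finset.add_sum_erase l.support (fun a => cst (l a) * Rf U a) ha0).symm
    have h4 : ∑ a ∈ l.support.erase a0, cst (l a) * Rf U a ∈ Fil e ((m : ℤ) - 2) := by
      refine AddSubgroup.sum_mem _ fun a ha => ?_
      obtain ⟨hne0, ha⟩ := Finset.mem_erase.1 ha
      rcases lt_or_eq_of_le (hle a ha) with hlt | heq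
      · exact hsmall e a ha hlt _
      · rw [Rf_eq]
        obtain ⟨e1, e2, e3⟩ := hsame a ha (by omega)
        have hba : a0.p = 2 → a.b = false := fun h => (hok a ha).hb (by rw [e1]; exact h)
        have hbne : a.b ≠ a0.b := by
          intro hbb
          exact hne0 (at_ext e1 e2 e3 hbb heq)
        refine AddSubgroup.sum_mem _ fun i hi => AddSubgroup.sub_mem _ ?_ ?_
        · refine hoff e a ha heq _ _ ?_
          rw [e1, e3]
          exact hne a.b i 1 hba (Or.inl rfl) fun h => hbne h.1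
        · refine hoff e a ha heq _ _ ?_
          rw [e1, e3]
          exact hne a.b i (-1) hba (Or.inr rfl) fun h => hbne h.1
    have h5 : cst (l a0) * Rf U a0 ∈ Fil e ((m : ℤ) - 2) := by
      have h6 := AddSubgroup.sub_mem _ hRin h4
      rwa [h3, add_sub_cancel_right] at h6
    rw [Rf_eq, ← Finset.add_sum_erase _ _ (Finset.mem_range.2 hw0 : 0 ∈ Finset.range a0.w)] at h5
    have h7 : ∑ i ∈ (Finset.range a0.w).erase 0,
        (cst (l a0) * Tt U a0.p a0.Q a0.w a0.m (sv a0.p a0.w a0.b i 1) -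
          cst (l a0) * Tt U a0.p a0.Q a0.w a0.m (sv a0.p a0.w a0.b i (-1))) ∈
        Fil e ((m : ℤ) - 2) := by
      refine AddSubgroup.sum_mem _ fun i hi => AddSubgroup.sub_mem _ ?_ ?_
      · exact hoff e a0 ha0 rfl _ _ (hne a0.b i 1 hb0 (Or.inl rfl)
          fun h => (Finset.mem_erase.1 hi).1 h.2.1)
      · exact hoff e a0 ha0 rfl _ _ (hne a0.b i (-1) hb0 (Or.inr rfl)
          fun h => (Finset.mem_erase.1 hi).1 h.2.1)
    have h8 : cst (l a0) * Tt U a0.p a0.Q a0.w a0.m (sv a0.p a0.w a0.b 0 (-1)) ∈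
        Fil e ((m : ℤ) - 2) :=
      hoff e a0 ha0 rfl _ _ (hne a0.b 0 (-1) hb0 (Or.inr rfl) fun h => by
        have := h.2.2
        omega)
    have h9 := AddSubgroup.add_mem _ (AddSubgroup.sub_mem _ h5 h7) h8
    rw [add_sub_cancel_right, sub_add_cancel] at h9
    exact h9
  obtain ⟨e, he⟩ := hpole
  rw [← hL] at he hout
  obtain ⟨e1, e2, h12, g1, g2⟩ := h2 k U σ hU hσ Fil hF c r ((m : ℤ) - 2) e hn he
  obtain ⟨b1, i1, ε1, q1, q2, q3, q4⟩ := hout e1 g1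
  obtain ⟨b2, i2, ε2, t1, t2, t3, t4⟩ := hout e2 g2
  have hd := sv_diff hp0 q1 t1 q2 t2 q3 t3
  have hd' : ((sv a0.p a0.w b1 i1 ε1 - sv a0.p a0.w b2 i2 ε2 : ℤ) : ℚ) <
      ((2 * ((a0.p : ℤ) * a0.w) : ℤ) : ℚ) := by exact_mod_cast hd
  have hWq : (0 : ℚ) < (((a0.p : ℤ) * a0.w : ℤ) : ℚ) := by exact_mod_cast hW0
  push_cast at hd' q4 t4 hWq
  nlinarith

end Pool.Agent.GK
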