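import Pool.Agent.GK.TStmts

/-!
CINV: a connected sum does not change when the first summand, a knot, is conjugated.
-/

namespace Pool.Agent.GK

open Pool.Agent.LibH11 Pool.Agent.IT

namespace CINV

/-- the inclusion of the braid groups -/
noncomputable def inc {n : ℕ} : (m : ℕ) → Br n →* Br (n + m)
  | 0 => MonoidHom.id _
  | m + 1 => (incl (n := n + m)).comp (inc m)

theorem inc_ev {n : ℕ} (m : ℕ) {w : Word} (h : Bd n w) : inc m (ev n w) = ev (n + m) w := by
  induction m with
  | zero => rfl
  | succ m ih =>
    show incl (inc m (ev n w)) = _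
    rw [ih, incl_ev (h.mono (by omega))]
    rfl

/-- Markov equivalence after multiplication by a fixed braid -/
def E {n m : ℕ} (V : Br (n + m)) (g h : Br n) : Prop :=
  Relation.EqvGen MarkovMove ⟨n + m, inc m g * V⟩ ⟨n + m, inc m h * V⟩

theorem E.trans {n m : ℕ} {V : Br (n + m)} {g h k : Br n} (h1 : E V g h) (h2 : E V h k) :
    E V g k := Relation.EqvGen.trans _ _ _ h1 h2

theorem E.symm {n m : ℕ} {V : Br (n + m)} {g h : Br n} (h1 : E V g h) : E V h g :=
  Relation.EqvGen.symm _ _ h1

theorem E.refl {n m : ℕ} (V : Br (n + m)) (g : Br n) : E V g g := Relation.EqvGen.refl _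

theorem E_of_word {n m : ℕ} {U u w : Word} (hu : Bd n u) (hw : Bd n w) :
    E (n := n) (m := m) (ev (n + m) (shw n U)) (ev n u) (ev n w) ↔
      meq (n + m) (u ++ shw n U) (n + m) (w ++ shw n U) := by
  unfold E meq
  rw [inc_ev m hu, inc_ev m hw, ev_append, ev_append]

/-- the braids that can be moved around the first summand -/
def C {n m : ℕ} (V : Br (n + m)) : Subgroup (Br n) where
  carrier := {c | perm c (Fin.last n) = Fin.last n ∧ ∀ g, E V (g * c) (c * g)}
  one_mem' := by
    refine ⟨by rw [map_one]; rfl, fun g => ?_⟩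
    rw [mul_one, one_mul]
    exact E.refl _ _
  mul_mem' := by
    rintro a b ⟨ha, ha'⟩ ⟨hb, hb'⟩
    refine ⟨by rw [map_mul, Equiv.Perm.mul_apply, hb, ha], fun g => ?_⟩
    have h1 := hb' (g * a)
    have h2 := ha' (b * g)
    have e1 : g * (a * b) = g * a * b := by group
    have e2 : b * g * a = b * (g * a) := by group
    have e3 : a * b * g = a * (b * g) := by group
    rw [e1, e3]
    rw [e2] at h2
    exact h1.trans h2
  inv_mem' := by
    rintro a ⟨ha, ha'⟩
    refine ⟨by rw [map_inv, Equiv.Perm.inv_eq_iff_eq, ha], fun g => ?_⟩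
    have h1 := ha' (a⁻¹ * g * a⁻¹)
    have e1 : a⁻¹ * g * a⁻¹ * a = a⁻¹ * g := by group
    have e2 : a * (a⁻¹ * g * a⁻¹) = g * a⁻¹ := by group
    rw [e1, e2] at h1
    exact h1.symm

theorem mem_C {n m : ℕ} {V : Br (n + m)} {c : Br n} :
    c ∈ C V ↔ perm c (Fin.last n) = Fin.last n ∧ ∀ g, E V (g * c) (c * g) := Iff.rfl

/-- letters far away from the last strand -/
theorem far_mem {n m : ℕ} (U : Word) (i : ℕ) (hi : i + 1 < n) :
    gen n (i, true) ∈ C (n := n) (m := m) (ev (n + m) (shw n U)) := by
  rw [mem_C]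
  constructor
  · rw [gen_true (by omega : i < n), perm_sg]
    apply Equiv.swap_apply_of_ne_of_ne
    · rw [Fin.ne_iff_vne]
      simp
      omega
    · rw [Fin.ne_iff_vne]
      simp
      omega
  · intro g
    obtain ⟨u, hu, rfl⟩ := exists_word g
    have hs : Bd n [(i, true)] := by
      intro x hx
      rw [List.mem_singleton] at hx
      rw [hx]
      simp only
      omega
    rw [← ev_single n (i, true), ← ev_append, ← ev_append, E_of_word (hu.append hs) (hs.append hu)]
    have hc : Commute (ev (n + m) [(i, true)]) (ev (n + m) (shw n U)) := by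
      refine ev_far _ _ _ fun x hx y hy => ?_
      rw [List.mem_singleton] at hx
      subst hx
      obtain ⟨z, _, rfl⟩ := List.mem_map.mp hy
      left
      simp only
      omega
    have h1 : meq (n + m) (u ++ [(i, true)] ++ shw n U) (n + m) (u ++ shw n U ++ [(i, true)]) := by
      apply meq_of_ev
      rw [ev_append, ev_append, ev_append, ev_append, mul_assoc, hc.eq, mul_assoc]
    have h2 := meq_conj (n + m) (u ++ shw n U) [(i, true)]
    rw [List.append_assoc [(i, true)] u]
    exact h1.trans h2

/-- the square of the last letter -/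
theorem sq_mem (h : DAG_Stmt) {n m : ℕ} (U : Word) (hU : Bd m U) (hn : 1 ≤ n) :
    gen n (n - 1, true) * gen n (n - 1, true) ∈
      C (n := n) (m := m) (ev (n + m) (shw n U)) := by
  rw [mem_C]
  constructor
  · rw [gen_true (by omega : n - 1 < n), map_mul, perm_sg, Equiv.swap_mul_self]
    rfl
  · intro g
    obtain ⟨u, hu, rfl⟩ := exists_word g
    have hs : Bd n [(n - 1, true), (n - 1, true)] := by
      intro x hx
      have hx' : x = (n - 1, true) := by simpa using hx
      rw [hx']
      simp only
      omega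
    have e1 : gen n (n - 1, true) * gen n (n - 1, true) = ev n [(n - 1, true), (n - 1, true)] := by
      rw [ev_cons, ev_single]
    rw [e1, ← ev_append, ← ev_append, E_of_word (hu.append hs) (hs.append hu)]
    have h1 := h n m u U hn hu hU
    have h2 := meq_conj (n + m) (u ++ shw n U) [(n - 1, true), (n - 1, true)]
    rw [List.append_assoc _ u]
    exact h1.trans h2

/-- the rows `σ_(n-1) ⋯ σ_(n-k)` -/
noncomputable def T (n : ℕ) : ℕ → Br n
  | 0 => 1
  | k + 1 => T n k * gen n (n - 1 - k, true)

theorem T_far (n k : ℕ) (i : ℕ) (hi : i + k + 1 < n) (e : Bool) :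
    Commute (T n k) (gen n (i, e)) := by
  induction k with
  | zero => exact Commute.one_left _
  | succ k ih =>
    refine Commute.mul_left (ih (by omega)) (gen_far n ?_ true e)
    omega

theorem T_shift (n : ℕ) : ∀ k : ℕ, k ≤ n → ∀ i : ℕ, n < i + k → i < n →
    T n k * gen n (i, true) = gen n (i - 1, true) * T n k := by
  intro k
  induction k with
  | zero => intro _ i h1 h2; omega
  | succ k ih =>
    intro hk i h1 h2
    by_cases hi : n < i + k
    · have hc : Commute (gen n (n - 1 - k, true)) (gen n (i, true)) :=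
        gen_far n (by omega) true true
      show T n k * gen n (n - 1 - k, true) * gen n (i, true) = _ * (T n k * gen n (n - 1 - k, true))
      rw [mul_assoc, hc.eq, ← mul_assoc, ih (by omega) i hi h2, mul_assoc]
    · have hi' : i = n - k := by omega
      obtain ⟨l, rfl⟩ : ∃ l, k = l + 1 := ⟨k - 1, by omega⟩
      subst hi'
      show T n l * gen n (n - 1 - l, true) * gen n (n - 1 - (l + 1), true) *
        gen n (n - (l + 1), true) = gen n (n - (l + 1) - 1, true) *
        (T n l * gen n (n - 1 - l, true) * gen n (n - 1 - (l + 1), true))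
      have e1 : n - (l + 1) = n - 1 - l := by omega
      have e2 : n - 1 - (l + 1) = n - 1 - l - 1 := by omega
      rw [e1, e2]
      have hb := gen_braid (N := n) (i := n - 1 - l - 1) (by omega)
      have e3 : n - 1 - l - 1 + 1 = n - 1 - l := by omega
      rw [e3] at hb
      have hc := T_far n l (n - 1 - l - 1) (by omega) true
      calc T n l * gen n (n - 1 - l, true) * gen n (n - 1 - l - 1, true) *
            gen n (n - 1 - l, true)
          = T n l * (gen n (n - 1 - l, true) * gen n (n - 1 - l - 1, true) *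
            gen n (n - 1 - l, true)) := by group
        _ = T n l * gen n (n - 1 - l - 1, true) *
            (gen n (n - 1 - l, true) * gen n (n - 1 - l - 1, true)) := by rw [← hb]; group
        _ = _ := by rw [hc.eq]; group

theorem A_mem (h : DAG_Stmt) {n m : ℕ} (U : Word) (hU : Bd m U) :
    ∀ k : ℕ, k < n → T n k * (gen n (n - 1 - k, true) * gen n (n - 1 - k, true)) * (T n k)⁻¹ ∈
      C (n := n) (m := m) (ev (n + m) (shw n U)) := by
  intro k
  induction k with
  | zero =>
    intro hk
    have := sq_mem h (n := n) (m := m) U hU (by omega)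
    show 1 * _ * 1⁻¹ ∈ _
    rw [inv_one, mul_one, one_mul]
    exact this
  | succ k ih =>
    intro hk
    have h1 := ih (by omega)
    have ha := far_mem (n := n) (m := m) U (n - 1 - (k + 1)) (by omega)
    have hb := gen_braid (N := n) (i := n - 1 - (k + 1)) (by omega)
    have e3 : n - 1 - (k + 1) + 1 = n - 1 - k := by omega
    rw [e3] at hb
    have hc := T_far n k (n - 1 - (k + 1)) (by omega) true
    have h2 := Subgroup.mul_mem _ (Subgroup.mul_mem _ (Subgroup.inv_mem _ ha) h1) ha
    have e4 : T n (k + 1) * (gen n (n - 1 - (k + 1), true) * gen n (n - 1 - (k + 1), true)) *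
        (T n (k + 1))⁻¹ = (gen n (n - 1 - (k + 1), true))⁻¹ *
        (T n k * (gen n (n - 1 - k, true) * gen n (n - 1 - k, true)) * (T n k)⁻¹) *
        gen n (n - 1 - (k + 1), true) := by
      show T n k * gen n (n - 1 - k, true) *
        (gen n (n - 1 - (k + 1), true) * gen n (n - 1 - (k + 1), true)) *
        (T n k * gen n (n - 1 - k, true))⁻¹ = _
      generalize gen n (n - 1 - (k + 1), true) = a at *
      generalize gen n (n - 1 - k, true) = b at *
      generalize T n k = t at *
      have h3 : b * (a * a) * b⁻¹ = a⁻¹ * (b * b) * a := by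
        have : a * (b * (a * a) * b⁻¹) = b * b * a := by
          calc a * (b * (a * a) * b⁻¹) = (a * b * a) * a * b⁻¹ := by group
            _ = (b * a * b) * a * b⁻¹ := by rw [hb]
            _ = b * (a * b * a) * b⁻¹ := by group
            _ = b * (b * a * b) * b⁻¹ := by rw [hb]
            _ = b * b * a := by group
        calc b * (a * a) * b⁻¹ = a⁻¹ * (a * (b * (a * a) * b⁻¹)) := by group
          _ = _ := by rw [this]; group
      have hc' : t * a⁻¹ = a⁻¹ * t := (hc.inv_right).eq
      have hc'' : a * t⁻¹ = t⁻¹ * a := (hc.symm.inv_right).eq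
      calc t * b * (a * a) * (t * b)⁻¹ = t * (b * (a * a) * b⁻¹) * t⁻¹ := by group
        _ = (t * a⁻¹) * (b * b) * (a * t⁻¹) := by rw [h3]; group
        _ = _ := by rw [hc', hc'']; group
    rw [e4]
    exact h2

/-- right multiplication of the coset representatives -/
theorem coset_step (h : DAG_Stmt) {n m : ℕ} (U : Word) (hU : Bd m U) (k : ℕ) (hk : k ≤ n)
    (i : ℕ) (hi : i < n) (e : Bool) :
    ∃ c ∈ C (n := n) (m := m) (ev (n + m) (shw n U)), ∃ l ≤ n,
      T n k * gen n (i, e) = c * T n l := by
  rcases lt_trichotomy (i + k + 1) n with hlt | heq | hgt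
  · have ha := far_mem (n := n) (m := m) U i (by omega)
    refine ⟨gen n (i, e), ?_, k, hk, (T_far n k i hlt e).eq⟩
    cases e
    · rw [gen_false]
      exact Subgroup.inv_mem _ ha
    · exact ha
  · have hi' : i = n - 1 - k := by omega
    cases e
    · refine ⟨(T n k * (gen n (n - 1 - k, true) * gen n (n - 1 - k, true)) * (T n k)⁻¹)⁻¹,
        Subgroup.inv_mem _ (A_mem h U hU k (by omega)), k + 1, by omega, ?_⟩
      show _ = _ * (T n k * gen n (n - 1 - k, true))
      rw [gen_false, hi']
      group
    · refine ⟨1, Subgroup.one_mem _, k + 1, by omega, ?_⟩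
      rw [one_mul, hi']
      rfl
  · by_cases hik : n < i + k
    · have ha := far_mem (n := n) (m := m) U (i - 1) (by omega)
      have hs := T_shift n k hk i hik hi
      cases e
      · refine ⟨(gen n (i - 1, true))⁻¹, Subgroup.inv_mem _ ha, k, hk, ?_⟩
        rw [gen_false]
        have : gen n (i - 1, true) * (T n k * (gen n (i, true))⁻¹) = T n k := by
          rw [← mul_assoc, ← hs]
          group
        calc T n k * (gen n (i, true))⁻¹
            = (gen n (i - 1, true))⁻¹ * (gen n (i - 1, true) * (T n k * (gen n (i, true))⁻¹)) := by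
              group
          _ = _ := by rw [this]
      · exact ⟨gen n (i - 1, true), ha, k, hk, hs⟩
    · obtain ⟨l, rfl⟩ : ∃ l, k = l + 1 := ⟨k - 1, by omega⟩
      have hi' : i = n - 1 - l := by omega
      cases e
      · refine ⟨1, Subgroup.one_mem _, l, by omega, ?_⟩
        show T n l * gen n (n - 1 - l, true) * _ = _
        rw [gen_false, hi']
        group
      · refine ⟨T n l * (gen n (n - 1 - l, true) * gen n (n - 1 - l, true)) * (T n l)⁻¹,
          A_mem h U hU l (by omega), l, by omega, ?_⟩
        show T n l * gen n (n - 1 - l, true) * _ = _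
        rw [hi']
        group

theorem coset (h : DAG_Stmt) {n m : ℕ} (U : Word) (hU : Bd m U) (w : Word) (hw : Bd n w) :
    ∃ c ∈ C (n := n) (m := m) (ev (n + m) (shw n U)), ∃ l ≤ n, ev n w = c * T n l := by
  induction w using List.reverseRecOn with
  | nil => exact ⟨1, Subgroup.one_mem _, 0, by omega, by simp [T]⟩
  | append_singleton w x ih =>
    obtain ⟨c, hc, l, hl, hwl⟩ := ih hw.left
    have hx : x.1 < n := hw x (by simp)
    obtain ⟨c', hc', l', hl', hh⟩ := coset_step h (m := m) U hU l hl x.1 hx x.2
    refine ⟨c * c', Subgroup.mul_mem _ hc hc', l', hl', ?_⟩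
    rw [ev_append, ev_single, hwl, mul_assoc, mul_assoc]
    congr 1

theorem perm_T (n k : ℕ) (hk : k ≤ n) :
    perm (T n k) ⟨n - k, by omega⟩ = Fin.last n := by
  induction k with
  | zero =>
    show perm (1 : Br n) _ = _
    rw [map_one]
    rfl
  | succ k ih =>
    have h1 := ih (by omega)
    show perm (T n k * gen n (n - 1 - k, true)) _ = _
    rw [map_mul, Equiv.Perm.mul_apply, gen_true (by omega : n - 1 - k < n), perm_sg]
    have e1 : (⟨n - (k + 1), by omega⟩ : Fin (n + 1)) =
        (⟨n - 1 - k, by omega⟩ : Fin n).castSucc := by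
      apply Fin.ext
      simp
      omega
    rw [e1, Equiv.swap_apply_left]
    have e2 : (⟨n - 1 - k, by omega⟩ : Fin n).succ = ⟨n - k, by omega⟩ := by
      apply Fin.ext
      simp
      omega
    rw [e2, h1]

/-- braids that fix the last strand can be moved around -/
theorem fix_mem (h : DAG_Stmt) {n m : ℕ} (U : Word) (hU : Bd m U) (b : Br n)
    (hb : perm b (Fin.last n) = Fin.last n) :
    b ∈ C (n := n) (m := m) (ev (n + m) (shw n U)) := by
  obtain ⟨w, hw, rfl⟩ := exists_word b
  obtain ⟨c, hc, l, hl, hwl⟩ := coset h (m := m) U hU w hw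
  have h1 : perm (ev n w) ⟨n - l, by omega⟩ = Fin.last n := by
    rw [hwl, map_mul, Equiv.Perm.mul_apply, perm_T n l hl, hc.1]
  have h2 : (⟨n - l, by omega⟩ : Fin (n + 1)) = Fin.last n :=
    (perm (ev n w)).injective (h1.trans hb.symm)
  have h3 : n - l = n := congrArg Fin.val h2
  have h4 : l = 0 := by omega
  subst h4
  rw [hwl]
  show c * 1 ∈ _
  rw [mul_one]
  exact hc

theorem main (h : DAG_Stmt) {n m : ℕ} (U : Word) (hU : Bd m U) (c y : Br n) (hy : IsKnot y) :
    E (n := n) (m := m) (ev (n + m) (shw n U)) (c * y * c⁻¹) y := by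
  obtain ⟨k, hk⟩ := (hy (Fin.last n) ((perm c)⁻¹ (Fin.last n))).exists_nat_pow_eq
  have h1 : perm (c * y ^ k) (Fin.last n) = Fin.last n := by
    rw [map_mul, map_pow, Equiv.Perm.mul_apply, hk]
    simp
  have h2 := (fix_mem h (m := m) U hU _ h1).2 (y * (c * y ^ k)⁻¹)
  have e1 : y * (c * y ^ k)⁻¹ * (c * y ^ k) = y := by group
  have e2 : c * y ^ k * (y * (c * y ^ k)⁻¹) = c * y * c⁻¹ := by
    have : y ^ k * y = y * y ^ k := (pow_succ y k).symm.trans (pow_succ' y k)
    calc c * y ^ k * (y * (c * y ^ k)⁻¹) = c * (y ^ k * y) * (y ^ k)⁻¹ * c⁻¹ := by group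
      _ = _ := by rw [this]; group
  rw [e1, e2] at h2
  exact h2.symm

end CINV

theorem cinv (hr : ROW_Stmt) (h : DAG_Stmt) : CINV_Stmt := by
  have _ := hr
  intro n m c y U hc hy hU hk
  have h1 := CINV.main h (m := m) U hU (ev n c) (ev n y) hk
  rw [← ev_iw, ← ev_append, ← ev_append,
    CINV.E_of_word ((hc.append hy).append (bd_iw.mpr hc)) hy] at h1
  exact h1

end Pool.Agent.GK
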