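import Pool.Agent.GK.AStmts

/-!
# Graph knots, module COEF: the coefficients of a relation after `L_c`
-/

namespace Pool.Agent.GK

open scoped BigOperators

namespace COEF

variable (C : Ctx)

/-- the linear map from formal sums of monomials -/
noncomputable def Phi : (Multiset (Gen C.t) →₀ KX C.k) →ₗ[KX C.k] C.L :=
  Finsupp.linearCombination (KX C.k) C.mono

theorem phi_apply (a : Multiset (Gen C.t) →₀ KX C.k) :
    Phi C a = a.sum fun M r => C.al r * C.mono M := by
  unfold Phi
  rw [Finsupp.linearCombination_apply]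
  refine Finsupp.sum_congr fun M _ => ?_
  rw [Algebra.smul_def]
  rfl

theorem phi_single (M : Multiset (Gen C.t)) (r : KX C.k) :
    Phi C (Finsupp.single M r) = C.al r * C.mono M := by
  unfold Phi
  rw [Finsupp.linearCombination_single, Algebra.smul_def]
  rfl

theorem mem_V {n : ℕ} {x : C.L} :
    x ∈ C.V n ↔ ∃ a : Multiset (Gen C.t) →₀ KX C.k, (∀ M ∈ a.support, lv M < n) ∧
      Phi C a = x := by
  unfold Ctx.V Phi
  rw [Finsupp.mem_span_image_iff_linearCombination]
  constructor
  · rintro ⟨l, hl, h⟩
    exact ⟨l, fun M hM => hl hM, h⟩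
  · rintro ⟨l, hl, h⟩
    exact ⟨l, fun M hM => hl M hM, h⟩

theorem al_mul_mem {n : ℕ} (r : KX C.k) {x : C.L} (h : x ∈ C.V n) : C.al r * x ∈ C.V n := by
  have h1 := (C.V n).smul_mem r h
  rw [Algebra.smul_def] at h1
  exact h1

theorem sg_al (r : KX C.k) : C.sg (C.al r) = C.al (C.s0 r) := C.alg r

theorem sgs_al (r : KX C.k) : C.sg.symm (C.al r) = C.al (C.s0.symm r) := by
  have h := C.alg (C.s0.symm r)
  rw [RingEquiv.apply_symm_apply] at h
  rw [RingEquiv.symm_apply_eq]
  exact h.symm

theorem s0s_cst (y : C.k) : C.s0.symm (cst y) = cst y := by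
  rw [RingEquiv.symm_apply_eq, C.hs0.cst]

/-- the operator `x ^ c σ - x ^ (-c) σ⁻¹` on the big field -/
noncomputable def Lam' (c : ℤ) : C.L →+ C.L where
  toFun z := C.al (xe c) * C.sg z - C.al (xe (-c)) * C.sg.symm z
  map_zero' := by simp
  map_add' x y := by
    simp only [map_add]
    ring

theorem lam_al (c : ℤ) (r : KX C.k) (z : C.L) :
    Lam' C c (C.al r * z) = C.al (xe c * C.s0 r) * C.sg z -
      C.al (xe (-c) * C.s0.symm r) * C.sg.symm z := by
  change C.al (xe c) * C.sg (C.al r * z) - C.al (xe (-c)) * C.sg.symm (C.al r * z) = _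
  rw [map_mul, map_mul, sg_al, sgs_al, map_mul, map_mul]
  ring

theorem lam_cst (c : ℤ) (y : C.k) (z : C.L) :
    Lam' C c (C.al (cst y) * z) = C.al (cst y) * Lam' C c z := by
  rw [lam_al, C.hs0.cst, s0s_cst, map_mul, map_mul]
  change _ = C.al (cst y) * (C.al (xe c) * C.sg z - C.al (xe (-c)) * C.sg.symm z)
  ring

end COEF

open COEF in
theorem coef (h : BASE_Stmt) (h1 : VMUL_Stmt) (h2 : SQA_Stmt) (h3 : EXPN_Stmt)
    (h4 : SHP_Stmt) : COEF_Stmt := by
  intro C n hn hInd c κ hκ hy
  classical
  choose ν hν0 hν using h3 C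
  refine ⟨ν, hν0, ?_⟩
  obtain ⟨hxe, -⟩ := h C.k
  obtain ⟨hsh1, hsh2, -, -, hrm, -⟩ := h4 C.ι C.t
  choose ε hε hεm using (h2 C).2.2
  have hshM : ∀ M : Multiset (Gen C.t), (M.map shp).map shp = M := by
    intro M
    rw [Multiset.map_map]
    conv_rhs => rw [← Multiset.map_id M]
    exact Multiset.map_congr rfl fun g _ => hsh1 g
  have hVm : ∀ {m m' : ℕ} {x : C.L}, m ≤ m' → x ∈ C.V m → x ∈ C.V m' := by
    intro m m' x hmm hx
    exact (h1 C m m' x x).1 hmm hx
  obtain ⟨b, hb, hby⟩ := (mem_V C).1 hy
  -- the formal sums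
  set A : Multiset (Gen C.t) →₀ KX C.k := κ.sum fun M y =>
    (M.map fun g => Finsupp.single (rmv M g) (cst (ν M g * y) * Rf C.U (atg g))).sum with hA
  let q : Multiset (Gen C.t) → KX C.k → KX C.k := fun N r =>
    (ε N : KX C.k) * cst (C.U (-((cs N : ℚ) / 2))) * r
  set B : Multiset (Gen C.t) →₀ KX C.k := b.sum fun N r =>
    if lv N + 1 = n then Finsupp.single (N.map shp) (Lc C.s0 (c - cs N) (q N r)) else 0 with hB
  set z : C.L := κ.sum (fun M y => C.al (cst y) * C.mono M) with hz
  -- step 2
  have hstep2 : Phi C A - Lam' C c z ∈ C.V (n - 1) := by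
    have e1 : Phi C A = κ.sum fun M y =>
        C.al (cst y) * (M.map fun g => C.al (cst (ν M g) * Rf C.U (atg g)) *
          C.mono (rmv M g)).sum := by
      rw [hA, map_finsuppSum]
      refine Finsupp.sum_congr fun M _ => ?_
      rw [map_multiset_sum, Multiset.map_map, ← Multiset.sum_map_mul_left]
      refine congrArg _ (Multiset.map_congr rfl fun g _ => ?_)
      simp only [Function.comp]
      rw [phi_single, map_mul cst, map_mul C.al, map_mul C.al, map_mul C.al]
      ring
    have e2 : Lam' C c z = κ.sum fun M y => C.al (cst y) * Lam' C c (C.mono M) := by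
      rw [hz, map_finsuppSum]
      exact Finsupp.sum_congr fun M _ => lam_cst C c _ _
    rw [e1, e2, Finsupp.sum, Finsupp.sum, ← Finset.sum_sub_distrib]
    refine Submodule.sum_mem _ fun M hM => ?_
    rw [← mul_sub]
    refine al_mul_mem C _ ?_
    obtain ⟨hM1, hM2⟩ := hκ M hM
    have h5 := hν M
    rw [hM1, hM2] at h5
    have h6 := (C.V (n - 1)).neg_mem h5
    rw [neg_sub] at h6
    exact h6
  -- step 3
  have hstep3 : Phi C B - Lam' C c z ∈ C.V (n - 1) := by
    have e1 : Phi C B = b.sum fun N r =>
        if lv N + 1 = n then C.al (Lc C.s0 (c - cs N) (q N r)) * C.mono (N.map shp) else 0 := by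
      rw [hB, map_finsuppSum]
      refine Finsupp.sum_congr fun N _ => ?_
      split_ifs
      · rw [phi_single]
      · rw [map_zero]
    have e2 : Lam' C c z = b.sum fun N r => Lam' C c (C.al r * C.mono N) := by
      rw [← hby, phi_apply, map_finsuppSum]
    rw [e1, e2, Finsupp.sum, Finsupp.sum, ← Finset.sum_sub_distrib]
    refine Submodule.sum_mem _ fun N hN => ?_
    have hNn := hb N hN
    rw [lam_al]
    split_ifs with hlv
    · obtain ⟨h5, h6⟩ := hεm N
      have hlv' : lv N = n - 1 := by omega
      rw [hlv'] at h5 h6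
      have h7 := (C.V (n - 1)).sub_mem
        (al_mul_mem C (xe (-c) * C.s0.symm (b N)) h6) (al_mul_mem C (xe c * C.s0 (b N)) h5)
      have e3 : C.al (Lc C.s0 (c - cs N) (q N (b N))) =
          C.al (xe c * C.s0 (b N)) * ((ε N : C.L) *
            C.al (cst (C.U (-((cs N : ℚ) / 2))) * xe (-(cs N)))) -
          C.al (xe (-c) * C.s0.symm (b N)) * ((ε N : C.L) *
            C.al (cst (C.U (-((cs N : ℚ) / 2))) * xe (cs N))) := by
        have e4 : ((ε N : ℤ) : C.L) = C.al (ε N : KX C.k) := by rw [map_intCast]
        rw [e4, ← map_mul, ← map_mul, ← map_mul, ← map_mul, ← map_sub]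
        congr 1
        unfold Lc
        have e5 : C.s0 (q N (b N)) = (ε N : KX C.k) * cst (C.U (-((cs N : ℚ) / 2))) *
            C.s0 (b N) := by
          simp only [q]
          rw [map_mul, map_mul, map_intCast, C.hs0.cst]
        have e6 : C.s0.symm (q N (b N)) = (ε N : KX C.k) * cst (C.U (-((cs N : ℚ) / 2))) *
            C.s0.symm (b N) := by
          simp only [q]
          rw [map_mul, map_mul, map_intCast, s0s_cst]
        rw [e5, e6]
        have e7 : (xe (c - cs N) : KX C.k) = xe c * xe (-(cs N)) := by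
          rw [← hxe, sub_eq_add_neg]
        have e8 : (xe (-(c - cs N)) : KX C.k) = xe (-c) * xe (cs N) := by
          rw [← hxe]
          congr 1
          ring
        rw [e7, e8]
        ring
      rw [e3]
      have e9 : ∀ X Y P Q S T W : C.L, Q * (T - P * W) - X * (S - Y * W) =
          (X * Y - Q * P) * W - (X * S - Q * T) := by
        intro X Y P Q S T W
        ring
      rw [e9] at h7
      exact h7
    · rw [zero_sub]
      refine (C.V (n - 1)).neg_mem ?_
      have h5 : C.mono N ∈ C.V (n - 1) := by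
        have h6 := (h1 C 0 (lv N) (C.mono N) (C.mono N)).2.2.1 N le_rfl
        exact hVm (by omega) h6
      obtain ⟨h6, h7⟩ := (h2 C).1 (n - 1) _ h5
      exact (C.V (n - 1)).sub_mem (al_mul_mem C _ h6) (al_mul_mem C _ h7)
  have hAB : Phi C (A - B) ∈ C.V (n - 1) := by
    have h5 := (C.V (n - 1)).sub_mem hstep2 hstep3
    rw [sub_sub_sub_cancel_right, ← map_sub] at h5
    exact h5
  obtain ⟨D, hD, hDe⟩ := (mem_V C).1 hAB
  -- supports
  have hsA : ∀ M ∈ A.support, lv M < n := by
    intro M hM
    by_contra hcon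
    rw [Finsupp.mem_support_iff] at hM
    apply hM
    rw [hA, Finsupp.sum_apply]
    refine Finset.sum_eq_zero fun M' hM' => ?_
    have e1 : ∀ S : Multiset (Multiset (Gen C.t) →₀ KX C.k), S.sum M =
        (S.map fun f => f M).sum := by
      intro S
      exact map_multiset_sum (Finsupp.applyAddHom M) S
    dsimp only
    rw [e1, Multiset.map_map]
    apply Multiset.sum_eq_zero
    intro x hx
    obtain ⟨g, hg, rfl⟩ := Multiset.mem_map.1 hx
    simp only [Function.comp]
    rw [Finsupp.single_apply, if_neg]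
    intro he
    have h5 := (hrm M' g hg).1
    rw [he, (hκ M' hM').1] at h5
    omega
  have hsB : ∀ M ∈ B.support, lv M < n := by
    intro M hM
    by_contra hcon
    rw [Finsupp.mem_support_iff] at hM
    apply hM
    rw [hB, Finsupp.sum_apply]
    refine Finset.sum_eq_zero fun N hN => ?_
    have hNn := hb N hN
    dsimp only
    split_ifs with hlv
    · rw [Finsupp.single_apply, if_neg]
      intro he
      have h5 := (hsh2 N).1
      rw [he] at h5
      omega
    · rfl
  have hzero : A - B - D = 0 := by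
    apply hInd
    · intro M hM
      have h5 := Finsupp.support_sub hM
      rcases Finset.mem_union.1 h5 with h6 | h6
      · have h7 := Finsupp.support_sub h6
        rcases Finset.mem_union.1 h7 with h8 | h8
        · exact hsA M h8
        · exact hsB M h8
      · have := hD M h6
        omega
    · rw [← phi_apply, map_sub, hDe, sub_self]
  intro N hN
  refine ⟨q (N.map shp) (b (N.map shp)), ?_⟩
  have h5 := DFunLike.congr_fun hzero N
  rw [Finsupp.sub_apply, Finsupp.sub_apply, Finsupp.zero_apply] at h5
  have hDN : D N = 0 := by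
    by_contra hne
    have := hD N (Finsupp.mem_support_iff.2 hne)
    omega
  rw [hDN, sub_zero, sub_eq_zero] at h5
  have hAN : A N = κ.sum fun M y => (M.map fun g =>
      if rmv M g = N then cst (ν M g * y) * Rf C.U (atg g) else 0).sum := by
    rw [hA, Finsupp.sum_apply]
    refine Finsupp.sum_congr fun M _ => ?_
    have e1 : ∀ S : Multiset (Multiset (Gen C.t) →₀ KX C.k), S.sum N =
        (S.map fun f => f N).sum := by
      intro S
      exact map_multiset_sum (Finsupp.applyAddHom N) S
    rw [e1, Multiset.map_map]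
    refine congrArg _ (Multiset.map_congr rfl fun g _ => ?_)
    simp only [Function.comp]
    rw [Finsupp.single_apply]
  have hBN : B N = Lc C.s0 (c - cs N) (q (N.map shp) (b (N.map shp))) := by
    rw [hB, Finsupp.sum_apply, Finsupp.sum]
    rw [Finset.sum_eq_single (N.map shp)]
    · have e1 : lv (N.map shp) + 1 = n := by rw [(hsh2 N).1, hN]
      rw [if_pos e1, hshM, Finsupp.single_eq_same, (hsh2 N).2]
    · intro N' _ hne
      split_ifs with hlv
      · rw [Finsupp.single_apply, if_neg]
        intro he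
        apply hne
        rw [← he, hshM]
      · rfl
    · intro hns
      have e1 : b (N.map shp) = 0 := by simpa using hns
      rw [e1]
      split_ifs with hlv
      · have e2 : q (N.map shp) 0 = 0 := by simp [q]
        rw [e2]
        simp [Lc]
      · rfl
  rw [← hBN, ← h5, hAN]

end Pool.Agent.GK
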