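import Pool.Agent.GK.TStmts

/-!
Graph knots: stabilisation of the first summand of a connected sum of closed braids
(module GK_CSTB, by helper38).
-/

namespace Pool.Agent.GK

open Pool.Agent.LibH11 Pool.Agent.IT

namespace CSTB

theorem aw_succ (s m : ℕ) : Aw s (m + 1) = Aw s m ++ [(s + m, true)] := by
  unfold Aw
  rw [List.range_succ, List.map_append, List.map_singleton]

theorem aw_succ' (s m : ℕ) : Aw s (m + 1) = (s, true) :: Aw (s + 1) m := by
  unfold Aw
  rw [List.range_succ_eq_map, List.map_cons, List.map_map]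
  congr 1
  apply List.map_congr_left
  intro i _
  rw [Function.comp_apply, Prod.mk.injEq]
  exact ⟨by omega, rfl⟩

theorem mem_aw {s m : ℕ} {x : ℕ × Bool} (h : x ∈ Aw s m) : s ≤ x.1 ∧ x.1 < s + m := by
  unfold Aw at h
  rw [List.mem_map] at h
  obtain ⟨i, hi, rfl⟩ := h
  rw [List.mem_range] at hi
  constructor
  · change s ≤ s + i
    omega
  · change s + i < s + m
    omega

theorem mem_mir {w : Word} {x : ℕ × Bool} (h : x ∈ mir w) : ∃ y ∈ w, y.1 = x.1 := by
  unfold mir at h
  rw [List.mem_map] at h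
  obtain ⟨y, hy, rfl⟩ := h
  exact ⟨y, hy, rfl⟩

theorem mem_dw {s m : ℕ} {x : ℕ × Bool} (h : x ∈ Dw s m) : x.1 < s + m := by
  unfold Dw at h
  rw [List.mem_map] at h
  obtain ⟨i, hi, rfl⟩ := h
  rw [List.mem_range] at hi
  change s + m - 1 - i < s + m
  omega

/-- The letter slides through the mirror image of a row. -/
theorem row_letter (hr : ROW_Stmt) (hm : MIR_Stmt) {N s m : ℕ} (hN : s + m ≤ N) {j : ℕ}
    (h1 : s ≤ j) (h2 : j + 1 < s + m) (e : Bool) :
    ev N (mir (Aw s m)) * gen N (j, e) = gen N (j + 1, e) * ev N (mir (Aw s m)) := by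
  have h3 := (hr N s m hN).2 j h1 h2
  have h4 : ev N (Aw s m ++ [(j, true)]) = ev N ([(j + 1, true)] ++ Aw s m) := by
    rw [ev_append, ev_append, ev_single, ev_single]
    exact h3
  have h5 := hm.1 N _ _ h4
  rw [mir_append, mir_append, ev_append, ev_append] at h5
  have h6 : ev N (mir (Aw s m)) * gen N (j, false) = gen N (j + 1, false) * ev N (mir (Aw s m)) := by
    have a1 : mir [(j, true)] = [(j, false)] := rfl
    have a2 : mir [(j + 1, true)] = [(j + 1, false)] := rfl
    rw [a1, a2, ev_single, ev_single] at h5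
    exact h5
  cases e
  · exact h6
  · rw [gen_false, gen_false] at h6
    have h7 : SemiconjBy (ev N (mir (Aw s m))) (gen N (j, true))⁻¹ (gen N (j + 1, true))⁻¹ := h6
    have h8 := h7.inv_right
    rw [inv_inv, inv_inv] at h8
    exact h8

/-- A word slides through the mirror image of a row. -/
theorem row_word (hr : ROW_Stmt) (hm : MIR_Stmt) {N n m : ℕ} (hN : n + (m + 1) ≤ N) (U : Word)
    (hU : Bd m U) :
    ev N (mir (Aw n (m + 1))) * ev N (shw n U) =
      ev N (shw (n + 1) U) * ev N (mir (Aw n (m + 1))) := by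
  induction U with
  | nil => simp [shw]
  | cons x U ih =>
    have hx : x.1 < m := hU x List.mem_cons_self
    have h1 := row_letter hr hm hN (j := x.1 + n) (by omega) (by omega) x.2
    have h2 := ih fun y hy => hU y (List.mem_cons_of_mem _ hy)
    have h3 : shw n (x :: U) = (x.1 + n, x.2) :: shw n U := rfl
    have h4 : shw (n + 1) (x :: U) = (x.1 + n + 1, x.2) :: shw (n + 1) U := rfl
    rw [h3, h4, ev_cons, ev_cons, ← mul_assoc, h1, mul_assoc, h2, mul_assoc]

/-- `σ_(i+1) σ_i^e σ_(i+1)⁻¹ = σ_i⁻¹ σ_(i+1)^e σ_i` -/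
theorem braid_conj {N i : ℕ} (h : i + 1 < N) (e : Bool) :
    gen N (i + 1, true) * gen N (i, e) * (gen N (i + 1, true))⁻¹ =
      (gen N (i, true))⁻¹ * gen N (i + 1, e) * gen N (i, true) := by
  have h1 := gen_braid h
  have h2 : gen N (i + 1, true) * gen N (i, true) * (gen N (i + 1, true))⁻¹ =
      (gen N (i, true))⁻¹ * gen N (i + 1, true) * gen N (i, true) := by
    rw [mul_inv_eq_iff_eq_mul, mul_assoc, mul_assoc, eq_inv_mul_iff_mul_eq, ← mul_assoc,
      ← mul_assoc]
    exact h1
  cases e
  · rw [gen_false, gen_false]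
    have h3 := congrArg (·⁻¹) h2
    simp only [mul_inv_rev, inv_inv] at h3
    rw [mul_assoc, mul_assoc]
    exact h3
  · exact h2

/-- The conjugation of the first letter by a row. -/
theorem conj_row {N n : ℕ} (e : Bool) (m : ℕ) (hN : n + m < N) :
    (ev N (mir (Aw (n + 1) m)))⁻¹ * gen N (n, e) * ev N (mir (Aw (n + 1) m)) =
      (ev N (Dw n m))⁻¹ * gen N (n + m, e) * ev N (Dw n m) := by
  induction m with
  | zero => simp [Aw, Dw, mir]
  | succ m ih =>
    have h1 := ih (by omega)
    have h2 : ev N (mir (Aw (n + 1) (m + 1))) =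
        ev N (mir (Aw (n + 1) m)) * (gen N (n + m + 1, true))⁻¹ := by
      have a0 : n + 1 + m = n + m + 1 := by omega
      have a1 : mir [(n + m + 1, true)] = [(n + m + 1, false)] := rfl
      rw [aw_succ, mir_append, ev_append, a0, a1, ev_single, gen_false]
    have h3 : ev N (Dw n (m + 1)) = gen N (n + m, true) * ev N (Dw n m) := by
      rw [IT.STB.dw_succ, ev_cons]
    have h4 : Commute (gen N (n + m + 1, true)) (ev N (Dw n m)) := by
      rw [← ev_single]
      apply ev_far
      intro x hx y hy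
      rw [List.mem_singleton] at hx
      subst hx
      have := mem_dw hy
      right
      change y.1 + 2 ≤ n + m + 1
      omega
    have h5 := braid_conj (N := N) (i := n + m) (by omega) e
    rw [h2, h3]
    calc (ev N (mir (Aw (n + 1) m)) * (gen N (n + m + 1, true))⁻¹)⁻¹ * gen N (n, e) *
          (ev N (mir (Aw (n + 1) m)) * (gen N (n + m + 1, true))⁻¹)
        = gen N (n + m + 1, true) * ((ev N (mir (Aw (n + 1) m)))⁻¹ * gen N (n, e) *
          ev N (mir (Aw (n + 1) m))) * (gen N (n + m + 1, true))⁻¹ := by group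
      _ = gen N (n + m + 1, true) * ((ev N (Dw n m))⁻¹ * gen N (n + m, e) * ev N (Dw n m)) *
          (gen N (n + m + 1, true))⁻¹ := by rw [h1]
      _ = (gen N (n + m + 1, true) * (ev N (Dw n m))⁻¹) * gen N (n + m, e) *
          (ev N (Dw n m) * (gen N (n + m + 1, true))⁻¹) := by group
      _ = ((ev N (Dw n m))⁻¹ * gen N (n + m + 1, true)) * gen N (n + m, e) *
          ((gen N (n + m + 1, true))⁻¹ * ev N (Dw n m)) := by
          rw [h4.inv_right.eq, h4.inv_left.eq]
      _ = (ev N (Dw n m))⁻¹ * (gen N (n + m + 1, true) * gen N (n + m, e) *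
          (gen N (n + m + 1, true))⁻¹) * ev N (Dw n m) := by group
      _ = (ev N (Dw n m))⁻¹ * ((gen N (n + m, true))⁻¹ * gen N (n + m + 1, e) *
          gen N (n + m, true)) * ev N (Dw n m) := by rw [h5]
      _ = (gen N (n + m, true) * ev N (Dw n m))⁻¹ * gen N (n + (m + 1), e) *
          (gen N (n + m, true) * ev N (Dw n m)) := by
          rw [← add_assoc]
          group

end CSTB

open CSTB in
/-- CSTB: stabilisation of the first summand. -/
theorem cstb (hr : ROW_Stmt) (hm : MIR_Stmt) (h : CINV_Stmt) : CSTB_Stmt := by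
  intro n m y U e hy hU hk
  have hk1 : IsKnot (ev (n + 1) (y ++ [(n, e)])) := by
    have h1 := meq_destab n y [] e hy (bd_nil n)
    rw [List.append_nil, List.append_nil] at h1
    exact h1.isKnot.mpr hk
  have hy1 : Bd (n + 1) (y ++ [(n, e)]) := by
    refine (hy.mono (Nat.le_succ n)).append ?_
    intro x hx
    rw [List.mem_singleton] at hx
    rw [hx]
    exact Nat.lt_succ_self n
  have hc1 : Bd (n + 1) [(n, false)] := by
    intro x hx
    rw [List.mem_singleton] at hx
    rw [hx]
    exact Nat.lt_succ_self n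
  have h1 := (h (n + 1) m [(n, false)] (y ++ [(n, e)]) U hc1 hy1 hU hk1).symm
  refine h1.trans ?_
  have hN : n + 1 + m = n + m + 1 := by omega
  rw [hN]
  have h2 : csum (n + 1) ([(n, false)] ++ (y ++ [(n, e)]) ++ iw [(n, false)]) U =
      [(n, false)] ++ (y ++ [(n, e)] ++ [(n, true)] ++ shw (n + 1) U) := by
    simp [csum, iw]
  rw [h2]
  refine (meq_conj _ _ _).trans ?_
  set N := n + m + 1 with hNdef
  -- the word `y E⁻¹ σ_n^e E U0`
  have hrow := row_word hr hm (N := N) (n := n) (m := m) (by omega) U hU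
  have hQ : ev N (mir (Aw n (m + 1))) =
      (gen N (n, true))⁻¹ * ev N (mir (Aw (n + 1) m)) := by
    have a1 : mir ((n, true) :: Aw (n + 1) m) = (n, false) :: mir (Aw (n + 1) m) := rfl
    rw [aw_succ', a1, ev_cons, gen_false]
  have hcomm : Commute (ev N y) (ev N (mir (Aw (n + 1) m))) := by
    apply ev_far
    intro x hx z hz
    obtain ⟨z', hz', hzz⟩ := mem_mir hz
    have b1 := mem_aw hz'
    have b2 := hy x hx
    left
    omega
  have hconj := conj_row (N := N) (n := n) e m (by omega)
  have h3 : ev N (y ++ [(n, e)] ++ [(n, true)] ++ shw (n + 1) U ++ [(n, false)]) =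
      ev N ((y ++ [(n, e)] ++ mir (Aw (n + 1) m) ++ shw n U) ++ iw (mir (Aw (n + 1) m))) := by
    simp only [ev_append, ev_single, ev_iw, gen_false]
    have h4 : ev N (shw (n + 1) U) =
        ev N (mir (Aw n (m + 1))) * ev N (shw n U) * (ev N (mir (Aw n (m + 1))))⁻¹ := by
      rw [hrow, mul_inv_cancel_right]
    rw [h4, hQ]
    group
  have h5 : ev N (iw (mir (Aw (n + 1) m)) ++ (y ++ [(n, e)] ++ mir (Aw (n + 1) m) ++ shw n U)) =
      ev N ((y ++ iw (Dw n m)) ++ [(n + m, e)] ++ (Dw n m ++ shw n U)) := by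
    simp only [ev_append, ev_single, ev_iw]
    calc (ev N (mir (Aw (n + 1) m)))⁻¹ *
          (ev N y * gen N (n, e) * ev N (mir (Aw (n + 1) m)) * ev N (shw n U))
        = ((ev N (mir (Aw (n + 1) m)))⁻¹ * ev N y) *
          (gen N (n, e) * ev N (mir (Aw (n + 1) m)) * ev N (shw n U)) := by group
      _ = (ev N y * (ev N (mir (Aw (n + 1) m)))⁻¹) *
          (gen N (n, e) * ev N (mir (Aw (n + 1) m)) * ev N (shw n U)) := by
          rw [hcomm.inv_right.eq]
      _ = ev N y * ((ev N (mir (Aw (n + 1) m)))⁻¹ * gen N (n, e) *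
          ev N (mir (Aw (n + 1) m))) * ev N (shw n U) := by group
      _ = ev N y * ((ev N (Dw n m))⁻¹ * gen N (n + m, e) * ev N (Dw n m)) *
          ev N (shw n U) := by rw [hconj]
      _ = _ := by group
  refine (meq_of_ev h3).trans ((meq_conj _ _ _).trans ((meq_of_ev h5).trans ?_))
  have hD : Bd (n + m) (Dw n m) := fun x hx => mem_dw hx
  have hU0 : Bd (n + m) (shw n U) := by
    intro x hx
    unfold shw at hx
    rw [List.mem_map] at hx
    obtain ⟨z, hz, rfl⟩ := hx
    have := hU z hz
    change z.1 + n < n + m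
    omega
  have hy0 : Bd (n + m) y := hy.mono (Nat.le_add_right n m)
  refine (meq_destab (n + m) (y ++ iw (Dw n m)) (Dw n m ++ shw n U) e
    (hy0.append (bd_iw.mpr hD)) (hD.append hU0)).trans ?_
  apply meq_of_ev
  unfold csum
  simp only [ev_append, ev_iw]
  group

end Pool.Agent.GK
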