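import Pool.Agent.GK.JStmts

/-!
# CTX: unique factorisation of the products of the series of the primes
-/

namespace Pool.Agent.GK
open Pool.Agent.LibH11 Pool.Agent.IT
open scoped BigOperators
open PowerSeries

namespace CTX

theorem charZero_KQ : CharZero KQ := by
  have h1 : Function.Injective ((algebraMap ℚ⟦X⟧ KQ).comp (PowerSeries.C (R := ℚ))) :=
    RingHom.injective _
  exact charZero_of_injective_ringHom h1

/-- shifts as ring homomorphisms -/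
noncomputable def shH (h2 : RH2_Stmt) (s : ℚ) : B →+* B :=
  RingHom.mk' { toFun := sh s, map_one' := h2.2.1 s, map_mul' := h2.1 s } (h2.2.2.1 s)

/-- dilations as ring homomorphisms -/
noncomputable def cwH (h2 : RH2_Stmt) (x : ℚ) : B →+* B :=
  RingHom.mk' { toFun := cw (dl x), map_one' := h2.2.2.2.2.2.2.1 x, map_mul' := h2.2.2.2.2.2.1 x }
    (h2.2.2.2.2.2.2.2.1 x)

/-- a shift followed by a dilation -/
noncomputable def DD (h2 : RH2_Stmt) (x s : ℚ) : B →+* B := (cwH h2 x).comp (shH h2 s)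

theorem DD_apply (h2 : RH2_Stmt) (x s : ℚ) (F : B) : DD h2 x s F = cw (dl x) (sh s F) := rfl

section

variable (he : ESER_Stmt) (h2 : RH2_Stmt)

theorem hE_add (he : ESER_Stmt) (a b : ℚ) : hB (E (a + b)) = hB (E a) * hB (E b) := by
  rw [he.2.1, map_mul]

theorem zE_add (he : ESER_Stmt) (a b : ℚ) : zB (E (a + b)) = zB (E a) * zB (E b) := by
  rw [he.2.1, map_mul]

theorem hE_zero (he : ESER_Stmt) : hB (E 0) = 1 := by rw [he.1, map_one]

theorem zE_zero (he : ESER_Stmt) : zB (E 0) = 1 := by rw [he.1, map_one]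

theorem DD_zE (x s a : ℚ) : DD h2 x s (zB (E a)) = hB (E (a * s)) * zB (E (a * x)) := by
  rw [DD_apply, h2.2.2.2.2.2.2.2.2.2.2.2.2.1]
  have h3 := h2.2.2.2.2.2.1 x (hB (E (a * s))) (zB (E a))
  rw [h3, h2.2.2.2.2.2.2.2.2.2.2.2.2.2.2.2.1, h2.2.2.2.2.2.2.2.2.2.2.2.2.2.2.1]

theorem DD_hB (x s : ℚ) (f : ℚ⟦X⟧) : DD h2 x s (hB f) = hB f := by
  rw [DD_apply, h2.2.2.2.2.2.2.2.2.2.2.2.2.2.1, h2.2.2.2.2.2.2.2.2.2.2.2.2.2.2.2.1]

theorem DD_sh (x s e : ℚ) (F : B) : DD h2 x s (sh e F) = DD h2 x (s + e) F := by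
  rw [DD_apply, DD_apply, h2.2.2.2.1]

theorem DD_cw_sh (x s y e : ℚ) (F : B) :
    DD h2 x s (cw (dl y) (sh e F)) = DD h2 (x * y) (y * s + e) F := by
  rw [DD_apply, DD_apply, h2.2.2.2.2.2.2.2.2.2.2.1, h2.2.2.2.1, h2.2.2.2.2.2.2.2.2.2.1]

theorem sh_DD (x s : ℚ) (F : B) : sh 1 (DD h2 x s F) = DD h2 x (s + x) F := by
  rw [DD_apply, DD_apply, h2.2.2.2.2.2.2.2.2.2.2.1, h2.2.2.2.1, mul_one, add_comm]

theorem DD_one_zero (F : B) : DD h2 1 0 F = F := by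
  rw [DD_apply, h2.2.2.2.2.1, h2.2.2.2.2.2.2.2.2.1]

theorem DD_inj {x : ℚ} (hx : x ≠ 0) (s : ℚ) {F : B} (h : DD h2 x s F = 0) : F = 0 := by
  have h3 : sh s F = 0 := h2.2.2.2.2.2.2.2.2.2.2.2.2.2.2.2.2.1 x hx _ h
  have h4 : sh (-s) (sh s F) = 0 := by
    rw [h3]
    exact map_zero (shH h2 (-s))
  rwa [h2.2.2.2.1, neg_add_cancel, h2.2.2.2.2.1] at h4

theorem fu_eq : fu = zB (E 1) - zB (E (-1)) := by
  unfold fu
  rw [map_sub]

theorem fu_ne : fu ≠ 0 := by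
  intro h
  have h1 : E 1 - E (-1) = 0 := by
    have h2 : Function.Injective (zB : ℚ⟦X⟧ →+* B) := PowerSeries.C_injective
    exact h2 (by rw [map_zero]; exact h)
  have h2 := congrArg (coeff 1) h1
  simp [E] at h2

end

section Main

variable (he : ESER_Stmt) (h2 : RH2_Stmt) {ι : Type} (t : Tr ι) (G : ι → B) {L : Type} [Field L]
  (emb : B →+* L)

/-- the normalised series -/
noncomputable def YY (i : ι) (w : ℕ) (s : ℤ) : L :=
  emb (hB (E ((t.p i : ℚ) * t.q i * (s : ℚ) ^ 2 / 2)) * zB (E ((t.p i : ℚ) * t.q i * w * s)) *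
    DD h2 w s (G i))

include he in
theorem prod_YY (W : ℕ) (s : ℤ) (T : Multiset ι) :
    (T.map fun j => YY h2 t G emb j W s).prod =
      emb (hB (E (((T.map fun j => (t.p j : ℤ) * t.q j).sum : ℤ) * (s : ℚ) ^ 2 / 2)) *
        zB (E (((T.map fun j => (t.p j : ℤ) * t.q j).sum : ℤ) * (W : ℚ) * s))) *
      emb (DD h2 W s (T.map G).prod) := by
  induction T using Multiset.induction_on with
  | empty => simp [hE_zero he, zE_zero he]
  | cons a T ih =>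
    rw [Multiset.map_cons, Multiset.prod_cons, ih, Multiset.map_cons, Multiset.sum_cons,
      Multiset.map_cons, Multiset.prod_cons, YY]
    set σ : ℤ := (T.map fun j => (t.p j : ℤ) * t.q j).sum
    have e1 : (((t.p a : ℤ) * t.q a + σ : ℤ) : ℚ) * (s : ℚ) ^ 2 / 2 =
        (t.p a : ℚ) * t.q a * (s : ℚ) ^ 2 / 2 + (σ : ℚ) * (s : ℚ) ^ 2 / 2 := by
      push_cast
      ring
    have e2 : (((t.p a : ℤ) * t.q a + σ : ℤ) : ℚ) * (W : ℚ) * s =
        (t.p a : ℚ) * t.q a * W * s + (σ : ℚ) * (W : ℚ) * s := by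
      push_cast
      ring
    rw [e1, e2, hE_add he, zE_add he]
    simp only [map_mul]
    ring

variable [Algebra (KX KQ) L] (hz : ∀ n : ℤ, emb (zB (E n)) = algebraMap (KX KQ) L (xe n))
  (hh : ∀ a : ℚ, emb (hB (E a)) = algebraMap (KX KQ) L (cst (UQ a)))

include hz hh in
theorem emb_fu (x s : ℤ) :
    emb (DD h2 x s fu) = algebraMap (KX KQ) L (ph UQ x s) := by
  rw [fu_eq, map_sub, DD_zE, DD_zE, one_mul, one_mul, map_sub, map_mul, map_mul, hh, hh, hz]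
  have e1 : (-1 : ℚ) * (x : ℚ) = ((-x : ℤ) : ℚ) := by push_cast; ring
  have e2 : (-1 : ℚ) * (s : ℚ) = -(s : ℚ) := by ring
  rw [e1, hz, e2, ph, map_sub, map_mul, map_mul]

include h2 hz hh in
theorem ph_ne (hinj : Function.Injective emb) (x s : ℤ) (hx : x ≠ 0) :
    algebraMap (KX KQ) L (ph UQ x s) ≠ 0 := by
  rw [← emb_fu h2 emb hz hh]
  intro h
  have h3 : DD h2 x s fu = 0 := hinj (by rw [h, map_zero])
  exact fu_ne (DD_inj h2 (Int.cast_ne_zero.2 hx) _ h3)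

include he hz hh in
theorem key (hinj : Function.Injective emb) (i : ι) (w : ℕ) (hw : 1 ≤ w) (s : ℤ) (H : B)
    (hH : H * fu ^ (Multiset.card (t.ch i)) = fu * ((t.ch i).map G).prod) :
    algebraMap (KX KQ) L (Tt UQ (t.p i) (t.Q i) w (Multiset.card (t.ch i)) s) *
      ((t.ch i).map fun j => YY h2 t G emb j (t.p i * w) s).prod =
    emb (hB (E (t.q i * (s : ℚ) ^ 2 / (2 * t.p i))) * zB (E (t.q i * w * s)) *
      DD h2 (w * t.p i) s H) := by
  have hp0 : (t.p i : ℚ) ≠ 0 := by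
    have := t.hp i
    have h3 : t.p i ≠ 0 := by omega
    exact_mod_cast h3
  have hpi : (t.p i : ℤ) * (w : ℤ) ≠ 0 := by
    have := t.hp i
    have h3 : t.p i ≠ 0 := by omega
    have h4 : w ≠ 0 := by omega
    exact mul_ne_zero (by exact_mod_cast h3) (by exact_mod_cast h4)
  rw [prod_YY he]
  set m := Multiset.card (t.ch i) with hm
  set σ : ℤ := ((t.ch i).map fun j => (t.p j : ℤ) * t.q j).sum with hσ
  have hQ : t.Q i = t.q i - t.p i * σ := rfl
  have ecast : (((t.p i * w : ℕ) : ℕ) : ℚ) = (((t.p i : ℤ) * (w : ℤ) : ℤ) : ℚ) := by push_cast; ring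
  have ecast2 : (w : ℚ) * (t.p i : ℚ) = (((t.p i : ℤ) * (w : ℤ) : ℤ) : ℚ) := by push_cast; ring
  have hP := ph_ne h2 emb hz hh hinj ((t.p i : ℤ) * (w : ℤ)) s hpi
  have hPe := emb_fu h2 emb hz hh ((t.p i : ℤ) * (w : ℤ)) s
  have hH' := congrArg (fun F => emb (DD h2 ((((t.p i : ℤ) * (w : ℤ) : ℤ)) : ℚ) (s : ℚ) F)) hH
  simp only [map_mul, map_pow] at hH'
  rw [hPe] at hH'
  set P := algebraMap (KX KQ) L (ph UQ ((t.p i : ℤ) * (w : ℤ)) s) with hPdef
  rw [Tt, map_mul, map_mul, map_zpow₀, ← hPdef, ecast, ecast2]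
  have h5 : emb (DD h2 ((((t.p i : ℤ) * (w : ℤ) : ℤ)) : ℚ) (s : ℚ) H) =
      P ^ (1 - (m : ℤ)) * emb (DD h2 ((((t.p i : ℤ) * (w : ℤ) : ℤ)) : ℚ) (s : ℚ)
        ((t.ch i).map G).prod) := by
    rw [zpow_sub₀ hP, zpow_one, zpow_natCast, div_mul_eq_mul_div, ← hH', mul_div_assoc,
      div_self (pow_ne_zero _ hP), mul_one]
  rw [map_mul emb, map_mul emb, h5]
  have e1 : (t.q i : ℚ) * (s : ℚ) ^ 2 / (2 * t.p i) =
      (t.Q i : ℚ) * (s : ℚ) ^ 2 / (2 * t.p i) + (σ : ℚ) * (s : ℚ) ^ 2 / 2 := by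
    rw [hQ]
    push_cast
    field_simp
    ring
  have e2 : (t.q i : ℚ) * w * s =
      ((t.Q i * w * s : ℤ) : ℚ) + (σ : ℚ) * (((t.p i : ℤ) * (w : ℤ) : ℤ) : ℚ) * s := by
    rw [hQ]
    push_cast
    ring
  rw [e1, e2, hE_add he, zE_add he]
  simp only [map_mul]
  rw [hz (t.Q i * w * s)]
  simp only [hh]
  ring

include he hz hh in
theorem shift (sg : L ≃+* L) (hsg : ∀ F : B, sg (emb F) = emb (sh 1 F)) (i : ι) (w : ℕ) (s : ℤ) :
    sg (YY h2 t G emb i w s) =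
      algebraMap (KX KQ) L (cst (UQ (-((t.p i : ℚ) * t.q i * (w : ℚ) ^ 2 / 2))) *
        xe (-((t.p i : ℤ) * t.q i * (w : ℤ) ^ 2))) * YY h2 t G emb i w (s + w) := by
  unfold YY
  rw [hsg, map_mul (algebraMap (KX KQ) L), ← hh, ← hz]
  have e0 : ∀ F F' : B, sh 1 (F * F') = sh 1 F * sh 1 F' := h2.1 1
  rw [e0, e0, h2.2.2.2.2.2.2.2.2.2.2.2.2.2.1, h2.2.2.2.2.2.2.2.2.2.2.2.2.1, sh_DD]
  have e1 : ((s + w : ℤ) : ℚ) = (s : ℚ) + w := by push_cast; ring
  have e2 : ((-((t.p i : ℤ) * t.q i * (w : ℤ) ^ 2) : ℤ) : ℚ) =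
      -((t.p i : ℚ) * t.q i * (w : ℚ) ^ 2) := by push_cast; ring
  rw [e1, e2]
  have e3 : (t.p i : ℚ) * t.q i * (s : ℚ) ^ 2 / 2 + (t.p i : ℚ) * t.q i * w * s * 1 =
      -((t.p i : ℚ) * t.q i * (w : ℚ) ^ 2 / 2) + (t.p i : ℚ) * t.q i * ((s : ℚ) + w) ^ 2 / 2 := by
    ring
  have e4 : (t.p i : ℚ) * t.q i * w * s =
      -((t.p i : ℚ) * t.q i * (w : ℚ) ^ 2) + (t.p i : ℚ) * t.q i * w * ((s : ℚ) + w) := by
    ring
  have h5 := congrArg (fun a => hB (E a)) e3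
  have h6 := congrArg (fun a => zB (E a)) e4
  simp only [hE_add he] at h5
  simp only [zE_add he] at h6
  have h7 : hB (E ((t.p i : ℚ) * t.q i * (s : ℚ) ^ 2 / 2)) *
      (hB (E ((t.p i : ℚ) * t.q i * w * s * 1)) * zB (E ((t.p i : ℚ) * t.q i * w * s))) *
        DD h2 w ((s : ℚ) + w) (G i) =
      hB (E (-((t.p i : ℚ) * t.q i * (w : ℚ) ^ 2 / 2))) *
        zB (E (-((t.p i : ℚ) * t.q i * (w : ℚ) ^ 2))) *
        (hB (E ((t.p i : ℚ) * t.q i * ((s : ℚ) + w) ^ 2 / 2)) *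
          zB (E ((t.p i : ℚ) * t.q i * w * ((s : ℚ) + w))) * DD h2 w ((s : ℚ) + w) (G i)) := by
    rw [← mul_assoc (hB (E ((t.p i : ℚ) * t.q i * (s : ℚ) ^ 2 / 2))), h5, h6]
    ring
  rw [h7]
  simp only [map_mul]

include he hz hh in
theorem rec1 (hinj : Function.Injective emb) (i : ι) (w : ℕ) (hw : 1 ≤ w) (s : ℤ) (H : B)
    (hH : H * fu ^ (Multiset.card (t.ch i)) = fu * ((t.ch i).map G).prod)
    (hF : FunEq (t.p i) (t.q i) H (G i)) :
    YY h2 t G emb i w (s + 1) - YY h2 t G emb i w (s - 1) =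
    algebraMap (KX KQ) L (cst (UQ ((t.p i : ℚ) * t.q i / 2 - t.q i / (2 * t.p i)))) *
      (algebraMap (KX KQ) L (Tt UQ (t.p i) (t.Q i) w (Multiset.card (t.ch i)) (t.p i * s + 1)) *
          ((t.ch i).map fun j => YY h2 t G emb j (t.p i * w) (t.p i * s + 1)).prod -
        algebraMap (KX KQ) L (Tt UQ (t.p i) (t.Q i) w (Multiset.card (t.ch i)) (t.p i * s - 1)) *
          ((t.ch i).map fun j => YY h2 t G emb j (t.p i * w) (t.p i * s - 1)).prod) := by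
  have hp0 : (t.p i : ℚ) ≠ 0 := by
    have := t.hp i
    have h3 : t.p i ≠ 0 := by omega
    exact_mod_cast h3
  rw [key he h2 t G emb hz hh hinj i w hw _ H hH, key he h2 t G emb hz hh hinj i w hw _ H hH,
    ← hh, ← map_sub, ← map_mul]
  unfold YY
  rw [← map_sub]
  congr 1
  have hml : ∀ (g : ℚ⟦X⟧) (F : B), cw (ml g) F = zB g * F := h2.2.2.2.2.2.2.2.2.2.2.2.1
  unfold FunEq at hF
  simp only [hml] at hF
  have h3 := congrArg (DD h2 w s) hF
  simp only [map_sub, map_mul, DD_zE, DD_sh, DD_cw_sh] at h3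
  set p : ℚ := (t.p i : ℚ) with hp
  set q : ℚ := (t.q i : ℚ) with hq
  have c1 : ((s + 1 : ℤ) : ℚ) = (s : ℚ) + 1 := by push_cast; ring
  have c2 : ((s - 1 : ℤ) : ℚ) = (s : ℚ) + -1 := by push_cast; ring
  have c3 : (((t.p i : ℤ) * s + 1 : ℤ) : ℚ) = p * s + 1 := by push_cast; ring
  have c4 : (((t.p i : ℤ) * s - 1 : ℤ) : ℚ) = p * s + -1 := by push_cast; ring
  rw [c1, c2, c3, c4]
  have h4 := congrArg (fun F => hB (E (p * q * ((s : ℚ) ^ 2 + 1) / 2)) *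
    zB (E (p * q * w * s)) * F) h3
  have a1 : p * q * ((s : ℚ) + 1) ^ 2 / 2 = p * q * ((s : ℚ) ^ 2 + 1) / 2 + p * q * s := by ring
  have a2 : p * q * w * ((s : ℚ) + 1) = p * q * w * s + p * q * w := by ring
  have a3 : p * q * ((s : ℚ) + -1) ^ 2 / 2 = p * q * ((s : ℚ) ^ 2 + 1) / 2 + -(p * q) * s := by
    ring
  have a4 : p * q * w * ((s : ℚ) + -1) = p * q * w * s + -(p * q) * w := by ring
  have a5 : p * q / 2 - q / (2 * p) + q * (p * s + 1) ^ 2 / (2 * p) =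
      p * q * ((s : ℚ) ^ 2 + 1) / 2 + q * s := by
    field_simp
    ring
  have a6 : q * w * (p * s + 1) = p * q * w * s + q * w := by ring
  have a7 : p * q / 2 - q / (2 * p) + q * (p * s + -1) ^ 2 / (2 * p) =
      p * q * ((s : ℚ) ^ 2 + 1) / 2 + -q * s := by
    field_simp
    ring
  have a8 : q * w * (p * s + -1) = p * q * w * s + -q * w := by ring
  have b5 := congrArg (fun a => hB (E a)) a5
  have b7 := congrArg (fun a => hB (E a)) a7
  simp only [hE_add he] at b5 b7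
  rw [a1, a2, a3, a4, a6, a8, mul_sub, ← mul_assoc, ← mul_assoc, ← mul_assoc, ← mul_assoc, b5, b7]
  simp only [hE_add he, zE_add he]
  linear_combination h4

include he hz hh in
theorem rec2 (h4 : P2_Stmt) (hinj : Function.Injective emb) (i : ι) (w : ℕ) (hw : 1 ≤ w) (s : ℤ)
    (H : B) (hp2 : t.p i = 2)
    (hH : H * fu ^ (Multiset.card (t.ch i)) = fu * ((t.ch i).map G).prod)
    (hF : FunEq (t.p i) (t.q i) H (G i)) :
    YY h2 t G emb i w (s + 1) + YY h2 t G emb i w s =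
    algebraMap (KX KQ) L (cst (UQ ((t.p i : ℚ) * t.q i / 2 - t.q i / (2 * t.p i)))) *
      (algebraMap (KX KQ) L (Tt UQ (t.p i) (t.Q i) w (Multiset.card (t.ch i)) (2 * s + 1)) *
          ((t.ch i).map fun j => YY h2 t G emb j (t.p i * w) (2 * s + 1)).prod) := by
  have hq0 : t.q i ≠ 0 := by
    intro h
    have h5 := t.hg i
    rw [h, hp2] at h5
    simp at h5
  rw [key he h2 t G emb hz hh hinj i w hw _ H hH, ← hh, ← map_mul]
  unfold YY
  rw [← map_add]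
  congr 1
  rw [hp2] at hF ⊢
  have hF2 := h4 (t.q i) H (G i) hq0 hF
  have h3 := congrArg (DD h2 w s) hF2
  have e2 : ((2 : ℕ) : ℚ) = 2 := by norm_num
  simp only [map_add, map_mul, DD_zE, DD_sh, DD_cw_sh, DD_hB] at h3
  rw [e2]
  set q : ℚ := (t.q i : ℚ) with hq
  have c1 : ((s + 1 : ℤ) : ℚ) = (s : ℚ) + 1 := by push_cast; ring
  have c3 : ((2 * s + 1 : ℤ) : ℚ) = 2 * s + 1 := by push_cast; ring
  rw [c1, c3]
  have h5 := congrArg (fun F => hB (E (q * ((s : ℚ) ^ 2 + s + 1))) *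
    zB (E (q * w * (2 * s + 1))) * F) h3
  have a1 : 2 * q * ((s : ℚ) + 1) ^ 2 / 2 = q * ((s : ℚ) ^ 2 + s + 1) + q * s := by ring
  have a2 : 2 * q * w * ((s : ℚ) + 1) = q * w * (2 * s + 1) + q * w := by ring
  have a3 : 2 * q * (s : ℚ) ^ 2 / 2 = q * ((s : ℚ) ^ 2 + s + 1) + -q + -q * s := by ring
  have a4 : 2 * q * w * (s : ℚ) = q * w * (2 * s + 1) + -q * w := by ring
  have a5 : 2 * q / 2 - q / (2 * 2) + q * (2 * s + 1) ^ 2 / (2 * 2) =
      q * ((s : ℚ) ^ 2 + s + 1) := by ring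
  have b5 := congrArg (fun a => hB (E a)) a5
  simp only [hE_add he] at b5
  rw [a1, a2, a3, a4, ← mul_assoc, ← mul_assoc, b5]
  simp only [hE_add he, zE_add he] at h5 ⊢
  linear_combination h5

end Main

end CTX

theorem ctx (he : ESER_Stmt) (h2 : RH2_Stmt) (h3 : BASE_Stmt) (h4 : P2_Stmt) (h5 : UQ_Stmt)
    (h6 : FRAME_Stmt) (h7 : AI_Stmt) : CTX_Stmt := by
  intro ι t G hG S S' hS
  obtain ⟨s0, hs0⟩ := (h3 KQ).2.2.2.2.2.2.2 UQ h5
  obtain ⟨L, fL, aL, sg, emb, hinj, halg, hsg, hz, hh⟩ := h6 s0 hs0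
  have := CTX.charZero_KQ
  choose H hH hF using hG
  let C : Ctx :=
    { k := KQ
      U := UQ
      hU := h5
      s0 := s0
      hs0 := hs0
      ι := ι
      t := t
      L := L
      sg := sg
      Y := CTX.YY h2 t G emb
      alg := halg
      shift := fun i w s _ => CTX.shift he h2 t G emb hz hh sg hsg i w s
      rec1 := fun i w s hw => CTX.rec1 he h2 t G emb hz hh hinj i w hw s (H i) (hH i) (hF i)
      rec2 := fun i w s hw hp => CTX.rec2 he h2 t G emb hz hh h4 hinj i w hw s (H i) hp (hH i)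
        (hF i) }
  let gn : ι → Gen t := fun i => ⟨i, 1, false, le_rfl, fun _ => rfl⟩
  have hgn : Function.Injective gn := fun i j hij => congrArg Gen.i hij
  have hY : ∀ i, C.yg (gn i) = emb (G i) := by
    intro i
    change CTX.YY h2 t G emb i 1 (bt false) = _
    unfold CTX.YY
    have e1 : ((bt false : ℤ) : ℚ) = 0 := by simp [bt]
    rw [e1]
    have e2 : (t.p i : ℚ) * t.q i * (0 : ℚ) ^ 2 / 2 = 0 := by ring
    have e3 : (t.p i : ℚ) * t.q i * ((1 : ℕ) : ℚ) * 0 = 0 := by ring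
    have e4 : ((1 : ℕ) : ℚ) = 1 := by norm_num
    rw [e2, e3, e4, CTX.hE_zero he, CTX.zE_zero he, one_mul, one_mul, CTX.DD_one_zero]
  have hmono : ∀ T : Multiset ι, C.mono (T.map gn) = emb (T.map G).prod := by
    intro T
    change ((T.map gn).map C.yg).prod = _
    rw [Multiset.map_map, map_multiset_prod, Multiset.map_map]
    congr 1
    refine Multiset.map_congr rfl fun i _ => ?_
    exact hY i
  have hphe : emb fu = algebraMap (KX KQ) L (ph UQ 1 0) := by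
    have h8 := CTX.emb_fu h2 emb hz hh 1 0
    rw [← h8]
    have e1 : ((1 : ℤ) : ℚ) = 1 := by norm_num
    have e2 : ((0 : ℤ) : ℚ) = 0 := by norm_num
    rw [e1, e2, CTX.DD_one_zero]
  have hne : ph UQ 1 0 ≠ 0 := by
    intro h
    have h8 := CTX.ph_ne h2 emb hz hh hinj 1 0 one_ne_zero
    rw [h, map_zero] at h8
    exact h8 rfl
  have h9 := h7 C (S.map gn) (S'.map gn) (ph UQ 1 0 ^ Multiset.card S')
    (ph UQ 1 0 ^ Multiset.card S) (pow_ne_zero _ hne) (pow_ne_zero _ hne) (by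
      rw [hmono, hmono]
      change algebraMap (KX KQ) L _ * _ = algebraMap (KX KQ) L _ * _
      rw [map_pow, map_pow, ← hphe, ← map_pow, ← map_pow, ← map_mul, ← map_mul, hS])
  exact Multiset.map_injective hgn h9

end Pool.Agent.GK
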