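import Pool.Agent.GK.TStmts

/-!
# CWB: the connected sum is well defined and commutative
-/

namespace Pool.Agent.GK

open Pool.Agent.LibH11 Pool.Agent.IT

namespace CWB

theorem flp_flp {m : ℕ} {w : Word} (hw : Bd m w) : flp m (flp m w) = w := by
  unfold flp
  rw [List.map_map]
  conv_rhs => rw [← List.map_id w]
  apply List.map_congr_left
  rintro ⟨i, e⟩ hx
  have h : i < m := hw (i, e) hx
  have h2 : m - 1 - (m - 1 - i) = i := by omega
  simp [h2]

/-- Commutativity. -/
theorem comm (h1 : CWL_Stmt) (h2 : FLP_Stmt) (n m : ℕ) (u w : Word) (hu : Bd n u) (hw : Bd m w)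
    (ku : IsKnot (ev n u)) (kw : IsKnot (ev m w)) :
    meq (n + m) (csum n u w) (m + n) (csum m w u) := by
  obtain ⟨bu, fu⟩ := h2.1 n u hu
  obtain ⟨bw, fw⟩ := h2.1 m w hw
  have a1 := h2.2 n m u w hu hw
  have a2 := h1 m m n (flp m w) w (flp n u) bw hw bu (fw.isKnot.mpr kw) fw
  have a3 := h2.2 m n w u hw hu
  have a4 := h1 n n m (flp n u) u (flp m w) bu hu bw (fu.isKnot.mpr ku) fu
  have a5 := h2.2 n m u (flp m w) hu bw
  rw [flp_flp hw] at a5
  have e : m + n = n + m := Nat.add_comm m n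
  rw [e] at a2 a3 ⊢
  exact ((a1.trans a2).trans a5.symm).trans (a3.trans a4).symm

end CWB

open CWB in
/-- CWB: the connected sum is well defined and commutative. -/
theorem cwb (h1 : CWL_Stmt) (h2 : FLP_Stmt) : CWB_Stmt := by
  refine ⟨fun n m u w hu hw ku kw => comm h1 h2 n m u w hu hw ku kw, ?_⟩
  intro n n' m m' u u' w w' hu hu' hw hw' ku kw eu ew
  have ku' : IsKnot (ev n' u') := eu.isKnot.mp ku
  have kw' : IsKnot (ev m' w') := ew.isKnot.mp kw
  have a1 := h1 n n' m u u' w hu hu' hw ku eu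
  have a2 := comm h1 h2 n' m u' w hu' hw ku' kw
  have a3 := h1 m m' n' w w' u' hw hw' hu' kw ew
  have a4 := comm h1 h2 m' n' w' u' hw' hu' kw' ku'
  exact ((a1.trans a2).trans a3).trans a4

end Pool.Agent.GK
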