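import Pool.Agent.GK.TStmts

/-!
Graph knots, CWL: the connected sum depends on the closure of the first summand only.
-/

namespace Pool.Agent.GK

open Pool.Agent.LibH11 Pool.Agent.IT

namespace CWL

/-- words with the same braid keep the same braid when strands are added -/
theorem ev_up {n : ℕ} {y y' : Word} (hy : Bd n y) (hy' : Bd n y') (h : ev n y = ev n y') :
    ∀ m : ℕ, ev (n + m) y = ev (n + m) y'
  | 0 => h
  | m + 1 => by
    have ih := ev_up hy hy' h m
    have h1 : Bd (n + m) y := hy.mono (Nat.le_add_right n m)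
    have h2 : Bd (n + m) y' := hy'.mono (Nat.le_add_right n m)
    have e1 := incl_ev h1
    have e2 := incl_ev h2
    change ev (n + m + 1) y = ev (n + m + 1) y'
    rw [← e1, ← e2, ih]

/-- words representing the same braid have the same connected sum with `U` -/
theorem same {n m : ℕ} {y y' : Word} (U : Word) (hy : Bd n y) (hy' : Bd n y')
    (h : ev n y = ev n y') : meq (n + m) (csum n y U) (n + m) (csum n y' U) := by
  refine meq_of_ev ?_
  unfold csum
  rw [ev_append, ev_append, ev_up hy hy' h m]

theorem bd_last {n : ℕ} {w : Word} (hw : Bd n w) (e : Bool) : Bd (n + 1) (w ++ [(n, e)]) := by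
  refine (hw.mono (Nat.le_succ n)).append ?_
  intro x hx
  rw [List.mem_singleton] at hx
  rw [hx]
  exact Nat.lt_succ_self n

theorem move (hc : CINV_Stmt) (hs : CSTB_Stmt) {m : ℕ} {U : Word} (hU : Bd m U)
    {x y : Σ n : ℕ, Br n} (h : MarkovMove x y) (hx : IsKnot x.2) (w u : Word)
    (hw : Bd x.1 w) (hu : Bd y.1 u) (ew : ev x.1 w = x.2) (eu : ev y.1 u = y.2) :
    meq (x.1 + m) (csum x.1 w U) (y.1 + m) (csum y.1 u U) := by
  have hy : IsKnot y.2 := (isKnot_move h).mp hx
  cases h with
  | conj n a b =>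
    simp only at hx hy hw hu ew eu ⊢
    obtain ⟨v, hv, rfl⟩ := exists_word a
    have hiv : Bd n (iw v) := bd_iw.mpr hv
    have e1 : ev n (v ++ w ++ iw v) = ev n v * b * (ev n v)⁻¹ := by
      rw [ev_append, ev_append, ev_iw, ew]
    have k1 : IsKnot (ev n w) := by
      rw [ew]
      exact hx
    have c1 := hc n m v w U hv hw hU k1
    have c3 : meq (n + m) (csum n (v ++ w ++ iw v) U) (n + m) (csum n u U) := by
      refine same U ((hv.append hw).append hiv) hu ?_
      rw [e1, eu]
    exact c1.symm.trans c3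
  | stabPos n b =>
    simp only at hx hy hw hu ew eu ⊢
    have k1 : IsKnot (ev n w) := by
      rw [ew]
      exact hx
    have c1 := hs n m w U true hw hU k1
    have c2 : meq (n + 1 + m) (csum (n + 1) (w ++ [(n, true)]) U) (n + 1 + m)
        (csum (n + 1) u U) := by
      refine same U (bd_last hw true) hu ?_
      rw [eu, ev_append, ← incl_ev hw, ev_single, ew, gen_true (Nat.lt_succ_self n)]
      rfl
    exact c1.symm.trans c2
  | stabNeg n b =>
    simp only at hx hy hw hu ew eu ⊢
    have k1 : IsKnot (ev n w) := by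
      rw [ew]
      exact hx
    have c1 := hs n m w U false hw hU k1
    have c2 : meq (n + 1 + m) (csum (n + 1) (w ++ [(n, false)]) U) (n + 1 + m)
        (csum (n + 1) u U) := by
      refine same U (bd_last hw false) hu ?_
      rw [eu, ev_append, ← incl_ev hw, ev_single, ew, gen_false, gen_true (Nat.lt_succ_self n)]
      rfl
    exact c1.symm.trans c2

theorem eqv (hc : CINV_Stmt) (hs : CSTB_Stmt) {m : ℕ} {U : Word} (hU : Bd m U)
    {x y : Σ n : ℕ, Br n} (h : Relation.EqvGen MarkovMove x y) :
    IsKnot x.2 → ∀ w u : Word, Bd x.1 w → Bd y.1 u → ev x.1 w = x.2 → ev y.1 u = y.2 →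
      meq (x.1 + m) (csum x.1 w U) (y.1 + m) (csum y.1 u U) := by
  induction h with
  | rel x y h =>
    intro hx w u hw hu ew eu
    exact move hc hs hU h hx w u hw hu ew eu
  | refl x =>
    intro hx w u hw hu ew eu
    exact same U hw hu (ew.trans eu.symm)
  | symm x y h ih =>
    intro hy w u hw hu ew eu
    exact (ih ((isKnot_eqv h).mpr hy) u w hu hw eu ew).symm
  | trans x y z hxy hyz ih1 ih2 =>
    intro hx w u hw hu ew eu
    obtain ⟨v, hv, ev'⟩ := exists_word y.2
    exact (ih1 hx w v hw hv ew ev').trans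
      (ih2 ((isKnot_eqv hxy).mp hx) v u hv hu ev' eu)

end CWL

/-- CWL: the connected sum depends on the closure of the first summand only. -/
theorem cwl (h1 : CINV_Stmt) (h2 : CSTB_Stmt) : CWL_Stmt := by
  intro n n' m y y' U hy hy' hU hk h
  exact CWL.eqv h1 h2 hU (x := ⟨n, ev n y⟩) (y := ⟨n', ev n' y'⟩) h hk y y' hy hy' rfl rfl

end Pool.Agent.GK
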