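import Pool.Agent.GK.TStmts

/-!
Graph knots: a full twist of the last two strands slides past a summand.
-/

namespace Pool.Agent.GK

open Pool.Agent.LibH11 Pool.Agent.IT

namespace DAG

theorem aw_succ (s m : ℕ) : Aw s (m + 1) = (s, true) :: Aw (s + 1) m := by
  unfold Aw
  rw [List.range_succ_eq_map, List.map_cons, List.map_map]
  refine congrArg₂ _ rfl ?_
  refine List.map_congr_left fun i _ => ?_
  simp only [Function.comp, Prod.mk.injEq, and_true]
  omega

theorem shw_cons (k : ℕ) (x : ℕ × Bool) (w : Word) :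
    shw k (x :: w) = (x.1 + k, x.2) :: shw k w := rfl

theorem mir_cons (x : ℕ × Bool) (w : Word) : mir (x :: w) = (x.1, !x.2) :: mir w := rfl

theorem shw_mir (k : ℕ) (w : Word) : shw k (mir w) = mir (shw k w) := by
  unfold shw mir
  rw [List.map_map, List.map_map]
  rfl

/-- the row shifts words -/
theorem row_pos (hr : ROW_Stmt) {n m : ℕ} (hn : 1 ≤ n) (U : Word) (hU : Bd m U) :
    ev (n + m) (Aw (n - 1) (m + 1)) * ev (n + m) (shw (n - 1) U) =
      ev (n + m) (shw n U) * ev (n + m) (Aw (n - 1) (m + 1)) := by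
  have hrow := (hr (n + m) (n - 1) (m + 1) (by omega)).2
  induction U with
  | nil =>
    have h0 : ∀ k, shw k [] = [] := fun k => rfl
    rw [h0, h0]
    simp
  | cons x U ih =>
    have hx : x.1 < m := hU x List.mem_cons_self
    have ih' := ih fun y hy => hU y (List.mem_cons_of_mem _ hy)
    rw [shw_cons, shw_cons, ev_cons, ev_cons]
    have h1 := hrow (x.1 + (n - 1)) (by omega) (by omega)
    have h2 : x.1 + (n - 1) + 1 = x.1 + n := by omega
    rw [h2] at h1
    have h3 : ev (n + m) (Aw (n - 1) (m + 1)) * gen (n + m) (x.1 + (n - 1), x.2) =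
        gen (n + m) (x.1 + n, x.2) * ev (n + m) (Aw (n - 1) (m + 1)) := by
      obtain ⟨i, e⟩ := x
      cases e
      · simp only at h1 ⊢
        rw [gen_false, gen_false, mul_inv_eq_iff_eq_mul, mul_assoc, h1, ← mul_assoc,
          inv_mul_cancel, one_mul]
      · exact h1
    rw [← mul_assoc, h3, mul_assoc, ih', mul_assoc]

theorem row_neg (hr : ROW_Stmt) (hm : MIR_Stmt) {n m : ℕ} (hn : 1 ≤ n) (U : Word) (hU : Bd m U) :
    ev (n + m) (mir (Aw (n - 1) (m + 1))) * ev (n + m) (shw (n - 1) U) =
      ev (n + m) (shw n U) * ev (n + m) (mir (Aw (n - 1) (m + 1))) := by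
  have h := row_pos hr hn (mir U) (bd_mir.mpr hU)
  have h2 : ev (n + m) (Aw (n - 1) (m + 1) ++ shw (n - 1) (mir U)) =
      ev (n + m) (shw n (mir U) ++ Aw (n - 1) (m + 1)) := by
    rw [ev_append, ev_append, h]
  have h3 := hm.1 _ _ _ h2
  rw [mir_append, mir_append, shw_mir, shw_mir, mir_mir, mir_mir, ev_append, ev_append] at h3
  exact h3

end DAG

open DAG in
theorem dag (hr : ROW_Stmt) (hm : MIR_Stmt) (h : EXC_Stmt) : DAG_Stmt := by
  intro n m X U hn hX hU
  have hs : (n - 1) + 1 = n := by omega
  have hA : Bd n ([(n - 1, true)] ++ X ++ [(n - 1, true)]) := by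
    have h1 : Bd n [(n - 1, true)] := by
      intro x hx
      rw [List.mem_singleton] at hx
      rw [hx]
      simp only
      omega
    exact (h1.append hX).append h1
  have hV : Bd (n + m - 1) (shw (n - 1) U) := by
    intro x hx
    unfold shw at hx
    obtain ⟨y, hy, rfl⟩ := List.mem_map.mp hx
    have := hU y hy
    simp only
    omega
  have hpos := row_pos hr hn U hU
  have hneg := row_neg hr hm hn U hU
  rw [aw_succ, hs] at hpos hneg
  rw [mir_cons] at hneg
  rw [ev_cons] at hpos hneg
  simp only [Bool.not_true] at hneg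
  rw [gen_false] at hneg
  have hexc := h n m _ _ hA hV
  -- first word
  have e1 : meq (n + m) (X ++ [(n - 1, true), (n - 1, true)] ++ shw n U) (n + m)
      ([(n - 1, true)] ++ X ++ [(n - 1, true)] ++ mir (Aw n m) ++ shw (n - 1) U ++
        iw (mir (Aw n m))) := by
    have h1 : meq (n + m) (X ++ [(n - 1, true), (n - 1, true)] ++ shw n U) (n + m)
        ((X ++ [(n - 1, true)] ++ mir (Aw n m) ++ shw (n - 1) U ++ iw (mir (Aw n m))) ++
          [(n - 1, true)]) := by
      apply meq_of_ev
      simp only [ev_append, ev_cons, ev_nil, mul_one, ev_iw]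
      have hU' : ev (n + m) (shw n U) = (gen (n + m) (n - 1, true))⁻¹ *
          ev (n + m) (mir (Aw n m)) * ev (n + m) (shw (n - 1) U) *
          (ev (n + m) (mir (Aw n m)))⁻¹ * gen (n + m) (n - 1, true) := by
        have := (eq_mul_inv_iff_mul_eq.mpr hneg.symm)
        rw [this]
        group
      rw [hU']
      group
    refine h1.trans ?_
    have h2 := meq_conj (n + m) (X ++ [(n - 1, true)] ++ mir (Aw n m) ++ shw (n - 1) U ++
      iw (mir (Aw n m))) [(n - 1, true)]
    simpa only [List.append_assoc] using h2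
  have e2 : meq (n + m) (X ++ shw n U ++ [(n - 1, true), (n - 1, true)]) (n + m)
      ([(n - 1, true)] ++ X ++ [(n - 1, true)] ++ Aw n m ++ shw (n - 1) U ++
        iw (Aw n m)) := by
    have h1 : meq (n + m) (X ++ shw n U ++ [(n - 1, true), (n - 1, true)]) (n + m)
        ((X ++ [(n - 1, true)] ++ Aw n m ++ shw (n - 1) U ++ iw (Aw n m)) ++
          [(n - 1, true)]) := by
      apply meq_of_ev
      simp only [ev_append, ev_cons, ev_nil, mul_one, ev_iw]
      have hU' : ev (n + m) (shw n U) = gen (n + m) (n - 1, true) *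
          ev (n + m) (Aw n m) * ev (n + m) (shw (n - 1) U) *
          (ev (n + m) (Aw n m))⁻¹ * (gen (n + m) (n - 1, true))⁻¹ := by
        have := (eq_mul_inv_iff_mul_eq.mpr hpos.symm)
        rw [this]
        group
      rw [hU']
      group
    refine h1.trans ?_
    have h2 := meq_conj (n + m) (X ++ [(n - 1, true)] ++ Aw n m ++ shw (n - 1) U ++
      iw (Aw n m)) [(n - 1, true)]
    simpa only [List.append_assoc] using h2
  exact e1.trans (hexc.symm.trans e2.symm)

end Pool.Agent.GK
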