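import Pool.Agent.GK.AStmts

/-!
# DIF: the difference of `Y` at `s + w` and `s - w`
-/

namespace Pool.Agent.GK

namespace DIF

theorem sgn_congr {ι : Type} (t : Tr ι) (j : ι) {s s' : ℤ} (h : s % 2 = s' % 2) :
    sgn t j s = sgn t j s' := by
  unfold sgn
  rw [h]

theorem red_congr {ι : Type} (t : Tr ι) (j : ι) (w : ℕ) (hw : 1 ≤ w) {s s' : ℤ}
    (h : s % 2 = s' % 2) : red t j w hw s = red t j w hw s' := by
  unfold red
  simp only [h]

theorem sgn_cases {ι : Type} (t : Tr ι) (j : ι) (s : ℤ) : sgn t j s = 1 ∨ sgn t j s = -1 := by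
  unfold sgn
  split_ifs
  · exact Or.inr rfl
  · exact Or.inl rfl

theorem prod_sgn {ι : Type} (t : Tr ι) (S : Multiset ι) (s : ℤ) :
    (S.map fun j => sgn t j s).prod = 1 ∨ (S.map fun j => sgn t j s).prod = -1 := by
  induction S using Multiset.induction_on with
  | empty => exact Or.inl rfl
  | cons a S ih =>
    rw [Multiset.map_cons, Multiset.prod_cons]
    rcases sgn_cases t a s with h | h <;> rcases ih with h' | h' <;> rw [h, h'] <;> simp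

theorem U_ne {k : Type} [Field k] {U : ℚ → k} (hU : UOk U) (a : ℚ) : U a ≠ 0 := by
  intro h
  have h1 := hU.add a (-a)
  rw [add_neg_cancel, hU.zero, h, zero_mul] at h1
  exact one_ne_zero h1

variable (C : Ctx)

theorem al_mul_mem {n : ℕ} (r : KX C.k) {x : C.L} (hx : x ∈ C.V n) : C.al r * x ∈ C.V n := by
  have : C.al r * x = r • x := by
    rw [Algebra.smul_def]
    rfl
  rw [this]
  exact Submodule.smul_mem _ _ hx

/-- The products over the children. -/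
theorem prod_mem (h2 : PRD_Stmt) (g : Gen C.t) (s : ℤ)
    (hs : s % 2 = ((C.t.p g.i : ℤ) * (bt g.b + ((g.w : ℤ) - 1)) + 1) % 2) :
    ((C.t.ch g.i).map fun j => C.Y j (C.t.p g.i * g.w) s).prod -
      ((((C.t.ch g.i).map fun j =>
        sgn C.t j ((C.t.p g.i : ℤ) * (bt g.b + ((g.w : ℤ) - 1)) + 1)).prod : ℤ) : C.L) *
        C.mono (chg g) ∈ C.V (C.t.sz g.i - 1) := by
  have hpw : 1 ≤ C.t.p g.i * g.w :=
    Nat.mul_pos (lt_of_lt_of_le Nat.zero_lt_two (C.t.hp g.i)) g.hw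
  have h := h2 C ((C.t.ch g.i).map fun j => (j, ⟨C.t.p g.i * g.w, hpw⟩, s))
  rw [Multiset.map_map, Multiset.map_map, Multiset.map_map, Multiset.map_map] at h
  have e1 : ((C.t.ch g.i).map ((fun x : C.ι × {w : ℕ // 1 ≤ w} × ℤ => C.t.sz x.1) ∘ fun j =>
      (j, ⟨C.t.p g.i * g.w, hpw⟩, s))).sum = C.t.sz g.i - 1 := by
    have h3 := C.t.hsz g.i
    have h4 : ((C.t.ch g.i).map ((fun x : C.ι × {w : ℕ // 1 ≤ w} × ℤ => C.t.sz x.1) ∘ fun j =>
      (j, ⟨C.t.p g.i * g.w, hpw⟩, s))).sum = ((C.t.ch g.i).map C.t.sz).sum := rfl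
    rw [h4]
    omega
  have e2 : ((C.t.ch g.i).map ((fun x : C.ι × {w : ℕ // 1 ≤ w} × ℤ => sgn C.t x.1 x.2.2) ∘
      fun j => (j, ⟨C.t.p g.i * g.w, hpw⟩, s))) = (C.t.ch g.i).map fun j =>
        sgn C.t j ((C.t.p g.i : ℤ) * (bt g.b + ((g.w : ℤ) - 1)) + 1) := by
    apply Multiset.map_congr rfl
    intro j _
    exact sgn_congr C.t j hs
  have e3 : ((C.t.ch g.i).map ((fun x : C.ι × {w : ℕ // 1 ≤ w} × ℤ =>
      red C.t x.1 x.2.1 x.2.1.2 x.2.2) ∘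
      fun j => (j, ⟨C.t.p g.i * g.w, hpw⟩, s))) = chg g := by
    unfold chg
    apply Multiset.map_congr rfl
    intro j _
    exact red_congr C.t j _ _ hs
  rw [e1, e2, e3] at h
  exact h

end DIF

open DIF in
/-- DIF: the difference of `Y` at `s + w` and `s - w`. -/
theorem dif (h : BASE_Stmt) (h1 : VMUL_Stmt) (h2 : PRD_Stmt) : DIF_Stmt := by
  have _ := h
  have _ := h1
  intro C g
  obtain ⟨ε, hε⟩ : ∃ ε : ℤ, ε = ((C.t.ch g.i).map fun j =>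
        sgn C.t j ((C.t.p g.i : ℤ) * (bt g.b + ((g.w : ℤ) - 1)) + 1)).prod := ⟨_, rfl⟩
  obtain ⟨κ, hκ⟩ : ∃ κ : ℚ, κ = (C.t.p g.i : ℚ) * C.t.q g.i / 2 - C.t.q g.i / (2 * C.t.p g.i) :=
    ⟨_, rfl⟩
  have hε1 : (ε : C.k) ≠ 0 := by
    rcases prod_sgn C.t (C.t.ch g.i)
      ((C.t.p g.i : ℤ) * (bt g.b + ((g.w : ℤ) - 1)) + 1) with h | h
    · rw [hε, h]
      simp
    · rw [hε, h]
      simp
  refine ⟨C.U κ * (ε : C.k), mul_ne_zero (U_ne C.hU κ) hε1, ?_⟩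
  -- the sum
  have tel : C.Y g.i g.w (bt g.b + g.w) - C.Y g.i g.w (bt g.b - g.w) =
      ∑ n ∈ Finset.range g.w,
        (C.Y g.i g.w ((bt g.b + (2 * (n : ℤ) - ((g.w : ℤ) - 1))) + 1) -
          C.Y g.i g.w ((bt g.b + (2 * (n : ℤ) - ((g.w : ℤ) - 1))) - 1)) := by
    have h3 := Finset.sum_range_sub (fun n : ℕ => C.Y g.i g.w (bt g.b - g.w + 2 * (n : ℤ))) g.w
    have h4 : bt g.b - (g.w : ℤ) + 2 * ((g.w : ℕ) : ℤ) = bt g.b + g.w := by ring
    have h5 : bt g.b - (g.w : ℤ) + 2 * ((0 : ℕ) : ℤ) = bt g.b - g.w := by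
      push_cast
      ring
    rw [h4, h5] at h3
    rw [← h3]
    refine Finset.sum_congr rfl fun n _ => ?_
    have h6 : bt g.b - (g.w : ℤ) + 2 * ((n + 1 : ℕ) : ℤ) =
        (bt g.b + (2 * (n : ℤ) - ((g.w : ℤ) - 1))) + 1 := by
      push_cast
      ring
    have h7 : bt g.b - (g.w : ℤ) + 2 * ((n : ℕ) : ℤ) =
        (bt g.b + (2 * (n : ℤ) - ((g.w : ℤ) - 1))) - 1 := by
      ring
    rw [h6, h7]
  have hR : C.al (cst (C.U κ * (ε : C.k)) * Rf C.U (atg g)) * C.mono (chg g) =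
      ∑ n ∈ Finset.range g.w, C.al (cst (C.U κ)) *
        (C.al (Tt C.U (C.t.p g.i) (C.t.Q g.i) g.w (Multiset.card (C.t.ch g.i))
            (C.t.p g.i * (bt g.b + (2 * (n : ℤ) - ((g.w : ℤ) - 1))) + 1)) *
            ((ε : C.L) * C.mono (chg g)) -
          C.al (Tt C.U (C.t.p g.i) (C.t.Q g.i) g.w (Multiset.card (C.t.ch g.i))
            (C.t.p g.i * (bt g.b + (2 * (n : ℤ) - ((g.w : ℤ) - 1))) - 1)) *
            ((ε : C.L) * C.mono (chg g))) := by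
    have h3 : (cst (C.U κ * (ε : C.k)) : KX C.k) = cst (C.U κ) * (ε : KX C.k) := by
      rw [map_mul, map_intCast]
    rw [h3, map_mul, map_mul, map_intCast]
    unfold Rf
    rw [map_sum, Finset.mul_sum, Finset.sum_mul]
    refine Finset.sum_congr rfl fun n _ => ?_
    rw [map_sub]
    change C.al (cst (C.U κ)) * (ε : C.L) *
      (C.al (Tt C.U (C.t.p g.i) (C.t.Q g.i) g.w (Multiset.card (C.t.ch g.i))
            (C.t.p g.i * (bt g.b + (2 * (n : ℤ) - ((g.w : ℤ) - 1))) + 1)) -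
        C.al (Tt C.U (C.t.p g.i) (C.t.Q g.i) g.w (Multiset.card (C.t.ch g.i))
            (C.t.p g.i * (bt g.b + (2 * (n : ℤ) - ((g.w : ℤ) - 1))) - 1))) *
        C.mono (chg g) = _
    ring
  rw [tel, hR, ← Finset.sum_sub_distrib]
  refine Submodule.sum_mem _ fun n _ => ?_
  have h3 := C.rec1 g.i g.w (bt g.b + (2 * (n : ℤ) - ((g.w : ℤ) - 1))) g.hw
  rw [← hκ] at h3
  rw [h3]
  have hpar : ∀ d : ℤ, (d = 1 ∨ d = -1) →
      ((C.t.p g.i : ℤ) * (bt g.b + (2 * (n : ℤ) - ((g.w : ℤ) - 1))) + d) % 2 =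
      ((C.t.p g.i : ℤ) * (bt g.b + ((g.w : ℤ) - 1)) + 1) % 2 := by
    intro d hd
    have h4 : ((C.t.p g.i : ℤ) * (bt g.b + (2 * (n : ℤ) - ((g.w : ℤ) - 1))) + d) =
      ((C.t.p g.i : ℤ) * (bt g.b + ((g.w : ℤ) - 1)) + 1) +
        2 * ((C.t.p g.i : ℤ) * ((n : ℤ) - ((g.w : ℤ) - 1))) + (d - 1) := by ring
    rw [h4]
    rcases hd with rfl | rfl <;> omega
  have m1 := prod_mem C h2 g
    ((C.t.p g.i : ℤ) * (bt g.b + (2 * (n : ℤ) - ((g.w : ℤ) - 1))) + 1) (hpar 1 (Or.inl rfl))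
  have m2 := prod_mem C h2 g
    ((C.t.p g.i : ℤ) * (bt g.b + (2 * (n : ℤ) - ((g.w : ℤ) - 1))) - 1)
    (hpar (-1) (Or.inr rfl))
  rw [← hε] at m1 m2
  have m3 := al_mul_mem C (Tt C.U (C.t.p g.i) (C.t.Q g.i) g.w (Multiset.card (C.t.ch g.i))
            (C.t.p g.i * (bt g.b + (2 * (n : ℤ) - ((g.w : ℤ) - 1))) + 1)) m1
  have m4 := al_mul_mem C (Tt C.U (C.t.p g.i) (C.t.Q g.i) g.w (Multiset.card (C.t.ch g.i))
            (C.t.p g.i * (bt g.b + (2 * (n : ℤ) - ((g.w : ℤ) - 1))) - 1)) m2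
  have m5 := al_mul_mem C (cst (C.U κ)) (Submodule.sub_mem _ m3 m4)
  rw [mul_sub (C.al (Tt _ _ _ _ _ _)), mul_sub (C.al (Tt _ _ _ _ _ _))] at m5
  have e : ∀ a A B A' B' : C.L, a * (A - B) - a * (A' - B') = a * (A - A' - (B - B')) := by
    intro a A B A' B'
    ring
  exact (e _ _ _ _ _).symm ▸ m5

end Pool.Agent.GK
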