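import Pool.Agent.IT.Cls

/-!
# Graph knots
-/

namespace Pool.Agent.GK

open Pool.Agent.LibH11 Pool.Agent.IT

/-- The connected sum of the closures of a word `u` on `n + 1` strands and of a word `w`: the
last strand of `u` is the first strand of `w`. -/
def csum (n : ℕ) (u w : Word) : Word := u ++ shw n w

/-- Graph knots: the smallest class of knots that contains the unknot and is closed under
`(p, q)`-cabling, `p` and `q` relatively prime, and under connected sum. -/
inductive GraphKnot : Knot → Prop
  | unknot : GraphKnot unknot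
  | cable (n : ℕ) (w : Word) (h : IsKnot (ev n w)) (p : ℕ) (q : ℤ)
      (h' : IsKnot (ev (p * (n + 1) - 1) (cab p q w))) : (∀ x ∈ w, x.1 < n) → 1 ≤ p →
      Int.gcd p q = 1 → GraphKnot (closure (ev n w) h) →
      GraphKnot (closure (ev (p * (n + 1) - 1) (cab p q w)) h')
  | sum (n m : ℕ) (u w : Word) (hu : IsKnot (ev n u)) (hw : IsKnot (ev m w))
      (h : IsKnot (ev (n + m) (csum n u w))) : (∀ x ∈ u, x.1 < n) → (∀ x ∈ w, x.1 < m) →
      GraphKnot (closure (ev n u) hu) → GraphKnot (closure (ev m w) hw) →
      GraphKnot (closure (ev (n + m) (csum n u w)) h)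

end Pool.Agent.GK
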