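import Pool.Agent.GK.TStmts

/-!
Graph knots: the exchange move with a block of strands.
-/

namespace Pool.Agent.GK

open Pool.Agent.LibH11 Pool.Agent.IT

namespace EXC

theorem meq_of_delta {N : ℕ} {u w : Word} (δ : Br N) (h : δ * ev N u = ev N w * δ) :
    meq N u N w := by
  unfold meq
  have h1 := MarkovMove.conj N δ (ev N u)
  have h2 : δ * ev N u * δ⁻¹ = ev N w := by
    rw [h, mul_inv_cancel_right]
  rw [h2] at h1
  exact Relation.EqvGen.rel _ _ h1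

theorem conj {G : Type*} [Group G] (S R s t : G) (h : S * R * t = s * S * R) :
    R * t⁻¹ * R⁻¹ = S⁻¹ * s⁻¹ * S := by
  have h' : s = S * R * t * R⁻¹ * S⁻¹ := by rw [h]; group
  rw [h']
  group

theorem grp {G : Type*} [Group G] (a v Sp Sm Rp Rm s t : G)
    (h1 : Sp * Rp * t = s * Sp * Rp) (h2 : Sm * Rm * t = s * Sm * Rm)
    (h3 : Sm * Rp * t = s * Sp * Rm) (c1 : Commute a Sp) (c2 : Commute a Sm)
    (c3 : Commute v t) :
    (Sp⁻¹ * Sm) * (a * Rm * t⁻¹ * (Rm⁻¹ * Rp * v * Rp⁻¹)) =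
      (a * Rm * v * Rm⁻¹ * Rp * t⁻¹ * Rp⁻¹) * (Sp⁻¹ * Sm) := by
  have e2 : Rm * t⁻¹ * Rm⁻¹ = Sm⁻¹ * s⁻¹ * Sm := conj _ _ _ _ h2
  have e3 : s⁻¹ * Sm * Rp = Sp * Rm * t⁻¹ := by
    calc s⁻¹ * Sm * Rp = s⁻¹ * (Sm * Rp * t) * t⁻¹ := by group
      _ = Sp * Rm * t⁻¹ := by rw [h3]; group
  have e4 : t⁻¹ * Rp⁻¹ * Sm⁻¹ = Rm⁻¹ * Sp⁻¹ * s⁻¹ := by
    calc t⁻¹ * Rp⁻¹ * Sm⁻¹ = (Sm * Rp * t)⁻¹ := by group
      _ = Rm⁻¹ * Sp⁻¹ * s⁻¹ := by rw [h3]; group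
  have e1 : Sp⁻¹ * s⁻¹ * Sp = Rp * t⁻¹ * Rp⁻¹ := (conj _ _ _ _ h1).symm
  have d1 : Sm * a = a * Sm := c2.eq.symm
  have d2 : Sp⁻¹ * a = a * Sp⁻¹ := (c1.inv_right).eq.symm
  have d3 : t⁻¹ * v = v * t⁻¹ := (c3.inv_right).eq.symm
  calc (Sp⁻¹ * Sm) * (a * Rm * t⁻¹ * (Rm⁻¹ * Rp * v * Rp⁻¹))
      = Sp⁻¹ * (Sm * a) * (Rm * t⁻¹ * Rm⁻¹) * (Rp * v * Rp⁻¹) := by group
    _ = Sp⁻¹ * a * (s⁻¹ * Sm * Rp) * v * Rp⁻¹ := by rw [d1, e2]; group
    _ = Sp⁻¹ * a * Sp * Rm * (t⁻¹ * v) * Rp⁻¹ := by rw [e3]; group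
    _ = Sp⁻¹ * a * Sp * Rm * v * (t⁻¹ * Rp⁻¹ * Sm⁻¹) * Sm := by rw [d3]; group
    _ = (Sp⁻¹ * a) * Sp * Rm * v * Rm⁻¹ * (Sp⁻¹ * s⁻¹ * Sp) * Sp⁻¹ * Sm := by rw [e4]; group
    _ = (a * Rm * v * Rm⁻¹ * Rp * t⁻¹ * Rp⁻¹) * (Sp⁻¹ * Sm) := by rw [d2, e1]; group

theorem bd_Aw (s m : ℕ) : Bd (s + m) (Aw s m) := by
  intro x hx
  unfold Aw at hx
  obtain ⟨i, hi, rfl⟩ := List.mem_map.mp hx
  have := List.mem_range.mp hi
  simp only
  omega

theorem mem_Aw {s m : ℕ} {x : ℕ × Bool} (hx : x ∈ Aw s m) : s ≤ x.1 := by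
  unfold Aw at hx
  obtain ⟨i, hi, rfl⟩ := List.mem_map.mp hx
  simp only
  omega

theorem mem_mir {w : Word} {x : ℕ × Bool} (hx : x ∈ mir w) : ∃ y ∈ w, x.1 = y.1 := by
  unfold mir at hx
  obtain ⟨y, hy, rfl⟩ := List.mem_map.mp hx
  exact ⟨y, hy, rfl⟩

end EXC

open EXC in
theorem exc (h : YBF_Stmt) : EXC_Stmt := by
  intro n m A V hA hV
  obtain ⟨h1, h2, h3⟩ := h (n + m + 1) n m (by omega)
  have hAN : Bd (n + m) A := hA.mono (by omega)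
  have hVN : Bd (n + m) V := hV.mono (by omega)
  have hR : Bd (n + m) (Aw n m) := bd_Aw n m
  have hR' : Bd (n + m) (mir (Aw n m)) := bd_mir.mpr hR
  have c1 : Commute (ev (n + m + 1) A) (ev (n + m + 1) (Aw (n + 1) m)) := by
    apply ev_far
    intro x hx y hy
    have := hA x hx
    have := mem_Aw hy
    left
    omega
  have c2 : Commute (ev (n + m + 1) A) (ev (n + m + 1) (mir (Aw (n + 1) m))) := by
    apply ev_far
    intro x hx y hy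
    have := hA x hx
    obtain ⟨z, hz, hyz⟩ := mem_mir hy
    have := mem_Aw hz
    left
    omega
  have c3 : Commute (ev (n + m + 1) V) (gen (n + m + 1) (n + m, true)) := by
    rw [← ev_single]
    apply ev_far
    intro x hx y hy
    have := hV x hx
    rw [List.mem_singleton] at hy
    rw [hy]
    left
    simp only
    omega
  have s1 : meq (n + m) (A ++ Aw n m ++ V ++ iw (Aw n m)) (n + m + 1)
      ((A ++ mir (Aw n m)) ++ [(n + m, false)] ++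
        (iw (mir (Aw n m)) ++ Aw n m ++ V ++ iw (Aw n m))) := by
    have a1 := meq_destab (n + m) (A ++ mir (Aw n m))
      (iw (mir (Aw n m)) ++ Aw n m ++ V ++ iw (Aw n m)) false (hAN.append hR')
      ((((bd_iw.mpr hR').append hR).append hVN).append (bd_iw.mpr hR))
    refine meq.trans (meq_of_ev ?_) a1.symm
    simp only [ev_append, ev_iw]
    group
  have s2 : meq (n + m + 1) ((A ++ mir (Aw n m)) ++ [(n + m, false)] ++
        (iw (mir (Aw n m)) ++ Aw n m ++ V ++ iw (Aw n m))) (n + m + 1)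
      ((A ++ mir (Aw n m) ++ V ++ iw (mir (Aw n m)) ++ Aw n m) ++ [(n + m, false)] ++
        iw (Aw n m)) := by
    apply meq_of_delta ((ev (n + m + 1) (Aw (n + 1) m))⁻¹ *
      ev (n + m + 1) (mir (Aw (n + 1) m)))
    simp only [ev_append, ev_iw, ev_single, gen_false]
    exact grp _ _ _ _ _ _ _ _ h1 h2 h3 c1 c2 c3
  have s3 : meq (n + m + 1)
      ((A ++ mir (Aw n m) ++ V ++ iw (mir (Aw n m)) ++ Aw n m) ++ [(n + m, false)] ++
        iw (Aw n m)) (n + m) (A ++ mir (Aw n m) ++ V ++ iw (mir (Aw n m))) := by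
    have a1 := meq_destab (n + m) (A ++ mir (Aw n m) ++ V ++ iw (mir (Aw n m)) ++ Aw n m)
      (iw (Aw n m)) false ((((hAN.append hR').append hVN).append (bd_iw.mpr hR')).append hR)
      (bd_iw.mpr hR)
    refine meq.trans a1 (meq_of_ev ?_)
    simp only [ev_append, ev_iw]
    group
  exact (s1.trans s2).trans s3

end Pool.Agent.GK
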