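import Pool.Agent.GK.SQA

/-!
# EXPN: the operator `L_c` on a monomial of slope `c`
-/

namespace Pool.Agent.GK
open scoped BigOperators

namespace EXPN

open Classical

variable (C : Ctx)

theorem U_ne {k : Type} [Field k] {U : ℚ → k} (hU : UOk U) (a : ℚ) : U a ≠ 0 := by
  intro h
  have h1 := hU.add a (-a)
  rw [add_neg_cancel, hU.zero, h, zero_mul] at h1
  exact one_ne_zero h1

/-- the point `t + w` -/
def pl {t : Tr C.ι} (g : Gen t) : ℤ := bt g.b + g.w

/-- the point `t - w` -/
def mi {t : Tr C.ι} (g : Gen t) : ℤ := bt g.b - g.w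

theorem lv_cons {ι : Type} {t : Tr ι} (g : Gen t) (M : Multiset (Gen t)) :
    lv (g ::ₘ M) = t.sz g.i + lv M := by
  unfold lv
  rw [Multiset.map_cons, Multiset.sum_cons]

theorem lv_add {ι : Type} {t : Tr ι} (M N : Multiset (Gen t)) :
    lv (M + N) = lv M + lv N := by
  unfold lv
  rw [Multiset.map_add, Multiset.sum_add]

theorem lv_shp {ι : Type} {t : Tr ι} (M : Multiset (Gen t)) : lv (M.map shp) = lv M := by
  unfold lv
  rw [Multiset.map_map]
  rfl

theorem lv_chg {ι : Type} {t : Tr ι} (g : Gen t) : lv (chg g) + 1 = t.sz g.i := by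
  have h := t.hsz g.i
  have h1 : lv (chg g) = ((t.ch g.i).map t.sz).sum := by
    unfold lv chg
    rw [Multiset.map_map]
    rfl
  omega

theorem sz_pos {ι : Type} (t : Tr ι) (i : ι) : 1 ≤ t.sz i := by
  have h := t.hsz i
  omega

theorem lv_erase {ι : Type} {t : Tr ι} {g : Gen t} {M : Multiset (Gen t)} (h : g ∈ M) :
    lv M = t.sz g.i + lv (M.erase g) := by
  rw [← lv_cons, Multiset.cons_erase h]

theorem lv_rmv {ι : Type} {t : Tr ι} {g : Gen t} {M : Multiset (Gen t)} (h : g ∈ M) :
    lv (rmv M g) = lv M - 1 := by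
  have h1 := lv_erase h
  have h2 := lv_chg g
  have h3 : lv (rmv M g) = lv (chg g) + lv (M.erase g) := by
    unfold rmv
    rw [lv_add, lv_shp]
  omega

/-- the sign of the other factors -/
noncomputable def sg1 (M : Multiset (Gen C.t)) (g : Gen C.t) : ℤ :=
  SQA.sgm C (fun g => bt g.b + g.w) (M.erase g)

theorem sg1_ne (M : Multiset (Gen C.t)) (g : Gen C.t) : (sg1 C M g : C.k) ≠ 0 := by
  unfold sg1
  rcases SQA.sgm_pm C (fun g => bt g.b + g.w) (M.erase g) with h | h
  · rw [h]
    simp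
  · rw [h]
    simp

/-- the term of `g` -/
noncomputable def term (μ : Gen C.t → C.k) (M : Multiset (Gen C.t)) (g : Gen C.t) : C.L :=
  C.al (cst (μ g * (sg1 C M g : C.k)) * Rf C.U (atg g)) * C.mono (rmv M g)

theorem term_mem (h1 : VMUL_Stmt) (μ : Gen C.t → C.k) {M : Multiset (Gen C.t)} {g : Gen C.t}
    (hg : g ∈ M) : term C μ M g ∈ C.V (lv M - 1 + 1) := by
  refine SQA.al_mul_mem C _ (SQA.mono_mem C h1 ?_)
  rw [lv_rmv hg]

theorem sum_mem' (h1 : VMUL_Stmt) (μ : Gen C.t → C.k) (M : Multiset (Gen C.t)) :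
    (M.map (term C μ M)).sum ∈ C.V (lv M - 1 + 1) := by
  refine multiset_sum_mem _ fun a ha => ?_
  obtain ⟨g, hg, rfl⟩ := Multiset.mem_map.1 ha
  exact term_mem C h1 μ hg

theorem mono_add (h1 : VMUL_Stmt) (M N : Multiset (Gen C.t)) :
    C.mono (M + N) = C.mono M * C.mono N := (h1 C 0 0 0 0).2.2.2.2 M N

theorem mono_one (g : Gen C.t) : C.mono (g ::ₘ 0) = C.yg g := by
  unfold Ctx.mono
  simp

/-- one factor -/
theorem one (h2 : PRD_Stmt) (g : Gen C.t) :
    C.Y g.i g.w (bt g.b - g.w) - (sgn C.t g.i (bt g.b + g.w) : C.L) * C.mono (shp g ::ₘ 0) ∈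
      C.V (C.t.sz g.i) := by
  have h := SQA.prdm C h2 (fun g => bt g.b - g.w) (g ::ₘ 0)
  have e1 : SQA.prd C (fun g => bt g.b - g.w) (g ::ₘ 0) = C.Y g.i g.w (bt g.b - g.w) := by
    rw [SQA.prd_cons, SQA.prd_zero, mul_one]
  have e2 : SQA.sgm C (fun g => bt g.b - g.w) (g ::ₘ 0) = sgn C.t g.i (bt g.b + g.w) := by
    unfold SQA.sgm
    simp only [Multiset.map_cons, Multiset.map_zero, Multiset.prod_cons, Multiset.prod_zero,
      mul_one]
    exact SQA.sgn_minus C g
  have e3 : SQA.rdm C (fun g => bt g.b - g.w) (g ::ₘ 0) = shp g ::ₘ 0 := by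
    unfold SQA.rdm
    simp only [Multiset.map_cons, Multiset.map_zero]
    rw [SQA.red_minus]
  have e4 : lv (g ::ₘ 0) = C.t.sz g.i := by
    rw [lv_cons]
    unfold lv
    simp
  rw [e1, e2, e3, e4] at h
  exact h

/-- the difference of the products -/
theorem core (h1 : VMUL_Stmt) (h2 : PRD_Stmt) (μ : Gen C.t → C.k)
    (hμ : ∀ g : Gen C.t, C.Y g.i g.w (bt g.b + g.w) - C.Y g.i g.w (bt g.b - g.w) -
      C.al (cst (μ g) * Rf C.U (atg g)) * C.mono (chg g) ∈ C.V (C.t.sz g.i - 1))
    (M : Multiset (Gen C.t)) :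
    SQA.prd C (fun g => bt g.b + g.w) M - SQA.prd C (fun g => bt g.b - g.w) M -
      (M.map (term C μ M)).sum ∈ C.V (lv M - 1) := by
  induction M using Multiset.induction_on with
  | empty =>
    rw [SQA.prd_zero, SQA.prd_zero]
    simp
  | cons a M ih =>
    have hz := sz_pos C.t a.i
    have hlv : lv (a ::ₘ M) = C.t.sz a.i + lv M := lv_cons a M
    -- the first part
    have p1 : (C.Y a.i a.w (bt a.b + a.w) - C.Y a.i a.w (bt a.b - a.w)) *
        SQA.prd C (fun g => bt g.b + g.w) M - term C μ (a ::ₘ M) a ∈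
          C.V (lv (a ::ₘ M) - 1) := by
      have q := (h1 C (C.t.sz a.i - 1) (lv M)
        (C.Y a.i a.w (bt a.b + a.w) - C.Y a.i a.w (bt a.b - a.w))
        (SQA.prd C (fun g => bt g.b + g.w) M)).2.2.2.1
        (C.al (cst (μ a) * Rf C.U (atg a)) * C.mono (chg a))
        ((SQA.sgm C (fun g => bt g.b + g.w) M : C.L) * C.mono (M.map shp)) ?_ ?_ (hμ a) ?_
      · have e1 : C.t.sz a.i - 1 + lv M = lv (a ::ₘ M) - 1 := by omega
        have e2 : C.al (cst (μ a) * Rf C.U (atg a)) * C.mono (chg a) *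
            ((SQA.sgm C (fun g => bt g.b + g.w) M : C.L) * C.mono (M.map shp)) =
            term C μ (a ::ₘ M) a := by
          unfold term sg1 rmv
          rw [Multiset.erase_cons_head, mono_add C h1, map_mul cst, map_intCast, map_mul C.al,
            map_mul C.al, map_mul C.al, map_intCast]
          ring
        rw [e1, e2] at q
        exact q
      · refine SQA.al_mul_mem C _ (SQA.mono_mem C h1 ?_)
        have := lv_chg a
        omega
      · have e3 : (SQA.sgm C (fun g => bt g.b + g.w) M : C.L) * C.mono (M.map shp) =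
            C.al (SQA.sgm C (fun g => bt g.b + g.w) M : KX C.k) * C.mono (M.map shp) := by
          rw [map_intCast]
        rw [e3]
        exact SQA.al_mul_mem C _ (SQA.mono_mem C h1 (lv_shp M).le)
      · exact SQA.prdm C h2 (fun g => bt g.b + g.w) M
    -- the second part
    have p2 : C.Y a.i a.w (bt a.b - a.w) * (SQA.prd C (fun g => bt g.b + g.w) M -
        SQA.prd C (fun g => bt g.b - g.w) M) - (M.map (term C μ (a ::ₘ M))).sum ∈
          C.V (lv (a ::ₘ M) - 1) := by
      by_cases hM : M = 0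
      · rw [hM, SQA.prd_zero, SQA.prd_zero]
        simp
      obtain ⟨g0, hg0⟩ := Multiset.exists_mem_of_ne_zero hM
      have hlM : 1 ≤ lv M := by
        have q1 := lv_erase hg0
        have q2 := sz_pos C.t g0.i
        omega
      have q := (h1 C (C.t.sz a.i) (lv M - 1) (C.Y a.i a.w (bt a.b - a.w))
        (SQA.prd C (fun g => bt g.b + g.w) M - SQA.prd C (fun g => bt g.b - g.w) M)).2.2.2.1
        ((sgn C.t a.i (bt a.b + a.w) : C.L) * C.mono (shp a ::ₘ 0))
        ((M.map (term C μ M)).sum) ?_ (sum_mem' C h1 μ M) (one C h2 a) ih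
      · have e1 : C.t.sz a.i + (lv M - 1) = lv (a ::ₘ M) - 1 := by omega
        have e2 : (sgn C.t a.i (bt a.b + a.w) : C.L) * C.mono (shp a ::ₘ 0) *
            (M.map (term C μ M)).sum = (M.map (term C μ (a ::ₘ M))).sum := by
          rw [← Multiset.sum_map_mul_left]
          congr 1
          refine Multiset.map_congr rfl fun g hg => ?_
          have e3 : (a ::ₘ M).erase g = a ::ₘ M.erase g := by
            by_cases hga : g = a
            · rw [hga, Multiset.erase_cons_head, Multiset.cons_erase (hga ▸ hg)]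
            · exact Multiset.erase_cons_tail M (fun h => hga h.symm)
          have e4 : rmv (a ::ₘ M) g = (shp a ::ₘ 0) + rmv M g := by
            unfold rmv
            rw [e3, Multiset.map_cons, ← Multiset.singleton_add (shp a)]
            change _ = ({shp a} : Multiset (Gen C.t)) + (chg g + Multiset.map shp (M.erase g))
            rw [add_left_comm]
          have e5 : sg1 C (a ::ₘ M) g = sgn C.t a.i (bt a.b + a.w) * sg1 C M g := by
            unfold sg1
            rw [e3]
            unfold SQA.sgm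
            rw [Multiset.map_cons, Multiset.prod_cons]
          unfold term
          rw [e4, e5, mono_add C h1, Int.cast_mul, map_mul cst, map_mul cst, map_mul cst,
            map_intCast, map_intCast, map_mul C.al, map_mul C.al, map_mul C.al, map_mul C.al,
            map_mul C.al, map_intCast, map_intCast]
          ring
        rw [e1, e2] at q
        exact q
      · have e3 : (sgn C.t a.i (bt a.b + a.w) : C.L) * C.mono (shp a ::ₘ 0) =
            C.al (sgn C.t a.i (bt a.b + a.w) : KX C.k) * C.mono (shp a ::ₘ 0) := by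
          rw [map_intCast]
        rw [e3]
        refine SQA.al_mul_mem C _ (SQA.mono_mem C h1 ?_)
        rw [lv_cons]
        unfold lv
        simp only [Multiset.map_zero, Multiset.sum_zero, add_zero]
        exact le_rfl
    have p3 := Submodule.add_mem _ p1 p2
    rw [SQA.prd_cons, SQA.prd_cons, Multiset.map_cons, Multiset.sum_cons]
    have e : ∀ A B A' B' x y : C.L, A * A' - B * B' - (x + y) =
        (A - B) * A' - x + (B * (A' - B') - y) := by
      intro A B A' B' x y
      ring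
    rw [e]
    exact p3

end EXPN

/-- EXPN: the operator `L_c` on a monomial of slope `c`. -/
theorem expn (h : BASE_Stmt) (h1 : VMUL_Stmt) (h2 : PRD_Stmt) (h3 : DIF_Stmt) : EXPN_Stmt := by
  intro C M
  choose μ hμ0 hμ using h3 C
  refine ⟨fun g => C.U ((-1 / 2 : ℚ) * cs M) * (μ g * (EXPN.sg1 C M g : C.k)), fun g =>
    mul_ne_zero (EXPN.U_ne C.hU _) (mul_ne_zero (hμ0 g) (EXPN.sg1_ne C M g)), ?_⟩
  have A1 := SQA.gen C h C.sg (-1 / 2) (-1) (fun g => bt g.b) (fun g => bt g.b + g.w)
    (fun g => SQA.sg_Y C g _) M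
  have A2 := SQA.gen C h C.sg.symm (-1 / 2) 1 (fun g => bt g.b) (fun g => bt g.b - g.w)
    (fun g => SQA.sgs_Y C h g _) M
  have hx : ∀ n : ℤ, (xe n : KX C.k) = SQA.fac C 0 n := by
    intro n
    unfold SQA.fac
    rw [C.hU.zero, map_one, one_mul]
  have hf : SQA.fac C ((-1 / 2 : ℚ) * cs M) 0 = cst (C.U ((-1 / 2 : ℚ) * cs M)) := by
    unfold SQA.fac
    rw [(h C.k).2.1, mul_one]
  have B1 : C.al (xe (cs M)) * C.sg (C.mono M) = C.al (cst (C.U ((-1 / 2 : ℚ) * cs M))) *
      SQA.prd C (fun g => bt g.b + g.w) M := by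
    rw [SQA.mono_eq, A1, ← mul_assoc, ← map_mul, hx, SQA.fac_mul C h]
    have e1 : (0 : ℚ) + (-1 / 2 : ℚ) * cs M = (-1 / 2 : ℚ) * cs M := by ring
    have e2 : cs M + -1 * cs M = 0 := by ring
    rw [e1, e2, hf]
  have B2 : C.al (xe (-(cs M))) * C.sg.symm (C.mono M) =
      C.al (cst (C.U ((-1 / 2 : ℚ) * cs M))) * SQA.prd C (fun g => bt g.b - g.w) M := by
    rw [SQA.mono_eq, A2, ← mul_assoc, ← map_mul, hx, SQA.fac_mul C h]
    have e1 : (0 : ℚ) + (-1 / 2 : ℚ) * cs M = (-1 / 2 : ℚ) * cs M := by ring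
    have e2 : -(cs M) + 1 * cs M = 0 := by ring
    rw [e1, e2, hf]
  have B3 : (M.map fun g => C.al (cst (C.U ((-1 / 2 : ℚ) * cs M) * (μ g * (EXPN.sg1 C M g : C.k)))
      * Rf C.U (atg g)) * C.mono (rmv M g)).sum =
      C.al (cst (C.U ((-1 / 2 : ℚ) * cs M))) * (M.map (EXPN.term C μ M)).sum := by
    rw [← Multiset.sum_map_mul_left]
    congr 1
    refine Multiset.map_congr rfl fun g _ => ?_
    unfold EXPN.term
    rw [map_mul cst, mul_assoc (cst _) (cst _) (Rf _ _), map_mul C.al, mul_assoc]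
  rw [B1, B2, B3, ← mul_sub, ← mul_sub]
  exact SQA.al_mul_mem C _ (EXPN.core C h1 h2 μ hμ M)

end Pool.Agent.GK
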