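import Pool.Agent.GK.JStmts

/-!
# FAM: the series of the primes and of their sums
-/

namespace Pool.Agent.GK
open Pool.Agent.LibH11 Pool.Agent.IT
open scoped BigOperators
open PowerSeries

namespace FAM

theorem uniq (hi : EVI_Stmt) {v : ℕ → Knot → ℚ⟦X⟧} {K : Knot} {G G' : B} (h : Ser v K G)
    (h' : Ser v K G') : G = G' := by
  refine hi G G' fun N => ?_
  rw [h.2 N, h'.2 N]

theorem sums (h0 : SERU_Stmt) (h2 : SERS_Stmt) (M : CommMonoid Knot)
    (cb : ℕ → ℤ → Knot → Knot) (v : ℕ → Knot → ℚ⟦X⟧) (hO : Ops M cb) (hV : VOk M cb v)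
    {ι : Type} (kn : ι → Knot) (G : ι → B) :
    ∀ S : Multiset ι, (∀ i ∈ S, Ser v (kn i) (G i)) →
      ∃ H : B, Ser v (@Multiset.prod Knot M (S.map kn)) H ∧
        H * fu ^ (Multiset.card S) = fu * (S.map G).prod := by
  intro S
  induction S using Multiset.induction_on with
  | empty =>
    intro _
    refine ⟨fu, ?_, ?_⟩
    · rw [Multiset.map_zero, @Multiset.prod_zero Knot M]
      have h := h0 M cb v hV
      rw [← hO.one] at h
      exact h
    · simp
  | cons i S ih =>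
    intro hS
    obtain ⟨H, hH, hH'⟩ := ih fun j hj => hS j (Multiset.mem_cons_of_mem hj)
    obtain ⟨G'', hG, hG'⟩ := h2 M cb v hV (kn i) _ (G i) H (hS i (Multiset.mem_cons_self i S)) hH
    refine ⟨G'', ?_, ?_⟩
    · rw [Multiset.map_cons, @Multiset.prod_cons Knot M]
      exact hG
    · rw [Multiset.card_cons, Multiset.map_cons, Multiset.prod_cons]
      calc G'' * fu ^ (Multiset.card S + 1) = (G'' * fu) * fu ^ (Multiset.card S) := by ring
        _ = G i * (H * fu ^ (Multiset.card S)) := by rw [hG']; ring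
        _ = fu * (G i * (S.map G).prod) := by rw [hH']; ring

theorem q_ne {ι : Type} (t : Tr ι) (i : ι) : t.q i ≠ 0 := by
  intro hq
  have h := t.hg i
  have h' := t.hp i
  rw [hq, Int.gcd_zero_right, Int.natAbs_natCast] at h
  omega

theorem sz_lt {ι : Type} (t : Tr ι) {i j : ι} (h : j ∈ t.ch i) : t.sz j < t.sz i := by
  rw [t.hsz i]
  have := Multiset.single_le_sum (s := (t.ch i).map t.sz) (fun _ _ => Nat.zero_le _) (t.sz j)
    (Multiset.mem_map_of_mem _ h)
  omega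

theorem prim (h0 : SERU_Stmt) (h1 : SERC_Stmt) (h2 : SERS_Stmt) (M : CommMonoid Knot)
    (cb : ℕ → ℤ → Knot → Knot) (v : ℕ → Knot → ℚ⟦X⟧) (hO : Ops M cb) (hV : VOk M cb v)
    {ι : Type} (t : Tr ι) (kn : ι → Knot)
    (hkn : ∀ i, kn i = cb (t.p i) (t.q i) (@Multiset.prod Knot M ((t.ch i).map kn))) :
    ∀ n : ℕ, ∀ i : ι, t.sz i = n → ∃ G : B, Ser v (kn i) G := by
  classical
  intro n
  induction n using Nat.strong_induction_on with
  | _ n ih =>
    intro i hi
    have hch : ∀ j : ι, ∃ G : B, j ∈ t.ch i → Ser v (kn j) G := by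
      intro j
      by_cases hj : j ∈ t.ch i
      · obtain ⟨G, hG⟩ := ih (t.sz j) (hi ▸ sz_lt t hj) j rfl
        exact ⟨G, fun _ => hG⟩
      · exact ⟨0, fun h => absurd h hj⟩
    choose G hG using hch
    obtain ⟨H, hH, _⟩ := sums h0 h2 M cb v hO hV kn G (t.ch i) hG
    obtain ⟨G', hG', _⟩ := h1 M cb v hV _ H (t.p i) (t.q i) hH
      (le_trans (by norm_num) (t.hp i)) (q_ne t i) (t.hg i)
    rw [← hkn i] at hG'
    exact ⟨G', hG'⟩

end FAM

open FAM in
theorem fam (hi : EVI_Stmt) (h0 : SERU_Stmt) (h1 : SERC_Stmt) (h2 : SERS_Stmt) : FAM_Stmt := by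
  intro M cb v hO hV ι t kn hkn
  have hp := prim h0 h1 h2 M cb v hO hV t kn hkn
  choose G hG using fun i => hp (t.sz i) i rfl
  refine ⟨G, ?_, fun S => sums h0 h2 M cb v hO hV kn G S fun i _ => hG i⟩
  intro i
  obtain ⟨H, hH, hH'⟩ := sums h0 h2 M cb v hO hV kn G (t.ch i) fun j _ => hG j
  obtain ⟨G', hG', hF⟩ := h1 M cb v hV _ H (t.p i) (t.q i) hH
    (le_trans (by norm_num) (t.hp i)) (q_ne t i) (t.hg i)
  rw [← hkn i] at hG'
  rw [uniq hi hG' (hG i)] at hF
  exact ⟨H, hH', hF⟩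

end Pool.Agent.GK
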