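import Pool.Agent.GK.TStmts

/-!
FLP: turning a connected sum of closed braids upside down.
-/

namespace Pool.Agent.GK

open Pool.Agent.LibH11 Pool.Agent.IT

namespace FLPx

theorem conj_meq {N : ℕ} (g : Br N) (u w : Word) (h : g * ev N u = ev N w * g) :
    meq N w N u := by
  obtain ⟨d, _, hd⟩ := exists_word g
  have h1 : meq N w N (d ++ (u ++ iw d)) := by
    apply meq_of_ev
    rw [ev_append, ev_append, ev_iw, hd, ← mul_assoc, h, mul_inv_cancel_right]
  have h2 : meq N (d ++ (u ++ iw d)) N ((u ++ iw d) ++ d) := meq_conj N _ _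
  have h3 : meq N ((u ++ iw d) ++ d) N u := by
    apply meq_of_ev
    rw [ev_append, ev_append, ev_iw, inv_mul_cancel_right]
  exact (h1.trans h2).trans h3

theorem flp_append (m : ℕ) (u w : Word) : flp m (u ++ w) = flp m u ++ flp m w := by
  simp only [flp, List.map_append]

theorem flp_cons (m : ℕ) (x : ℕ × Bool) (w : Word) :
    flp m (x :: w) = (m - 1 - x.1, x.2) :: flp m w := rfl

theorem bd_flp {m : ℕ} {w : Word} (hw : Bd m w) : Bd m (flp m w) := by
  intro x hx
  simp only [flp, List.mem_map] at hx
  obtain ⟨y, hy, rfl⟩ := hx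
  have := hw y hy
  show m - 1 - y.1 < m
  omega

theorem ev_flp {N : ℕ} {δ : Br N}
    (hδ : ∀ i < N, δ * gen N (i, true) = gen N (N - 1 - i, true) * δ) :
    ∀ w : Word, Bd N w → δ * ev N w = ev N (flp N w) * δ := by
  intro w
  induction w with
  | nil => intro _; simp [flp]
  | cons x w ih =>
    intro hw
    have hx : x.1 < N := hw x (by simp)
    have hw' : Bd N w := fun y hy => hw y (by simp [hy])
    have key : δ * gen N x = gen N (N - 1 - x.1, x.2) * δ := by
      obtain ⟨i, e⟩ := x
      cases e with
      | true => exact hδ i hx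
      | false =>
        show δ * gen N (i, false) = gen N (N - 1 - i, false) * δ
        rw [gen_false, gen_false]
        have := hδ i hx
        rw [mul_inv_eq_iff_eq_mul, mul_assoc, this, inv_mul_cancel_left]
    rw [flp_cons, ev_cons, ev_cons, ← mul_assoc, key, mul_assoc, ih hw', mul_assoc]

theorem meq_flp (h : DEL_Stmt) {N : ℕ} {w : Word} (hw : Bd N w) : meq N (flp N w) N w := by
  obtain ⟨δ, hδ⟩ := h N
  exact conj_meq δ w (flp N w) (ev_flp hδ w hw)

theorem flp_left (n m : ℕ) {u : Word} (hu : Bd n u) : flp (n + m) u = shw m (flp n u) := by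
  simp only [flp, shw, List.map_map]
  apply List.map_congr_left
  intro x hx
  have := hu x hx
  simp only [Function.comp]
  rw [show n + m - 1 - x.1 = n - 1 - x.1 + m by omega]

theorem flp_right (n m : ℕ) (w : Word) : flp (n + m) (shw n w) = flp m w := by
  simp only [flp, shw, List.map_map]
  apply List.map_congr_left
  intro x _
  simp only [Function.comp]
  rw [show n + m - 1 - (x.1 + n) = m - 1 - x.1 by omega]

theorem bd_shw {n m : ℕ} {w : Word} (hw : Bd m w) : Bd (n + m) (shw n w) := by
  intro x hx
  simp only [shw, List.mem_map] at hx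
  obtain ⟨y, hy, rfl⟩ := hx
  have := hw y hy
  show y.1 + n < n + m
  omega

end FLPx

open FLPx

/-- FLP: turning a connected sum upside down. -/
theorem flp_thm (h : DEL_Stmt) : FLP_Stmt := by
  refine ⟨fun m w hw => ⟨bd_flp hw, meq_flp h hw⟩, ?_⟩
  intro n m u w hu hw
  have hb : Bd (n + m) (csum n u w) := Bd.append (hu.mono (by omega)) (bd_shw hw)
  have h1 : meq (n + m) (flp (n + m) (csum n u w)) (n + m) (csum n u w) := meq_flp h hb
  have h2 : flp (n + m) (csum n u w) = shw m (flp n u) ++ flp m w := by
    show flp (n + m) (u ++ shw n w) = _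
    rw [flp_append, flp_left n m hu, flp_right]
  rw [h2] at h1
  exact h1.symm.trans (meq_conj (n + m) _ _)

end Pool.Agent.GK
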