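import Pool.Agent.GK.JStmts

/-!
# Graph knots: the field of fractions of the series
-/

namespace Pool.Agent.GK
open Pool.Agent.LibH11 Pool.Agent.IT
open scoped BigOperators
open PowerSeries

namespace FRAME

section Core

open LaurentPolynomial

variable {k : Type} [Field k] {L : Type} [Field L]

theorem lap_of (hb : BASE_Stmt) (P : k[T;T⁻¹]) :
    ∃ f : ℤ →₀ k, algebraMap k[T;T⁻¹] (KX k) P = lap f := by
  obtain ⟨-, -, -, hadd, hsingle, -⟩ := hb k
  induction P using LaurentPolynomial.induction_on' with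
  | add P Q hP hQ =>
    obtain ⟨f, hf⟩ := hP
    obtain ⟨g, hg⟩ := hQ
    exact ⟨f + g, by rw [map_add, hf, hg, hadd]⟩
  | C_mul_T n y =>
    refine ⟨Finsupp.single n y, ?_⟩
    rw [hsingle, map_mul]
    rfl

/-- the unit `x 1` -/
noncomputable def ux (x : ℤ → L) (h0 : x 0 = 1) (hadd : ∀ m n, x (m + n) = x m * x n) : Lˣ :=
  ⟨x 1, x (-1), by rw [← hadd, ← h0]; rfl, by rw [← hadd, ← h0]; rfl⟩

theorem ux_zpow (x : ℤ → L) (h0 : x 0 = 1) (hadd : ∀ m n, x (m + n) = x m * x n) (n : ℤ) :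
    ((ux x h0 hadd ^ n : Lˣ) : L) = x n := by
  induction n using Int.induction_on with
  | zero => rw [zpow_zero, Units.val_one, h0]
  | succ n ih => rw [zpow_add_one, Units.val_mul, ih, hadd]; rfl
  | pred n ih =>
    rw [zpow_sub_one, Units.val_mul, ih, sub_eq_add_neg (-(n : ℤ)) 1, hadd]
    rfl

/-- the homomorphism on Laurent polynomials -/
noncomputable def Ph (io : k →+* L) (x : ℤ → L) (h0 : x 0 = 1)
    (hadd : ∀ m n, x (m + n) = x m * x n) : k[T;T⁻¹] →+* L :=
  LaurentPolynomial.eval₂ io (ux x h0 hadd)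

theorem Ph_mon (io : k →+* L) (x : ℤ → L) (h0 : x 0 = 1)
    (hadd : ∀ m n, x (m + n) = x m * x n) (y : k) (n : ℤ) :
    Ph io x h0 hadd (LaurentPolynomial.C y * T n) = io y * x n := by
  unfold Ph
  rw [LaurentPolynomial.eval₂_C_mul_T, ux_zpow]

variable {U : ℚ → k} {s0 : KX k ≃+* KX k}

theorem shift (hs : Sg U s0) (sg : L ≃+* L) (io : k →+* L) (x : ℤ → L)
    (h0 : x 0 = 1) (hadd : ∀ m n, x (m + n) = x m * x n) (hio : ∀ y, sg (io y) = io y)
    (hsx : ∀ n : ℤ, sg (x n) = io (U n) * x n) (P : k[T;T⁻¹]) :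
    ∃ Q : k[T;T⁻¹], s0 (algebraMap k[T;T⁻¹] (KX k) P) = algebraMap k[T;T⁻¹] (KX k) Q ∧
      sg (Ph io x h0 hadd P) = Ph io x h0 hadd Q := by
  induction P using LaurentPolynomial.induction_on' with
  | add P P' hP hP' =>
    obtain ⟨Q, h1, h2⟩ := hP
    obtain ⟨Q', h1', h2'⟩ := hP'
    exact ⟨Q + Q', by rw [map_add, map_add, h1, h1', map_add], by
      rw [map_add, map_add, h2, h2', map_add]⟩
  | C_mul_T n y =>
    refine ⟨LaurentPolynomial.C (U n * y) * T n, ?_, ?_⟩
    · have h1 := hs.cst y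
      have h2 := hs.xe n
      unfold cst at h1 h2
      unfold xe at h2
      rw [RingHom.comp_apply] at h1 h2
      rw [map_mul, map_mul, h1, h2, map_mul LaurentPolynomial.C,
        mul_comm (LaurentPolynomial.C (U n)) (LaurentPolynomial.C y), mul_assoc, map_mul,
        map_mul]
    · rw [Ph_mon, Ph_mon, map_mul, hio, hsx, map_mul]
      ring

theorem Ph_inj (hb : BASE_Stmt) (hsi : SIMP_Stmt) (hU : UOk U) (hs : Sg U s0) (sg : L ≃+* L)
    (io : k →+* L) (x : ℤ → L) (h0 : x 0 = 1) (hadd : ∀ m n, x (m + n) = x m * x n)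
    (hio : ∀ y, sg (io y) = io y) (hsx : ∀ n : ℤ, sg (x n) = io (U n) * x n) :
    Function.Injective (Ph io x h0 hadd) := by
  rw [injective_iff_map_eq_zero]
  intro P hP
  by_contra hne
  have hinj : Function.Injective (algebraMap k[T;T⁻¹] (KX k)) := IsFractionRing.injective _ _
  have h1 := (hsi k U s0 hU hs).1
    {a | ∃ P : k[T;T⁻¹], a = algebraMap k[T;T⁻¹] (KX k) P ∧ Ph io x h0 hadd P = 0}
    (by
      rintro a ⟨P, rfl, -⟩
      exact lap_of hb P)
    (by
      rintro a ⟨P, rfl, h⟩ b ⟨Q, rfl, h'⟩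
      exact ⟨P - Q, by rw [map_sub], by rw [map_sub, h, h', sub_zero]⟩)
    (by
      rintro a ⟨P, rfl, h⟩ y n
      refine ⟨LaurentPolynomial.C y * T n * P, ?_, by rw [map_mul, h, mul_zero]⟩
      rw [map_mul, map_mul]
      rfl)
    (by
      rintro a ⟨P, rfl, h⟩
      obtain ⟨Q, h1, h2⟩ := shift hs sg io x h0 hadd hio hsx P
      obtain ⟨Q', h1', h2'⟩ := shift hs sg io x h0 hadd hio hsx Q
      refine ⟨Q', by rw [h1, h1'], ?_⟩
      rw [← h2', ← h2, h, map_zero, map_zero])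
    ⟨algebraMap k[T;T⁻¹] (KX k) P, ⟨P, rfl, hP⟩, fun h => hne (by
      rw [← map_zero (algebraMap k[T;T⁻¹] (KX k))] at h
      exact hinj h)⟩
  obtain ⟨Q, h2, h3⟩ := h1
  rw [← map_one (algebraMap k[T;T⁻¹] (KX k))] at h2
  rw [← hinj h2, map_one] at h3
  exact one_ne_zero h3

theorem core (hb : BASE_Stmt) (hsi : SIMP_Stmt) (hU : UOk U) (hs : Sg U s0) (sg : L ≃+* L)
    (io : k →+* L) (x : ℤ → L) (h0 : x 0 = 1) (hadd : ∀ m n, x (m + n) = x m * x n)
    (hio : ∀ y, sg (io y) = io y) (hsx : ∀ n : ℤ, sg (x n) = io (U n) * x n) :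
    ∃ Y : KX k →+* L, (∀ y, Y (cst y) = io y) ∧ (∀ n, Y (xe n) = x n) ∧
      ∀ r, sg (Y r) = Y (s0 r) := by
  have hinj := Ph_inj hb hsi hU hs sg io x h0 hadd hio hsx
  let Y : KX k →+* L := IsFractionRing.lift hinj
  have hY : ∀ P : k[T;T⁻¹], Y (algebraMap k[T;T⁻¹] (KX k) P) = Ph io x h0 hadd P :=
    fun P => IsFractionRing.lift_algebraMap hinj P
  refine ⟨Y, fun y => ?_, fun n => ?_, fun r => ?_⟩
  · have h1 := hY (LaurentPolynomial.C y * T 0)
    rw [Ph_mon, h0, mul_one, T_zero, mul_one] at h1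
    exact h1
  · have h1 := hY (LaurentPolynomial.C (1 : k) * T n)
    rw [Ph_mon, map_one, one_mul, map_one, one_mul] at h1
    exact h1
  · obtain ⟨P, Q, hQ, rfl⟩ := IsFractionRing.div_surjective k[T;T⁻¹] r
    have key : ∀ P : k[T;T⁻¹], sg (Y (algebraMap k[T;T⁻¹] (KX k) P)) =
        Y (s0 (algebraMap k[T;T⁻¹] (KX k) P)) := by
      intro P
      obtain ⟨Q, h1, h2⟩ := shift hs sg io x h0 hadd hio hsx P
      rw [hY, h1, hY, h2]
    rw [map_div₀, map_div₀, map_div₀, map_div₀, key, key]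

end Core

end FRAME

theorem uq (he : ESER_Stmt) : UQ_Stmt := by
  have hinj : Function.Injective toK := IsFractionRing.injective _ _
  refine ⟨?_, fun a b => ?_, fun a h => ?_⟩
  · unfold UQ
    rw [he.1, map_one]
  · unfold UQ
    rw [he.2.1, map_mul]
  · unfold UQ at h
    rw [← map_one toK] at h
    have h1 := congrArg (coeff 1) (hinj h)
    unfold E at h1
    rw [coeff_mk, PowerSeries.coeff_one, if_neg one_ne_zero, pow_one, Nat.factorial_one,
      Nat.cast_one, div_one] at h1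
    exact h1

/-- FRAME. -/
theorem frame (he : ESER_Stmt) (h2 : RH2_Stmt) (h3 : BASE_Stmt) (h4 : SIMP_Stmt) :
    FRAME_Stmt := by
  intro s0 hs
  obtain ⟨r1, r2, r3, r4, r5, -, -, -, -, -, -, -, r13, r14, -⟩ := h2
  let L : Type := FractionRing B
  let sgB : B ≃+* B :=
    { toFun := sh 1
      invFun := sh (-1)
      left_inv := fun F => by rw [r4, show (-1 : ℚ) + 1 = 0 by norm_num, r5]
      right_inv := fun F => by rw [r4, show (1 : ℚ) + -1 = 0 by norm_num, r5]
      map_mul' := fun F G => r1 1 F G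
      map_add' := fun F G => r3 1 F G }
  let sg : L ≃+* L := IsFractionRing.ringEquivOfRingEquiv sgB
  let emb : B →+* L := algebraMap B L
  have hemb : Function.Injective emb := IsFractionRing.injective B L
  have hsg : ∀ F : B, sg (emb F) = emb (sh 1 F) := fun F =>
    IsFractionRing.ringEquivOfRingEquiv_algebraMap sgB F
  have hhB : Function.Injective (emb.comp hB) := by
    refine hemb.comp ?_
    unfold hB
    exact PowerSeries.map_injective _ (PowerSeries.C_injective)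
  let io : KQ →+* L := IsFractionRing.lift hhB
  have hio1 : ∀ f : ℚ⟦X⟧, io (toK f) = emb (hB f) := fun f =>
    IsFractionRing.lift_algebraMap hhB f
  have hio : ∀ y, sg (io y) = io y := by
    intro y
    obtain ⟨P, Q, hQ, rfl⟩ := IsFractionRing.div_surjective ℚ⟦X⟧ y
    have key : ∀ P : ℚ⟦X⟧, sg (io (algebraMap ℚ⟦X⟧ KQ P)) = io (algebraMap ℚ⟦X⟧ KQ P) := by
      intro P
      have := hio1 P
      rw [this, hsg, r14]
    rw [map_div₀, map_div₀, key, key]
  have h0 : emb (zB (E ((0 : ℤ) : ℚ))) = 1 := by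
    rw [Int.cast_zero, he.1, map_one, map_one]
  have hadd : ∀ m n : ℤ, emb (zB (E ((m + n : ℤ) : ℚ))) =
      emb (zB (E (m : ℚ))) * emb (zB (E (n : ℚ))) := by
    intro m n
    rw [Int.cast_add, he.2.1, map_mul, map_mul]
  have hsx : ∀ n : ℤ, sg (emb (zB (E (n : ℚ)))) = io (UQ n) * emb (zB (E (n : ℚ))) := by
    intro n
    have := hio1 (E (n : ℚ))
    unfold UQ
    rw [this, hsg, r13, mul_one, map_mul]
  obtain ⟨Y, hY1, hY2, hY3⟩ := FRAME.core h3 h4 (uq he) hs sg io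
    (fun n => emb (zB (E (n : ℚ)))) h0 hadd hio hsx
  refine ⟨L, inferInstance, Y.toAlgebra, sg, emb, hemb, hY3, hsg, fun n => (hY2 n).symm,
    fun a => ?_⟩
  exact (hio1 (E a)).symm.trans (hY1 (UQ a)).symm

end Pool.Agent.GK
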