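import Pool.Agent.GK.TStmts

/-!
# GNF: every graph knot is a sum of members of a family of primes
-/

namespace Pool.Agent.GK

open Pool.Agent.LibH11 Pool.Agent.IT

namespace GNF

section

variable (M : CommMonoid Knot) (cb : ℕ → ℤ → Knot → Knot)

/-- The primes with their sizes. -/
inductive Pk : ℕ → Knot → Prop
  | mk (G : Multiset (ℕ × Knot)) (p : ℕ) (q : ℤ) : (∀ x ∈ G, Pk x.1 x.2) → 2 ≤ p →
      Int.gcd p q = 1 → (G = 0 → (p : ℤ) < |q|) →
      Pk (1 + (G.map Prod.fst).sum) (cb p q (@Multiset.prod Knot M (G.map Prod.snd)))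

theorem Pk.inv {n : ℕ} {K : Knot} (h : Pk M cb n K) :
    ∃ (G : Multiset (ℕ × Knot)) (p : ℕ) (q : ℤ), (∀ x ∈ G, Pk M cb x.1 x.2) ∧ 2 ≤ p ∧
      Int.gcd p q = 1 ∧ (G = 0 → (p : ℤ) < |q|) ∧ n = 1 + (G.map Prod.fst).sum ∧
      K = cb p q (@Multiset.prod Knot M (G.map Prod.snd)) := by
  cases h with
  | mk G p q h1 h2 h3 h4 => exact ⟨G, p, q, h1, h2, h3, h4, rfl, rfl⟩

/-- The primes. -/
abbrev Pr : Type := {K : Knot // ∃ n, Pk M cb n K}

open Classical in
/-- The size of a prime. -/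
noncomputable def sz (i : Pr M cb) : ℕ := Nat.find i.2

open Classical in
theorem sz_spec (i : Pr M cb) : Pk M cb (sz M cb i) i.1 := Nat.find_spec i.2

open Classical in
theorem sz_le (i : Pr M cb) {n : ℕ} (h : Pk M cb n i.1) : sz M cb i ≤ n := Nat.find_min' i.2 h

theorem mk_of (S : Multiset (Pr M cb)) (p : ℕ) (q : ℤ) (h2 : 2 ≤ p) (h3 : Int.gcd p q = 1)
    (h4 : S = 0 → (p : ℤ) < |q|) :
    Pk M cb (1 + (S.map (sz M cb)).sum)
      (cb p q (@Multiset.prod Knot M (S.map Subtype.val))) := by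
  have h := Pk.mk (M := M) (cb := cb) (S.map fun i => (sz M cb i, i.1)) p q (by
    intro x hx
    obtain ⟨i, -, rfl⟩ := Multiset.mem_map.1 hx
    exact sz_spec M cb i) h2 h3 (fun h0 => h4 (Multiset.map_eq_zero.1 h0))
  rw [Multiset.map_map, Multiset.map_map] at h
  exact h

theorem pmap_sum (G : Multiset (ℕ × Knot)) (h : ∀ x ∈ G, Pk M cb x.1 x.2) :
    ((G.pmap (fun (x : ℕ × Knot) (hx : Pk M cb x.1 x.2) => (⟨x.2, x.1, hx⟩ : Pr M cb)) h).map
      (sz M cb)).sum ≤ (G.map Prod.fst).sum ∧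
    (G.pmap (fun (x : ℕ × Knot) (hx : Pk M cb x.1 x.2) => (⟨x.2, x.1, hx⟩ : Pr M cb)) h).map
      Subtype.val = G.map Prod.snd := by
  induction G using Multiset.induction_on with
  | empty => simp
  | cons a G ih =>
    obtain ⟨i1, i2⟩ := ih fun x hx => h x (Multiset.mem_cons_of_mem hx)
    rw [Multiset.pmap_cons, Multiset.map_cons, Multiset.map_cons, Multiset.map_cons,
      Multiset.map_cons, Multiset.sum_cons, Multiset.sum_cons, i2]
    exact ⟨add_le_add (sz_le M cb _ (h a (Multiset.mem_cons_self a G))) i1, rfl⟩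

theorem data (i : Pr M cb) : ∃ (p : ℕ) (q : ℤ) (ch : Multiset (Pr M cb)), 2 ≤ p ∧
    Int.gcd p q = 1 ∧ (ch = 0 → (p : ℤ) < |q|) ∧ sz M cb i = 1 + (ch.map (sz M cb)).sum ∧
    i.1 = cb p q (@Multiset.prod Knot M (ch.map Subtype.val)) := by
  obtain ⟨G, p, q, h1, h2, h3, h4, h5, h6⟩ := Pk.inv M cb (sz_spec M cb i)
  obtain ⟨s1, s2⟩ := pmap_sum M cb G h1
  set ch := G.pmap (fun (x : ℕ × Knot) (hx : Pk M cb x.1 x.2) => (⟨x.2, x.1, hx⟩ : Pr M cb)) h1
    with hch
  have h7 : i.1 = cb p q (@Multiset.prod Knot M (ch.map Subtype.val)) := by rw [s2, h6]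
  have h8 : ch = 0 → (p : ℤ) < |q| := by
    intro h0
    apply h4
    rw [h0, Multiset.map_zero] at s2
    exact Multiset.map_eq_zero.1 s2.symm
  refine ⟨p, q, ch, h2, h3, h8, le_antisymm ?_ ?_, h7⟩
  · apply sz_le
    rw [h7]
    exact mk_of M cb ch p q h2 h3 h8
  · rw [h5]
    exact Nat.add_le_add_left s1 1

theorem prod_cb (S : Multiset (Pr M cb)) (p : ℕ) (q : ℤ) (h2 : 2 ≤ p) (h3 : Int.gcd p q = 1)
    (h4 : S = 0 → (p : ℤ) < |q|) : ∃ S' : Multiset (Pr M cb),
      cb p q (@Multiset.prod Knot M (S.map Subtype.val)) =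
        @Multiset.prod Knot M (S'.map Subtype.val) := by
  refine ⟨{⟨_, _, mk_of M cb S p q h2 h3 h4⟩}, ?_⟩
  rw [Multiset.map_singleton, Multiset.prod_singleton]

/-- The cable of a product is a product. -/
theorem cable (h : Ops M cb) (S : Multiset (Pr M cb)) (p : ℕ) (q : ℤ) (h1 : 1 ≤ p)
    (h3 : Int.gcd p q = 1) : ∃ S' : Multiset (Pr M cb),
      cb p q (@Multiset.prod Knot M (S.map Subtype.val)) =
        @Multiset.prod Knot M (S'.map Subtype.val) := by
  have hone : @Multiset.prod Knot M ((0 : Multiset (Pr M cb)).map Subtype.val) = unknot := by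
    rw [Multiset.map_zero, Multiset.prod_zero]
    exact h.one
  rcases Nat.lt_or_ge p 2 with hp | hp
  · have hp1 : p = 1 := by omega
    subst hp1
    exact ⟨S, h.cab_one q _⟩
  by_cases hS : S = 0
  · subst hS
    have habs : |q| = (q.natAbs : ℤ) := Int.abs_eq_natAbs q
    rcases lt_trichotomy (p : ℤ) |q| with hlt | heq | hgt
    · exact prod_cb M cb 0 p q hp h3 fun _ => hlt
    · exfalso
      rw [habs] at heq
      have h5 : q.natAbs = p := by omega
      rw [Int.gcd, Int.natAbs_natCast, h5, Nat.gcd_self] at h3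
      omega
    · rw [habs] at hgt
      have hq0 : q ≠ 0 := by
        rintro rfl
        rw [Int.gcd_zero_right, Int.natAbs_natCast] at h3
        omega
      by_cases hq1 : q.natAbs = 1
      · refine ⟨0, ?_⟩
        rw [hone, h.cab_unit p q h1 hq1]
      · have hcop : Nat.Coprime p q.natAbs := by
          rw [Int.gcd, Int.natAbs_natCast] at h3
          exact h3
        have hq2 : 2 ≤ q.natAbs := by omega
        obtain ⟨e1, e2⟩ := h.cab_swap p q.natAbs h1 (by omega) hcop
        rcases lt_or_gt_of_ne hq0 with hneg | hpos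
        · have hq' : q = -(q.natAbs : ℤ) := by omega
          have e3 : cb p q unknot = cb q.natAbs (-(p : ℤ)) unknot := by
            rw [← e2, ← hq']
          rw [hone, e3, ← hone]
          refine prod_cb M cb 0 q.natAbs (-(p : ℤ)) hq2 ?_ fun _ => ?_
          · rw [Int.gcd, Int.natAbs_natCast, Int.natAbs_neg, Int.natAbs_natCast]
            exact hcop.symm
          · rw [abs_neg, abs_of_nonneg (Int.natCast_nonneg p)]
            omega
        · have hq' : q = (q.natAbs : ℤ) := by omega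
          have e3 : cb p q unknot = cb q.natAbs (p : ℤ) unknot := by
            rw [← e1, ← hq']
          rw [hone, e3, ← hone]
          refine prod_cb M cb 0 q.natAbs (p : ℤ) hq2 ?_ fun _ => ?_
          · rw [Int.gcd, Int.natAbs_natCast, Int.natAbs_natCast]
            exact hcop.symm
          · rw [abs_of_nonneg (Int.natCast_nonneg p)]
            omega
  · exact prod_cb M cb S p q hp h3 fun h0 => absurd h0 hS

theorem graph (h : Ops M cb) (K : Knot) (hK : GraphKnot K) : ∃ S : Multiset (Pr M cb),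
    K = @Multiset.prod Knot M (S.map Subtype.val) := by
  induction hK with
  | unknot =>
    refine ⟨0, ?_⟩
    rw [Multiset.map_zero, Multiset.prod_zero]
    exact h.one.symm
  | cable n w hw p q hc hb hp hg _ ih =>
    obtain ⟨S, hS⟩ := ih
    rw [← h.cab n w hw p q hc hb hp hg, hS]
    exact cable M cb h S p q hp hg
  | sum n m u w hu hw hs hbu hbw _ _ ih1 ih2 =>
    obtain ⟨S1, hS1⟩ := ih1
    obtain ⟨S2, hS2⟩ := ih2
    refine ⟨S1 + S2, ?_⟩
    rw [← h.sum n m u w hu hw hs hbu hbw, hS1, hS2, Multiset.map_add, Multiset.prod_add]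
    rfl

end

end GNF

open GNF in
/-- GNF -/
theorem gnf : GNF_Stmt := by
  intro M cb h
  choose p q ch h1 h2 h3 h4 h5 using data M cb
  refine ⟨Pr M cb, ⟨p, q, ch, sz M cb, h4, h1, h2, fun i hi => h3 i hi, ?_⟩, Subtype.val, ?_, ?_⟩
  · intro i j e1 e2 e3
    apply Subtype.ext
    rw [h5 i, h5 j, e1, e2, e3]
  · intro i
    exact h5 i
  · intro K hK
    exact graph M cb h K hK

end Pool.Agent.GK
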