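import Pool.Agent.GK.TStmts

/-!
# Graph knots, module KSUM: the connected sum of two knots is a knot
-/

namespace Pool.Agent.GK

open Pool.Agent.LibH11 Pool.Agent.IT

namespace KSUM

open Pool.Agent.IT.PRM

theorem pw_fix {N : ℕ} {u : Word} (hu : Bd N u) {x : ℕ} (hx : N < x) : pw u x = x := by
  induction u with
  | nil => rw [pw_nil, Equiv.Perm.one_apply]
  | cons a u ih =>
    have hu' : Bd N u := fun z hz => hu z (List.mem_cons_of_mem _ hz)
    have ha : a.1 < N := hu a List.mem_cons_self
    rw [pw_cons, Equiv.Perm.mul_apply, ih hu']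
    exact Equiv.swap_apply_of_ne_of_ne (by omega) (by omega)

theorem pw_shw_lt (k : ℕ) (w : Word) {x : ℕ} (hx : x < k) : pw (shw k w) x = x := by
  induction w with
  | nil => exact rfl
  | cons a w ih =>
    have h1 : shw k (a :: w) = (a.1 + k, a.2) :: shw k w := rfl
    rw [h1, pw_cons, Equiv.Perm.mul_apply, ih]
    exact Equiv.swap_apply_of_ne_of_ne (by simp only; omega) (by simp only; omega)

theorem pw_shw_add (k : ℕ) (w : Word) (x : ℕ) : pw (shw k w) (k + x) = k + pw w x := by
  induction w with
  | nil => exact rfl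
  | cons a w ih =>
    have h1 : shw k (a :: w) = (a.1 + k, a.2) :: shw k w := rfl
    rw [h1, pw_cons, Equiv.Perm.mul_apply, ih, pw_cons, Equiv.Perm.mul_apply,
      Equiv.swap_apply_def, Equiv.swap_apply_def]
    simp only
    split_ifs <;> omega

theorem bd_shw {n m : ℕ} {w : Word} (hw : Bd m w) : Bd (n + m) (shw n w) := by
  intro x hx
  unfold shw at hx
  obtain ⟨y, hy, rfl⟩ := List.mem_map.mp hx
  have := hw y hy
  simp only
  omega

theorem bd_csum {n m : ℕ} {u w : Word} (hu : Bd n u) (hw : Bd m w) :
    Bd (n + m) (csum n u w) :=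
  (hu.mono (Nat.le_add_right n m)).append (bd_shw hw)

end KSUM

open KSUM in
theorem ksum : KSUM_Stmt := by
  intro n m u w hu hw hku hkw
  have hb := bd_csum (n := n) hu hw
  set τ := perm (ev (n + m) (csum n u w)) with hτ
  have hval : ∀ x : Fin (n + m + 1), ((τ x : Fin (n + m + 1)) : ℕ) =
      PRM.pw u (PRM.pw (shw n w) x) := by
    intro x
    rw [hτ, PRM.perm_ev _ hb, csum, PRM.pw_append, Equiv.Perm.mul_apply]
  let f : Fin (m + 1) → Fin (n + m + 1) := fun y => ⟨n + y, by omega⟩
  let g : Fin (n + 1) → Fin (n + m + 1) := fun y => ⟨y, by omega⟩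
  have hfg : f 0 = g (Fin.last n) := by
    apply Fin.ext
    simp [f, g]
  -- values on the block of `w`
  have hf : ∀ y : Fin (m + 1), ((τ (f y) : Fin (n + m + 1)) : ℕ) =
      PRM.pw u (n + (perm (ev m w) y : Fin (m + 1))) := by
    intro y
    rw [hval, PRM.perm_ev w hw]
    simp only [f]
    rw [pw_shw_add]
  have hf1 : ∀ y : Fin (m + 1), perm (ev m w) y ≠ 0 → τ (f y) = f (perm (ev m w) y) := by
    intro y hy
    apply Fin.ext
    rw [hf y]
    refine pw_fix hu ?_
    have : 0 < ((perm (ev m w) y : Fin (m + 1)) : ℕ) := by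
      rcases Nat.eq_zero_or_pos ((perm (ev m w) y : Fin (m + 1)) : ℕ) with h | h
      · exact absurd (Fin.ext h) hy
      · exact h
    omega
  have hA : ∀ k : ℕ, τ.SameCycle (f 0) (f (((perm (ev m w)) ^ k) 0)) := by
    intro k
    induction k with
    | zero => exact Equiv.Perm.SameCycle.refl _ _
    | succ k ih =>
      rw [pow_succ', Equiv.Perm.mul_apply]
      by_cases h : perm (ev m w) (((perm (ev m w)) ^ k) 0) = 0
      · rw [h]
      · rw [← hf1 _ h]
        exact ih.apply_right
  have hAll : ∀ y : Fin (m + 1), τ.SameCycle (f 0) (f y) := by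
    intro y
    obtain ⟨k, hk⟩ := (hkw 0 y).exists_nat_pow_eq
    rw [← hk]
    exact hA k
  -- the block of `u`
  have hB : ∀ x : Fin (n + 1), τ.SameCycle (g x) (g (perm (ev n u) x)) := by
    intro x
    by_cases hx : x = Fin.last n
    · subst hx
      obtain ⟨y0, hy0⟩ : ∃ y0, perm (ev m w) y0 = 0 := (perm (ev m w)).surjective 0
      have h1 : τ (f y0) = g (perm (ev n u) (Fin.last n)) := by
        apply Fin.ext
        rw [hf y0, hy0]
        simp only [g]
        rw [PRM.perm_ev u hu]
        simp
      rw [← h1, ← hfg]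
      exact (hAll y0).apply_right
    · have hxn : (x : ℕ) < n := by
        have h1 := x.2
        have h2 : (x : ℕ) ≠ n := fun h => hx (Fin.ext (by simpa using h))
        omega
      have h1 : τ (g x) = g (perm (ev n u) x) := by
        apply Fin.ext
        rw [hval]
        simp only [g]
        rw [pw_shw_lt n w hxn, PRM.perm_ev u hu]
      rw [← h1]
      exact (Equiv.Perm.SameCycle.refl _ _).apply_right
  have hG : ∀ x : Fin (n + 1), τ.SameCycle (f 0) (g x) := by
    intro x
    rw [hfg]
    exact sameCycle_map (perm (ev n u)) τ g hB (hku (Fin.last n) x)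
  have hfin : ∀ z : Fin (n + m + 1), τ.SameCycle (f 0) z := by
    intro z
    rcases Nat.lt_or_ge (z : ℕ) (n + 1) with h | h
    · have : z = g ⟨z, h⟩ := Fin.ext rfl
      rw [this]
      exact hG _
    · have : z = f ⟨z - n, by omega⟩ := by
        apply Fin.ext
        simp only [f]
        omega
      rw [this]
      exact hAll _
  intro x y
  exact (hfin x).symm.trans (hfin y)

end Pool.Agent.GK
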