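import Pool.Agent.GK.AStmts

/-!
# Graph knots: the class sums of `L_c r` vanish
-/

namespace Pool.Agent.GK

namespace LAM

variable {k : Type} [Field k]

theorem lam_zero (U : ℚ → k) (c ρ : ℤ) : Lam U c ρ (0 : ℤ →₀ k) = 0 := by
  unfold Lam
  exact Finsupp.sum_zero_index

theorem lam_add (U : ℚ → k) (c ρ : ℤ) (a b : ℤ →₀ k) :
    Lam U c ρ (a + b) = Lam U c ρ a + Lam U c ρ b := by
  unfold Lam
  refine Finsupp.sum_add_index' (fun n => ?_) (fun n y z => ?_)
  · by_cases h : 2 * c ∣ n - ρ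
    · rw [if_pos h, mul_zero]
    · rw [if_neg h]
  · by_cases h : 2 * c ∣ n - ρ
    · rw [if_pos h, if_pos h, if_pos h, mul_add]
    · rw [if_neg h, if_neg h, if_neg h, add_zero]

open Classical in
theorem lam_single (U : ℚ → k) (c ρ n : ℤ) (y : k) :
    Lam U c ρ (Finsupp.single n y) =
      if 2 * c ∣ n - ρ then U (-((n : ℚ) ^ 2 / (2 * c))) * y else 0 := by
  unfold Lam
  refine Finsupp.sum_single_index ?_
  by_cases h : 2 * c ∣ n - ρ
  · rw [if_pos h, mul_zero]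
  · rw [if_neg h]

theorem symm_apply {U : ℚ → k} {σ : KX k ≃+* KX k} (hU : UOk U) (hσ : Sg U σ) (y : k) (e : ℤ) :
    σ.symm (cst y * xe e) = cst (U (-e) * y) * xe e := by
  rw [RingEquiv.symm_apply_eq, map_mul, hσ.cst, hσ.xe, ← mul_assoc, ← map_mul]
  congr 2
  have h1 : U (-(e : ℚ)) * U (e : ℚ) = 1 := by
    rw [← hU.add, neg_add_cancel, hU.zero]
  calc y = (U (-(e : ℚ)) * U (e : ℚ)) * y := by rw [h1, one_mul]
    _ = U (-(e : ℚ)) * y * U (e : ℚ) := by ring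

/-- The monomials. -/
theorem single_case (h : BASE_Stmt) {U : ℚ → k} {σ : KX k ≃+* KX k} (hU : UOk U) (hσ : Sg U σ)
    (c : ℤ) (hc : c ≠ 0) (e : ℤ) (y : k) :
    Lc σ c (lap (Finsupp.single e y)) =
      lap (Finsupp.single (e + c) (U e * y) + Finsupp.single (e - c) (-(U (-e) * y))) ∧
    ∀ ρ, Lam U c ρ (Finsupp.single (e + c) (U e * y) +
      Finsupp.single (e - c) (-(U (-e) * y))) = 0 := by
  classical
  obtain ⟨hadd, h0, hinj, hladd, hls, -⟩ := h k
  constructor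
  · unfold Lc
    rw [hladd, hls, hls, hls, symm_apply hU hσ, map_mul, hσ.cst, hσ.xe, map_neg, map_mul,
      map_mul, hadd, sub_eq_add_neg e c, hadd]
    ring
  · intro ρ
    rw [lam_add, lam_single, lam_single]
    have hiff : 2 * c ∣ (e + c) - ρ ↔ 2 * c ∣ (e - c) - ρ := by
      have h1 : (e + c) - ρ = (e - c) - ρ + 2 * c := by ring
      rw [h1]
      exact dvd_add_left (dvd_refl _)
    have hc' : (c : ℚ) ≠ 0 := by exact_mod_cast hc
    by_cases h1 : 2 * c ∣ (e + c) - ρ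
    · rw [if_pos h1, if_pos (hiff.1 h1)]
      have h2 : U (-((((e + c : ℤ) : ℚ)) ^ 2 / (2 * c))) * U e =
          U (-((((e - c : ℤ) : ℚ)) ^ 2 / (2 * c))) * U (-e) := by
        rw [← hU.add, ← hU.add]
        congr 1
        push_cast
        field_simp
        ring
      calc U (-((((e + c : ℤ) : ℚ)) ^ 2 / (2 * c))) * (U e * y) +
            U (-((((e - c : ℤ) : ℚ)) ^ 2 / (2 * c))) * -(U (-e) * y)
          = (U (-((((e + c : ℤ) : ℚ)) ^ 2 / (2 * c))) * U e -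
            U (-((((e - c : ℤ) : ℚ)) ^ 2 / (2 * c))) * U (-e)) * y := by ring
        _ = 0 := by rw [h2, sub_self, zero_mul]
    · rw [if_neg h1, if_neg (fun h2 => h1 (hiff.2 h2)), add_zero]

theorem lc_add (σ : KX k ≃+* KX k) (c : ℤ) (r s : KX k) :
    Lc σ c (r + s) = Lc σ c r + Lc σ c s := by
  unfold Lc
  rw [map_add, map_add]
  ring

/-- All Laurent polynomials. -/
theorem all_case (h : BASE_Stmt) {U : ℚ → k} {σ : KX k ≃+* KX k} (hU : UOk U) (hσ : Sg U σ)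
    (c : ℤ) (hc : c ≠ 0) (g : ℤ →₀ k) :
    ∃ f : ℤ →₀ k, Lc σ c (lap g) = lap f ∧ ∀ ρ, Lam U c ρ f = 0 := by
  have hladd := (h k).2.2.2.1
  have h0 : lap (0 : ℤ →₀ k) = 0 := by
    unfold lap
    exact Finsupp.sum_zero_index
  induction g using Finsupp.induction_linear with
  | zero =>
    refine ⟨0, ?_, fun ρ => lam_zero U c ρ⟩
    rw [h0]
    unfold Lc
    rw [map_zero, map_zero, mul_zero, mul_zero, sub_zero]
  | add g1 g2 h1 h2 =>
    obtain ⟨f1, hf1, hl1⟩ := h1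
    obtain ⟨f2, hf2, hl2⟩ := h2
    refine ⟨f1 + f2, ?_, fun ρ => ?_⟩
    · rw [hladd, lc_add, hf1, hf2, hladd]
    · rw [lam_add, hl1, hl2, add_zero]
  | single e y => exact ⟨_, single_case h hU hσ c hc e y⟩

end LAM

open LAM in
/-- LAM. -/
theorem lam (h : BASE_Stmt) (h2 : SIMP_Stmt) : LAM_Stmt := by
  intro k _ U σ hU hσ c r f hc hf ρ
  obtain ⟨g, rfl⟩ := (h2 k U σ hU hσ).2.2 r c f hf
  obtain ⟨f', hf', hl⟩ := all_case h hU hσ c hc g
  obtain ⟨-, -, hinj, hladd, -⟩ := h k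
  have h1 : lap f = lap f' := by rw [← hf, ← hf']
  have h3 : lap (f - f') = 0 := by
    have h4 := hladd (f - f') f'
    rw [sub_add_cancel, h1] at h4
    exact (left_eq_add.1 (h4.trans (add_comm _ _)))
  rw [sub_eq_zero.1 (hinj _ h3)]
  exact hl ρ

end Pool.Agent.GK
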