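import Pool.Agent.GK.AStmts

/-!
# LEAF: the functions of all leaves are independent
-/

namespace Pool.Agent.GK

open Pool.Agent.LibH11 Pool.Agent.IT

namespace LEAF

theorem ind_ne {D y ρ : ℤ} (h : ind D y ρ ≠ 0) : ∃ k, ρ = y + 2 * D * k := by
  unfold ind at h
  split_ifs at h with h1
  · obtain ⟨k, hk⟩ := h1
    exact ⟨k, by linarith⟩
  · exact absurd rfl h

/-- the classes where the function of a leaf does not vanish -/
theorem form {a : At} {ρ : ℤ} (h : g0 a ρ ≠ 0) : ∃ s t k : ℤ, s ^ 2 = 1 ∧ t ^ 2 = 1 ∧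
    ρ = k * (a.p * a.Q * a.w) + a.w * (s * a.Q + t * a.p) := by
  have h1 : ind (a.p * a.Q * a.w)
      ((bt a.b - ((a.w : ℤ) - 1)) * (a.p * a.Q * a.w) + (a.Q * a.w + a.p * a.w)) ρ ≠ 0 ∨
    ind (a.p * a.Q * a.w)
      ((bt a.b - ((a.w : ℤ) - 1)) * (a.p * a.Q * a.w) - (a.Q * a.w + a.p * a.w)) ρ ≠ 0 ∨
    ind (a.p * a.Q * a.w)
      ((bt a.b - ((a.w : ℤ) - 1)) * (a.p * a.Q * a.w) + (a.Q * a.w - a.p * a.w)) ρ ≠ 0 ∨
    ind (a.p * a.Q * a.w)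
      ((bt a.b - ((a.w : ℤ) - 1)) * (a.p * a.Q * a.w) - (a.Q * a.w - a.p * a.w)) ρ ≠ 0 := by
    by_contra hc
    push Not at hc
    obtain ⟨h1, h2, h3, h4⟩ := hc
    apply h
    unfold g0
    rw [h1, h2, h3, h4]
    norm_num
  rcases h1 with h1 | h1 | h1 | h1
  · obtain ⟨k, hk⟩ := ind_ne h1
    exact ⟨1, 1, (bt a.b - ((a.w : ℤ) - 1)) + 2 * k, by norm_num, by norm_num, by
      rw [hk]
      ring⟩
  · obtain ⟨k, hk⟩ := ind_ne h1
    exact ⟨-1, -1, (bt a.b - ((a.w : ℤ) - 1)) + 2 * k, by norm_num, by norm_num, by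
      rw [hk]
      ring⟩
  · obtain ⟨k, hk⟩ := ind_ne h1
    exact ⟨1, -1, (bt a.b - ((a.w : ℤ) - 1)) + 2 * k, by norm_num, by norm_num, by
      rw [hk]
      ring⟩
  · obtain ⟨k, hk⟩ := ind_ne h1
    exact ⟨-1, 1, (bt a.b - ((a.w : ℤ) - 1)) + 2 * k, by norm_num, by norm_num, by
      rw [hk]
      ring⟩

/-- the dilation is the greatest common divisor of `ρ` and `D` -/
theorem dil {c : ℤ} {a : At} (ha : AtOk c a) {ρ : ℤ} (h : g0 a ρ ≠ 0) :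
    (a.w : ℤ) ∣ ρ ∧ ∀ d : ℤ, d ∣ ρ → d ∣ (a.p : ℤ) * a.Q * a.w → d ∣ (a.w : ℤ) := by
  obtain ⟨s, t, k, hs, ht, hρ⟩ := form h
  refine ⟨⟨k * (a.p * a.Q) + (s * a.Q + t * a.p), by rw [hρ]; ring⟩, ?_⟩
  intro d h1 h2
  have hco : IsCoprime (a.p : ℤ) a.Q := Int.isCoprime_iff_gcd_eq_one.mpr ha.hg
  obtain ⟨α, β, hαβ⟩ := hco
  have h3 : d ∣ (a.w : ℤ) * (s * a.Q + t * a.p) := by
    have h4 : (a.w : ℤ) * (s * a.Q + t * a.p) = ρ - k * (a.p * a.Q * a.w) := by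
      rw [hρ]
      ring
    rw [h4]
    exact dvd_sub h1 (Dvd.dvd.mul_left h2 k)
  have h5 : (a.w : ℤ) = (a.w : ℤ) * (s * a.Q + t * a.p) * (s * β ^ 2 * a.Q + t * α ^ 2 * a.p) +
      (a.p : ℤ) * a.Q * a.w * (2 * α * β - s * t * (α ^ 2 + β ^ 2)) := by
    have e1 : (a.w : ℤ) * (s * a.Q + t * a.p) * (s * β ^ 2 * a.Q + t * α ^ 2 * a.p) +
      (a.p : ℤ) * a.Q * a.w * (2 * α * β - s * t * (α ^ 2 + β ^ 2)) =
        a.w * (s ^ 2 * β ^ 2 * a.Q ^ 2 + t ^ 2 * α ^ 2 * a.p ^ 2 + 2 * α * β * a.p * a.Q) := by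
      ring
    rw [e1, hs, ht]
    have e2 : (1 * β ^ 2 * a.Q ^ 2 + 1 * α ^ 2 * (a.p : ℤ) ^ 2 + 2 * α * β * a.p * a.Q) =
        (α * a.p + β * a.Q) ^ 2 := by ring
    rw [e2, hαβ]
    ring
  rw [h5]
  exact dvd_add (Dvd.dvd.mul_right h3 _) (Dvd.dvd.mul_right h2 _)

theorem c_ne {c : ℤ} {a : At} (ha : AtOk c a) (hm : a.m = 0) : c ≠ 0 := by
  have hp := ha.hp
  have hw := ha.hw
  have hQ : a.Q ≠ 0 := by
    intro h
    have := ha.hm hm
    rw [h, abs_zero] at this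
    have : (0 : ℤ) ≤ a.p := Int.natCast_nonneg _
    omega
  rw [← ha.hc]
  have h1 : (a.p : ℤ) ≠ 0 := by
    have : a.p ≠ 0 := by omega
    exact_mod_cast this
  have h2 : (a.w : ℤ) ≠ 0 := by
    have : a.w ≠ 0 := by omega
    exact_mod_cast this
  exact mul_ne_zero (mul_ne_zero h1 hQ) (pow_ne_zero _ h2)

theorem dvd_of {c : ℤ} {a b : At} (ha : AtOk c a) (hb : AtOk c b) (hma : a.m = 0)
    {ρ : ℤ} (h1 : g0 a ρ ≠ 0) (h2 : g0 b ρ ≠ 0) : (a.w : ℤ) ∣ (b.w : ℤ) := by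
  have hc := c_ne ha hma
  have hbw : (b.w : ℤ) ≠ 0 := by
    have := hb.hw
    have : b.w ≠ 0 := by omega
    exact_mod_cast this
  apply (dil hb h2).2 _ (dil ha h1).1
  have h3 : ((a.w : ℤ) * b.w) ^ 2 ∣ c ^ 2 := by
    refine ⟨(a.p * a.Q) * (b.p * b.Q), ?_⟩
    have e1 := ha.hc
    have e2 := hb.hc
    calc c ^ 2 = c * c := by ring
      _ = ((a.p : ℤ) * a.Q * (a.w : ℤ) ^ 2) * ((b.p : ℤ) * b.Q * (b.w : ℤ) ^ 2) := by rw [e1, e2]
      _ = _ := by ring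
  rw [Int.pow_dvd_pow_iff two_ne_zero] at h3
  obtain ⟨t, ht⟩ := h3
  refine ⟨t, ?_⟩
  have h4 : (b.w : ℤ) * ((b.p : ℤ) * b.Q * b.w) = b.w * (a.w * t) := by
    have e2 := hb.hc
    calc (b.w : ℤ) * ((b.p : ℤ) * b.Q * b.w) = (b.p : ℤ) * b.Q * (b.w : ℤ) ^ 2 := by ring
      _ = c := e2
      _ = _ := by rw [ht]; ring
  exact mul_left_cancel₀ hbw h4

theorem same {c : ℤ} {a b : At} (ha : AtOk c a) (hb : AtOk c b) (hma : a.m = 0)
    (hmb : b.m = 0) {ρ : ℤ} (h1 : g0 a ρ ≠ 0) (h2 : g0 b ρ ≠ 0) : a.w = b.w :=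
  Nat.dvd_antisymm (Int.natCast_dvd_natCast.mp (dvd_of ha hb hma h1 h2))
    (Int.natCast_dvd_natCast.mp (dvd_of hb ha hmb h2 h1))

end LEAF

open LEAF in
theorem leaf (h : LFIX_Stmt) : LEAF_Stmt := by
  classical
  intro k _ _ c l hl hs
  by_contra hne
  obtain ⟨a, ha⟩ := Finsupp.support_nonempty_iff.mpr hne
  have h0 : l.filter (fun b => b.w = a.w) = 0 := by
    apply h k c a.w
    · intro b hb
      rw [Finsupp.support_filter, Finset.mem_filter] at hb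
      exact ⟨(hl b hb.1).1, (hl b hb.1).2, hb.2⟩
    · intro ρ
      rw [Finsupp.sum_filter_index, Finsupp.support_filter]
      by_cases hex : ∃ b ∈ l.support, b.w = a.w ∧ g0 b ρ ≠ 0
      · obtain ⟨b, hb, hbw, hbρ⟩ := hex
        rw [Finset.sum_filter_of_ne]
        · exact hs ρ
        · intro b' hb' hne'
          have h3 : g0 b' ρ ≠ 0 := by
            intro h4
            apply hne'
            rw [h4, Int.cast_zero, mul_zero]
          rw [← hbw]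
          exact same (hl b' hb').1 (hl b hb).1 (hl b' hb').2 (hl b hb).2 h3 hbρ
      · apply Finset.sum_eq_zero
        intro b hb
        rw [Finset.mem_filter] at hb
        have h3 : g0 b ρ = 0 := by
          by_contra h4
          exact hex ⟨b, hb.1, hb.2, h4⟩
        rw [h3, Int.cast_zero, mul_zero]
  have h1 : l.filter (fun b => b.w = a.w) a = l a := Finsupp.filter_apply_pos _ _ rfl
  rw [h0] at h1
  exact Finsupp.mem_support_iff.mp ha h1.symm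

end Pool.Agent.GK
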