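import Pool.Agent.GK.AStmts

/-!
LFIX: the functions of the leaves with a given dilation are independent.
-/

namespace Pool.Agent.GK

namespace LFIXx

open Classical in
/-- indicator of divisibility by `2 n` -/
noncomputable def dv (n x : ℤ) : ℤ := if 2 * n ∣ x then 1 else 0

theorem dv_one {n x : ℤ} (h : 2 * n ∣ x) : dv n x = 1 := by
  unfold dv; rw [if_pos h]

theorem dv_zero {n x : ℤ} (h : ¬ 2 * n ∣ x) : dv n x = 0 := by
  unfold dv; rw [if_neg h]

theorem ind_dv {D y ρ N x : ℤ} (h : 2 * D ∣ ρ - y ↔ 2 * N ∣ x) : ind D y ρ = dv N x := by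
  by_cases hx : 2 * N ∣ x
  · rw [dv_one hx]
    unfold ind
    rw [if_pos (h.mpr hx)]
  · rw [dv_zero hx]
    unfold ind
    rw [if_neg (fun h' => hx (h.mp h'))]

/-- small nonzero numbers are not divisible -/
theorem dv_small {n x : ℤ} (h0 : x ≠ 0) (h1 : -(2 * n) < x) (h2 : x < 2 * n) : dv n x = 0 := by
  apply dv_zero
  rintro ⟨t, ht⟩
  have hn : 0 < n := by omega
  rcases lt_trichotomy t 0 with h | h | h
  · nlinarith
  · rw [h, mul_zero] at ht; exact h0 ht
  · nlinarith

theorem dv_congr {n x y : ℤ} (f : ℤ) (h : x = y + 2 * n * f) : dv n x = dv n y := by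
  by_cases hy : 2 * n ∣ y
  · rw [dv_one hy, dv_one]
    rw [h]; exact dvd_add hy (dvd_mul_right _ _)
  · rw [dv_zero hy, dv_zero]
    intro hx
    apply hy
    have : y = x - 2 * n * f := by rw [h]; ring
    rw [this]; exact dvd_sub hx (dvd_mul_right _ _)

/-- the class function -/
noncomputable def G (n e u v j : ℤ) : ℤ :=
  dv n (j - (e * n + u)) + dv n (j - (e * n - u)) - dv n (j - (e * n + v)) -
    dv n (j - (e * n - v))

theorem G_even {n e u v j : ℤ} (he : e % 2 = 0) :
    G n e u v j = dv n (j - u) + dv n (j + u) - dv n (j - v) - dv n (j + v) := by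
  obtain ⟨f, rfl⟩ : ∃ f, e = 2 * f := ⟨e / 2, by omega⟩
  unfold G
  rw [dv_congr (x := j - (2 * f * n + u)) (y := j - u) (-f) (by ring),
    dv_congr (x := j - (2 * f * n - u)) (y := j + u) (-f) (by ring),
    dv_congr (x := j - (2 * f * n + v)) (y := j - v) (-f) (by ring),
    dv_congr (x := j - (2 * f * n - v)) (y := j + v) (-f) (by ring)]

theorem G_odd {n e u v j : ℤ} (he : e % 2 = 1) :
    G n e u v j = dv n (j - n - u) + dv n (j - n + u) - dv n (j - n - v) - dv n (j - n + v) := by
  obtain ⟨f, rfl⟩ : ∃ f, e = 2 * f + 1 := ⟨e / 2, by omega⟩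
  unfold G
  rw [dv_congr (x := j - ((2 * f + 1) * n + u)) (y := j - n - u) (-f) (by ring),
    dv_congr (x := j - ((2 * f + 1) * n - u)) (y := j - n + u) (-f) (by ring),
    dv_congr (x := j - ((2 * f + 1) * n + v)) (y := j - n - v) (-f) (by ring),
    dv_congr (x := j - ((2 * f + 1) * n - v)) (y := j - n + v) (-f) (by ring)]

/-- `p + q < p q` -/
theorem sum_lt {p q : ℤ} (hp : 2 ≤ p) (hq : p < q) : q + p < p * q := by nlinarith

/-- own value, `e` odd -/
theorem own_odd {n e p q : ℤ} (hp : 2 ≤ p) (hq : p < q) (hn : n = p * q) (he : e % 2 = 1) :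
    G n e (q + p) (q - p) (n - q + p) = -1 := by
  have h := sum_lt hp hq
  rw [← hn] at h
  rw [G_odd he, dv_small (n := n) (x := n - q + p - n - (q + p)) (by omega) (by nlinarith)
    (by omega), dv_small (n := n) (x := n - q + p - n + (q + p)) (by omega) (by omega) (by omega),
    dv_small (n := n) (x := n - q + p - n - (q - p)) (by omega) (by omega) (by omega),
    dv_one (n := n) (x := n - q + p - n + (q - p))
      ⟨0, by ring⟩]
  ring

/-- other atoms, both odd -/
theorem oth_odd {n e p q p' q' : ℤ} (hp : 2 ≤ p') (hq' : p' < q') (hq : p < q) (hp' : p' < p)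
    (hn : n = p * q) (hn' : n = p' * q') (he : e % 2 = 1) :
    G n e (q' + p') (q' - p') (n - q + p) = 0 := by
  have h := sum_lt hp hq'
  rw [← hn'] at h
  have h2 : q < q' := by nlinarith
  rw [G_odd he, dv_small (n := n) (x := n - q + p - n - (q' + p')) (by omega) (by omega)
    (by omega), dv_small (n := n) (x := n - q + p - n + (q' + p')) (by omega) (by omega) (by omega),
    dv_small (n := n) (x := n - q + p - n - (q' - p')) (by omega) (by omega) (by omega),
    dv_small (n := n) (x := n - q + p - n + (q' - p')) (by omega) (by omega) (by omega)]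
  ring

/-- other atoms of even type at a point of odd type -/
theorem oth_ev {n e p q p' q' : ℤ} (hp : 2 ≤ p') (hq' : p' < q') (hq : p < q) (hp' : 3 ≤ p)
    (hn : n = p * q) (hn' : n = p' * q') (he : e % 2 = 0) :
    G n e (q' + p') (q' - p') (n - q + p) = 0 := by
  have h1 : 3 * q ≤ n := by nlinarith
  have h2 : 2 * (q' + p') ≤ n + 4 := by nlinarith
  rw [G_even he, dv_small (n := n) (x := n - q + p - (q' + p')) (by omega) (by omega)
    (by omega), dv_small (n := n) (x := n - q + p + (q' + p')) (by omega) (by omega) (by omega),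
    dv_small (n := n) (x := n - q + p - (q' - p')) (by omega) (by omega) (by omega),
    dv_small (n := n) (x := n - q + p + (q' - p')) (by omega) (by omega) (by omega)]
  ring

/-- own value, `e` even -/
theorem own_even {n e p q : ℤ} (hp : 2 ≤ p) (hq : p < q) (hn : n = p * q) (he : e % 2 = 0) :
    G n e (q + p) (q - p) (q + p) = 1 := by
  have h := sum_lt hp hq
  rw [← hn] at h
  have h3 : 2 * q ≤ n := by nlinarith
  rw [G_even he, dv_one (n := n) (x := q + p - (q + p)) ⟨0, by ring⟩,
    dv_small (n := n) (x := q + p + (q + p)) (by omega) (by omega) (by omega),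
    dv_small (n := n) (x := q + p - (q - p)) (by omega) (by omega) (by omega),
    dv_small (n := n) (x := q + p + (q - p)) (by omega) (by omega) (by omega)]
  ring

/-- own value, `e` odd, `p = 2` -/
theorem own_two {n e q : ℤ} (hq : 2 < q) (hn : n = 2 * q) (he : e % 2 = 1) :
    G n e (q + 2) (q - 2) (q + 2) = -1 := by
  rw [G_odd he,
    dv_small (n := n) (x := q + 2 - n - (q + 2)) (by omega) (by omega) (by omega),
    dv_small (n := n) (x := q + 2 - n + (q + 2)) (by omega) (by omega) (by omega),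
    dv_small (n := n) (x := q + 2 - n - (q - 2)) (by omega) (by omega) (by omega),
    dv_one (n := n) (x := q + 2 - n + (q - 2)) ⟨0, by rw [hn]; ring⟩]
  ring

/-- other atoms, `e` even -/
theorem oth_two {n e p q p' q' : ℤ} (hp : 2 ≤ p) (hq' : p' < q') (hp' : p < p')
    (hn : n = p * q) (hn' : n = p' * q') (he : e % 2 = 0) :
    G n e (q' + p') (q' - p') (q + p) = 0 := by
  have h2 : q' < q := by nlinarith
  have h3 : q + p < n := by rw [hn]; exact sum_lt hp (by omega)
  have h4 : q' + p' < q + p := by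
    have : 0 < p * ((q + p) - (q' + p')) := by
      have e1 : p * ((q + p) - (q' + p')) = (p' - p) * (q' - p) := by
        have : p * q = p' * q' := by rw [← hn, ← hn']
        linear_combination this
      rw [e1]
      exact mul_pos (by omega) (by omega)
    have h5 := (mul_pos_iff_of_pos_left (show (0 : ℤ) < p by omega)).mp this
    omega
  rw [G_even he,
    dv_small (n := n) (x := q + p - (q' + p')) (by omega) (by omega) (by omega),
    dv_small (n := n) (x := q + p + (q' + p')) (by omega) (by omega) (by omega),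
    dv_small (n := n) (x := q + p - (q' - p')) (by omega) (by omega) (by omega),
    dv_small (n := n) (x := q + p + (q' - p')) (by omega) (by omega) (by omega)]
  ring

theorem scale {w : ℤ} (hw : w ≠ 0) {A B x y : ℤ} (hA : A = w * B) (hx : x = w * y) :
    A ∣ x ↔ B ∣ y := by
  rw [hA, hx]; exact mul_dvd_mul_iff_left hw

theorem scale2 {w : ℤ} (hw : w ≠ 0) {A B x y : ℤ} (hA : A = -(w * B)) (hx : x = w * y) :
    A ∣ x ↔ B ∣ y := by
  rw [hA, hx, neg_dvd]; exact mul_dvd_mul_iff_left hw

/-- the function of an atom at the multiples of `w` -/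
theorem g0_eq (a : At) (hw : 1 ≤ a.w) (hQ : a.Q ≠ 0) :
    ∃ s : ℤ, (s = 1 ∨ s = -1) ∧ ∀ j : ℤ, g0 a (a.w * j) =
      s * G (a.p * |a.Q|) (s * (bt a.b - ((a.w : ℤ) - 1))) (|a.Q| + a.p) (|a.Q| - a.p) j := by
  have hw' : (a.w : ℤ) ≠ 0 := by omega
  rcases lt_or_gt_of_ne hQ with h | h
  · refine ⟨-1, Or.inr rfl, fun j => ?_⟩
    rw [abs_of_neg h]
    unfold g0 G
    rw [ind_dv (N := a.p * -a.Q) (x := j - (-1 * (bt a.b - ((a.w : ℤ) - 1)) * (a.p * -a.Q) -
        (-a.Q - a.p))) (scale2 hw' (by ring) (by ring)),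
      ind_dv (N := a.p * -a.Q) (x := j - (-1 * (bt a.b - ((a.w : ℤ) - 1)) * (a.p * -a.Q) +
        (-a.Q - a.p))) (scale2 hw' (by ring) (by ring)),
      ind_dv (N := a.p * -a.Q) (x := j - (-1 * (bt a.b - ((a.w : ℤ) - 1)) * (a.p * -a.Q) -
        (-a.Q + a.p))) (scale2 hw' (by ring) (by ring)),
      ind_dv (N := a.p * -a.Q) (x := j - (-1 * (bt a.b - ((a.w : ℤ) - 1)) * (a.p * -a.Q) +
        (-a.Q + a.p))) (scale2 hw' (by ring) (by ring))]
    ring
  · refine ⟨1, Or.inl rfl, fun j => ?_⟩
    rw [abs_of_pos h]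
    unfold g0 G
    rw [ind_dv (N := a.p * a.Q) (x := j - (1 * (bt a.b - ((a.w : ℤ) - 1)) * (a.p * a.Q) +
        (a.Q + a.p))) (scale hw' (by ring) (by ring)),
      ind_dv (N := a.p * a.Q) (x := j - (1 * (bt a.b - ((a.w : ℤ) - 1)) * (a.p * a.Q) -
        (a.Q + a.p))) (scale hw' (by ring) (by ring)),
      ind_dv (N := a.p * a.Q) (x := j - (1 * (bt a.b - ((a.w : ℤ) - 1)) * (a.p * a.Q) +
        (a.Q - a.p))) (scale hw' (by ring) (by ring)),
      ind_dv (N := a.p * a.Q) (x := j - (1 * (bt a.b - ((a.w : ℤ) - 1)) * (a.p * a.Q) -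
        (a.Q - a.p))) (scale hw' (by ring) (by ring))]
    ring

theorem bt_cases (b : Bool) : bt b = 0 ∨ bt b = 1 := by
  cases b
  · left; rfl
  · right; rfl

theorem bt_inj {b b' : Bool} (h : bt b = bt b') : b = b' := by
  cases b <;> cases b' <;> simp [bt] at h ⊢

end LFIXx

open LFIXx

/-- LFIX: the functions of the leaves with a given dilation are independent. -/
theorem lfix : LFIX_Stmt := by
  intro k _ _ c w l hl hsum
  by_contra hne
  have hne' : l.support.Nonempty := Finsupp.support_nonempty_iff.mpr hne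
  -- the isolation principle
  have iso : ∀ a0 ∈ l.support, ∀ ρ : ℤ, g0 a0 ρ ≠ 0 →
      (∀ a ∈ l.support, a ≠ a0 → g0 a ρ = 0) → False := by
    intro a0 ha0 ρ h0 h1
    have h := hsum ρ
    rw [Finsupp.sum, Finset.sum_eq_single a0] at h
    · rcases mul_eq_zero.mp h with h | h
      · exact (Finsupp.mem_support_iff.mp ha0) h
      · exact h0 (by exact_mod_cast h)
    · intro a ha hna
      rw [h1 a ha hna]; simp
    · intro h'; exact absurd ha0 h'
  -- basic facts on the atoms
  have fQ : ∀ a ∈ l.support, (2 : ℤ) ≤ a.p ∧ (a.p : ℤ) < |a.Q| ∧ a.Q ≠ 0 ∧ 1 ≤ a.w := by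
    intro a ha
    obtain ⟨hok, hm, _⟩ := hl a ha
    have h1 := hok.hm hm
    have h2 := hok.hp
    refine ⟨by exact_mod_cast h2, h1, ?_, hok.hw⟩
    intro h
    rw [h, abs_zero] at h1
    omega
  have fN : ∀ a ∈ l.support, ∀ a' ∈ l.support, (a.p : ℤ) * a.Q = a'.p * a'.Q := by
    intro a ha a' ha'
    obtain ⟨hok, hm, hw⟩ := hl a ha
    obtain ⟨hok', hm', hw'⟩ := hl a' ha'
    have h1 := hok.hc
    have h2 := hok'.hc
    have hwpos := hok.hw
    rw [hw] at h1 hwpos
    rw [hw'] at h2
    have h3 : ((w : ℤ)) ^ 2 ≠ 0 := by positivity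
    exact mul_right_cancel₀ h3 (h1.trans h2.symm)
  have fNa : ∀ a ∈ l.support, ∀ a' ∈ l.support, (a.p : ℤ) * |a.Q| = a'.p * |a'.Q| := by
    intro a ha a' ha'
    have h := congrArg abs (fN a ha a' ha')
    rw [abs_mul, abs_mul, Nat.abs_cast, Nat.abs_cast] at h
    exact h
  have feq : ∀ a ∈ l.support, ∀ a' ∈ l.support, a.p = a'.p → a.b = a'.b → a = a' := by
    intro a ha a' ha' hp hb
    obtain ⟨hok, hm, hw⟩ := hl a ha
    obtain ⟨hok', hm', hw'⟩ := hl a' ha'
    have h1 := fN a ha a' ha'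
    rw [hp] at h1
    have h2 : (a'.p : ℤ) ≠ 0 := by
      have := (fQ a' ha').1
      omega
    have h3 := mul_left_cancel₀ h2 h1
    cases a; cases a'
    simp only at hp hb h3 hm hm' hw hw'
    subst hp hb h3 hm hw
    rw [hm', hw']
  have fgo : ∀ a ∈ l.support, ∃ s : ℤ, (s = 1 ∨ s = -1) ∧ ∀ j : ℤ, g0 a (w * j) =
      s * G (a.p * |a.Q|) (s * (bt a.b - ((w : ℤ) - 1))) (|a.Q| + a.p) (|a.Q| - a.p) j := by
    intro a ha
    obtain ⟨s, hs, h⟩ := g0_eq a (fQ a ha).2.2.2 (fQ a ha).2.2.1
    rw [(hl a ha).2.2] at h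
    exact ⟨s, hs, h⟩
  by_cases hodd : (l.support.filter fun a => 3 ≤ a.p ∧ (bt a.b - ((w : ℤ) - 1)) % 2 = 1).Nonempty
  · obtain ⟨a0, ha0, hmax⟩ := Finset.exists_max_image _ (fun a => a.p) hodd
    rw [Finset.mem_filter] at ha0
    obtain ⟨hs0, hp0, he0⟩ := ha0
    obtain ⟨hp2, hpq, hQ0, hw0⟩ := fQ a0 hs0
    obtain ⟨s, hs, hg⟩ := fgo a0 hs0
    apply iso a0 hs0 (w * (a0.p * |a0.Q| - |a0.Q| + a0.p))
    · rw [hg, own_odd hp2 hpq rfl (by rcases hs with rfl | rfl <;> omega)]
      rcases hs with rfl | rfl <;> norm_num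
    · intro a ha hna
      obtain ⟨s', hs', hg'⟩ := fgo a ha
      obtain ⟨hp2', hpq', hQ', hw'⟩ := fQ a ha
      rw [hg']
      have hN := fNa a ha a0 hs0
      rcases Int.emod_two_eq_zero_or_one (bt a.b - ((w : ℤ) - 1)) with he | he
      · rw [hN, oth_ev hp2' hpq' hpq (by exact_mod_cast hp0) rfl hN.symm
          (by rcases hs' with rfl | rfl <;> omega), mul_zero]
      · have hlt : a.p < a0.p := by
          by_contra hge
          push Not at hge
          have h3 : 3 ≤ a.p := le_trans hp0 hge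
          have h4 := hmax a (Finset.mem_filter.mpr ⟨ha, h3, he⟩)
          have h5 : a.p = a0.p := le_antisymm h4 hge
          apply hna
          apply feq a ha a0 hs0 h5
          apply bt_inj
          rcases bt_cases a.b with h | h <;> rcases bt_cases a0.b with h' | h' <;>
            rw [h] at he <;> rw [h'] at he0 <;> rw [h, h'] <;> omega
        rw [hN, oth_odd hp2' hpq' hpq (by exact_mod_cast hlt) rfl hN.symm
          (by rcases hs' with rfl | rfl <;> omega), mul_zero]
  · have hno : ∀ a ∈ l.support, 3 ≤ a.p → (bt a.b - ((w : ℤ) - 1)) % 2 = 0 := by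
      intro a ha h3
      rcases Int.emod_two_eq_zero_or_one (bt a.b - ((w : ℤ) - 1)) with he | he
      · exact he
      · exact absurd ⟨a, Finset.mem_filter.mpr ⟨ha, h3, he⟩⟩ hodd
    obtain ⟨a0, hs0, hmin⟩ := Finset.exists_min_image _ (fun a => a.p) hne'
    obtain ⟨hp2, hpq, hQ0, hw0⟩ := fQ a0 hs0
    obtain ⟨s, hs, hg⟩ := fgo a0 hs0
    apply iso a0 hs0 (w * (|a0.Q| + a0.p))
    · rw [hg]
      rcases Int.emod_two_eq_zero_or_one (bt a0.b - ((w : ℤ) - 1)) with he | he
      · rw [own_even hp2 hpq rfl (by rcases hs with rfl | rfl <;> omega)]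
        rcases hs with rfl | rfl <;> norm_num
      · have h2 : a0.p = 2 := by
          by_contra h
          have h3 : 3 ≤ a0.p := by omega
          have := hno a0 hs0 h3
          omega
        have h2' : (a0.p : ℤ) = 2 := by exact_mod_cast h2
        rw [h2', own_two (by omega) rfl (by rcases hs with rfl | rfl <;> omega)]
        rcases hs with rfl | rfl <;> norm_num
    · intro a ha hna
      obtain ⟨s', hs', hg'⟩ := fgo a ha
      obtain ⟨hp2', hpq', hQ', hw'⟩ := fQ a ha
      have hN := fNa a ha a0 hs0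
      have hle := hmin a ha
      have hpne : a.p ≠ a0.p := by
        intro h5
        apply hna
        apply feq a ha a0 hs0 h5
        by_cases h6 : a.p = 2
        · rw [(hl a ha).1.hb h6, (hl a0 hs0).1.hb (h5 ▸ h6)]
        · have h7 := hno a ha (by omega)
          have h8 := hno a0 hs0 (by omega)
          apply bt_inj
          rcases bt_cases a.b with h | h <;> rcases bt_cases a0.b with h' | h' <;>
            rw [h] at h7 <;> rw [h'] at h8 <;> rw [h, h'] <;> omega
      have hlt : a0.p < a.p := lt_of_le_of_ne hle (Ne.symm hpne)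
      have he := hno a ha (by omega)
      rw [hg', hN, oth_two hp2 hpq' (by exact_mod_cast hlt) rfl hN.symm
        (by rcases hs' with rfl | rfl <;> omega), mul_zero]

end Pool.Agent.GK
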