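import Pool.Agent.GK.AStmts

/-!
MINR: a space of relations that is stable under the twisted automorphism contains a relation with
constant coefficients and a single slope.
-/

namespace Pool.Agent.GK

open LaurentPolynomial

namespace MINR

theorem exists_min {K I : Type} [Field K] (R : Submodule K (I →₀ K)) (hR : R ≠ ⊥) :
    ∃ a ∈ R, a ≠ 0 ∧ ∀ b ∈ R, b ≠ 0 → a.support.card ≤ b.support.card := by
  classical
  obtain ⟨a0, ha0, hn⟩ := (Submodule.ne_bot_iff R).mp hR
  have hex : ∃ n : ℕ, ∃ a ∈ R, a ≠ 0 ∧ a.support.card = n := ⟨_, a0, ha0, hn, rfl⟩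
  obtain ⟨a, ha, han, hc⟩ := Nat.find_spec hex
  refine ⟨a, ha, han, fun b hb hbn => ?_⟩
  rw [hc]
  exact Nat.find_min' hex ⟨b, hb, hbn, rfl⟩

end MINR

theorem minr (h : BASE_Stmt) (h2 : SIMP_Stmt) : MINR_Stmt := by
  intro k _ U σ hU hσ I c R hst hR
  classical
  obtain ⟨hxa, hx0, -⟩ := h k
  obtain ⟨-, hs2, -⟩ := h2 k U σ hU hσ
  obtain ⟨a1, ha1, hn1, hmin1⟩ := MINR.exists_min R hR
  obtain ⟨i0, hi0⟩ : ∃ i0, a1 i0 ≠ 0 := by
    by_contra hcon
    push Not at hcon
    exact hn1 (Finsupp.ext hcon)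
  -- normalisation
  set a : I →₀ KX k := (a1 i0)⁻¹ • a1 with ha_def
  have haR : a ∈ R := R.smul_mem _ ha1
  have ha0 : a i0 = 1 := by
    rw [ha_def, Finsupp.smul_apply, smul_eq_mul]
    exact inv_mul_cancel₀ hi0
  have hane : a ≠ 0 := by
    intro h0
    rw [h0] at ha0
    exact zero_ne_one ha0
  have hsupp : a.support ⊆ a1.support := Finsupp.support_smul
  have hmin : ∀ b ∈ R, b ≠ 0 → a.support.card ≤ b.support.card := fun b hb hbn =>
    (Finset.card_le_card hsupp).trans (hmin1 b hb hbn)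
  -- the twisted relation
  let f : I → KX k := fun i => cst (U (-(2 * (c i : ℚ)))) * xe (-(2 * c i)) * σ (σ (a i))
  have hf : ∀ i, f i ≠ 0 → i ∈ a.support := by
    intro i hi
    rw [Finsupp.mem_support_iff]
    intro h0
    apply hi
    show cst (U (-(2 * (c i : ℚ)))) * xe (-(2 * c i)) * σ (σ (a i)) = 0
    rw [h0, map_zero, map_zero, mul_zero]
  let b : I →₀ KX k := Finsupp.onFinset a.support f hf
  have hb : ∀ i, b i = f i := fun i => rfl
  have hbR : b ∈ R := hst a haR b hb
  have hd : b - b i0 • a ∈ R := R.sub_mem hbR (R.smul_mem _ haR)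
  have hz : b - b i0 • a = 0 := by
    by_contra hne
    have h1 := hmin _ hd hne
    have h3 : (b - b i0 • a).support ⊆ a.support.erase i0 := by
      intro i hi
      rw [Finsupp.mem_support_iff, Finsupp.sub_apply, Finsupp.smul_apply, smul_eq_mul] at hi
      rw [Finset.mem_erase]
      constructor
      · rintro rfl
        apply hi
        rw [ha0, mul_one, sub_self]
      · rw [Finsupp.mem_support_iff]
        intro h0
        apply hi
        rw [h0, mul_zero, sub_zero, hb]
        by_contra hfi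
        exact Finsupp.mem_support_iff.mp (hf i hfi) h0
    have h4 := Finset.card_le_card h3
    have h5 : i0 ∈ a.support := by
      rw [Finsupp.mem_support_iff, ha0]
      exact one_ne_zero
    have h6 := Finset.card_erase_lt_of_mem h5
    omega
  have hU' : ∀ q : ℚ, (cst (U q) : KX k) * cst (U (-q)) = 1 := by
    intro q
    rw [← map_mul, ← hU.add, add_neg_cancel, hU.zero, map_one]
  have hX' : ∀ n : ℤ, (xe n : KX k) * xe (-n) = 1 := by
    intro n
    rw [← hxa, add_neg_cancel, hx0]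
  have key : ∀ i, σ (σ (a i)) = cst (U (2 * ((c i - c i0 : ℤ) : ℚ))) * xe (2 * (c i - c i0)) *
      a i := by
    intro i
    have h1 : b i = b i0 * a i := by
      have := DFunLike.congr_fun hz i
      rw [Finsupp.sub_apply, Finsupp.smul_apply, smul_eq_mul, Finsupp.zero_apply] at this
      exact sub_eq_zero.mp this
    rw [hb, hb] at h1
    have h3 : f i0 = cst (U (-(2 * (c i0 : ℚ)))) * xe (-(2 * c i0)) := by
      show cst (U (-(2 * (c i0 : ℚ)))) * xe (-(2 * c i0)) * σ (σ (a i0)) = _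
      rw [ha0, map_one, map_one, mul_one]
    rw [h3] at h1
    have h4 : cst (U (-(2 * (c i : ℚ)))) * xe (-(2 * c i)) * σ (σ (a i)) =
      cst (U (-(2 * (c i0 : ℚ)))) * xe (-(2 * c i0)) * a i := h1
    have e1 : U (2 * ((c i - c i0 : ℤ) : ℚ)) = U (2 * (c i : ℚ)) * U (-(2 * (c i0 : ℚ))) := by
      rw [← hU.add]
      congr 1
      push_cast
      ring
    have e2 : (xe (2 * (c i - c i0)) : KX k) = xe (2 * c i) * xe (-(2 * c i0)) := by
      rw [← hxa]
      congr 1
      ring
    rw [e1, e2, map_mul]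
    have h5 := hU' (2 * (c i : ℚ))
    have h6 := hX' (2 * c i)
    calc σ (σ (a i)) = (cst (U (2 * (c i : ℚ))) * cst (U (-(2 * (c i : ℚ))))) *
          (xe (2 * c i) * xe (-(2 * c i))) * σ (σ (a i)) := by rw [h5, h6, one_mul, one_mul]
      _ = cst (U (2 * (c i : ℚ))) * xe (2 * c i) *
          (cst (U (-(2 * (c i : ℚ)))) * xe (-(2 * c i)) * σ (σ (a i))) := by ring
      _ = _ := by rw [h4]; ring
  refine ⟨a, haR, hane, c i0, fun i hi => ?_⟩
  obtain ⟨h7, h8⟩ := hs2 (a i) (c i - c i0) (Finsupp.mem_support_iff.mp hi) (key i)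
  exact ⟨by omega, h8⟩

end Pool.Agent.GK
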