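import Pool.Agent.GK.TStmts

/-!
# OPS: connected sum and cabling as operations on knots
-/

namespace Pool.Agent.GK

open Pool.Agent.LibH11 Pool.Agent.IT

namespace OPS

theorem bd_shw {n m : ℕ} {w : Word} (h : Bd m w) : Bd (n + m) (shw n w) := by
  intro x hx
  obtain ⟨y, hy, rfl⟩ := List.mem_map.mp hx
  have := h y hy
  simp only
  omega

theorem bd_csum {n m : ℕ} {u w : Word} (hu : Bd n u) (hw : Bd m w) : Bd (n + m) (csum n u w) :=
  (hu.mono (Nat.le_add_right n m)).append (bd_shw hw)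

theorem shw_zero (w : Word) : shw 0 w = w := by
  unfold shw
  simp

theorem shw_append (n : ℕ) (u w : Word) : shw n (u ++ w) = shw n u ++ shw n w := by
  unfold shw
  simp

theorem shw_shw (n m : ℕ) (w : Word) : shw n (shw m w) = shw (n + m) w := by
  unfold shw
  rw [List.map_map]
  apply List.map_congr_left
  intro x _
  simp only [Function.comp_apply, Prod.mk.injEq, and_true]
  omega

theorem closure_congr {n m : ℕ} {u w : Word} (hn : n = m) (hu : u = w) (h : IsKnot (ev n u))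
    (h' : IsKnot (ev m w)) : closure (ev n u) h = closure (ev m w) h' := by
  subst hn
  subst hu
  rfl

theorem unknot_eq : unknot = closure (ev 0 []) isKnot_nil := rfl

/-- every knot is the closure of a word -/
theorem exists_rep (K : Knot) :
    ∃ (n : ℕ) (w : Word) (h : IsKnot (ev n w)), Bd n w ∧ closure (ev n w) h = K := by
  induction K using Quot.ind with
  | mk x =>
    obtain ⟨⟨n, b⟩, hb⟩ := x
    obtain ⟨w, hw, rfl⟩ := exists_word b
    exact ⟨n, w, hb, hw, rfl⟩

/-- the number of strands (minus one) of a chosen presentation -/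
noncomputable def rn (K : Knot) : ℕ := (exists_rep K).choose

/-- a chosen word -/
noncomputable def rw' (K : Knot) : Word := (exists_rep K).choose_spec.choose

theorem rh (K : Knot) : IsKnot (ev (rn K) (rw' K)) := (exists_rep K).choose_spec.choose_spec.choose

theorem rb (K : Knot) : Bd (rn K) (rw' K) :=
  (exists_rep K).choose_spec.choose_spec.choose_spec.1

theorem re (K : Knot) : closure (ev (rn K) (rw' K)) (rh K) = K :=
  (exists_rep K).choose_spec.choose_spec.choose_spec.2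

theorem rmeq {n : ℕ} {w : Word} (h : IsKnot (ev n w)) :
    meq (rn (closure (ev n w) h)) (rw' (closure (ev n w) h)) n w :=
  exists_eqv (x := ⟨⟨_, ev (rn (closure (ev n w) h)) (rw' (closure (ev n w) h))⟩, rh _⟩)
    (y := ⟨⟨n, ev n w⟩, h⟩) (re _)

section

variable (h1 : CWB_Stmt) (h2 : KSUM_Stmt)

/-- the connected sum -/
noncomputable def mulK (K K' : Knot) : Knot :=
  closure (ev (rn K + rn K') (csum (rn K) (rw' K) (rw' K')))
    (h2 _ _ _ _ (rb K) (rb K') (rh K) (rh K'))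

include h1 in
theorem mulK_eq (n m : ℕ) (u w : Word) (hu : IsKnot (ev n u)) (hw : IsKnot (ev m w))
    (h : IsKnot (ev (n + m) (csum n u w))) (bu : Bd n u) (bw : Bd m w) :
    mulK h2 (closure (ev n u) hu) (closure (ev m w) hw) = closure (ev (n + m) (csum n u w)) h := by
  unfold mulK
  exact (h1.2 _ _ _ _ _ _ _ _ (rb _) bu (rb _) bw (rh _) (rh _) (rmeq hu)
    (rmeq hw)).closure_eq _ _

include h1 in
theorem mulK_assoc (K L N : Knot) : mulK h2 (mulK h2 K L) N = mulK h2 K (mulK h2 L N) := by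
  obtain ⟨n, u, hu, bu, rfl⟩ := exists_rep K
  obtain ⟨m, w, hw, bw, rfl⟩ := exists_rep L
  obtain ⟨l, v, hv, bv, rfl⟩ := exists_rep N
  have k1 := h2 n m u w bu bw hu hw
  have k2 := h2 m l w v bw bv hw hv
  have k3 := h2 (n + m) l _ v (bd_csum bu bw) bv k1 hv
  have k4 := h2 n (m + l) u _ bu (bd_csum bw bv) hu k2
  rw [mulK_eq h1 h2 n m u w hu hw k1 bu bw, mulK_eq h1 h2 m l w v hw hv k2 bw bv,
    mulK_eq h1 h2 (n + m) l _ v k1 hv k3 (bd_csum bu bw) bv,
    mulK_eq h1 h2 n (m + l) u _ hu k2 k4 bu (bd_csum bw bv)]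
  refine closure_congr (Nat.add_assoc n m l) ?_ _ _
  unfold csum
  rw [shw_append, shw_shw, List.append_assoc]

include h1 in
theorem mulK_comm (K L : Knot) : mulK h2 K L = mulK h2 L K := by
  obtain ⟨n, u, hu, bu, rfl⟩ := exists_rep K
  obtain ⟨m, w, hw, bw, rfl⟩ := exists_rep L
  have k1 := h2 n m u w bu bw hu hw
  have k2 := h2 m n w u bw bu hw hu
  rw [mulK_eq h1 h2 n m u w hu hw k1 bu bw, mulK_eq h1 h2 m n w u hw hu k2 bw bu]
  exact (h1.1 n m u w bu bw hu hw).closure_eq _ _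

include h1 in
theorem mulK_one (K : Knot) : mulK h2 K unknot = K := by
  obtain ⟨n, u, hu, bu, rfl⟩ := exists_rep K
  have k1 := h2 n 0 u [] bu (bd_nil 0) hu isKnot_nil
  rw [unknot_eq, mulK_eq h1 h2 n 0 u [] hu isKnot_nil k1 bu (bd_nil 0)]
  refine closure_congr (Nat.add_zero n) ?_ _ _
  unfold csum
  simp [shw]

/-- the monoid of knots -/
noncomputable def mon : CommMonoid Knot where
  mul := mulK h2
  one := unknot
  mul_assoc := mulK_assoc h1 h2
  mul_comm := mulK_comm h1 h2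
  mul_one := mulK_one h1 h2
  one_mul := fun K => (mulK_comm h1 h2 unknot K).trans (mulK_one h1 h2 K)

end

/-- cabling -/
noncomputable def cb (p : ℕ) (q : ℤ) (K : Knot) : Knot :=
  open Classical in
  if h : 1 ≤ p ∧ Int.gcd p q = 1 then
    closure (ev (pn p (rn K)) (cab p q (rw' K)))
      ((topPrm p (rn K) q (rw' K) h.1 (rb K) (rh K)).mpr h.2)
  else K

theorem cb_eq (n : ℕ) (w : Word) (h : IsKnot (ev n w)) (p : ℕ) (q : ℤ)
    (h' : IsKnot (ev (p * (n + 1) - 1) (cab p q w))) (bw : Bd n w) (hp : 1 ≤ p)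
    (hg : Int.gcd p q = 1) :
    cb p q (closure (ev n w) h) = closure (ev (p * (n + 1) - 1) (cab p q w)) h' := by
  unfold cb
  rw [dif_pos ⟨hp, hg⟩]
  exact (topCwd p _ _ q _ _ hp (rb _) bw (rh _) (rmeq h)).closure_eq _ _

theorem cb_one (q : ℤ) (K : Knot) : cb 1 q K = K := by
  obtain ⟨n, u, hu, bu, rfl⟩ := exists_rep K
  have hg : Int.gcd (1 : ℕ) q = 1 := by simp
  have k1 : IsKnot (ev (1 * (n + 1) - 1) (cab 1 q u)) := (topPrm 1 n q u le_rfl bu hu).mpr hg
  rw [cb_eq n u hu 1 q k1 bu le_rfl hg]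
  exact closure_congr (by omega) (cab_one q u) _ _

theorem isKnot_tor {p : ℕ} {q : ℤ} (hp : 1 ≤ p) (hg : Int.gcd p q = 1) :
    IsKnot (ev (p - 1) (tor p q)) := by
  have h := (topPrm p 0 q [] hp (bd_nil 0) isKnot_nil).mpr hg
  rw [cab_nil] at h
  have e : pn p 0 = p - 1 := by
    unfold pn
    simp
  rwa [e] at h

theorem cb_unknot {p : ℕ} {q : ℤ} (hp : 1 ≤ p) (hg : Int.gcd p q = 1) :
    cb p q unknot = closure (ev (p - 1) (tor p q)) (isKnot_tor hp hg) := by
  have k1 : IsKnot (ev (p * (0 + 1) - 1) (cab p q [])) :=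
    (topPrm p 0 q [] hp (bd_nil 0) isKnot_nil).mpr hg
  rw [unknot_eq, cb_eq 0 [] isKnot_nil p q k1 (bd_nil 0) hp hg]
  exact closure_congr (by omega) (cab_nil p q) _ _

theorem cb_unit (p : ℕ) (q : ℤ) (hp : 1 ≤ p) (hq : q.natAbs = 1) : cb p q unknot = unknot := by
  have hg : Int.gcd p q = 1 := by
    simp [Int.gcd, hq]
  rw [cb_unknot hp hg, unknot_eq]
  have hm : meq (p - 1) (tor p q) 0 [] := by
    rcases Int.natAbs_eq_iff.mp hq with h5 | h5
    · rw [h5]
      exact (topUnk p hp).1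
    · rw [h5]
      exact (topUnk p hp).2
  exact hm.closure_eq _ _

theorem cb_swap (p q : ℕ) (hp : 1 ≤ p) (hq : 1 ≤ q) (hc : Nat.Coprime p q) :
    cb p q unknot = cb q p unknot ∧ cb p (-q) unknot = cb q (-p) unknot := by
  have g1 : Int.gcd p q = 1 := by
    rw [Int.gcd_natCast_natCast]
    exact hc
  have g2 : Int.gcd q p = 1 := by
    rw [Int.gcd_natCast_natCast]
    exact hc.symm
  have g3 : Int.gcd p (-q : ℤ) = 1 := by
    rw [Int.gcd_neg]
    exact g1
  have g4 : Int.gcd q (-p : ℤ) = 1 := by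
    rw [Int.gcd_neg]
    exact g2
  rw [cb_unknot hp g1, cb_unknot hq g2, cb_unknot hp g3, cb_unknot hq g4]
  exact ⟨(topTpq p q hp hq).1.closure_eq _ _, (topTpq p q hp hq).2.closure_eq _ _⟩

end OPS

/-- OPS: connected sum and cabling exist as operations on knots. -/
theorem ops (h1 : CWB_Stmt) (h2 : KSUM_Stmt) : OPS_Stmt :=
  ⟨OPS.mon h1 h2, OPS.cb,
    { one := rfl
      sum := fun n m u w hu hw h bu bw => OPS.mulK_eq h1 h2 n m u w hu hw h bu bw
      cab := fun n w h p q h' bw hp hg => OPS.cb_eq n w h p q h' bw hp hg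
      cab_one := OPS.cb_one
      cab_unit := OPS.cb_unit
      cab_swap := OPS.cb_swap }⟩

end Pool.Agent.GK
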