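import Pool.Agent.GK.JStmts

/-!
# P2: the functional equation of a `(2, q)`-cable is of first order
-/

namespace Pool.Agent.GK
open Pool.Agent.LibH11 Pool.Agent.IT
open scoped BigOperators
open PowerSeries

namespace P2

/-- the lowest coefficient of a shifted series -/
theorem coeff_sh {H : B} {k : ℕ} (hk : ∀ j < k, coeff j H = 0) (t : ℚ) :
    coeff k (sh t H) = coeff k H := by
  unfold sh xp
  rw [coeff_mk, Finset.sum_eq_single 0]
  · simp
  · intro j hj hj0
    have h1 : j ≤ k := by
      have := Finset.mem_range.1 hj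
      omega
    rw [hk (k - j) (by omega), map_zero, smul_zero]
  · intro h
    exact absurd (Finset.mem_range.2 (Nat.succ_pos k)) h

theorem coeff_zB_mul (g : ℚ⟦X⟧) (H : B) (k : ℕ) : coeff k (zB g * H) = g * coeff k H := by
  unfold zB
  rw [coeff_C_mul]

theorem E_ne (q : ℤ) (hq : q ≠ 0) : E q ≠ E (-q) := by
  intro h
  have h1 := congrArg (coeff 1) h
  unfold E at h1
  rw [coeff_mk, coeff_mk] at h1
  simp only [pow_one, Nat.factorial_one, Nat.cast_one, div_one] at h1
  have h2 : (q : ℚ) = 0 := by linarith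
  exact hq (by exact_mod_cast h2)

/-- a series with `E q H = E (-q) H(z - h)` vanishes -/
theorem zero_of_eq (q : ℤ) (hq : q ≠ 0) (H : B) (h : zB (E q) * H = zB (E (-q)) * sh (-1) H) :
    H = 0 := by
  have key : ∀ k, coeff k H = 0 := by
    intro k
    induction k using Nat.strong_induction_on with
    | _ k ih =>
      have h1 := congrArg (coeff k) h
      rw [coeff_zB_mul, coeff_zB_mul, coeff_sh ih] at h1
      have h2 : (E q - E (-q)) * coeff k H = 0 := by rw [sub_mul, h1, sub_self]
      exact (mul_eq_zero.1 h2).resolve_left (sub_ne_zero.2 (E_ne q hq))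
  ext k : 1
  rw [key k, map_zero]

end P2

open P2 in
theorem p2 (he : ESER_Stmt) (h2 : RH2_Stmt) : P2_Stmt := by
  obtain ⟨shmul, -, shadd, shsh, sh0, -, -, -, -, -, shcw, cwml, shzB, shhB, -⟩ := h2
  intro q F F' hq hF
  have hE : ∀ a b : ℚ, zB (E a) * zB (E b) = zB (E (a + b)) := fun a b => by
    rw [← map_mul, he.2.1]
  have hH : ∀ a b : ℚ, hB (E a) * hB (E b) = hB (E (a + b)) := fun a b => by
    rw [← map_mul, he.2.1]
  have hE0 : zB (E 0) = 1 := by rw [he.1, map_one]
  have hH0 : hB (E 0) = 1 := by rw [he.1, map_one]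
  have shsub : ∀ (t : ℚ) (A C : B), sh t (A - C) = sh t A - sh t C := by
    intro t A C
    have h := shadd t (A - C) C
    rw [sub_add_cancel] at h
    rw [h, add_sub_cancel_right]
  set H : B := zB (E q) * sh 1 F' + hB (E (-q)) * zB (E (-q)) * F' - cw (dl 2) (sh 1 F) with hHdef
  have e1 : sh (-1) (sh 1 F') = F' := by
    rw [shsh, neg_add_cancel, sh0]
  have e2 : sh (-1) (cw (dl 2) (sh 1 F)) = cw (dl 2) (sh (-1) F) := by
    rw [shcw, shsh]
    norm_num
  have e3 : sh (-1) (zB (E q)) = hB (E (-q)) * zB (E q) := by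
    rw [shzB]
    congr 3
    ring
  have e4 : sh (-1) (zB (E (-q))) = hB (E q) * zB (E (-q)) := by
    rw [shzB]
    congr 3
    ring
  have hshH : sh (-1) H = hB (E (-q)) * zB (E q) * F' + zB (E (-q)) * sh (-1) F' -
      cw (dl 2) (sh (-1) F) := by
    rw [hHdef, shsub, shadd, shmul, shmul, shmul, shhB, e1, e2, e3, e4]
    have e5 : hB (E (-q)) * (hB (E q) * zB (E (-q))) * sh (-1) F' =
        (hB (E (-q)) * hB (E q)) * zB (E (-q)) * sh (-1) F' := by ring
    rw [e5, hH, neg_add_cancel, hH0, one_mul]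
  have hf : zB (E (2 * q)) * sh 1 F' - zB (E (-(2 * q))) * sh (-1) F' =
      zB (E q) * cw (dl 2) (sh 1 F) - zB (E (-q)) * cw (dl 2) (sh (-1) F) := by
    unfold FunEq at hF
    simp only [cwml] at hF
    push_cast at hF
    exact hF
  have key : zB (E q) * H = zB (E (-q)) * sh (-1) H := by
    rw [hshH, hHdef]
    have a1 : zB (E q) * zB (E q) = zB (E (2 * q)) := by
      rw [hE]
      congr 2
      ring
    have a2 : zB (E (-q)) * zB (E (-q)) = zB (E (-(2 * q))) := by
      rw [hE]
      congr 2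
      ring
    linear_combination hf + sh 1 F' * a1 - sh (-1) F' * a2
  have h0 := zero_of_eq q hq H key
  rw [hHdef, sub_eq_zero] at h0
  exact h0

end Pool.Agent.GK
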