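import Pool.Agent.GK.AStmts

/-!
Graph knots: the poles of `L_c r` come in pairs at distance at least two.
-/

namespace Pool.Agent.GK

theorem pole (h : BASE_Stmt) : POLE_Stmt := by
  intro k _ U σ hU hσ Fil F c r n e hn hL
  obtain ⟨hadd, hzero, -⟩ := h k
  have hu : ∀ (c : ℤ) (e : ℚ) (a : KX k), a ∈ Fil e n → xe c * a ∈ Fil e n := by
    intro c e a ha
    have h1 := F.mul e 0 n _ _ (F.unit e 1 c) ha
    rwa [map_one, one_mul, zero_add] at h1
  have hu' : ∀ (c : ℤ) (e : ℚ) (a : KX k), xe c * a ∈ Fil e n → a ∈ Fil e n := by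
    intro c e a ha
    have h1 := hu (-c) e _ ha
    rwa [← mul_assoc, ← hadd, neg_add_cancel, hzero, one_mul] at h1
  have hs : ∀ e : ℚ, σ r ∈ Fil e n ↔ r ∈ Fil (e + 1) n := fun e => F.sg e n r
  have hs' : ∀ e : ℚ, σ.symm r ∈ Fil e n ↔ r ∈ Fil (e - 1) n := by
    intro e
    have h1 := F.sg (e - 1) n (σ.symm r)
    rw [σ.apply_symm_apply, sub_add_cancel] at h1
    exact h1.symm
  have hfin : {e | r ∉ Fil e n}.Finite :=
    (F.fin r).subset fun e he h0 => he (F.mono e 0 n hn h0)
  have hne : hfin.toFinset.Nonempty := by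
    by_contra hemp
    rw [Finset.not_nonempty_iff_eq_empty] at hemp
    have hall : ∀ e, r ∈ Fil e n := by
      intro e
      by_contra he
      have : e ∈ hfin.toFinset := hfin.mem_toFinset.mpr he
      rw [hemp] at this
      exact absurd this (Finset.notMem_empty e)
    apply hL
    unfold Lc
    exact (Fil e n).sub_mem (hu _ _ _ ((hs e).mpr (hall _))) (hu _ _ _ ((hs' e).mpr (hall _)))
  have hmin : ∀ e, r ∉ Fil e n → hfin.toFinset.min' hne ≤ e := fun e he =>
    Finset.min'_le _ _ (hfin.mem_toFinset.mpr he)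
  have hmax : ∀ e, r ∉ Fil e n → e ≤ hfin.toFinset.max' hne := fun e he =>
    Finset.le_max' _ _ (hfin.mem_toFinset.mpr he)
  have hmin' : r ∉ Fil (hfin.toFinset.min' hne) n :=
    hfin.mem_toFinset.mp (Finset.min'_mem _ hne)
  have hmax' : r ∉ Fil (hfin.toFinset.max' hne) n :=
    hfin.mem_toFinset.mp (Finset.max'_mem _ hne)
  refine ⟨hfin.toFinset.min' hne - 1, hfin.toFinset.max' hne + 1, ?_, ?_, ?_⟩
  · have := hmin _ hmax'
    linarith
  · intro hin
    have h1 : r ∈ Fil (hfin.toFinset.min' hne - 1 - 1) n := by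
      by_contra hcon
      have := hmin _ hcon
      linarith
    have h2 := hu (-c) _ _ ((hs' _).mpr h1)
    have h3 := (Fil _ n).add_mem hin h2
    unfold Lc at h3
    rw [sub_add_cancel] at h3
    have h4 := (hs _).mp (hu' _ _ _ h3)
    rw [sub_add_cancel] at h4
    exact hmin' h4
  · intro hin
    have h1 : r ∈ Fil (hfin.toFinset.max' hne + 1 + 1) n := by
      by_contra hcon
      have := hmax _ hcon
      linarith
    have h2 := hu c _ _ ((hs _).mpr h1)
    have h3 := (Fil _ n).sub_mem h2 hin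
    unfold Lc at h3
    rw [sub_sub_cancel] at h3
    have h4 := (hs' _).mp (hu' _ _ _ h3)
    rw [add_sub_cancel_right] at h4
    exact hmax' h4

end Pool.Agent.GK
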