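import Pool.Agent.GK.AStmts

/-!
# Graph knots: reduction of products
-/

namespace Pool.Agent.GK

namespace PRD

theorem zmul_mem {C : Ctx} {n : ℕ} (k : ℤ) {a : C.L} (h : a ∈ C.V n) : (k : C.L) * a ∈ C.V n := by
  rw [← zsmul_eq_mul]
  exact zsmul_mem h k

theorem lv_map {ι : Type} (t : Tr ι) (S : Multiset (ι × {w : ℕ // 1 ≤ w} × ℤ)) :
    lv (S.map fun x => red t x.1 x.2.1 x.2.1.2 x.2.2) = (S.map fun x => t.sz x.1).sum := by
  unfold lv
  rw [Multiset.map_map]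
  rfl

theorem mono_cons (C : Ctx) (g : Gen C.t) (M : Multiset (Gen C.t)) :
    C.mono (g ::ₘ M) = C.yg g * C.mono M := by
  unfold Ctx.mono
  rw [Multiset.map_cons, Multiset.prod_cons]

theorem yg_mem (h : VMUL_Stmt) (C : Ctx) (g : Gen C.t) : C.yg g ∈ C.V (C.t.sz g.i + 1) := by
  have hsing : C.mono {g} = C.yg g := by
    unfold Ctx.mono
    rw [Multiset.map_singleton, Multiset.prod_singleton]
  rw [← hsing]
  refine (h C 0 (C.t.sz g.i) 0 0).2.2.1 _ (le_of_eq ?_)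
  unfold lv
  rw [Multiset.map_singleton, Multiset.sum_singleton]

theorem mono_mem (h : VMUL_Stmt) (C : Ctx) (M : Multiset (Gen C.t)) :
    C.mono M ∈ C.V (lv M + 1) := (h C 0 (lv M) 0 0).2.2.1 _ le_rfl

theorem step (h : VMUL_Stmt) (C : Ctx) (m n : ℕ) (a b a' b' : C.L) (k k' : ℤ)
    (ha' : a' ∈ C.V (m + 1)) (hb' : b' ∈ C.V (n + 1)) (h1 : a - (k : C.L) * a' ∈ C.V m)
    (h2 : b - (k' : C.L) * b' ∈ C.V n) :
    a * b - ((k * k' : ℤ) : C.L) * (a' * b') ∈ C.V (m + n) := by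
  have h3 := (h C m n a b).2.2.2.1 _ _ (zmul_mem k ha') (zmul_mem k' hb') h1 h2
  have h4 : a * b - ((k * k' : ℤ) : C.L) * (a' * b') =
      a * b - (k : C.L) * a' * ((k' : C.L) * b') := by
    push_cast
    ring
  rw [h4]
  exact h3

end PRD

theorem prd (h : VMUL_Stmt) (h1 : RED_Stmt) : PRD_Stmt := by
  intro C S
  induction S using Multiset.induction_on with
  | empty =>
    simp only [Multiset.map_zero, Multiset.prod_zero, Multiset.sum_zero, Int.cast_one, one_mul]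
    have h2 : C.mono 0 = 1 := by
      unfold Ctx.mono
      rw [Multiset.map_zero, Multiset.prod_zero]
    rw [h2, sub_self]
    exact Submodule.zero_mem _
  | cons x S ih =>
    rw [Multiset.map_cons (fun x : C.ι × {w : ℕ // 1 ≤ w} × ℤ => C.Y x.1 x.2.1 x.2.2),
      Multiset.prod_cons,
      Multiset.map_cons (fun x : C.ι × {w : ℕ // 1 ≤ w} × ℤ => sgn C.t x.1 x.2.2),
      Multiset.prod_cons,
      Multiset.map_cons (fun x : C.ι × {w : ℕ // 1 ≤ w} × ℤ => red C.t x.1 x.2.1 x.2.1.2 x.2.2),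
      Multiset.map_cons (fun x : C.ι × {w : ℕ // 1 ≤ w} × ℤ => C.t.sz x.1), Multiset.sum_cons,
      PRD.mono_cons]
    refine PRD.step h C _ _ _ _ _ _ _ _ ?_ ?_ (h1 C x.1 x.2.1 x.2.1.2 x.2.2) ih
    · exact PRD.yg_mem h C (red C.t x.1 x.2.1 x.2.1.2 x.2.2)
    · have h2 := PRD.mono_mem h C (S.map fun x => red C.t x.1 x.2.1 x.2.1.2 x.2.2)
      rw [PRD.lv_map] at h2
      exact h2

end Pool.Agent.GK
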