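import Pool.Agent.GK.AStmts

/-!
# Graph knots: the choice of the monomial and of the factor
-/

namespace Pool.Agent.GK

namespace PSI

variable {ι : Type} {t : Tr ι}

/-- The weight of a monomial. -/
def Ps (M : Multiset (Gen t)) : ℕ := (M.map fun g => 3 ^ t.sz g.i).sum

theorem ps_add (M N : Multiset (Gen t)) : Ps (M + N) = Ps M + Ps N := by
  unfold Ps
  rw [Multiset.map_add, Multiset.sum_add]

theorem ps_shp (M : Multiset (Gen t)) : Ps (M.map shp) = Ps M := by
  unfold Ps
  rw [Multiset.map_map]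
  rfl

theorem sz_pos (i : ι) : 1 ≤ t.sz i := by
  rw [t.hsz i]
  exact Nat.le_add_right _ _

theorem ps_le (M : Multiset (Gen t)) (hM : M ≠ 0) : Ps M ≤ 3 ^ lv M := by
  induction M using Multiset.induction_on with
  | empty => exact absurd rfl hM
  | cons g M ih =>
    by_cases h0 : M = 0
    · subst h0
      simp [Ps, lv]
    · have h1 : Ps (g ::ₘ M) = 3 ^ t.sz g.i + Ps M := by
        unfold Ps
        rw [Multiset.map_cons, Multiset.sum_cons]
      have h2 : lv (g ::ₘ M) = t.sz g.i + lv M := by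
        unfold lv
        rw [Multiset.map_cons, Multiset.sum_cons]
      have h3 := ih h0
      have h4 : 1 ≤ lv M := by
        obtain ⟨x, hx⟩ := Multiset.exists_mem_of_ne_zero h0
        have h5 : t.sz x.i ≤ lv M := by
          unfold lv
          exact Multiset.single_le_sum (fun _ _ => Nat.zero_le _) _
            (Multiset.mem_map_of_mem (fun g : Gen t => t.sz g.i) hx)
        exact (sz_pos x.i).trans h5
      have h6 : 1 ≤ t.sz g.i := sz_pos g.i
      rw [h1, h2, pow_add]
      have h7 : 3 ≤ 3 ^ t.sz g.i := by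
        calc 3 = 3 ^ 1 := (pow_one 3).symm
          _ ≤ 3 ^ t.sz g.i := Nat.pow_le_pow_right (by norm_num) h6
      have h8 : 3 ≤ 3 ^ lv M := by
        calc 3 = 3 ^ 1 := (pow_one 3).symm
          _ ≤ 3 ^ lv M := Nat.pow_le_pow_right (by norm_num) h4
      nlinarith

theorem sz_le_lv {M : Multiset (Gen t)} {x : Gen t} (hx : x ∈ M) : t.sz x.i ≤ lv M := by
  unfold lv
  exact Multiset.single_le_sum (fun _ _ => Nat.zero_le _) _
    (Multiset.mem_map_of_mem (fun g : Gen t => t.sz g.i) hx)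

theorem card_chg (g : Gen t) : Multiset.card (chg g) = (atg g).m := by
  unfold chg atg
  rw [Multiset.card_map]

theorem map_chg (g : Gen t) : (chg g).map Gen.i = t.ch g.i := by
  unfold chg
  rw [Multiset.map_map]
  exact Multiset.map_id _

theorem w_chg {g Z : Gen t} (hZ : Z ∈ chg g) : Z.w = t.p g.i * g.w := by
  unfold chg at hZ
  obtain ⟨j, -, rfl⟩ := Multiset.mem_map.1 hZ
  rfl

open Classical in
theorem ps_rmv {M : Multiset (Gen t)} {g : Gen t} (hg : g ∈ M) :
    Ps (rmv M g) + 3 ^ t.sz g.i = Ps M + Ps (chg g) := by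
  have h1 : Ps M = 3 ^ t.sz g.i + Ps (M.erase g) := by
    conv_lhs => rw [← Multiset.cons_erase hg]
    unfold Ps
    rw [Multiset.map_cons, Multiset.sum_cons]
  unfold rmv
  rw [ps_add, ps_shp, h1]
  ring

/-- The arithmetic of the labels. -/
theorem arith {p p' w w' : ℕ} {Q Q' : ℤ} (hw : 1 ≤ w) (hw' : 1 ≤ w') (hp : 2 ≤ p) (hp' : 2 ≤ p')
    (hg : Int.gcd p Q = 1) (hg' : Int.gcd p' Q' = 1) (h1 : p' * w' = p * w)
    (h2 : (p' : ℤ) * Q' * (w' : ℤ) ^ 2 = p * Q * (w : ℤ) ^ 2) : p' = p ∧ Q' = Q ∧ w' = w := by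
  have h1' : (p' : ℤ) * w' = p * w := by exact_mod_cast h1
  have hwz : (0 : ℤ) < w := by exact_mod_cast hw
  have hwz' : (0 : ℤ) < w' := by exact_mod_cast hw'
  have hpz : (0 : ℤ) < p := by
    have : 0 < p := by omega
    exact_mod_cast this
  have hpw : (0 : ℤ) < p * w := mul_pos hpz hwz
  have h3 : Q' * w' = Q * w := by
    have h4 : ((p : ℤ) * w) * (Q' * w') = ((p : ℤ) * w) * (Q * w) := by
      calc ((p : ℤ) * w) * (Q' * w') = (p' * w') * (Q' * w') := by rw [h1']
        _ = (p' : ℤ) * Q' * (w' : ℤ) ^ 2 := by ring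
        _ = p * Q * (w : ℤ) ^ 2 := h2
        _ = ((p : ℤ) * w) * (Q * w) := by ring
    exact mul_left_cancel₀ hpw.ne' h4
  have h5 : (p' : ℤ) * Q = p * Q' := by
    have h6 : ((w : ℤ) * w') * (p' * Q) = ((w : ℤ) * w') * (p * Q') := by
      calc ((w : ℤ) * w') * (p' * Q) = (p' * w') * (Q * w) := by ring
        _ = (p * w) * (Q' * w') := by rw [h1', h3]
        _ = ((w : ℤ) * w') * (p * Q') := by ring
    exact mul_left_cancel₀ (mul_pos hwz hwz').ne' h6
  have h7 : (p : ℤ) ∣ p' := by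
    have h8 : (p : ℤ) ∣ p' * Q := ⟨Q', h5⟩
    exact (Int.isCoprime_iff_gcd_eq_one.2 hg).dvd_of_dvd_mul_right h8
  have h9 : (p' : ℤ) ∣ p := by
    have h8 : (p' : ℤ) ∣ p * Q' := ⟨Q, h5.symm⟩
    exact (Int.isCoprime_iff_gcd_eq_one.2 hg').dvd_of_dvd_mul_right h8
  have h10 : p' = p :=
    Nat.dvd_antisymm (Int.natCast_dvd_natCast.1 h9) (Int.natCast_dvd_natCast.1 h7)
  have h11 : w' = w := by
    rw [h10] at h1
    exact Nat.eq_of_mul_eq_mul_left (by omega) h1
  refine ⟨h10, ?_, h11⟩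
  rw [h11] at h3
  exact mul_right_cancel₀ hwz.ne' h3

end PSI

open PSI in
/-- PSI. -/
theorem psi (h : SHP_Stmt) : PSI_Stmt := by
  classical
  intro ι t S n c hS hn hSn
  obtain ⟨hinv, -, hlch, -, hrmv, hgcd⟩ := h ι t
  obtain ⟨M, hM, hMmax⟩ := Finset.exists_max_image S Ps hS
  have hM0 : M ≠ 0 := by
    rintro rfl
    have h1 := (hSn 0 hM).1
    have h2 : lv (0 : Multiset (Gen t)) = 0 := by simp [lv]
    omega
  obtain ⟨g, hg, hgmin⟩ : ∃ g ∈ M, ∀ x ∈ M, t.sz g.i ≤ t.sz x.i := by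
    have h1 : M.toFinset.Nonempty := by
      obtain ⟨x, hx⟩ := Multiset.exists_mem_of_ne_zero hM0
      exact ⟨x, Multiset.mem_toFinset.2 hx⟩
    obtain ⟨g, hg, hmin⟩ := Finset.exists_min_image M.toFinset (fun g => t.sz g.i) h1
    exact ⟨g, Multiset.mem_toFinset.1 hg, fun x hx => hmin x (Multiset.mem_toFinset.2 hx)⟩
  refine ⟨M, hM, g, hg, fun M' hM' g' hg' hN => ?_⟩
  have hlow : ∀ Z ∈ chg g', t.sz Z.i < t.sz g.i := by
    intro Z hZ
    by_contra hcon
    have hcon : t.sz g.i ≤ t.sz Z.i := not_lt.1 hcon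
    have h0 : chg g' ≠ 0 := by
      intro h0
      rw [h0] at hZ
      exact absurd hZ (Multiset.notMem_zero _)
    have h1 := ps_rmv hg
    have h2 := ps_rmv hg'
    rw [hN] at h2
    have h3 := hMmax M' hM'
    have h4 := ps_le (chg g') h0
    have h5 := hlch g'
    have h6 : t.sz g.i ≤ lv (chg g') := hcon.trans (sz_le_lv hZ)
    have h7 : 3 ^ t.sz g.i ≤ 3 ^ lv (chg g') := Nat.pow_le_pow_right (by norm_num) h6
    have h8 : 3 ^ t.sz g'.i = 3 * 3 ^ lv (chg g') := by
      rw [← h5, pow_succ, mul_comm]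
    have h9 : 0 < 3 ^ lv (chg g') := Nat.pow_pos (by norm_num)
    omega
  have hchg : ∀ Z ∈ chg g, t.sz Z.i < t.sz g.i := by
    intro Z hZ
    have h1 := sz_le_lv hZ
    have h2 := hlch g
    omega
  have hfil : (rmv M g).filter (fun Z => t.sz Z.i < t.sz g.i) = chg g := by
    unfold rmv
    rw [Multiset.filter_add, Multiset.filter_eq_self.2 hchg, Multiset.filter_eq_nil.2, add_zero]
    intro Z hZ
    obtain ⟨x, hx, rfl⟩ := Multiset.mem_map.1 hZ
    have h1 : t.sz g.i ≤ t.sz x.i := hgmin x (Multiset.mem_of_mem_erase hx)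
    exact not_lt.2 h1
  have hle : chg g' ≤ chg g := by
    rw [← hfil, ← hN]
    unfold rmv
    rw [Multiset.filter_add, Multiset.filter_eq_self.2 hlow]
    exact Multiset.le_add_right _ _
  refine ⟨?_, ?_, ?_⟩
  · rw [← card_chg, ← card_chg]
    exact Multiset.card_le_card hle
  · intro hm
    have h0 : chg g' ≠ 0 := by
      intro h0
      apply hm
      rw [← card_chg, h0, Multiset.card_zero]
    obtain ⟨Z, hZ⟩ := Multiset.exists_mem_of_ne_zero h0
    have h1 := w_chg hZ
    have h2 := w_chg (Multiset.mem_of_le hle hZ)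
    have h3 := (hrmv M g hg).2
    have h4 := (hrmv M' g' hg').2
    rw [hN, (hSn M' hM').2] at h4
    rw [(hSn M hM).2] at h3
    exact arith g.hw g'.hw (t.hp g.i) (t.hp g'.i) (hgcd g.i).1 (hgcd g'.i).1 (h1.symm.trans h2)
      (h4.symm.trans h3)
  · intro hat
    have hp : t.p g'.i = t.p g.i := congrArg At.p hat
    have hQ : t.Q g'.i = t.Q g.i := congrArg At.Q hat
    have hw : g'.w = g.w := congrArg At.w hat
    have hb : g'.b = g.b := congrArg At.b hat
    have hm : (atg g').m = (atg g).m := congrArg At.m hat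
    have hc : chg g' = chg g := by
      refine Multiset.eq_of_le_of_card_le hle ?_
      rw [card_chg, card_chg, hm]
    have hch : t.ch g'.i = t.ch g.i := by
      rw [← map_chg, ← map_chg, hc]
    have hq : t.q g'.i = t.q g.i := by
      unfold Tr.Q at hQ
      rw [hp, hch] at hQ
      exact sub_left_injective hQ
    have hi : g'.i = g.i := t.inj _ _ hp hq hch
    have hgg : g' = g := by
      cases g
      cases g'
      simp only at hi hw hb
      subst hi hw hb
      rfl
    subst hgg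
    refine ⟨?_, rfl⟩
    have h1 : (M'.erase g').map shp = (M.erase g').map shp := by
      have h2 := hN
      unfold rmv at h2
      exact add_left_cancel h2
    have h3 : Function.Injective (shp (t := t)) := by
      intro x y hxy
      rw [← hinv x, ← hinv y, hxy]
    have h4 := Multiset.map_injective h3 h1
    rw [← Multiset.cons_erase hg', ← Multiset.cons_erase hg, h4]

end Pool.Agent.GK
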