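import Pool.Agent.GK.AStmts

/-!
# RED: reduction of `Y i w s` to the generators
-/

namespace Pool.Agent.GK.REDM

open Pool.Agent.GK

theorem al_mul_mem (C : Ctx) (n : ℕ) (r : KX C.k) (x : C.L) (hx : x ∈ C.V n) :
    algebraMap (KX C.k) C.L r * x ∈ C.V n := by
  rw [← Algebra.smul_def]
  exact (C.V n).smul_mem r hx

theorem int_mul_mem (C : Ctx) (n : ℕ) (z : ℤ) (x : C.L) (hx : x ∈ C.V n) :
    (z : C.L) * x ∈ C.V n := by
  rw [← zsmul_eq_mul]
  exact (C.V n).toAddSubgroup.zsmul_mem hx z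

theorem yg_mem (h : VMUL_Stmt) (C : Ctx) (g : Gen C.t) : C.yg g ∈ C.V (C.t.sz g.i + 1) := by
  have h3 := (h C (C.t.sz g.i) (C.t.sz g.i) 0 0).2.2.1 {g} (by simp [lv])
  simpa [Ctx.mono] using h3

theorem prod_mem (h : VMUL_Stmt) (C : Ctx) (W : ℕ) (S : ℤ) (X : Multiset C.ι)
    (hX : ∀ j ∈ X, C.Y j W S ∈ C.V (C.t.sz j + 1)) :
    (X.map fun j => C.Y j W S).prod ∈ C.V ((X.map C.t.sz).sum + 1) := by
  induction X using Multiset.induction_on with
  | empty =>
    have h3 := (h C 0 0 0 0).2.2.1 (0 : Multiset (Gen C.t)) (by simp [lv])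
    simpa [Ctx.mono] using h3
  | cons a X ih =>
    simp only [Multiset.map_cons, Multiset.prod_cons, Multiset.sum_cons]
    have h1 := hX a (Multiset.mem_cons_self a X)
    have h2 := ih fun j hj => hX j (Multiset.mem_cons_of_mem hj)
    have h3 := (h C (C.t.sz a + 1) ((X.map C.t.sz).sum) (C.Y a W S)
      ((X.map fun j => C.Y j W S).prod)).2.1 h1 h2
    have e : C.t.sz a + 1 + (X.map C.t.sz).sum = C.t.sz a + (X.map C.t.sz).sum + 1 := by ring
    rw [e] at h3
    exact h3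

theorem sz_lt (C : Ctx) (i j : C.ι) (hj : j ∈ C.t.ch i) : C.t.sz j < C.t.sz i := by
  have h1 := C.t.hsz i
  have h2 : C.t.sz j ≤ ((C.t.ch i).map C.t.sz).sum :=
    Multiset.single_le_sum (fun _ _ => Nat.zero_le _) _ (Multiset.mem_map_of_mem _ hj)
  omega

theorem red_mod (h : VMUL_Stmt) : RED_Stmt := by
  intro C
  suffices H : ∀ N : ℕ, ∀ i : C.ι, C.t.sz i = N → ∀ (w : ℕ) (hw : 1 ≤ w) (s : ℤ),
      C.Y i w s - (sgn C.t i s : C.L) * C.yg (red C.t i w hw s) ∈ C.V (C.t.sz i) from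
    fun i w hw s => H _ i rfl w hw s
  intro N
  induction N using Nat.strong_induction_on with
  | _ N IH =>
  intro i hi w hw
  -- the values at the children
  have hch : ∀ j ∈ C.t.ch i, ∀ S : ℤ, C.Y j (C.t.p i * w) S ∈ C.V (C.t.sz j + 1) := by
    intro j hj S
    have hW : 1 ≤ C.t.p i * w :=
      Nat.mul_pos (lt_of_lt_of_le Nat.zero_lt_two (C.t.hp i)) hw
    have h1 := IH (C.t.sz j) (by rw [← hi]; exact sz_lt C i j hj) j rfl (C.t.p i * w) hW S
    have h2 := (h C (C.t.sz j) (C.t.sz j + 1) (C.Y j (C.t.p i * w) S -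
      (sgn C.t j S : C.L) * C.yg (red C.t j (C.t.p i * w) hW S)) 0).1 (Nat.le_succ _) h1
    have h3 : (sgn C.t j S : C.L) * C.yg (red C.t j (C.t.p i * w) hW S) ∈ C.V (C.t.sz j + 1) :=
      int_mul_mem C _ _ _ (yg_mem h C (red C.t j (C.t.p i * w) hW S))
    have h4 := (C.V (C.t.sz j + 1)).add_mem h2 h3
    rwa [sub_add_cancel] at h4
  have hpr : ∀ S : ℤ, ((C.t.ch i).map fun j => C.Y j (C.t.p i * w) S).prod ∈
      C.V (C.t.sz i) := by
    intro S
    have h1 := prod_mem h C (C.t.p i * w) S (C.t.ch i) fun j hj => hch j hj S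
    rw [C.t.hsz i, Nat.add_comm]
    exact h1
  by_cases hp : C.t.p i = 2
  · -- `p = 2`
    have hstep : ∀ s : ℤ, C.Y i w (s + 1) + C.Y i w s ∈ C.V (C.t.sz i) := by
      intro s
      rw [C.rec2 i w s hw hp]
      exact al_mul_mem C _ _ _ (al_mul_mem C _ _ _ (hpr _))
    have hyg : ∀ s : ℤ, C.yg (red C.t i w hw s) = C.Y i w 0 := by
      intro s
      simp [Ctx.yg, red, hp, bt]
    have hsg : ∀ s : ℤ, sgn C.t i (s + 1) = - sgn C.t i s := by
      intro s
      unfold sgn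
      rcases Int.emod_two_eq_zero_or_one s with h0 | h0
      · have h1 : (s + 1) % 2 = 1 := by omega
        simp [hp, h0, h1]
      · have h1 : (s + 1) % 2 = 0 := by omega
        simp [hp, h0, h1]
    intro s
    rw [hyg s]
    induction s using Int.induction_on with
    | zero =>
      have : sgn C.t i 0 = 1 := by simp [sgn]
      rw [this]
      simp
    | succ n ih =>
      rw [hsg, Int.cast_neg]
      have h1 := (C.V (C.t.sz i)).sub_mem (hstep n) ih
      have e : C.Y i w (n + 1) + C.Y i w n - (C.Y i w n - (sgn C.t i n : C.L) * C.Y i w 0) =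
        C.Y i w (n + 1) - -(sgn C.t i n : C.L) * C.Y i w 0 := by ring
      rw [e] at h1
      exact h1
    | pred n ih =>
      have e0 : (-(n : ℤ) - 1) + 1 = -(n : ℤ) := by ring
      have h2 := hsg (-(n : ℤ) - 1)
      rw [e0] at h2
      have h3 := hstep (-(n : ℤ) - 1)
      rw [e0] at h3
      rw [h2, Int.cast_neg] at ih
      have h1 := (C.V (C.t.sz i)).sub_mem h3 ih
      have e : C.Y i w (-(n : ℤ)) + C.Y i w (-(n : ℤ) - 1) - (C.Y i w (-(n : ℤ)) -
          -(sgn C.t i (-(n : ℤ) - 1) : C.L) * C.Y i w 0) =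
        C.Y i w (-(n : ℤ) - 1) - (sgn C.t i (-(n : ℤ) - 1) : C.L) * C.Y i w 0 := by ring
      rw [e] at h1
      exact h1
  · -- `p ≠ 2`
    have hstep : ∀ s : ℤ, C.Y i w (s + 1) - C.Y i w (s - 1) ∈ C.V (C.t.sz i) := by
      intro s
      rw [C.rec1 i w s hw]
      exact al_mul_mem C _ _ _ ((C.V (C.t.sz i)).sub_mem (al_mul_mem C _ _ _ (hpr _))
        (al_mul_mem C _ _ _ (hpr _)))
    have hrun : ∀ (r n : ℤ), C.Y i w (2 * n + r) - C.Y i w r ∈ C.V (C.t.sz i) := by
      intro r n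
      induction n using Int.induction_on with
      | zero => simp
      | succ n ih =>
        have h1 := hstep (2 * n + r + 1)
        have e1 : 2 * (n : ℤ) + r + 1 + 1 = 2 * ((n : ℤ) + 1) + r := by ring
        have e2 : 2 * (n : ℤ) + r + 1 - 1 = 2 * (n : ℤ) + r := by ring
        rw [e1, e2] at h1
        have h2 := (C.V (C.t.sz i)).add_mem h1 ih
        rwa [sub_add_sub_cancel] at h2
      | pred n ih =>
        have h1 := hstep (2 * (-(n : ℤ) - 1) + r + 1)
        have e1 : 2 * (-(n : ℤ) - 1) + r + 1 + 1 = 2 * (-(n : ℤ)) + r := by ring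
        have e2 : 2 * (-(n : ℤ) - 1) + r + 1 - 1 = 2 * (-(n : ℤ) - 1) + r := by ring
        rw [e1, e2] at h1
        have h2 := (C.V (C.t.sz i)).sub_mem ih h1
        have e : C.Y i w (2 * (-(n : ℤ)) + r) - C.Y i w r -
            (C.Y i w (2 * (-(n : ℤ)) + r) - C.Y i w (2 * (-(n : ℤ) - 1) + r)) =
          C.Y i w (2 * (-(n : ℤ) - 1) + r) - C.Y i w r := by ring
        rwa [e] at h2
    intro s
    have hs : sgn C.t i s = 1 := by simp [sgn, hp]
    have hyg : C.yg (red C.t i w hw s) = C.Y i w (s % 2) := by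
      rcases Int.emod_two_eq_zero_or_one s with h0 | h0
      · simp [Ctx.yg, red, hp, bt, h0]
      · simp [Ctx.yg, red, hp, bt, h0]
    rw [hs, hyg, Int.cast_one, one_mul]
    have h1 := hrun (s % 2) (s / 2)
    rwa [Int.mul_ediv_add_emod] at h1

end Pool.Agent.GK.REDM

namespace Pool.Agent.GK

theorem red_mod (h : VMUL_Stmt) : RED_Stmt := REDM.red_mod h

end Pool.Agent.GK
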