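import Pool.Agent.GK.JStmts
import Pool.Agent.IT.QEvb

/-!
# RH1: evaluation of series in two variables is a ring homomorphism
-/

set_option autoImplicit false

namespace Pool.Agent.GK

open Pool.Agent.LibH11 Pool.Agent.IT
open PowerSeries
open scoped BigOperators

namespace RH1

theorem sum_pairs (m : ℕ) (t : ℕ → ℕ → ℚ) (ht : ∀ i j, m < i + j → t i j = 0) :
    ∑ k ∈ Finset.range (m + 1), ∑ p ∈ Finset.HasAntidiagonal.antidiagonal k, t p.1 p.2 =
      ∑ i ∈ Finset.range (m + 1), ∑ j ∈ Finset.range (m + 1), t i j := by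
  have h1 : ∀ i ∈ Finset.range (m + 1), ∑ j ∈ Finset.range (m + 1), t i j =
      ∑ j ∈ Finset.range (m - i + 1), t i j := by
    intro i hi
    rw [Finset.mem_range] at hi
    symm
    refine Finset.sum_subset ?_ ?_
    · intro j hj
      rw [Finset.mem_range] at hj ⊢
      omega
    · intro j _ hj
      rw [Finset.mem_range] at hj
      exact ht i j (by omega)
  rw [Finset.sum_congr rfl h1]
  have h2 : ∀ k ∈ Finset.range (m + 1), ∑ p ∈ Finset.HasAntidiagonal.antidiagonal k, t p.1 p.2 =
      ∑ j ∈ Finset.range (k + 1), t (k - j) j := by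
    intro k _
    rw [Finset.Nat.sum_antidiagonal_eq_sum_range_succ_mk, ← Finset.sum_range_reflect]
    refine Finset.sum_congr rfl fun j hj => ?_
    rw [Finset.mem_range] at hj
    have e1 : k + 1 - 1 - j = k - j := by omega
    have e2 : k - (k - j) = j := by omega
    simp only [e1, e2]
  rw [Finset.sum_congr rfl h2, EVB.sum_reindex m fun k j => t (k - j) j]
  refine Finset.sum_congr rfl fun l _ => Finset.sum_congr rfl fun j _ => ?_
  have e1 : l + j - j = l := by omega
  rw [e1]

theorem evB_mul (x : ℚ) (F G : B) : evB x (F * G) = evB x F * evB x G := by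
  ext m
  have h1 : coeff m (evB x F * evB x G) =
      coeff m ((∑ i ∈ Finset.range (m + 1), (PowerSeries.X : ℚ⟦X⟧) ^ i * dl x (coeff i F)) *
        ∑ j ∈ Finset.range (m + 1), (PowerSeries.X : ℚ⟦X⟧) ^ j * dl x (coeff j G)) := by
    rw [coeff_mul, coeff_mul]
    refine Finset.sum_congr rfl fun p hp => ?_
    have h2 := Finset.HasAntidiagonal.mem_antidiagonal.mp hp
    rw [EVB.coeff_evB_eq x F m p.1 (by omega), EVB.coeff_evB_eq x G m p.2 (by omega)]
  have h3 : ∀ k ∈ Finset.range (m + 1),
      coeff m ((PowerSeries.X : ℚ⟦X⟧) ^ k * dl x (coeff k (F * G))) =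
        ∑ p ∈ Finset.HasAntidiagonal.antidiagonal k, coeff m (((PowerSeries.X : ℚ⟦X⟧) ^ p.1 *
          dl x (coeff p.1 F)) * ((PowerSeries.X : ℚ⟦X⟧) ^ p.2 * dl x (coeff p.2 G))) := by
    intro k _
    rw [PowerSeries.coeff_mul k F G, map_sum, Finset.mul_sum, map_sum]
    refine Finset.sum_congr rfl fun p hp => ?_
    have h2 := Finset.HasAntidiagonal.mem_antidiagonal.mp hp
    rw [EVB.dl_mul, ← h2, pow_add]
    congr 1
    ring
  rw [h1, EVB.coeff_evB_eq x _ m m le_rfl, map_sum, Finset.sum_congr rfl h3,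
    Finset.sum_mul_sum, map_sum,
    sum_pairs m fun i j => coeff m (((PowerSeries.X : ℚ⟦X⟧) ^ i *
          dl x (coeff i F)) * ((PowerSeries.X : ℚ⟦X⟧) ^ j * dl x (coeff j G)))]
  · refine Finset.sum_congr rfl fun i _ => ?_
    rw [map_sum]
  · intro i j hij
    have h4 : ((PowerSeries.X : ℚ⟦X⟧) ^ i * dl x (coeff i F)) *
        ((PowerSeries.X : ℚ⟦X⟧) ^ j * dl x (coeff j G)) =
        (PowerSeries.X : ℚ⟦X⟧) ^ (i + j) * (dl x (coeff i F) * dl x (coeff j G)) := by
      rw [pow_add]
      ring
    rw [h4, coeff_X_pow_mul', if_neg (by omega)]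

end RH1

open RH1 in
/-- RH1: evaluation is a ring homomorphism. -/
theorem rh1 (he : ESER_Stmt) : RH1_Stmt := by
  have _ := he
  refine ⟨evB_mul, ?_, ?_, ?_⟩
  · intro x
    ext m
    rw [EVB.coeff_evB, Finset.sum_eq_single 0]
    · rw [Nat.sub_zero, PowerSeries.coeff_zero_one]
      by_cases hm : m = 0
      · subst hm
        simp
      · rw [PowerSeries.coeff_one, if_neg hm, zero_mul]
    · intro k _ hk
      rw [PowerSeries.coeff_one, if_neg hk, map_zero, zero_mul]
    · intro h
      exact absurd (Finset.mem_range.2 (Nat.succ_pos m)) h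
  · intro x f
    ext m
    rw [EVB.coeff_evB, Finset.sum_eq_single m]
    · have h1 : coeff m (hB f) = PowerSeries.C (coeff m f) := PowerSeries.coeff_map _ _ _
      rw [h1, Nat.sub_self, PowerSeries.coeff_zero_C, pow_zero, mul_one]
    · intro k hk hkm
      rw [Finset.mem_range] at hk
      have h1 : coeff k (hB f) = PowerSeries.C (coeff k f) := PowerSeries.coeff_map _ _ _
      rw [h1, PowerSeries.coeff_C, if_neg (by omega), zero_mul]
    · intro h
      exact absurd (Finset.mem_range.2 (Nat.lt_succ_self m)) h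
  · intro x g
    ext m
    rw [EVB.coeff_evB, EVB.coeff_dl, Finset.sum_eq_single 0]
    · have h1 : coeff 0 (zB g) = g := PowerSeries.coeff_zero_C g
      rw [h1, Nat.sub_zero]
    · intro k _ hk
      have h1 : coeff k (zB g) = 0 := by
        change coeff k (PowerSeries.C g) = 0
        rw [PowerSeries.coeff_C, if_neg hk]
      rw [h1, map_zero, zero_mul]
    · intro h
      exact absurd (Finset.mem_range.2 (Nat.succ_pos m)) h

end Pool.Agent.GK
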