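import Pool.Agent.GK.JStmts

/-!
# RH2: shifts and dilations are ring homomorphisms
-/

namespace Pool.Agent.GK

open Pool.Agent.LibH11 Pool.Agent.IT
open PowerSeries

/-- RH2 -/
theorem rh2 (he : ESER_Stmt) (hb : EVB_Stmt) (hi : EVI_Stmt) (h : RH1_Stmt) : RH2_Stmt := by
  obtain ⟨-, eadd, -, -, -, edl, -, -, -, -⟩ := he
  obtain ⟨badd, -, bml, bsh, bcw, -⟩ := hb
  obtain ⟨hmul, hone, hhB, hzB⟩ := h
  have h10 : ∀ (x y : ℚ) (F : B), cw (dl x) (cw (dl y) F) = cw (dl (x * y)) F := by
    intro x y F
    apply hi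
    intro N
    rw [bcw, bcw, bcw, mul_assoc]
  have h9 : ∀ F : B, cw (dl 1) F = F := by
    intro F
    apply hi
    intro N
    rw [bcw, mul_one]
  refine ⟨?_, ?_, ?_, ?_, ?_, ?_, ?_, ?_, h9, h10, ?_, ?_, ?_, ?_, ?_, ?_, ?_, ?_⟩
  · intro t F G
    apply hi
    intro N
    rw [bsh, hmul, hmul, bsh, bsh]
  · intro t
    apply hi
    intro N
    rw [bsh, hone, hone]
  · intro t F G
    apply hi
    intro N
    rw [bsh, badd, badd, bsh, bsh]
  · intro s t F
    apply hi
    intro N
    rw [bsh, bsh, bsh, add_assoc]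
  · intro F
    apply hi
    intro N
    rw [bsh, add_zero]
  · intro x F G
    apply hi
    intro N
    rw [bcw, hmul, hmul, bcw, bcw]
  · intro x
    apply hi
    intro N
    rw [bcw, hone, hone]
  · intro x F G
    apply hi
    intro N
    rw [bcw, badd, badd, bcw, bcw]
  · intro t x F
    apply hi
    intro N
    rw [bsh, bcw, bcw, bsh]
    congr 1
    ring
  · intro g F
    apply hi
    intro N
    rw [bml, hmul, hzB]
  · intro t a
    apply hi
    intro N
    rw [bsh, hzB, edl, hmul, hhB, hzB, edl, ← eadd]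
    congr 1
    ring
  · intro t f
    apply hi
    intro N
    rw [bsh, hhB, hhB]
  · intro x a
    apply hi
    intro N
    rw [bcw, hzB, edl, hzB, edl]
    congr 1
    ring
  · intro x f
    apply hi
    intro N
    rw [bcw, hhB, hhB]
  · intro x hx F hF
    have h1 : cw (dl x⁻¹) (cw (dl x) F) = F := by
      rw [h10, inv_mul_cancel₀ hx, h9]
    rw [← h1, hF]
    ext k m
    simp [cw]
  · intro F
    have hc : ∀ k m : ℕ, coeff m (coeff k (cw (dl (-1)) F)) = coeff m (coeff k F) * (-1) ^ m := by
      intro k m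
      simp [cw, dl]
    constructor
    · intro hF
      ext k m
      rw [hc, map_neg, map_neg]
      rcases Nat.even_or_odd m with hm | hm
      · rw [hF k m hm, zero_mul, neg_zero]
      · rw [hm.neg_one_pow, mul_neg_one]
    · intro hF k m hm
      have h1 := hc k m
      rw [hF, map_neg, map_neg, hm.neg_one_pow, mul_one] at h1
      linarith

end Pool.Agent.GK
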