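import Pool.Agent.GK.JStmts

/-!
# Graph knots: the series of the unknot and of a cable (SERU, SERC)
-/

namespace Pool.Agent.GK
open Pool.Agent.LibH11 Pool.Agent.IT
open scoped BigOperators
open PowerSeries

namespace Serc

/-- additivity of `cw (dl x)` gives the value at a difference -/
lemma cwdl_sub (h2 : RH2_Stmt) (x : ℚ) (F G : B) :
    cw (dl x) (F - G) = cw (dl x) F - cw (dl x) G := by
  have h := h2.2.2.2.2.2.2.2.1 x (F - G) G
  rw [sub_add_cancel] at h
  rw [h, add_sub_cancel_right]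

/-- multiplication by a constant preserves odd series -/
lemma odd_hB (h2 : RH2_Stmt) (f : ℚ⟦X⟧) (G : B) (hG : OddB G) : OddB (hB f * G) := by
  obtain ⟨-, -, -, -, -, hmul, -, -, -, -, -, -, -, -, -, hhB, -, hodd⟩ := h2
  rw [hodd] at hG ⊢
  rw [hmul, hhB, hG, mul_neg]

/-- the quotient of `exp h - exp (-h)` by `h` -/
noncomputable def qa : ℚ⟦X⟧ := PowerSeries.mk fun n => coeff (n + 1) (E 1 - E (-1))

lemma X_mul_qa : X * qa = E 1 - E (-1) := by
  ext n
  cases n with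
  | zero => simp [E]
  | succ n => rw [coeff_succ_X_mul, qa, coeff_mk]

lemma constantCoeff_qa : constantCoeff qa = 2 := by
  rw [← coeff_zero_eq_constantCoeff_apply, qa, coeff_mk, map_sub]
  simp [E]
  norm_num

lemma qa_mul_inv : qa * qa⁻¹ = 1 := by
  apply PowerSeries.mul_inv_cancel
  rw [constantCoeff_qa]
  norm_num

/-- the functional equation is linear over the constants -/
lemma funEq_hB (h2 : RH2_Stmt) (f : ℚ⟦X⟧) (p : ℕ) (q : ℤ) (G G' : B) (h : FunEq p q G G') :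
    FunEq p q (hB f * G) (hB f * G') := by
  obtain ⟨hsh, -, -, -, -, hmul, -, -, -, -, -, hml, -, hshB, -, hhB, -, -⟩ := h2
  unfold FunEq at h ⊢
  simp only [hsh, hmul, hml, hshB, hhB] at h ⊢
  linear_combination hB f * h

end Serc

open Serc

/-- SERU: the unknot. -/
theorem seru (he : ESER_Stmt) (h1 : RH1_Stmt) (h2 : RH2_Stmt) : SERU_Stmt := by
  intro M cb v hv
  constructor
  · have hodd := h2.2.2.2.2.2.2.2.2.2.2.2.2.2.2.2.2.2
    have hzE := h2.2.2.2.2.2.2.2.2.2.2.2.2.2.2.1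
    rw [hodd, fu, map_sub, cwdl_sub h2, hzE, hzE]
    norm_num
  · intro N
    rw [hv.unit, fu, h1.2.2.2, map_sub, he.2.2.2.2.2.1, he.2.2.2.2.2.1]
    simp

/-- SERC: cables. -/
theorem serc (he : ESER_Stmt) (h1 : RH1_Stmt) (h2 : RH2_Stmt) (hs : SOLV_Stmt)
    (hr : EVREC_Stmt) : SERC_Stmt := by
  intro M cb v hv K G p q hG hp hq hg
  obtain ⟨G', hG', hf⟩ := hs p q G hp hq hG.1
  refine ⟨G', ⟨hG', ?_⟩, hf⟩
  intro N
  have hev : ∀ N : ℕ, evB N (hB qa⁻¹ * G) = X * v N K := by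
    intro N
    rw [h1.1, h1.2.2.1, hG.2 N, ← X_mul_qa]
    linear_combination (X * v N K) * qa_mul_inv
  have h := hr p q (hB qa⁻¹ * G) (hB qa⁻¹ * G') (fun N => v N K) (fun N => v N (cb p q K)) hp
    (odd_hB h2 _ _ hG.1) (odd_hB h2 _ _ hG') (funEq_hB h2 _ p q G G' hf) (hv.cab p q K hp hg)
    (hv.one K) (hv.zero _) (hv.one _) hev N
  rw [h1.1, h1.2.2.1] at h
  rw [← X_mul_qa]
  linear_combination qa * h - (evB N G') * qa_mul_inv

end Pool.Agent.GK
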