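import Pool.Agent.GK.JStmts

/-!
# SERS: the series of a connected sum
-/

namespace Pool.Agent.GK
open Pool.Agent.LibH11 Pool.Agent.IT
open scoped BigOperators
open PowerSeries

namespace SERS

theorem coeff_one_E (t : ℚ) : coeff 1 (E t) = t := by
  unfold E
  rw [coeff_mk]
  simp

theorem sub_ne (t : ℚ) (ht : t ≠ 0) : E t - E (-t) ≠ 0 := by
  intro h
  have h1 := congrArg (coeff 1) h
  rw [map_sub, coeff_one_E, coeff_one_E, map_zero] at h1
  apply ht
  linarith

theorem evB_zero_of_odd (F : B) (h : OddB F) : evB ((0 : ℕ) : ℚ) F = 0 := by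
  unfold evB
  ext m
  rw [coeff_mk, map_zero]
  refine Finset.sum_eq_zero fun k _ => ?_
  by_cases hk : m - k = 0
  · rw [hk, h k 0 (by decide), zero_mul]
  · rw [Nat.cast_zero, zero_pow hk, mul_zero]

/-- an odd series is divisible by `z` -/
theorem exists_div (F : B) (h : OddB F) : ∃ F1 : B, F = zB X * F1 := by
  refine ⟨PowerSeries.mk fun k => PowerSeries.mk fun m => coeff (m + 1) (coeff k F), ?_⟩
  ext k m
  unfold zB
  rw [PowerSeries.coeff_C_mul, coeff_mk]
  cases m with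
  | zero =>
    rw [h k 0 (by decide)]
    simp
  | succ m => rw [PowerSeries.coeff_succ_X_mul, coeff_mk]

end SERS

open SERS in
theorem sers (he : ESER_Stmt) (h1 : RH1_Stmt) (h2 : RH2_Stmt) : SERS_Stmt := by
  intro M cb v hv K K' G G' hG hG'
  obtain ⟨-, -, hcc, -, -, hdl, -, -, -, -⟩ := he
  obtain ⟨hevm, -, -, hevz⟩ := h1
  obtain ⟨-, -, -, -, -, hcwm, -, hcwa, -, -, -, -, -, -, hcwz, -, -, hodd⟩ := h2
  -- the unit
  obtain ⟨g, hg⟩ : ∃ g : ℚ⟦X⟧, E 1 - E (-1) = X * g := by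
    have hc : constantCoeff (E 1 - E (-1)) = 0 := by
      rw [map_sub, hcc, hcc, sub_self]
    obtain ⟨g, hg⟩ := PowerSeries.X_dvd_iff.2 hc
    exact ⟨g, hg⟩
  have hgc : constantCoeff g = 2 := by
    have h3 := congrArg (coeff 1) hg
    rw [map_sub, coeff_one_E, coeff_one_E, show (1 : ℕ) = 0 + 1 from rfl,
      PowerSeries.coeff_succ_X_mul, PowerSeries.coeff_zero_eq_constantCoeff_apply] at h3
    rw [← h3]
    norm_num
  have hgu : g * g⁻¹ = 1 := by
    apply PowerSeries.mul_inv_cancel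
    rw [hgc]
    norm_num
  have hfu : fu = zB X * zB g := by
    unfold fu
    rw [hg, map_mul]
  have hzz : zB g * zB g⁻¹ = 1 := by
    rw [← map_mul, hgu, map_one]
  have hfu0 : fu ≠ 0 := by
    intro h0
    have h3 : E 1 - E (-1) = 0 := by
      have h4 : zB (E 1 - E (-1)) = zB 0 := by
        rw [map_zero]
        exact h0
      exact PowerSeries.C_injective h4
    exact sub_ne 1 one_ne_zero h3
  obtain ⟨G1, hG1⟩ := exists_div G hG.1
  obtain ⟨G2, hprod⟩ : ∃ G2 : B, G2 * fu = G * G' := by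
    refine ⟨zB g⁻¹ * G1 * G', ?_⟩
    calc zB g⁻¹ * G1 * G' * fu = (zB X * G1) * G' * (zB g * zB g⁻¹) := by
          rw [hfu]
          ring
      _ = G * G' := by rw [hzz, mul_one, ← hG1]
  -- oddness
  have hfs : fu = zB (E 1) - zB (E (-1)) := by
    unfold fu
    rw [map_sub]
  have hcf : cw (dl (-1)) fu = -fu := by
    have h3 : fu + zB (E (-1)) = zB (E 1) := by
      rw [hfs, sub_add_cancel]
    have h4 := hcwa (-1) fu (zB (E (-1)))
    rw [h3, hcwz, hcwz] at h4
    have h5 : (1 : ℚ) * -1 = -1 := by norm_num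
    have h6 : (-1 : ℚ) * -1 = 1 := by norm_num
    rw [h5, h6] at h4
    have h7 : cw (dl (-1)) fu = zB (E (-1)) - zB (E 1) := by
      rw [h4, add_sub_cancel_right]
    rw [h7, hfs, neg_sub]
  have hoddG : OddB G2 := by
    rw [hodd]
    have h3 := hcwm (-1) G2 fu
    rw [hprod, hcwm, (hodd G).1 hG.1, (hodd G').1 hG'.1, hcf, neg_mul_neg, ← hprod] at h3
    have h4 : (cw (dl (-1)) G2 + G2) * fu = 0 := by
      rw [add_mul, h3]
      ring
    rcases mul_eq_zero.1 h4 with h5 | h5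
    · exact eq_neg_of_add_eq_zero_left h5
    · exact absurd h5 hfu0
  refine ⟨G2, ⟨hoddG, ?_⟩, hprod⟩
  intro N
  rcases Nat.eq_zero_or_pos N with hN | hN
  · rw [hN, hv.zero, mul_zero]
    exact evB_zero_of_odd _ hoddG
  · have hN0 : (N : ℚ) ≠ 0 := by exact_mod_cast hN.ne'
    have h3 := congrArg (evB (N : ℚ)) hprod
    rw [hevm, hevm, hG.2 N, hG'.2 N] at h3
    have h4 : evB (N : ℚ) fu = E N - E (-N) := by
      unfold fu
      rw [hevz, map_sub, hdl, hdl, one_mul, neg_mul, one_mul]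
    rw [h4] at h3
    have h5 := hv.sum N K K'
    apply mul_right_cancel₀ (sub_ne (N : ℚ) hN0)
    rw [h3]
    calc (E 1 - E (-1)) * v N K * ((E 1 - E (-1)) * v N K') =
        (E 1 - E (-1)) * ((E 1 - E (-1)) * v N K * v N K') := by ring
      _ = (E 1 - E (-1)) * ((E N - E (-N)) * v N (M.mul K K')) := by rw [h5]
      _ = (E 1 - E (-1)) * v N (M.mul K K') * (E N - E (-N)) := by ring

end Pool.Agent.GK
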