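import Pool.Agent.GK.AStmts

/-!
Graph knots: combinatorics of the labels (module GK_SHP, by helper38).
-/

namespace Pool.Agent.GK

namespace SHP

variable {ι : Type} {t : Tr ι}

theorem gen_eq (g g' : Gen t) (hi : g.i = g'.i) (hw : g.w = g'.w) (hb : g.b = g'.b) : g = g' := by
  cases g
  cases g'
  simp only at hi hw hb
  subst hi
  subst hw
  subst hb
  rfl

theorem shp_i (g : Gen t) : (shp g).i = g.i := rfl

theorem shp_w (g : Gen t) : (shp g).w = g.w := rfl

theorem shp_b (g : Gen t) :
    (shp g).b = if t.p g.i = 2 then false else decide ((bt g.b + g.w) % 2 = 1) := rfl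

theorem shp_shp (g : Gen t) : shp (shp g) = g := by
  apply gen_eq
  · rfl
  · rfl
  · rw [shp_b, shp_b, shp_i, shp_w]
    by_cases h : t.p g.i = 2
    · rw [if_pos h, g.hb h]
    · rw [if_neg h, if_neg h]
      rcases hb : g.b with _ | _
      · rcases Int.emod_two_eq_zero_or_one (g.w : ℤ) with h2 | h2
        · have h3 : ¬ ((bt false + (g.w : ℤ)) % 2 = 1) := by
            unfold bt
            simp only [Bool.false_eq_true, if_false]
            omega
          rw [decide_eq_false h3, decide_eq_false h3]
        · have h3 : (bt false + (g.w : ℤ)) % 2 = 1 := by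
            unfold bt
            simp only [Bool.false_eq_true, if_false]
            omega
          rw [decide_eq_true h3]
          apply decide_eq_false
          unfold bt
          simp only [if_true]
          omega
      · rcases Int.emod_two_eq_zero_or_one (g.w : ℤ) with h2 | h2
        · have h3 : (bt true + (g.w : ℤ)) % 2 = 1 := by
            unfold bt
            simp only [if_true]
            omega
          rw [decide_eq_true h3, decide_eq_true h3]
        · have h3 : ¬ ((bt true + (g.w : ℤ)) % 2 = 1) := by
            unfold bt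
            simp only [if_true]
            omega
          rw [decide_eq_false h3]
          apply decide_eq_true
          unfold bt
          simp only [Bool.false_eq_true, if_false]
          omega

theorem lv_map_shp (M : Multiset (Gen t)) : lv (M.map shp) = lv M := by
  unfold lv
  rw [Multiset.map_map]
  rfl

theorem cs_map_shp (M : Multiset (Gen t)) : cs (M.map shp) = cs M := by
  unfold cs
  rw [Multiset.map_map]
  rfl

theorem lv_add (M N : Multiset (Gen t)) : lv (M + N) = lv M + lv N := by
  unfold lv
  rw [Multiset.map_add, Multiset.sum_add]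

theorem cs_add (M N : Multiset (Gen t)) : cs (M + N) = cs M + cs N := by
  unfold cs
  rw [Multiset.map_add, Multiset.sum_add]

theorem lv_cons (g : Gen t) (M : Multiset (Gen t)) : lv (g ::ₘ M) = t.sz g.i + lv M := by
  unfold lv
  rw [Multiset.map_cons, Multiset.sum_cons]

theorem cs_cons (g : Gen t) (M : Multiset (Gen t)) : cs (g ::ₘ M) = sl g + cs M := by
  unfold cs
  rw [Multiset.map_cons, Multiset.sum_cons]

theorem lv_chg (g : Gen t) : lv (chg g) + 1 = t.sz g.i := by
  unfold lv chg
  rw [Multiset.map_map, t.hsz g.i, add_comm]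
  rfl

theorem cs_chg (g : Gen t) :
    cs (chg g) = ((t.ch g.i).map fun j => (t.p j : ℤ) * t.q j).sum *
      ((t.p g.i : ℤ) * g.w) ^ 2 := by
  unfold cs chg
  rw [Multiset.map_map, ← Multiset.sum_map_mul_right]
  apply congrArg Multiset.sum
  apply Multiset.map_congr rfl
  intro j _
  rw [Function.comp_apply]
  unfold sl red
  simp only
  push_cast
  ring

theorem sl_sub (g : Gen t) :
    sl g - cs (chg g) = (t.p g.i : ℤ) * t.Q g.i * (g.w : ℤ) ^ 2 := by
  rw [cs_chg]
  unfold sl Tr.Q
  ring

theorem gcd_Q (i : ι) : Int.gcd (t.p i) (t.Q i) = 1 := by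
  rw [← t.hg i]
  unfold Tr.Q
  rw [sub_eq_add_neg, ← mul_neg]
  exact Int.gcd_add_mul_left_right _ _ _

end SHP

open SHP in
/-- SHP: combinatorics of the labels. -/
theorem shp_mod : SHP_Stmt := by
  intro ι t
  refine ⟨shp_shp, fun M => ⟨lv_map_shp M, cs_map_shp M⟩, lv_chg, sl_sub, ?_, fun i => ⟨gcd_Q i, ?_⟩⟩
  · intro M g hg
    classical
    have h1 : rmv M g = chg g + (M.erase g).map shp := by
      unfold rmv
      congr!
    have h2 : g ::ₘ M.erase g = M := Multiset.cons_erase hg
    have h3 : lv M = t.sz g.i + lv (M.erase g) := by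
      rw [← lv_cons, h2]
    have h4 : cs M = sl g + cs (M.erase g) := by
      rw [← cs_cons, h2]
    have h5 := lv_chg g
    have h6 := sl_sub g
    rw [h1, lv_add, cs_add, lv_map_shp, cs_map_shp, h3, h4]
    constructor
    · omega
    · linarith
  · intro h
    have h1 := t.hn i h
    unfold Tr.Q
    rw [h]
    simpa using h1

end Pool.Agent.GK
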