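import Pool.Agent.GK.AStmts

/-!
# SIMP: stable ideals of the ring of Laurent polynomials
-/

namespace Pool.Agent.GK

open LaurentPolynomial
open scoped BigOperators

namespace SIMP

section

variable {k : Type} [Field k]

/-- The facts about Laurent polynomials which are used. -/
structure B (k : Type) [Field k] : Prop where
  xadd : ∀ m n : ℤ, (xe (m + n) : KX k) = xe m * xe n
  x0 : (xe 0 : KX k) = 1
  inj : ∀ a : ℤ →₀ k, lap a = 0 → a = 0
  add : ∀ a b : ℤ →₀ k, lap (a + b) = lap a + lap b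
  single : ∀ (n : ℤ) (y : k), lap (Finsupp.single n y) = cst y * xe n
  mul : ∀ a b : ℤ →₀ k, ∃ c, lap a * lap b = lap c
  frac : ∀ r : KX k, ∃ a b : ℤ →₀ k, b ≠ 0 ∧ r * lap b = lap a

/-- The element is a Laurent polynomial. -/
def IsLap (a : KX k) : Prop := ∃ f : ℤ →₀ k, a = lap f

theorem lap_zero : (lap (0 : ℤ →₀ k) : KX k) = 0 := by
  simp [lap]

variable (hB : B k)

include hB

theorem lap_sub (a b : ℤ →₀ k) : lap (a - b) = lap a - lap b := by
  have h := hB.add (a - b) b
  rw [sub_add_cancel] at h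
  rw [h, add_sub_cancel_right]

theorem lap_inj {a b : ℤ →₀ k} (h : lap a = lap b) : a = b := by
  have h1 := hB.inj (a - b) (by rw [lap_sub hB, h, sub_self])
  exact sub_eq_zero.1 h1

theorem lap_sum {ι : Type} (s : Finset ι) (f : ι → (ℤ →₀ k)) :
    lap (∑ i ∈ s, f i) = ∑ i ∈ s, lap (f i) := by
  classical
  induction s using Finset.induction_on with
  | empty => simp [lap_zero]
  | insert i s hi ih => rw [Finset.sum_insert hi, Finset.sum_insert hi, hB.add, ih]

omit hB in
/-- The Laurent polynomial with the coefficients `g n * a n` at `n + c`. -/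
noncomputable def sh (g : ℤ → k) (c : ℤ) (a : ℤ →₀ k) : ℤ →₀ k :=
  a.sum fun n y => Finsupp.single (n + c) (g n * y)

omit hB in
theorem sh_apply (g : ℤ → k) (c : ℤ) (a : ℤ →₀ k) (m : ℤ) :
    sh g c a m = g (m - c) * a (m - c) := by
  classical
  unfold sh
  rw [Finsupp.sum_apply, Finsupp.sum]
  rw [Finset.sum_eq_single (m - c)]
  · rw [sub_add_cancel, Finsupp.single_eq_same]
  · intro n _ hn
    rw [Finsupp.single_apply, if_neg]
    intro h
    exact hn (by omega)
  · intro h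
    rw [Finsupp.notMem_support_iff.1 h]
    simp

omit hB in
theorem sh_card (g : ℤ → k) (c : ℤ) (a : ℤ →₀ k) :
    (sh g c a).support.card ≤ a.support.card := by
  classical
  refine (Finset.card_le_card (t := a.support.image (· + c)) ?_).trans Finset.card_image_le
  intro m hm
  rw [Finsupp.mem_support_iff, sh_apply] at hm
  rw [Finset.mem_image]
  exact ⟨m - c, Finsupp.mem_support_iff.2 (right_ne_zero_of_mul hm), sub_add_cancel m c⟩

/-- An additive map which multiplies the monomials by monomials. -/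
theorem map_lap (F : KX k →+ KX k) (g : ℤ → k) (c : ℤ)
    (h : ∀ (n : ℤ) (y : k), F (cst y * xe n) = cst (g n * y) * xe (n + c)) (a : ℤ →₀ k) :
    F (lap a) = lap (sh g c a) := by
  have h1 : lap a = ∑ n ∈ a.support, cst (a n) * xe n := rfl
  have h2 : sh g c a = ∑ n ∈ a.support, Finsupp.single (n + c) (g n * a n) := rfl
  rw [h1, h2, map_sum, lap_sum hB]
  refine Finset.sum_congr rfl fun n _ => ?_
  rw [h, hB.single]

theorem IsLap.mono (y : k) (n : ℤ) : IsLap (cst y * xe n : KX k) :=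
  ⟨Finsupp.single n y, (hB.single n y).symm⟩

theorem IsLap.sub {a b : KX k} (ha : IsLap a) (hb : IsLap b) : IsLap (a - b) := by
  obtain ⟨f, rfl⟩ := ha
  obtain ⟨g, rfl⟩ := hb
  exact ⟨f - g, (lap_sub hB f g).symm⟩

theorem IsLap.mul {a b : KX k} (ha : IsLap a) (hb : IsLap b) : IsLap (a * b) := by
  obtain ⟨f, rfl⟩ := ha
  obtain ⟨g, rfl⟩ := hb
  exact hB.mul f g

theorem mono_lap (y : k) (c : ℤ) (a : ℤ →₀ k) :
    cst y * xe c * lap a = lap (sh (fun _ => y) c a) := by
  have := map_lap hB (AddMonoidHom.mulLeft (cst y * xe c)) (fun _ => y) c (by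
    intro n z
    rw [AddMonoidHom.coe_mulLeft, map_mul, hB.xadd]
    ring) a
  simpa using this

variable {U : ℚ → k} {σ : KX k ≃+* KX k} (hU : UOk U) (hs : Sg U σ)

include hU hs

theorem sg_lap (a : ℤ →₀ k) : σ (lap a) = lap (sh (fun n => U n) 0 a) := by
  have := map_lap hB (σ : KX k →+ KX k) (fun n => U n) 0 (by
    intro n z
    change σ (cst z * xe n) = _
    rw [map_mul, hs.cst, hs.xe, map_mul, add_zero]
    ring) a
  exact this

theorem IsLap.sg {a : KX k} (ha : IsLap a) : IsLap (σ a) := by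
  obtain ⟨f, rfl⟩ := ha
  exact ⟨_, sg_lap hB hU hs f⟩

theorem sg2_lap (a : ℤ →₀ k) : σ (σ (lap a)) = lap (sh (fun n => U (2 * n)) 0 a) := by
  have := map_lap hB ((σ : KX k →+ KX k).comp (σ : KX k →+ KX k)) (fun n => U (2 * n)) 0 (by
    intro n z
    change σ (σ (cst z * xe n)) = _
    rw [map_mul, hs.cst, hs.xe, map_mul, map_mul, hs.cst, hs.cst, hs.xe, map_mul, add_zero]
    have e : U (2 * (n : ℚ)) = U n * U n := by rw [two_mul, hU.add]
    rw [e, map_mul]
    ring) a
  exact this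

omit hB hs in
theorem U_ne (a : ℚ) : U a ≠ 0 := by
  intro h
  have h1 := hU.add a (-a)
  rw [add_neg_cancel, hU.zero, h, zero_mul] at h1
  exact one_ne_zero h1

omit hB hs in
theorem cU (a : ℚ) : (cst (U a) : KX k) * cst (U (-a)) = 1 := by
  rw [← map_mul, ← hU.add, add_neg_cancel, hU.zero, map_one]

omit hU hs in
theorem xx (n : ℤ) : (xe n : KX k) * xe (-n) = 1 := by
  rw [← hB.xadd, add_neg_cancel, hB.x0]

omit hs in
/-- A Laurent polynomial with exponent zero only. -/
theorem const_of (g : ℤ →₀ k) (h : ∀ n : ℤ, (U (2 * n) - 1) * g n = 0) : lap g = cst (g 0) := by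
  have h1 : g = Finsupp.single 0 (g 0) := by
    ext n
    by_cases hn : n = 0
    · rw [hn, Finsupp.single_eq_same]
    · rw [Finsupp.single_apply, if_neg (Ne.symm hn)]
      refine (mul_eq_zero.1 (h n)).resolve_left fun h2 => hn ?_
      have h3 := hU.inj _ (sub_eq_zero.1 h2)
      have h4 : (n : ℚ) = 0 := by linarith
      exact_mod_cast h4
  calc lap g = lap (Finsupp.single 0 (g 0)) := congrArg lap h1
    _ = cst (g 0) := by rw [hB.single, hB.x0, mul_one]

theorem part1_aux (D : Set (KX k)) (hsub : ∀ a ∈ D, ∀ b ∈ D, a - b ∈ D)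
    (hmul : ∀ a ∈ D, ∀ (y : k) (n : ℤ), cst y * xe n * a ∈ D) (hσ : ∀ a ∈ D, σ (σ a) ∈ D) :
    ∀ (N : ℕ) (f : ℤ →₀ k), f.support.card ≤ N → f ≠ 0 → lap f ∈ D → (1 : KX k) ∈ D := by
  classical
  intro N
  induction N with
  | zero =>
    intro f hf hf0
    exact absurd (Finsupp.support_eq_empty.1 (Finset.card_eq_zero.1 (Nat.le_zero.1 hf))) hf0
  | succ N ih =>
    intro f hf hf0 hfD
    obtain ⟨n0, hn0⟩ := Finsupp.support_nonempty_iff.2 hf0
    rw [Finsupp.mem_support_iff] at hn0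
    set g : ℤ →₀ k := sh (fun _ => 1) (-n0) f with hg
    have hgD : lap g ∈ D := by
      have h1 := hmul _ hfD 1 (-n0)
      rwa [mono_lap hB, ← hg] at h1
    have hg0 : g 0 ≠ 0 := by
      rw [hg, sh_apply]
      simpa using hn0
    have hgc : g.support.card ≤ N + 1 := (sh_card _ _ _).trans hf
    set d : ℤ →₀ k := sh (fun n => U (2 * n)) 0 g - g with hd
    have hdD : lap d ∈ D := by
      rw [hd, lap_sub hB, ← sg2_lap hB hU hs]
      exact hsub _ (hσ _ hgD) _ hgD
    have hda : ∀ n, d n = (U (2 * n) - 1) * g n := by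
      intro n
      rw [hd, Finsupp.sub_apply, sh_apply, sub_zero]
      ring
    by_cases hd0 : d = 0
    · have h1 := const_of hB hU g fun n => by rw [← hda, hd0, Finsupp.zero_apply]
      have h2 := hmul _ hgD (g 0)⁻¹ 0
      rw [h1, hB.x0, mul_one, ← map_mul, inv_mul_cancel₀ hg0, map_one] at h2
      exact h2
    · refine ih d ?_ hd0 hdD
      have h3 : d.support ⊆ g.support.erase 0 := by
        intro n hn
        rw [Finsupp.mem_support_iff, hda] at hn
        rw [Finset.mem_erase, Finsupp.mem_support_iff]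
        refine ⟨?_, right_ne_zero_of_mul hn⟩
        rintro rfl
        apply hn
        simp [hU.zero]
      have h4 := Finset.card_le_card h3
      rw [Finset.card_erase_of_mem (Finsupp.mem_support_iff.2 hg0)] at h4
      omega

theorem part1 (D : Set (KX k)) (hL : ∀ a ∈ D, ∃ f : ℤ →₀ k, a = lap f)
    (hsub : ∀ a ∈ D, ∀ b ∈ D, a - b ∈ D)
    (hmul : ∀ a ∈ D, ∀ (y : k) (n : ℤ), cst y * xe n * a ∈ D) (hσ : ∀ a ∈ D, σ (σ a) ∈ D)
    (hne : ∃ a ∈ D, a ≠ 0) : (1 : KX k) ∈ D := by
  obtain ⟨a, ha, ha0⟩ := hne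
  obtain ⟨f, rfl⟩ := hL a ha
  refine part1_aux hB hU hs D hsub hmul hσ _ f le_rfl ?_ ha
  rintro rfl
  exact ha0 lap_zero

/-- The criterion for Laurent polynomials. -/
theorem lap_of (r : KX k) (h : ∀ b : KX k, IsLap b → IsLap (b * r) → IsLap (σ (σ b) * r)) :
    IsLap r := by
  have h1 := part1 hB hU hs {b : KX k | IsLap b ∧ IsLap (b * r)} (fun a ha => ha.1)
    (fun a ha b hb => ⟨IsLap.sub hB ha.1 hb.1, by
      rw [sub_mul]
      exact IsLap.sub hB ha.2 hb.2⟩)
    (fun a ha y n => ⟨IsLap.mul hB (IsLap.mono hB y n) ha.1, by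
      rw [mul_assoc]
      exact IsLap.mul hB (IsLap.mono hB y n) ha.2⟩)
    (fun a ha => ⟨IsLap.sg hB hU hs (IsLap.sg hB hU hs ha.1), h a ha.1 ha.2⟩) (by
      obtain ⟨a, b, hb, hab⟩ := hB.frac r
      exact ⟨lap b, ⟨⟨b, rfl⟩, ⟨a, by rw [mul_comm, hab]⟩⟩, fun h0 => hb (hB.inj b h0)⟩)
  have h2 := h1.2
  rwa [one_mul] at h2

theorem part2 (a : KX k) (d : ℤ) (ha : a ≠ 0)
    (h : σ (σ a) = cst (U (2 * d)) * xe (2 * d) * a) : d = 0 ∧ ∃ y, a = cst y := by
  obtain ⟨g, rfl⟩ := lap_of hB hU hs a (fun b hb hba => by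
    have h1 : σ (σ b) * a = cst (U (-(2 * d))) * xe (-(2 * d)) * σ (σ (b * a)) := by
      rw [map_mul, map_mul, h]
      have e1 := cU hU (2 * (d : ℚ))
      have e2 := xx hB (2 * d)
      calc σ (σ b) * a = (cst (U (2 * d)) * cst (U (-(2 * d)))) * (xe (2 * d) * xe (-(2 * d))) *
            (σ (σ b) * a) := by rw [e1, e2]; ring
        _ = _ := by ring
    rw [h1]
    exact IsLap.mul hB (IsLap.mono hB _ _) (IsLap.sg hB hU hs (IsLap.sg hB hU hs hba)))
  have hg : g ≠ 0 := by
    rintro rfl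
    exact ha lap_zero
  rw [sg2_lap hB hU hs, mono_lap hB] at h
  have h1 := lap_inj hB h
  have h2 : ∀ n : ℤ, U (2 * n) * g n = U (2 * d) * g (n - 2 * d) := by
    intro n
    have h3 := DFunLike.congr_fun h1 n
    rwa [sh_apply, sh_apply, sub_zero] at h3
  have hd : d = 0 := by
    by_contra hd
    obtain ⟨n0, hn0⟩ := Finsupp.support_nonempty_iff.2 hg
    rw [Finsupp.mem_support_iff] at hn0
    have h3 : ∀ j : ℕ, g (n0 - 2 * d * j) ≠ 0 := by
      intro j
      induction j with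
      | zero => simpa using hn0
      | succ j ih =>
        intro h4
        have h5 := h2 (n0 - 2 * d * j)
        have e : n0 - 2 * d * (j : ℤ) - 2 * d = n0 - 2 * d * ((j + 1 : ℕ) : ℤ) := by
          push_cast
          ring
        rw [e, h4, mul_zero] at h5
        exact (mul_ne_zero (U_ne hU _) ih) h5
    have h4 : (g.support : Set ℤ).Infinite := by
      refine Set.infinite_of_injective_forall_mem (f := fun j : ℕ => n0 - 2 * d * (j : ℤ)) ?_ ?_
      · intro i j hij
        have h5 : 2 * d * (i : ℤ) = 2 * d * (j : ℤ) := by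
          have : n0 - 2 * d * (i : ℤ) = n0 - 2 * d * (j : ℤ) := hij
          linarith
        have h6 := mul_left_cancel₀ (mul_ne_zero two_ne_zero hd) h5
        exact_mod_cast h6
      · intro j
        exact Finsupp.mem_support_iff.2 (h3 j)
    exact h4 g.support.finite_toSet
  subst hd
  refine ⟨rfl, g 0, const_of hB hU g fun n => ?_⟩
  have h3 := h2 n
  simp only [Int.cast_zero, mul_zero, hU.zero, sub_zero, one_mul] at h3
  rw [sub_mul, h3]
  ring

theorem part3 (r : KX k) (c : ℤ) (f : ℤ →₀ k) (h : Lc σ c r = lap f) : ∃ g, r = lap g := by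
  apply lap_of hB hU hs r
  intro b hb hbr
  have h1 : σ (Lc σ c r) = cst (U c) * xe c * σ (σ r) - cst (U (-c)) * xe (-c) * r := by
    unfold Lc
    rw [map_sub, map_mul, map_mul, hs.xe, hs.xe, RingEquiv.apply_symm_apply]
    push_cast
    rfl
  have h2 : r = cst (U c) * xe c * (cst (U c) * xe c * σ (σ r) - σ (lap f)) := by
    rw [← h, h1]
    have e1 := cU hU (c : ℚ)
    have e2 := xx hB c
    calc r = (cst (U c) * cst (U (-c))) * (xe c * xe (-c)) * r := by rw [e1, e2]; ring
      _ = _ := by ring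
  have h3 : σ (σ b) * r = cst (U c) * xe c * (cst (U c) * xe c * σ (σ (b * r)) -
      σ (σ b) * σ (lap f)) := by
    rw [map_mul, map_mul]
    calc σ (σ b) * r = σ (σ b) * (cst (U c) * xe c * (cst (U c) * xe c * σ (σ r) - σ (lap f))) := by
          rw [← h2]
      _ = _ := by ring
  rw [h3]
  have hm := IsLap.mono hB (U c) c
  have hs2 : ∀ {x : KX k}, IsLap x → IsLap (σ (σ x)) := fun hx =>
    IsLap.sg hB hU hs (IsLap.sg hB hU hs hx)
  exact IsLap.mul hB hm (IsLap.sub hB (IsLap.mul hB hm (hs2 hbr))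
    (IsLap.mul hB (hs2 hb) (IsLap.sg hB hU hs ⟨f, rfl⟩)))

end

end SIMP

theorem simp_mod (h : BASE_Stmt) : SIMP_Stmt := by
  intro k _ U σ hU hs
  obtain ⟨a1, a2, a3, a4, a5, a6, a7, -⟩ := h k
  have hB : SIMP.B k := ⟨a1, a2, a3, a4, a5, a6, a7⟩
  exact ⟨fun D hL hsub hmul hσ hne => SIMP.part1 hB hU hs D hL hsub hmul hσ hne,
    fun a d ha h => SIMP.part2 hB hU hs a d ha h, fun r c f h => SIMP.part3 hB hU hs r c f h⟩

end Pool.Agent.GK
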