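import Pool.Agent.GK.AStmts

/-!
# Graph knots, module SQA: the action of the automorphism and of its inverse on the monomials
-/

namespace Pool.Agent.GK
open LaurentPolynomial
open scoped BigOperators

namespace SQA

variable (C : Ctx)

/-- the basic data at a generator -/
def trip (s : Gen C.t → ℤ) (g : Gen C.t) : C.ι × {w : ℕ // 1 ≤ w} × ℤ :=
  (g.i, ⟨g.w, g.hw⟩, s g)

/-- the product of the `Y` at the points `s g` -/
def prd (s : Gen C.t → ℤ) (M : Multiset (Gen C.t)) : C.L :=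
  (M.map fun g => C.Y g.i g.w (s g)).prod

lemma prd_cons (s : Gen C.t → ℤ) (g : Gen C.t) (M : Multiset (Gen C.t)) :
    prd C s (g ::ₘ M) = C.Y g.i g.w (s g) * prd C s M := by
  unfold prd; rw [Multiset.map_cons, Multiset.prod_cons]

lemma prd_zero (s : Gen C.t → ℤ) : prd C s 0 = 1 := by
  unfold prd; rw [Multiset.map_zero, Multiset.prod_zero]

lemma mono_eq (M : Multiset (Gen C.t)) : C.mono M = prd C (fun g => bt g.b) M := rfl

lemma cs_cons {ι : Type} {t : Tr ι} (g : Gen t) (M : Multiset (Gen t)) :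
    cs (g ::ₘ M) = sl g + cs M := by
  unfold cs; rw [Multiset.map_cons, Multiset.sum_cons]

lemma cs_zero {ι : Type} {t : Tr ι} : cs (0 : Multiset (Gen t)) = 0 := by
  unfold cs; rw [Multiset.map_zero, Multiset.sum_zero]

lemma smul_eq (r : KX C.k) (a : C.L) : r • a = C.al r * a := by
  rw [Algebra.smul_def]; rfl

lemma al_mul_mem {n : ℕ} (r : KX C.k) {a : C.L} (ha : a ∈ C.V n) : C.al r * a ∈ C.V n := by
  rw [← smul_eq]; exact Submodule.smul_mem _ _ ha

lemma sg_al (r : KX C.k) : C.sg (C.al r) = C.al (C.s0 r) := C.alg r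

lemma sgs_al (r : KX C.k) : C.sg.symm (C.al r) = C.al (C.s0.symm r) := by
  rw [RingEquiv.symm_apply_eq, sg_al, RingEquiv.apply_symm_apply]

lemma s0_cst (y : C.k) : C.s0 (cst y) = cst y := C.hs0.cst y

lemma s0_xe (n : ℤ) : C.s0 (xe n) = cst (C.U n) * xe n := C.hs0.xe n

lemma U_neg_mul (a : ℚ) : C.U a * C.U (-a) = 1 := by
  rw [← C.hU.add, add_neg_cancel, C.hU.zero]

lemma s0s_cst (y : C.k) : C.s0.symm (cst y) = cst y := by
  rw [RingEquiv.symm_apply_eq, s0_cst]

lemma s0s_xe (n : ℤ) : C.s0.symm (xe n) = cst (C.U (-(n : ℚ))) * xe n := by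
  rw [RingEquiv.symm_apply_eq, map_mul, s0_cst, s0_xe, ← mul_assoc, ← map_mul, mul_comm (C.U _),
    U_neg_mul, map_one, one_mul]

/-- the factor `u ^ a x ^ n` -/
noncomputable def fac (a : ℚ) (n : ℤ) : KX C.k := cst (C.U a) * xe n

lemma s0_fac (a : ℚ) (n : ℤ) : C.s0 (fac C a n) = fac C (a + n) n := by
  unfold fac
  rw [map_mul, s0_cst, s0_xe, ← mul_assoc, ← map_mul, C.hU.add]

lemma s0s_fac (a : ℚ) (n : ℤ) : C.s0.symm (fac C a n) = fac C (a - n) n := by
  unfold fac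
  rw [map_mul, s0s_cst, s0s_xe, ← mul_assoc, ← map_mul, sub_eq_add_neg, C.hU.add]

lemma fac_mul (h : BASE_Stmt) (a b : ℚ) (m n : ℤ) :
    fac C a m * fac C b n = fac C (a + b) (m + n) := by
  unfold fac
  rw [(h C.k).1 m n, C.hU.add, map_mul]
  ring

lemma fac_zero (h : BASE_Stmt) : fac C 0 0 = 1 := by
  unfold fac
  rw [(h C.k).2.1, C.hU.zero, map_one, one_mul]

lemma sg_Y (g : Gen C.t) (s : ℤ) : C.sg (C.Y g.i g.w s) =
    C.al (fac C ((-1 / 2 : ℚ) * sl g) (-1 * sl g)) * C.Y g.i g.w (s + g.w) := by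
  rw [C.shift g.i g.w s g.hw]
  have e1 : (-((C.t.p g.i : ℚ) * C.t.q g.i * (g.w : ℚ) ^ 2 / 2)) = (-1 / 2 : ℚ) * sl g := by
    unfold sl; push_cast; ring
  have e2 : (-((C.t.p g.i : ℤ) * C.t.q g.i * (g.w : ℤ) ^ 2)) = -1 * sl g := by
    unfold sl; ring
  rw [e1, e2]
  rfl

lemma sgs_Y (h : BASE_Stmt) (g : Gen C.t) (s : ℤ) : C.sg.symm (C.Y g.i g.w s) =
    C.al (fac C ((-1 / 2 : ℚ) * sl g) (1 * sl g)) * C.Y g.i g.w (s - g.w) := by
  rw [RingEquiv.symm_apply_eq, map_mul, sg_al, sg_Y, sub_add_cancel, s0_fac, ← mul_assoc,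
    ← map_mul, fac_mul C h]
  have e1 : (-1 / 2 : ℚ) * sl g + (1 * sl g : ℤ) + (-1 / 2 : ℚ) * sl g = 0 := by
    push_cast; ring
  have e2 : 1 * sl g + -1 * sl g = 0 := by ring
  rw [e1, e2, fac_zero C h, map_one, one_mul]

lemma sgg_Y (h : BASE_Stmt) (g : Gen C.t) (s : ℤ) : (C.sg.trans C.sg) (C.Y g.i g.w s) =
    C.al (fac C ((-2 : ℚ) * sl g) (-2 * sl g)) * C.Y g.i g.w (s + 2 * g.w) := by
  rw [RingEquiv.trans_apply, sg_Y, map_mul, sg_al, sg_Y, s0_fac, ← mul_assoc,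
    ← map_mul, fac_mul C h]
  have e1 : (-1 / 2 : ℚ) * sl g + (-1 * sl g : ℤ) + (-1 / 2 : ℚ) * sl g = (-2 : ℚ) * sl g := by
    push_cast; ring
  have e2 : -1 * sl g + -1 * sl g = -2 * sl g := by ring
  have e3 : s + (g.w : ℤ) + g.w = s + 2 * g.w := by ring
  rw [e1, e2, e3]

/-- a ring homomorphism that acts on the `Y` by a shift and a factor -/
lemma gen (h : BASE_Stmt) (φ : C.L ≃+* C.L) (α : ℚ) (β : ℤ) (s s' : Gen C.t → ℤ)
    (hφ : ∀ g : Gen C.t, φ (C.Y g.i g.w (s g)) =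
      C.al (fac C (α * sl g) (β * sl g)) * C.Y g.i g.w (s' g)) (M : Multiset (Gen C.t)) :
    φ (prd C s M) = C.al (fac C (α * cs M) (β * cs M)) * prd C s' M := by
  induction M using Multiset.induction_on with
  | empty =>
    rw [prd_zero, prd_zero, cs_zero]
    have e1 : α * ((0 : ℤ) : ℚ) = 0 := by push_cast; ring
    rw [e1, mul_zero, fac_zero C h, map_one, map_one, one_mul]
  | cons g M ih =>
    rw [prd_cons, prd_cons, cs_cons, map_mul, hφ, ih]
    have e1 : α * ((sl g + cs M : ℤ) : ℚ) = α * sl g + α * cs M := by push_cast; ring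
    have e2 : β * (sl g + cs M) = β * sl g + β * cs M := by ring
    rw [e1, e2, ← fac_mul C h, map_mul]
    ring

/-- the sign of a product -/
def sgm (s : Gen C.t → ℤ) (M : Multiset (Gen C.t)) : ℤ :=
  (M.map fun g => sgn C.t g.i (s g)).prod

/-- the monomial of a product -/
def rdm (s : Gen C.t → ℤ) (M : Multiset (Gen C.t)) : Multiset (Gen C.t) :=
  M.map fun g => red C.t g.i g.w g.hw (s g)

lemma sgm_pm (s : Gen C.t → ℤ) (M : Multiset (Gen C.t)) : sgm C s M = 1 ∨ sgm C s M = -1 := by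
  unfold sgm
  induction M using Multiset.induction_on with
  | empty => left; simp
  | cons g M ih =>
    rw [Multiset.map_cons, Multiset.prod_cons]
    unfold sgn
    rcases ih with e | e <;> unfold sgn at e <;> rw [e] <;> split_ifs <;> simp

lemma prdm (h2 : PRD_Stmt) (s : Gen C.t → ℤ) (M : Multiset (Gen C.t)) :
    prd C s M - (sgm C s M : C.L) * C.mono (rdm C s M) ∈ C.V (lv M) := by
  have := h2 C (M.map (trip C s))
  rw [Multiset.map_map, Multiset.map_map, Multiset.map_map, Multiset.map_map] at this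
  exact this

lemma lv_rdm (s : Gen C.t → ℤ) (M : Multiset (Gen C.t)) : lv (rdm C s M) = lv M := by
  unfold rdm lv
  rw [Multiset.map_map]
  rfl

lemma act (h : BASE_Stmt) (h2 : PRD_Stmt) (φ : C.L ≃+* C.L) (α : ℚ) (β : ℤ)
    (s' : Gen C.t → ℤ)
    (hφ : ∀ g : Gen C.t, φ (C.Y g.i g.w (bt g.b)) =
      C.al (fac C (α * sl g) (β * sl g)) * C.Y g.i g.w (s' g)) (M : Multiset (Gen C.t)) :
    φ (C.mono M) - (sgm C s' M : C.L) * C.al (fac C (α * cs M) (β * cs M)) *
      C.mono (rdm C s' M) ∈ C.V (lv M) := by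
  rw [mono_eq, gen C h φ α β (fun g => bt g.b) s' hφ M]
  have := al_mul_mem C (fac C (α * cs M) (β * cs M)) (prdm C h2 s' M)
  rw [mul_sub] at this
  convert this using 2
  ring

lemma red_plus (g : Gen C.t) : red C.t g.i g.w g.hw (bt g.b + g.w) = shp g := rfl

lemma red_minus (g : Gen C.t) : red C.t g.i g.w g.hw (bt g.b - g.w) = shp g := by
  unfold shp red
  have e : (bt g.b - (g.w : ℤ)) % 2 = (bt g.b + (g.w : ℤ)) % 2 := by omega
  simp only [e]

lemma sgn_minus (g : Gen C.t) : sgn C.t g.i (bt g.b - g.w) = sgn C.t g.i (bt g.b + g.w) := by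
  unfold sgn
  have e : (bt g.b - (g.w : ℤ)) % 2 = (bt g.b + (g.w : ℤ)) % 2 := by omega
  rw [e]

lemma red_two (g : Gen C.t) : red C.t g.i g.w g.hw (bt g.b + 2 * g.w) = g := by
  have hb := g.hb
  obtain ⟨i, w, b, hw, hb'⟩ := g
  unfold red
  congr 1
  by_cases hp : C.t.p i = 2
  · rw [if_pos hp, hb' hp]
  · rw [if_neg hp]
    cases b
    · simp only [bt]; simp
    · simp only [bt]; simp

lemma sgn_two (g : Gen C.t) : sgn C.t g.i (bt g.b + 2 * g.w) = 1 := by
  unfold sgn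
  rw [if_neg]
  rintro ⟨hp, hs⟩
  rw [g.hb hp] at hs
  simp only [bt] at hs
  simp at hs

lemma mono_mem (h1 : VMUL_Stmt) {M : Multiset (Gen C.t)} {n : ℕ} (hM : lv M ≤ n) :
    C.mono M ∈ C.V (n + 1) := (h1 C 0 n 0 0).2.2.1 M hM

lemma V_le (h1 : VMUL_Stmt) {m n : ℕ} (hmn : m ≤ n) {a : C.L} (ha : a ∈ C.V m) : a ∈ C.V n :=
  (h1 C m n a 0).1 hmn ha

lemma stable (h1 : VMUL_Stmt) (φ : C.L ≃+* C.L) (τ : KX C.k → KX C.k)
    (hτ : ∀ r, φ (C.al r) = C.al (τ r))
    (hφ : ∀ M : Multiset (Gen C.t), ∃ (r : KX C.k) (ε : ℤ) (N : Multiset (Gen C.t)),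
      lv N = lv M ∧ φ (C.mono M) - (ε : C.L) * C.al r * C.mono N ∈ C.V (lv M))
    (n : ℕ) (a : C.L) (ha : a ∈ C.V n) : φ a ∈ C.V n := by
  unfold Ctx.V at ha
  induction ha using Submodule.span_induction with
  | mem x hx =>
    obtain ⟨M, hM, rfl⟩ := hx
    obtain ⟨r, ε, N, hN, hm⟩ := hφ M
    have hM' : lv M < n := hM
    have e1 : (ε : C.L) * C.al r * C.mono N ∈ C.V n := by
      have e2 : C.mono N ∈ C.V n :=
        V_le C h1 (by omega : lv N + 1 ≤ n) (mono_mem C h1 le_rfl)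
      have e3 : (ε : C.L) * C.al r * C.mono N = C.al ((ε : KX C.k) * r) * C.mono N := by
        rw [map_mul, map_intCast]
      rw [e3]
      exact al_mul_mem C _ e2
    have e4 := Submodule.add_mem _ (V_le C h1 hM'.le hm) e1
    rwa [sub_add_cancel] at e4
  | zero => rw [map_zero]; exact Submodule.zero_mem _
  | add x y _ _ hx hy => rw [map_add]; exact Submodule.add_mem _ hx hy
  | smul r x _ hx =>
    rw [smul_eq, map_mul, hτ]
    exact al_mul_mem C _ hx

end SQA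

open SQA in
theorem sqa (h : BASE_Stmt) (h1 : VMUL_Stmt) (h2 : PRD_Stmt) : SQA_Stmt := by
  intro C
  have A1 := act C h h2 C.sg (-1 / 2) (-1) (fun g => bt g.b + g.w) (fun g => sg_Y C g _)
  have A2 := act C h h2 C.sg.symm (-1 / 2) 1 (fun g => bt g.b - g.w) (fun g => sgs_Y C h g _)
  have A3 := act C h h2 (C.sg.trans C.sg) (-2) (-2) (fun g => bt g.b + 2 * g.w)
    (fun g => sgg_Y C h g _)
  refine ⟨fun n a ha => ⟨?_, ?_⟩, fun M => ?_, fun M => ?_⟩
  · exact stable C h1 C.sg C.s0 (sg_al C)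
      (fun M => ⟨_, _, _, lv_rdm C _ M, A1 M⟩) n a ha
  · exact stable C h1 C.sg.symm C.s0.symm (sgs_al C)
      (fun M => ⟨_, _, _, lv_rdm C _ M, A2 M⟩) n a ha
  · have := A3 M
    have e1 : sgm C (fun g => bt g.b + 2 * g.w) M = 1 := by
      unfold sgm
      rw [Multiset.map_congr rfl (fun g _ => sgn_two C g)]
      simp
    have e2 : rdm C (fun g => bt g.b + 2 * g.w) M = M := by
      unfold rdm
      rw [Multiset.map_congr rfl (fun g _ => red_two C g)]
      simp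
    rw [e1, e2, Int.cast_one, one_mul, RingEquiv.trans_apply] at this
    have e3 : (-2 : ℚ) * cs M = -(2 * cs M) := by ring
    have e4 : -2 * cs M = -(2 * cs M) := by ring
    rw [e3, e4] at this
    exact this
  · refine ⟨sgm C (fun g => bt g.b + g.w) M, sgm_pm C _ M, ?_, ?_⟩
    · have := A1 M
      have e3 : (-1 / 2 : ℚ) * cs M = -((cs M : ℚ) / 2) := by ring
      have e4 : -1 * cs M = -(cs M) := by ring
      rw [e3, e4] at this
      exact this
    · have := A2 M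
      have e1 : sgm C (fun g => bt g.b - g.w) M = sgm C (fun g => bt g.b + g.w) M := by
        unfold sgm
        rw [Multiset.map_congr rfl (fun g _ => sgn_minus C g)]
      have e2 : rdm C (fun g => bt g.b - g.w) M = M.map shp := by
        unfold rdm
        rw [Multiset.map_congr rfl (fun g _ => red_minus C g)]
      have e3 : (-1 / 2 : ℚ) * cs M = -((cs M : ℚ) / 2) := by ring
      have e4 : 1 * cs M = cs M := by ring
      rw [e1, e2, e3, e4] at this
      exact this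

end Pool.Agent.GK
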