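import Pool.Agent.GK.AStmts

/-!
Graph knots: the induction step of the algebraic independence theorem.
-/

namespace Pool.Agent.GK

namespace STEP

variable {C : Ctx}

theorem al_mul_mem {n : ℕ} (r : KX C.k) {v : C.L} (hv : v ∈ C.V n) : C.al r * v ∈ C.V n := by
  have : C.al r * v = r • v := (Algebra.smul_def r v).symm
  rw [this]
  exact (C.V n).smul_mem r hv

/-- the linear combination of monomials -/
noncomputable def lc (C : Ctx) : (Multiset (Gen C.t) →₀ KX C.k) →ₗ[KX C.k] C.L :=
  Finsupp.linearCombination (KX C.k) C.mono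

theorem lc_apply (a : Multiset (Gen C.t) →₀ KX C.k) :
    lc C a = a.sum fun M r => C.al r * C.mono M := by
  unfold lc
  rw [Finsupp.linearCombination_apply]
  apply Finsupp.sum_congr
  intro M _
  exact Algebra.smul_def _ _

theorem lc_mem {n : ℕ} (a : Multiset (Gen C.t) →₀ KX C.k) (ha : ∀ M ∈ a.support, lv M < n) :
    lc C a ∈ C.V n := by
  rw [lc_apply]
  apply Submodule.sum_mem
  intro M hM
  apply al_mul_mem
  exact Submodule.subset_span ⟨M, ha M hM, rfl⟩

/-- the relations of level `n` -/
noncomputable def R (C : Ctx) (n : ℕ) : Submodule (KX C.k) (Multiset (Gen C.t) →₀ KX C.k) where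
  carrier := {a | (∀ M, a M ≠ 0 → lv M = n) ∧ lc C a ∈ C.V n}
  zero_mem' := ⟨fun M h => absurd rfl h, by rw [map_zero]; exact (C.V n).zero_mem⟩
  add_mem' := by
    rintro a b ⟨ha, ha'⟩ ⟨hb, hb'⟩
    refine ⟨fun M h => ?_, by rw [map_add]; exact (C.V n).add_mem ha' hb'⟩
    by_cases h0 : a M = 0
    · apply hb
      intro h1
      apply h
      rw [Finsupp.add_apply, h0, h1, add_zero]
    · exact ha M h0
  smul_mem' := by
    rintro r a ⟨ha, ha'⟩
    refine ⟨fun M h => ha M fun h0 => h ?_, by rw [map_smul]; exact (C.V n).smul_mem r ha'⟩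
    rw [Finsupp.smul_apply, h0, smul_zero]

theorem R_stable (h2 : SQA_Stmt) {n : ℕ} (a : Multiset (Gen C.t) →₀ KX C.k) (ha : a ∈ R C n)
    (b : Multiset (Gen C.t) →₀ KX C.k)
    (hb : ∀ i, b i = cst (C.U (-(2 * cs i))) * xe (-(2 * cs i)) * C.s0 (C.s0 (a i))) :
    b ∈ R C n := by
  obtain ⟨ha1, ha2⟩ := ha
  obtain ⟨hq1, hq2, -⟩ := h2 C
  have hb0 : ∀ M, a M = 0 → b M = 0 := by
    intro M h
    rw [hb, h, map_zero, map_zero, mul_zero]
  refine ⟨fun M hM => ha1 M fun h => hM (hb0 M h), ?_⟩
  have e1 : C.sg (C.sg (lc C a)) ∈ C.V n := (hq1 n _ (hq1 n _ ha2).1).1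
  have e2 : C.sg (C.sg (lc C a)) =
      ∑ M ∈ a.support, C.al (C.s0 (C.s0 (a M))) * C.sg (C.sg (C.mono M)) := by
    rw [lc_apply, Finsupp.sum, map_sum, map_sum]
    apply Finset.sum_congr rfl
    intro M _
    rw [map_mul, map_mul]
    have e3 : ∀ r, C.sg (C.al r) = C.al (C.s0 r) := C.alg
    rw [e3, e3]
  have e4 : lc C b = ∑ M ∈ a.support, C.al (C.s0 (C.s0 (a M))) *
      (C.al (cst (C.U (-(2 * cs M))) * xe (-(2 * cs M))) * C.mono M) := by
    rw [lc_apply, Finsupp.sum_of_support_subset b (s := a.support)]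
    · apply Finset.sum_congr rfl
      intro M _
      rw [hb M, map_mul]
      ring
    · intro M hM
      rw [Finsupp.mem_support_iff] at hM ⊢
      exact fun h => hM (hb0 M h)
    · intro M _
      rw [map_zero, zero_mul]
  have e5 : C.sg (C.sg (lc C a)) - lc C b ∈ C.V n := by
    rw [e2, e4, ← Finset.sum_sub_distrib]
    apply Submodule.sum_mem
    intro M hM
    rw [← mul_sub]
    apply al_mul_mem
    have := hq2 M
    rwa [ha1 M (Finsupp.mem_support_iff.mp hM)] at this
  have := (C.V n).sub_mem e1 e5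
  rwa [sub_sub_cancel] at this

theorem sz_pos (t : Tr C.ι) (i : C.ι) : 1 ≤ t.sz i := by
  rw [t.hsz i]
  omega

theorem lv_zero {ι : Type} {t : Tr ι} {M : Multiset (Gen t)} (h : lv M = 0) : M = 0 := by
  by_contra hM
  obtain ⟨g, hg⟩ := Multiset.exists_mem_of_ne_zero hM
  have h1 : t.sz g.i ≤ lv M := by
    unfold lv
    exact Multiset.single_le_sum (by intros; exact Nat.zero_le _) _
      (Multiset.mem_map_of_mem _ hg)
  have h2 := t.hsz g.i
  omega

theorem R_zero : R C 0 = ⊥ := by
  rw [eq_bot_iff]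
  rintro a ⟨ha1, ha2⟩
  rw [Submodule.mem_bot]
  have hV : C.V 0 = ⊥ := by
    unfold Ctx.V
    have : {M : Multiset (Gen C.t) | lv M < 0} = ∅ := by
      ext M
      simp
    rw [this, Set.image_empty, Submodule.span_empty]
  rw [hV, Submodule.mem_bot] at ha2
  have h0 : a = Finsupp.single 0 (a 0) := by
    ext M
    by_cases hM : M = 0
    · rw [hM, Finsupp.single_eq_same]
    · rw [Finsupp.single_eq_of_ne hM]
      by_contra hne
      exact hM (lv_zero (ha1 M hne))
  rw [h0, lc_apply, Finsupp.sum_single_index (by rw [map_zero, zero_mul])] at ha2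
  have h1 : C.mono 0 = 1 := by
    unfold Ctx.mono
    simp
  rw [h1, mul_one] at ha2
  have h2 : a 0 = 0 := (map_eq_zero C.al).mp ha2
  rw [h0, h2, Finsupp.single_zero]

theorem mono_inj_cst {k : Type} [Field k] : Function.Injective (cst : k →+* KX k) :=
  (cst : k →+* KX k).injective

theorem evm {α β : Type} [AddCommMonoid β] (x : α) (s : Multiset (α →₀ β)) :
    s.sum x = (s.map fun f => f x).sum := by
  induction s using Multiset.induction with
  | empty => simp
  | cons a s ih => simp [ih]

theorem count_sum {α k : Type} [DecidableEq α] [Semiring k] (M : Multiset α) (g : α) (x : k) :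
    (M.map fun g' => if g' = g then x else 0).sum = (M.count g : k) * x := by
  induction M using Multiset.induction with
  | empty => simp
  | cons a s ih =>
    rw [Multiset.map_cons, Multiset.sum_cons, ih, Multiset.count_cons]
    by_cases h : a = g
    · rw [if_pos h, if_pos h.symm, Nat.cast_add, Nat.cast_one, add_mul, one_mul, add_comm]
    · rw [if_neg h, if_neg (Ne.symm h), zero_add, add_zero]

/-- the evaluation of a combination of atoms -/
noncomputable def phi {k : Type} [Field k] (U : ℚ → k) : (At →₀ k) →+ KX k :=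
  Finsupp.liftAddHom fun a => (AddMonoidHom.mulRight (Rf U a)).comp (cst : k →+* KX k).toAddMonoidHom

theorem phi_apply {k : Type} [Field k] (U : ℚ → k) (l : At →₀ k) :
    phi U l = l.sum fun a y => cst y * Rf U a := rfl

theorem phi_single {k : Type} [Field k] (U : ℚ → k) (a : At) (y : k) :
    phi U (Finsupp.single a y) = cst y * Rf U a := by
  rw [phi_apply, Finsupp.sum_single_index (by rw [map_zero, zero_mul])]

open Classical in
theorem R_succ (h3 : MINR_Stmt) (h2 : SQA_Stmt) (h4 : BI_Stmt) (h5 : SHP_Stmt) (h6 : PSI_Stmt)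
    (h7 : COEF_Stmt) {n : ℕ} (hn : 1 ≤ n) (hI : C.Ind n) : R C n = ⊥ := by
  by_contra hR
  obtain ⟨κ, hκ, hκ0, c0, hc0⟩ := h3 C.k C.U C.s0 C.hU C.hs0 (Multiset (Gen C.t)) cs (R C n)
    (fun a ha b hb => R_stable h2 a ha b hb) hR
  obtain ⟨hs1, hs2, hs3, hs4, hs5, hs6⟩ := h5 C.ι C.t
  have hinj : Function.Injective (cst : C.k →+* KX C.k) := mono_inj_cst
  have hf0 : Function.invFun (cst : C.k →+* KX C.k) 0 = 0 := by
    have := Function.leftInverse_invFun hinj (0 : C.k)
    rwa [map_zero] at this
  obtain ⟨κ', hκ'⟩ : ∃ κ' : Multiset (Gen C.t) →₀ C.k, ∀ M, κ M = cst (κ' M) := by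
    refine ⟨κ.mapRange _ hf0, fun M => ?_⟩
    rw [Finsupp.mapRange_apply]
    by_cases hM : M ∈ κ.support
    · obtain ⟨-, y, hy⟩ := hc0 M hM
      rw [hy, Function.leftInverse_invFun hinj y]
    · rw [Finsupp.notMem_support_iff.mp hM, hf0, map_zero]
  have hsup : ∀ M, M ∈ κ'.support ↔ M ∈ κ.support := by
    intro M
    rw [Finsupp.mem_support_iff, Finsupp.mem_support_iff, hκ' M]
    exact (map_ne_zero _).symm
  have hne : κ'.support.Nonempty := by
    rw [Finset.nonempty_iff_ne_empty]
    intro hemp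
    apply hκ0
    ext M
    by_contra hM
    have : M ∈ κ'.support := (hsup M).mpr (Finsupp.mem_support_iff.mpr hM)
    rw [hemp] at this
    exact absurd this (Finset.notMem_empty M)
  have hlv : ∀ M ∈ κ'.support, lv M = n ∧ cs M = c0 := by
    intro M hM
    have hM' := (hsup M).mp hM
    exact ⟨hκ.1 M (Finsupp.mem_support_iff.mp hM'), (hc0 M hM').1⟩
  obtain ⟨M, hM, g, hg, hpsi⟩ := h6 C.ι C.t κ'.support n c0 hne hn hlv
  have hsum : κ'.sum (fun M y => C.al (cst y) * C.mono M) ∈ C.V n := by
    have e1 := hκ.2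
    rw [lc_apply] at e1
    have e2 : (κ.sum fun M r => C.al r * C.mono M) =
        κ'.sum (fun M y => C.al (cst y) * C.mono M) := by
      have hss : κ.support = κ'.support := by
        ext M
        exact (hsup M).symm
      rw [Finsupp.sum, Finsupp.sum, hss]
      apply Finset.sum_congr rfl
      intro M _
      rw [hκ' M]
    rwa [e2] at e1
  obtain ⟨ν, hν, hcoef⟩ := h7 C n hn hI c0 κ' hlv hsum
  have hN : lv (rmv M g) + 1 = n := by
    rw [(hs5 M g hg).1, (hlv M hM).1]
  obtain ⟨r, hr⟩ := hcoef _ hN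
  -- the combination of atoms
  obtain ⟨N, hNdef⟩ : ∃ N, N = rmv M g := ⟨_, rfl⟩
  rw [← hNdef] at hpsi hN hr
  obtain ⟨l, hl⟩ : ∃ l : At →₀ C.k, l = κ'.sum fun M' y => (M'.map fun g' =>
    if rmv M' g' = N then Finsupp.single (atg g') (ν M' g' * y) else 0).sum := ⟨_, rfl⟩
  have hev : ∀ a : At, l a = κ'.sum fun M' y => (M'.map fun g' =>
      if rmv M' g' = N ∧ atg g' = a then ν M' g' * y else 0).sum := by
    intro a
    rw [hl, Finsupp.sum, Finsupp.finsetSum_apply]
    apply Finset.sum_congr rfl
    intro M' _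
    rw [evm, Multiset.map_map]
    congr 1
    apply Multiset.map_congr rfl
    intro g' _
    simp only [Function.comp]
    by_cases h1 : rmv M' g' = N
    · rw [if_pos h1]
      by_cases h2 : atg g' = a
      · rw [if_pos ⟨h1, h2⟩, h2, Finsupp.single_eq_same]
      · rw [if_neg (fun h => h2 h.2), Finsupp.single_eq_of_ne (Ne.symm h2)]
    · rw [if_neg h1, if_neg (fun h => h1 h.1), Finsupp.zero_apply]
  have hlsup : ∀ a ∈ l.support, ∃ M' ∈ κ'.support, ∃ g' ∈ M', rmv M' g' = N ∧ atg g' = a := by
    intro a ha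
    by_contra hcon
    push Not at hcon
    apply Finsupp.mem_support_iff.mp ha
    rw [hev]
    apply Finset.sum_eq_zero
    intro M' hM'
    apply Multiset.sum_eq_zero
    intro x hx
    obtain ⟨g', hg', rfl⟩ := Multiset.mem_map.mp hx
    rw [if_neg]
    exact fun h => hcon M' hM' g' hg' h.1 h.2
  have hl0 : atg g ∈ l.support := by
    rw [Finsupp.mem_support_iff, hev, Finsupp.sum, Finset.sum_eq_single M]
    · have e1 : (M.map fun g' =>
          if rmv M g' = N ∧ atg g' = atg g then ν M g' * κ' M else 0) =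
          M.map fun g' => if g' = g then ν M g * κ' M else 0 := by
        apply Multiset.map_congr rfl
        intro g' hg'
        by_cases h1 : g' = g
        · rw [if_pos h1, h1, if_pos ⟨hNdef.symm, rfl⟩]
        · rw [if_neg h1, if_neg]
          intro h
          exact h1 ((hpsi M hM g' hg' h.1).2.2 h.2).2
      rw [e1]
      have e2 : (M.map fun g' => if g' = g then ν M g * κ' M else 0).sum =
          (M.count g : C.k) * (ν M g * κ' M) := count_sum _ _ _
      rw [e2]
      apply mul_ne_zero
      · rw [Nat.cast_ne_zero]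
        exact Multiset.count_ne_zero.mpr hg
      · exact mul_ne_zero (hν M g) (Finsupp.mem_support_iff.mp hM)
    · intro M' hM' hMM
      apply Multiset.sum_eq_zero
      intro x hx
      obtain ⟨g', hg', rfl⟩ := Multiset.mem_map.mp hx
      rw [if_neg]
      intro h
      exact hMM ((hpsi M' hM' g' hg' h.1).2.2 h.2).1
    · intro h
      exact absurd hM h
  have hRHS : Lc C.s0 (c0 - cs N) r = l.sum (fun a y => cst y * Rf C.U a) := by
    rw [hr, ← phi_apply, hl, Finsupp.sum, Finsupp.sum, map_sum]
    apply Finset.sum_congr rfl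
    intro M' _
    rw [map_multiset_sum, Multiset.map_map]
    congr 1
    apply Multiset.map_congr rfl
    intro g' _
    simp only [Function.comp]
    split_ifs
    · rw [phi_single]
    · rw [map_zero]
  refine h4 C.k C.U C.s0 C.hU C.hs0 (c0 - cs N) l r (atg g) trivial ?_ hRHS hl0 ?_ ?_
  · intro a ha
    obtain ⟨M', hM', g', hg', hr', rfl⟩ := hlsup a ha
    have h8 := (hs5 M' g' hg').2
    rw [hr', (hlv M' hM').2] at h8
    refine ⟨C.t.hp g'.i, (hs6 g'.i).1, g'.hw, g'.hb, fun hm => (hs6 g'.i).2 ?_, h8.symm⟩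
    exact Multiset.card_eq_zero.mp hm
  · intro a ha
    obtain ⟨M', hM', g', hg', hr', rfl⟩ := hlsup a ha
    exact (hpsi M' hM' g' hg' hr').1
  · intro a ha hm
    obtain ⟨M', hM', g', hg', hr', rfl⟩ := hlsup a ha
    exact (hpsi M' hM' g' hg' hr').2.1 hm

end STEP

open STEP in
theorem step (h : BASE_Stmt) (h1 : VMUL_Stmt) (h2 : SQA_Stmt) (h3 : MINR_Stmt) (h4 : BI_Stmt)
    (h5 : SHP_Stmt) (h6 : PSI_Stmt) (h7 : COEF_Stmt) : STEP_Stmt := by
  have _ := h
  have _ := h1
  intro C n hI
  have hR : R C n = ⊥ := by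
    rcases Nat.eq_zero_or_pos n with h0 | h0
    · rw [h0]
      exact R_zero
    · exact R_succ h3 h2 h4 h5 h6 h7 h0 hI
  intro a ha hsum
  rw [← lc_apply] at hsum
  classical
  have hdec := Finsupp.filter_add_filter_not a (fun M => lv M = n)
  have h9 : a.filter (fun M => lv M = n) ∈ R C n := by
    constructor
    · intro M hM
      by_contra h
      exact hM (Finsupp.filter_apply_neg _ _ h)
    · have e1 : lc C (a.filter (fun M => lv M = n)) =
          - lc C (a.filter (fun M => ¬ lv M = n)) := by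
        rw [eq_neg_iff_add_eq_zero, ← map_add, hdec, hsum]
      rw [e1]
      apply Submodule.neg_mem
      apply lc_mem
      intro M hM
      rw [Finsupp.support_filter, Finset.mem_filter] at hM
      have := ha M hM.1
      omega
  rw [hR, Submodule.mem_bot] at h9
  rw [h9, zero_add] at hdec
  apply hI a
  · intro M hM
    rw [← hdec, Finsupp.support_filter, Finset.mem_filter] at hM
    have := ha M hM.1
    omega
  · rw [← lc_apply]
    exact hsum

open STEP in
theorem ai (h : STEP_Stmt) : AI_Stmt := by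
  intro C M M' r r' hr hr' heq
  by_contra hne
  have hI : ∀ n, C.Ind n := by
    intro n
    induction n with
    | zero =>
      intro a ha _
      ext M
      by_contra hM
      exact absurd (ha M (Finsupp.mem_support_iff.mpr hM)) (Nat.not_lt_zero _)
    | succ n ih => exact h C n ih
  have h0 : lc C (Finsupp.single M r - Finsupp.single M' r') = 0 := by
    rw [map_sub, lc_apply, lc_apply, Finsupp.sum_single_index (by rw [map_zero, zero_mul]),
      Finsupp.sum_single_index (by rw [map_zero, zero_mul]), heq, sub_self]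
  have h1 : Finsupp.single M r - Finsupp.single M' r' = 0 := by
    apply hI (max (lv M) (lv M') + 1)
    · intro x hx
      by_contra hlt
      apply Finsupp.mem_support_iff.mp hx
      have h3 : x ≠ M := by
        rintro rfl
        exact hlt (Nat.lt_succ_of_le (le_max_left _ _))
      have h4 : x ≠ M' := by
        rintro rfl
        exact hlt (Nat.lt_succ_of_le (le_max_right _ _))
      rw [Finsupp.sub_apply, Finsupp.single_eq_of_ne h3, Finsupp.single_eq_of_ne h4, sub_zero]
    · rw [← lc_apply]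
      exact h0
  have h2 := DFunLike.congr_fun h1 M
  rw [Finsupp.sub_apply, Finsupp.single_eq_same, Finsupp.single_eq_of_ne hne, sub_zero] at h2
  exact hr h2

end Pool.Agent.GK
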