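import Pool.Agent.GK.JStmts
import Pool.Agent.IT.Final

/-!
# Graph knots, module SUMJ: the framed invariant of a connected sum
-/

set_option linter.unusedSectionVars false

namespace Pool.Agent.GK
open Pool.Agent.LibH11 Pool.Agent.IT
open scoped BigOperators

namespace SUMJ

/-! ### Gluing labels -/

section glue

variable {A : Type} [CommRing A] {ι : Type} [Fintype ι] [DecidableEq ι]

/-- The positions of the strands. -/
def pe (n m : ℕ) : Fin (n + 1) ⊕ Fin m ≃ Fin (n + m + 1) :=
  finSumFinEquiv.trans (finCongr (by omega))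

theorem pe_inl (n m : ℕ) (i : Fin (n + 1)) : (pe n m (Sum.inl i) : ℕ) = i := by
  simp [pe]

theorem pe_inr (n m : ℕ) (j : Fin m) : (pe n m (Sum.inr j) : ℕ) = n + 1 + j := by
  simp [pe]

/-- The labels of the strands. -/
def gl {n m : ℕ} (f : Fin (n + 1) → ι) (b : Fin m → ι) : Fin (n + m + 1) → ι :=
  fun i => Sum.elim f b ((pe n m).symm i)

theorem gl_pe {n m : ℕ} (f : Fin (n + 1) → ι) (b : Fin m → ι) (x : Fin (n + 1) ⊕ Fin m) :
    gl f b (pe n m x) = Sum.elim f b x := by
  unfold gl
  rw [Equiv.symm_apply_apply]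

theorem sum_gl {n m : ℕ} (F : (Fin (n + m + 1) → ι) → A) :
    ∑ s, F s = ∑ f : Fin (n + 1) → ι, ∑ b : Fin m → ι, F (gl f b) := by
  rw [← Fintype.sum_prod_type' (f := fun f b => F (gl f b))]
  exact (Equiv.sum_comp ((Equiv.sumArrowEquivProdArrow (Fin (n + 1)) (Fin m) ι).symm.trans
    ((pe n m).arrowCongr (Equiv.refl ι))) F).symm

theorem prod_gl {n m : ℕ} (κ : ι → A) (f : Fin (n + 1) → ι) (b : Fin m → ι) :
    ∏ i, κ (gl f b i) = (∏ i, κ (f i)) * ∏ j, κ (b j) := by
  unfold gl
  rw [Equiv.prod_comp (pe n m).symm (fun x => κ (Sum.elim f b x)), Fintype.prod_sum_type]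
  rfl

theorem shp_low {n m : ℕ} (h : n + 0 ≤ n + m) (i : Fin (n + 1)) :
    HEXP.shp h i = pe n m (Sum.inl i) := by
  apply Fin.ext
  rw [pe_inl]
  unfold HEXP.shp
  simp

theorem shp_zero {n m : ℕ} (h : m + n ≤ n + m) :
    HEXP.shp h (0 : Fin (m + 1)) = pe n m (Sum.inl (Fin.last n)) := by
  apply Fin.ext
  rw [pe_inl]
  unfold HEXP.shp
  simp

theorem shp_succ {n m : ℕ} (h : m + n ≤ n + m) (j : Fin m) :
    HEXP.shp h j.succ = pe n m (Sum.inr j) := by
  apply Fin.ext
  rw [pe_inr]
  unfold HEXP.shp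
  simp only [Fin.val_succ]
  omega

theorem gl_low {n m : ℕ} (h : n + 0 ≤ n + m) (f : Fin (n + 1) → ι) (b : Fin m → ι) :
    gl f b ∘ HEXP.shp h = f := by
  funext i
  rw [Function.comp_apply, shp_low, gl_pe]
  rfl

theorem gl_high {n m : ℕ} (h : m + n ≤ n + m) (f : Fin (n + 1) → ι) (b : Fin m → ι) :
    gl f b ∘ HEXP.shp h = Fin.cons (f (Fin.last n)) b := by
  funext i
  rw [Function.comp_apply]
  refine Fin.cases ?_ (fun j => ?_) i
  · rw [shp_zero, gl_pe]
    rfl
  · rw [shp_succ, gl_pe]
    rfl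

/-- The diagonal entries of the matrix of a connected sum. -/
theorem diag_eq {n m : ℕ} (h0 : n + 0 ≤ n + m) (h1 : m + n ≤ n + m)
    (M : Matrix (Fin (n + 1) → ι) (Fin (n + 1) → ι) A)
    (N : Matrix (Fin (m + 1) → ι) (Fin (m + 1) → ι) A) (f : Fin (n + 1) → ι) (b : Fin m → ι) :
    (HEXP.emb (HEXP.shp h0) M * HEXP.emb (HEXP.shp h1) N) (gl f b) (gl f b) =
      ∑ c : ι, M f (Function.update f (Fin.last n) c) *
        N (Fin.cons c b) (Fin.cons (f (Fin.last n)) b) := by
  classical
  have key := HEXP.mul_emb (HEXP.shp h0) (HEXP.shp h1)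
    (fun _ : Unit => pe n m (Sum.inl (Fin.last n))) M N
    (gl f b) (gl f b) (fun k => gl (Function.update f (Fin.last n) (k ())) b) ?_ ?_ ?_ ?_
  · rw [key]
    refine Fintype.sum_equiv (Equiv.funUnique Unit ι) _ _ fun k => ?_
    rw [gl_low, gl_low, gl_high, gl_high, Function.update_self]
    rfl
  · rintro k ⟨⟩
    rw [gl_pe]
    exact Function.update_self _ _ _
  · intro k q hq
    obtain ⟨x, rfl⟩ := (pe n m).surjective q
    rw [gl_pe, gl_pe]
    rcases x with i | j
    · exact absurd (shp_low h0 i) (hq i)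
    · rfl
  · intro k q hq
    obtain ⟨x, rfl⟩ := (pe n m).surjective q
    rw [gl_pe, gl_pe]
    rcases x with i | j
    · by_cases hi : i = Fin.last n
      · subst hi
        exact absurd (shp_zero h1) (hq 0)
      · exact Function.update_of_ne hi _ _
    · exact absurd (shp_succ h1 j) (hq j.succ)
  · intro Z hZ1 hZ2
    funext q
    obtain ⟨x, rfl⟩ := (pe n m).surjective q
    rw [gl_pe]
    rcases x with i | j
    · by_cases hi : i = Fin.last n
      · subst hi
        exact Function.update_self _ _ _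
      · have h2 := hZ2 (pe n m (Sum.inl i)) (fun p hp => by
          have h3 := congrArg Fin.val hp
          rw [pe_inl] at h3
          unfold HEXP.shp at h3
          simp only at h3
          have h4 := i.2
          apply hi
          apply Fin.ext
          rw [Fin.val_last]
          omega)
        rw [gl_pe] at h2
        rw [h2]
        exact Function.update_of_ne hi _ _
    · have h2 := hZ1 (pe n m (Sum.inr j)) (fun p hp => by
        have h3 := congrArg Fin.val hp
        rw [pe_inr] at h3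
        unfold HEXP.shp at h3
        simp only at h3
        have h4 := p.2
        omega)
      rw [gl_pe] at h2
      exact h2

end glue

/-! ### Closing all strands of a word but one -/

section trace

variable {K : Type} [Field K] {s : K}

theorem mor_tr {ι ι' : Type} [Fintype ι] [DecidableEq ι] [Fintype ι'] [DecidableEq ι']
    {M : WM K ι} {M' : WM K ι'} {e : ι ≃ ι'} (h : HEXP.Rl M M' e) {Y : Matrix ι ι K}
    (hY : Mor M M Y) : Mor M' M' (Y.submatrix e.symm e.symm) := by
  have hE : M'.E = M.E.submatrix e.symm e.symm := by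
    ext a b
    rw [Matrix.submatrix_apply, h.E, Equiv.apply_symm_apply, Equiv.apply_symm_apply]
  have hF : M'.F = M.F.submatrix e.symm e.symm := by
    ext a b
    rw [Matrix.submatrix_apply, h.F, Equiv.apply_symm_apply, Equiv.apply_symm_apply]
  refine ⟨?_, ?_, ?_⟩
  · intro b a hba
    rw [Matrix.submatrix_apply] at hba
    have h1 := hY.wt _ _ hba
    rw [h.wt, h.wt, Equiv.apply_symm_apply, Equiv.apply_symm_apply] at h1
    exact h1
  · rw [hE, Matrix.submatrix_mul_equiv, Matrix.submatrix_mul_equiv, hY.E]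
  · rw [hF, Matrix.submatrix_mul_equiv, Matrix.submatrix_mul_equiv, hY.F]

/-- Closing all strands but one gives a scalar. -/
theorem scalar (hs : IT.Gen s) (N m : ℕ) (w : Word) : ∃ l : K, ∀ a c : Fin N,
    ∑ b : Fin m → Fin N, op (RD s (V s N)) m w (Fin.cons a b) (Fin.cons c b) *
      ∏ j, (RD s (V s N)).κ (b j) = if a = c then l else 0 := by
  have hV : Ok s (V s N) := (IT.Fin.fVOK K s hs).1 N
  have h1 := IT.Fin.fMOP K s hs (Fin N) (V s N) hV m w
  have h2 := HEXP.rl_fpow IT.Fin.fFPOWT hs (V s N) m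
  have h3 := mor_tr h2 h1
  have h4 := IT.Fin.fPTR K s hs (Fin N) (Fin m → Fin N) (V s N) (fpow s (V s N) m) hV
    (IT.Fin.fFPOWOK K s hs (Fin N) (V s N) hV m) _ h3
  obtain ⟨l, hl⟩ := IT.Fin.fSCHUR K s hs N _ h4
  refine ⟨l, fun a c => ?_⟩
  have h5 := congrFun (congrFun hl a) c
  rw [Matrix.smul_apply, Matrix.one_apply, smul_eq_mul, mul_ite, mul_one, mul_zero] at h5
  rw [← h5]
  refine Finset.sum_congr rfl fun b _ => ?_
  rw [Matrix.submatrix_apply]
  congr 1
  change ∏ j, s ^ (2 * (V s N).wt (b j)) = s ^ (2 * ∑ j, (V s N).wt (b j))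
  rw [Finset.mul_sum]
  induction (Finset.univ : Finset (Fin m)) using Finset.induction_on with
  | empty => rw [Finset.prod_empty, Finset.sum_empty, zpow_zero]
  | insert a t ha ih => rw [Finset.prod_insert ha, Finset.sum_insert ha, zpow_add₀ hs.1, ih]

end trace

end SUMJ

open SUMJ in
/-- SUMJ: the framed invariant of a connected sum. -/
theorem sumj : SUMJ_Stmt := by
  intro K _ s hs N n m u w hu hw
  obtain ⟨l, hl⟩ := scalar hs N m w
  set T : RData K (Fin N) := RD s (V s N) with hT
  have h0 : n + 0 ≤ n + m := by omega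
  have h1 : m + n ≤ n + m := by omega
  have hop : op T (n + m) (csum n u w) =
      HEXP.emb (HEXP.shp h0) (op T n u) * HEXP.emb (HEXP.shp h1) (op T m w) := by
    unfold csum
    rw [HEXP.op_append, HEXP.op_low T h0 u hu, HEXP.op_shw T h1 w hw]
  have hm : Jfr T m w = l * ∑ i, T.κ i := by
    unfold Jfr
    rw [← Equiv.sum_comp (HEXP.spl (Fin N) m).symm, Fintype.sum_prod_type]
    rw [Finset.mul_sum]
    refine Finset.sum_congr rfl fun a _ => ?_
    have h2 := hl a a
    rw [if_pos rfl] at h2
    rw [← h2, Finset.sum_mul]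
    refine Finset.sum_congr rfl fun b _ => ?_
    change op T m w (Fin.cons a b) (Fin.cons a b) *
      ∏ i, T.κ ((Fin.cons a b : Fin (m + 1) → Fin N) i) = _
    rw [Fin.prod_univ_succ]
    simp only [Fin.cons_zero, Fin.cons_succ]
    ring
  have hnm : Jfr T (n + m) (csum n u w) = l * Jfr T n u := by
    unfold Jfr
    rw [sum_gl, Finset.mul_sum]
    refine Finset.sum_congr rfl fun f _ => ?_
    have h2 : ∀ b : Fin m → Fin N, op T (n + m) (csum n u w) (gl f b) (gl f b) *
        ∏ i, T.κ (gl f b i) = ∑ c : Fin N, (op T n u f (Function.update f (Fin.last n) c) *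
          (∏ i, T.κ (f i))) * (op T m w (Fin.cons c b) (Fin.cons (f (Fin.last n)) b) *
            ∏ j, T.κ (b j)) := by
      intro b
      rw [hop, diag_eq h0 h1, prod_gl, Finset.sum_mul]
      refine Finset.sum_congr rfl fun c _ => ?_
      ring
    rw [Finset.sum_congr rfl fun b _ => h2 b, Finset.sum_comm]
    have h3 : ∀ c : Fin N, ∑ b : Fin m → Fin N,
        (op T n u f (Function.update f (Fin.last n) c) * (∏ i, T.κ (f i))) *
          (op T m w (Fin.cons c b) (Fin.cons (f (Fin.last n)) b) * ∏ j, T.κ (b j)) =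
        (op T n u f (Function.update f (Fin.last n) c) * (∏ i, T.κ (f i))) *
          if c = f (Fin.last n) then l else 0 := by
      intro c
      rw [← Finset.mul_sum, hl]
    rw [Finset.sum_congr rfl fun c _ => h3 c, Finset.sum_eq_single (f (Fin.last n))]
    · rw [if_pos rfl, Function.update_eq_self]
      ring
    · intro c _ hc
      rw [if_neg hc, mul_zero]
    · intro h
      exact absurd (Finset.mem_univ _) h
  rw [hm, hnm]
  ring

end Pool.Agent.GK
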