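import Pool.Agent.GK.AStmts

/-!
# Graph knots: pole orders (module GK_VAL)
-/

set_option autoImplicit false

namespace Pool.Agent.GK

open LaurentPolynomial
open scoped BigOperators PowerSeries

namespace VAL

noncomputable section

variable {k : Type} [Field k] {U : ℚ → k}

theorem U_mul_neg (hU : UOk U) (a : ℚ) : U a * U (-a) = 1 := by
  rw [← hU.add, add_neg_cancel, hU.zero]

theorem U_ne (hU : UOk U) (a : ℚ) : U a ≠ 0 := left_ne_zero_of_mul_eq_one (U_mul_neg hU a)

theorem U_inj (hU : UOk U) {a b : ℚ} (h : U a = U b) : a = b := by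
  have h1 : U (a - b) = 1 := by
    have h2 : U (a - b) * U b = 1 * U b := by rw [← hU.add, sub_add_cancel, h, one_mul]
    exact mul_right_cancel₀ (U_ne hU b) h2
  exact sub_eq_zero.1 (hU.inj _ h1)

theorem U_neg (hU : UOk U) (a : ℚ) : U (-a) = (U a)⁻¹ :=
  eq_inv_of_mul_eq_one_right (U_mul_neg hU a)

/-- `U` as a homomorphism. -/
def Uh (hU : UOk U) : Multiplicative ℚ →* kˣ where
  toFun a := Units.mk0 (U a.toAdd) (U_ne hU _)
  map_one' := Units.ext hU.zero
  map_mul' _ _ := Units.ext (hU.add _ _)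

theorem U_zpow (hU : UOk U) (a : ℚ) (n : ℤ) : U a ^ n = U (n * a) := by
  have h1 := map_zpow (Uh hU) (Multiplicative.ofAdd a) n
  have h2 := congrArg (fun x : kˣ => (x : k)) h1
  simp only [Units.val_zpow_eq_zpow_val] at h2
  have h3 : ((Uh hU (Multiplicative.ofAdd a ^ n) : kˣ) : k) = U (n * a) := by
    change U (Multiplicative.toAdd (Multiplicative.ofAdd a ^ n)) = _
    rw [toAdd_zpow, toAdd_ofAdd, zsmul_eq_mul]
  rw [← h3, h2]
  rfl

/-- The unit `U(e) (1 + X)`. -/
def u (hU : UOk U) (e : ℚ) : (k⟦X⟧)ˣ :=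
  IsUnit.unit (a := PowerSeries.C (U e) * (1 + PowerSeries.X)) (by
    rw [PowerSeries.isUnit_iff_constantCoeff]
    simpa using (U_ne hU e))

theorem u_val (hU : UOk U) (e : ℚ) :
    ((u hU e : (k⟦X⟧)ˣ) : k⟦X⟧) = PowerSeries.C (U e) * (1 + PowerSeries.X) := rfl

/-- The expansion of Laurent polynomials at `U e`. -/
def tP (hU : UOk U) (e : ℚ) : k[T;T⁻¹] →+* k⟦X⟧ := LaurentPolynomial.eval₂ PowerSeries.C (u hU e)

theorem tP_C (hU : UOk U) (e : ℚ) (y : k) : tP hU e (C y) = PowerSeries.C y :=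
  LaurentPolynomial.eval₂_C _ _ _

theorem tP_T (hU : UOk U) (e : ℚ) (n : ℤ) : tP hU e (T n) = ((u hU e ^ n : (k⟦X⟧)ˣ) : k⟦X⟧) :=
  LaurentPolynomial.eval₂_T _ _ _

theorem tP_poly (hU : UOk U) (e : ℚ) (p : Polynomial k) :
    tP hU e (Polynomial.toLaurent p) = p.eval₂ PowerSeries.C (u hU e : k⟦X⟧) :=
  LaurentPolynomial.eval₂_toLaurent _ _ _

theorem tP_inj (hU : UOk U) (e : ℚ) : Function.Injective (tP hU e) := by
  rw [injective_iff_map_eq_zero]
  intro f hf
  obtain ⟨n, P, hP⟩ := f.exists_T_pow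
  have h1 : tP hU e (Polynomial.toLaurent P) = 0 := by rw [hP, map_mul, hf, zero_mul]
  rw [tP_poly] at h1
  have h2 : P.eval₂ PowerSeries.C (u hU e : k⟦X⟧) =
      ((P.comp (Polynomial.C (U e) * (1 + Polynomial.X)) : Polynomial k) : k⟦X⟧) := by
    rw [← Polynomial.coeToPowerSeries.ringHom_apply, Polynomial.comp, Polynomial.hom_eval₂]
    congr 1
    · ext a
      simp
    · rw [u_val]
      simp
  rw [h2, Polynomial.coe_eq_zero_iff, Polynomial.comp_eq_zero_iff] at h1
  have hP0 : P = 0 := by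
    rcases h1 with h | ⟨-, h⟩
    · exact h
    · exfalso
      have h3 := congrArg (fun q : Polynomial k => q.coeff 1) h
      simp [Polynomial.coeff_one, Polynomial.coeff_C] at h3
      exact U_ne hU e h3
  rw [hP0, map_zero] at hP
  have h4 : f * T n * T (-n) = 0 := by rw [← hP, zero_mul]
  rwa [mul_assoc, ← T_add, add_neg_cancel, T_zero, mul_one] at h4

/-- The expansion in Laurent series. -/
def tL (hU : UOk U) (e : ℚ) : k[T;T⁻¹] →+* HahnSeries ℤ k := (HahnSeries.ofPowerSeries ℤ k).comp (tP hU e)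

theorem tL_inj (hU : UOk U) (e : ℚ) : Function.Injective (tL hU e) :=
  HahnSeries.ofPowerSeries_injective.comp (tP_inj hU e)

/-- The expansion of rational functions. -/
def tau (hU : UOk U) (e : ℚ) : KX k →+* HahnSeries ℤ k := IsFractionRing.lift (tL_inj hU e)

theorem tau_alg (hU : UOk U) (e : ℚ) (f : k[T;T⁻¹]) :
    tau hU e (algebraMap k[T;T⁻¹] (KX k) f) = HahnSeries.ofPowerSeries ℤ k (tP hU e f) :=
  IsFractionRing.lift_algebraMap _ _

theorem tau_cst (hU : UOk U) (e : ℚ) (y : k) :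
    tau hU e (cst y) = HahnSeries.ofPowerSeries ℤ k (PowerSeries.C y) := by
  rw [← tP_C hU e, ← tau_alg]
  rfl

theorem tau_xe (hU : UOk U) (e : ℚ) (n : ℤ) :
    tau hU e (xe n) = HahnSeries.ofPowerSeries ℤ k ((u hU e ^ n : (k⟦X⟧)ˣ) : k⟦X⟧) := by
  rw [← tP_T, ← tau_alg]
  rfl

/-! ### orders of power series -/

theorem ord_nonneg (p : k⟦X⟧) : 0 ≤ (HahnSeries.ofPowerSeries ℤ k p).orderTop := by
  rw [HahnSeries.le_orderTop_iff_forall]
  intro j hj
  have hj' : j < 0 := by exact_mod_cast hj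
  have h := PowerSeries.coeff_coe (f := p) j
  rw [if_pos hj'] at h
  exact h

theorem ord_zero {p : k⟦X⟧} (h : PowerSeries.constantCoeff p ≠ 0) :
    (HahnSeries.ofPowerSeries ℤ k p).orderTop = ((0 : ℤ) : WithTop ℤ) := by
  refine le_antisymm ?_ (ord_nonneg p)
  refine HahnSeries.orderTop_le_of_coeff_ne_zero ?_
  have h1 := HahnSeries.ofPowerSeries_apply_coeff (Γ := ℤ) p 0
  rw [Nat.cast_zero] at h1
  rw [h1, PowerSeries.coeff_zero_eq_constantCoeff]
  exact h

theorem ord_one {p : k⟦X⟧} (h : PowerSeries.constantCoeff p = 0) (h' : PowerSeries.coeff 1 p ≠ 0) :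
    (HahnSeries.ofPowerSeries ℤ k p).orderTop = ((1 : ℤ) : WithTop ℤ) := by
  refine le_antisymm ?_ ?_
  · refine HahnSeries.orderTop_le_of_coeff_ne_zero ?_
    have h1 := HahnSeries.ofPowerSeries_apply_coeff (Γ := ℤ) p 1
    rw [Nat.cast_one] at h1
    rw [h1]
    exact h'
  · rw [HahnSeries.le_orderTop_iff_forall]
    intro j hj
    have hj' : j < 1 := by exact_mod_cast hj
    rcases (by omega : j < 0 ∨ j = 0) with hj0 | hj0
    · have h2 := PowerSeries.coeff_coe (f := p) j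
      rw [if_pos hj0] at h2
      exact h2
    · have h1 := HahnSeries.ofPowerSeries_apply_coeff (Γ := ℤ) p 0
      rw [Nat.cast_zero] at h1
      rw [hj0, h1, PowerSeries.coeff_zero_eq_constantCoeff]
      exact h

theorem ord_pow {x : HahnSeries ℤ k} {o : ℤ} (h : x.orderTop = (o : WithTop ℤ)) (j : ℕ) :
    (x ^ j).orderTop = ((j * o : ℤ) : WithTop ℤ) := by
  induction j with
  | zero =>
    rw [pow_zero, HahnSeries.orderTop_one]
    simp
  | succ j ih =>
    rw [pow_succ, HahnSeries.orderTop_mul, ih, h, ← WithTop.coe_add]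
    congr 1
    push_cast
    ring

theorem ord_inv {x : HahnSeries ℤ k} {o : ℤ} (h : x.orderTop = (o : WithTop ℤ)) :
    (x⁻¹).orderTop = ((-o : ℤ) : WithTop ℤ) := by
  have hx : x ≠ 0 := by
    rintro rfl
    rw [HahnSeries.orderTop_zero] at h
    exact WithTop.top_ne_coe h
  have h1 : (x⁻¹).orderTop + x.orderTop = 0 := by
    rw [← HahnSeries.orderTop_mul, inv_mul_cancel₀ hx, HahnSeries.orderTop_one]
  have h2 : (x⁻¹).orderTop ≠ ⊤ := HahnSeries.orderTop_ne_top.2 (inv_ne_zero hx)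
  obtain ⟨z, hz⟩ := WithTop.ne_top_iff_exists.1 h2
  rw [← hz, h, ← WithTop.coe_add] at h1
  have h3 : z + o = 0 := by exact_mod_cast h1
  rw [← hz]
  congr 1
  omega

theorem ord_zpow_neg {x : HahnSeries ℤ k} {o : ℤ} (h : x.orderTop = (o : WithTop ℤ)) (j : ℕ) :
    (x ^ (-(j : ℤ))).orderTop = ((-(j * o) : ℤ) : WithTop ℤ) := by
  rw [zpow_neg, zpow_natCast]
  exact ord_inv (ord_pow h j)

/-! ### the expansion of `ph` -/

theorem cc_u (hU : UOk U) (e : ℚ) (n : ℤ) :
    PowerSeries.constantCoeff ((u hU e ^ n : (k⟦X⟧)ˣ) : k⟦X⟧) = U (n * e) := by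
  have h1 := map_zpow (Units.map (PowerSeries.constantCoeff (R := k) : k⟦X⟧ →* k)) (u hU e) n
  have h2 := congrArg (fun x : kˣ => (x : k)) h1
  simp only [Units.val_zpow_eq_zpow_val] at h2
  have h3 : ((Units.map (PowerSeries.constantCoeff (R := k) : k⟦X⟧ →* k) (u hU e) : kˣ) : k) =
      U e := by
    change PowerSeries.constantCoeff (PowerSeries.C (U e) * (1 + PowerSeries.X)) = U e
    simp
  rw [h3, U_zpow hU] at h2
  exact h2

theorem c1_u (hU : UOk U) (e : ℚ) (n : ℤ) :
    PowerSeries.coeff 1 ((u hU e ^ n : (k⟦X⟧)ˣ) : k⟦X⟧) = n * U (n * e) := by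
  let Φ : (k⟦X⟧)ˣ →* Multiplicative k :=
    { toFun := fun v => Multiplicative.ofAdd
        (PowerSeries.coeff 1 (v : k⟦X⟧) / PowerSeries.constantCoeff (v : k⟦X⟧))
      map_one' := by
        change Multiplicative.ofAdd _ = Multiplicative.ofAdd 0
        congr 1
        rw [Units.val_one, PowerSeries.coeff_one, if_neg one_ne_zero, zero_div]
      map_mul' := fun v v' => by
        change Multiplicative.ofAdd _ = Multiplicative.ofAdd (_ + _)
        congr 1
        have h1 : PowerSeries.constantCoeff (v : k⟦X⟧) ≠ 0 :=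
          (v.isUnit.map (PowerSeries.constantCoeff (R := k))).ne_zero
        have h2 : PowerSeries.constantCoeff (v' : k⟦X⟧) ≠ 0 :=
          (v'.isUnit.map (PowerSeries.constantCoeff (R := k))).ne_zero
        rw [Units.val_mul, PowerSeries.coeff_one_mul, map_mul, toAdd_ofAdd, toAdd_ofAdd,
          div_add_div _ _ h1 h2]
        congr 1
        ring }
  have h1 := map_zpow Φ (u hU e) n
  have h2 : Multiplicative.toAdd (Φ (u hU e)) = 1 := by
    change PowerSeries.coeff 1 (PowerSeries.C (U e) * (1 + PowerSeries.X)) /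
      PowerSeries.constantCoeff (PowerSeries.C (U e) * (1 + PowerSeries.X)) = 1
    rw [PowerSeries.coeff_C_mul]
    have h3 : PowerSeries.coeff 1 (1 + PowerSeries.X : k⟦X⟧) = 1 := by
      rw [map_add, PowerSeries.coeff_one, if_neg one_ne_zero, PowerSeries.coeff_one_X, zero_add]
    rw [h3]
    simp [U_ne hU e]
  have h3 := congrArg Multiplicative.toAdd h1
  rw [toAdd_zpow, h2] at h3
  have h4 : PowerSeries.coeff 1 ((u hU e ^ n : (k⟦X⟧)ˣ) : k⟦X⟧) /
      PowerSeries.constantCoeff ((u hU e ^ n : (k⟦X⟧)ˣ) : k⟦X⟧) = n • (1 : k) := h3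
  rw [cc_u, div_eq_iff (U_ne hU _), zsmul_eq_mul, mul_one] at h4
  exact h4

/-- The expansion of `ph`. -/
def phP (hU : UOk U) (e : ℚ) (W s : ℤ) : k⟦X⟧ :=
  PowerSeries.C (U s) * ((u hU e ^ W : (k⟦X⟧)ˣ) : k⟦X⟧) -
    PowerSeries.C (U (-s)) * ((u hU e ^ (-W) : (k⟦X⟧)ˣ) : k⟦X⟧)

theorem tau_ph (hU : UOk U) (e : ℚ) (W s : ℤ) :
    tau hU e (ph U W s) = HahnSeries.ofPowerSeries ℤ k (phP hU e W s) := by
  unfold ph phP
  rw [map_sub, map_mul, map_mul, tau_cst, tau_cst, tau_xe, tau_xe, map_sub, map_mul, map_mul]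

theorem cc_ph (hU : UOk U) (e : ℚ) (W s : ℤ) :
    PowerSeries.constantCoeff (phP hU e W s) = U (e * W + s) - U (-(e * W + s)) := by
  unfold phP
  rw [map_sub, map_mul, map_mul, cc_u, cc_u, PowerSeries.constantCoeff_C,
    PowerSeries.constantCoeff_C, ← hU.add, ← hU.add]
  congr 2
  · ring
  · push_cast
    ring

theorem ord_ph0 (hU : UOk U) {e : ℚ} {W s : ℤ} (h : e * W + s ≠ 0) :
    (tau hU e (ph U W s)).orderTop = ((0 : ℤ) : WithTop ℤ) := by
  rw [tau_ph]
  refine ord_zero ?_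
  rw [cc_ph, sub_ne_zero]
  intro h1
  have h2 := U_inj hU h1
  apply h
  linarith

theorem ord_ph1 [CharZero k] (hU : UOk U) {e : ℚ} {W s : ℤ} (hW : W ≠ 0) (h : e * W + s = 0) :
    (tau hU e (ph U W s)).orderTop = ((1 : ℤ) : WithTop ℤ) := by
  rw [tau_ph]
  refine ord_one ?_ ?_
  · rw [cc_ph, h, neg_zero, sub_self]
  · have h1 : PowerSeries.coeff 1 (phP hU e W s) = 2 * (W : k) := by
      unfold phP
      rw [map_sub, PowerSeries.coeff_C_mul, PowerSeries.coeff_C_mul, c1_u, c1_u]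
      have e1 : U s * ((W : k) * U (W * e)) = W := by
        have h2 : U s * U (W * e) = 1 := by
          rw [← hU.add, ← hU.zero]
          congr 1
          linarith
        rw [mul_left_comm, h2, mul_one]
      have e2 : U (-(s : ℚ)) * (((-W : ℤ) : k) * U ((-W : ℤ) * e)) = -W := by
        have h2 : U (-(s : ℚ)) * U ((-W : ℤ) * e) = 1 := by
          rw [← hU.add, ← hU.zero]
          congr 1
          push_cast
          linarith
        rw [mul_left_comm, h2, mul_one]
        push_cast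
        rfl
      rw [e1, e2]
      ring
    rw [h1]
    exact mul_ne_zero two_ne_zero (Int.cast_ne_zero.2 hW)

theorem ord_ph (hU : UOk U) [CharZero k] (e : ℚ) (W s : ℤ) (hW : W ≠ 0) :
    ∃ o : ℤ, o ≤ 1 ∧ 0 ≤ o ∧ (tau hU e (ph U W s)).orderTop = (o : WithTop ℤ) := by
  by_cases h : e * W + s = 0
  · exact ⟨1, le_rfl, by norm_num, ord_ph1 hU hW h⟩
  · exact ⟨0, by norm_num, le_rfl, ord_ph0 hU h⟩

/-! ### the pole orders -/

/-- Poles of order at most `n`. -/
def Fil (hU : UOk U) (e : ℚ) (n : ℤ) : AddSubgroup (KX k) where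
  carrier := {a | ((-n : ℤ) : WithTop ℤ) ≤ (tau hU e a).orderTop}
  zero_mem' := by
    change _ ≤ (tau hU e 0).orderTop
    rw [map_zero, HahnSeries.orderTop_zero]
    exact le_top
  add_mem' := fun {a b} ha hb => by
    change _ ≤ (tau hU e (a + b)).orderTop
    rw [map_add]
    exact (le_min ha hb).trans HahnSeries.min_orderTop_le_orderTop_add
  neg_mem' := fun {a} ha => by
    change _ ≤ (tau hU e (-a)).orderTop
    rw [map_neg, HahnSeries.orderTop_neg]
    exact ha

theorem mem_Fil (hU : UOk U) (e : ℚ) (n : ℤ) (a : KX k) :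
    a ∈ Fil hU e n ↔ ((-n : ℤ) : WithTop ℤ) ≤ (tau hU e a).orderTop := Iff.rfl

theorem tau_sg (hU : UOk U) {σ : KX k ≃+* KX k} (hσ : Sg U σ) (e : ℚ) (a : KX k) :
    tau hU e (σ a) = tau hU (e + 1) a := by
  have h1 : (tau hU e).comp (σ : KX k →+* KX k) = tau hU (e + 1) := by
    refine IsFractionRing.ringHom_ext (A := k[T;T⁻¹]) fun f => ?_
    induction f using LaurentPolynomial.induction_on' with
    | add p q hp hq => rw [map_add, map_add, map_add, hp, hq]
    | C_mul_T n y =>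
      have h2 : algebraMap k[T;T⁻¹] (KX k) (C y * T n) = cst y * xe n := map_mul _ _ _
      rw [h2]
      change tau hU e (σ (cst y * xe n)) = tau hU (e + 1) (cst y * xe n)
      rw [map_mul, hσ.cst, hσ.xe, map_mul, map_mul, map_mul, tau_cst, tau_cst, tau_cst, tau_xe,
        tau_xe, ← map_mul]
      congr 2
      have h3 : u hU (e + 1) = Units.map (PowerSeries.C (R := k) : k →* k⟦X⟧)
          (Units.mk0 (U 1) (U_ne hU 1)) * u hU e := by
        apply Units.ext
        rw [Units.val_mul, u_val, u_val, add_comm e 1, hU.add, map_mul]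
        change _ = PowerSeries.C (U 1) * _
        ring
      rw [h3, mul_zpow, ← map_zpow, Units.val_mul]
      congr 1
      change _ = PowerSeries.C (((Units.mk0 (U 1) (U_ne hU 1)) ^ n : kˣ) : k)
      rw [Units.val_zpow_eq_zpow_val, Units.val_mk0, U_zpow hU, mul_one]
  exact RingHom.congr_fun h1 a

theorem fin_zero (hU : UOk U) {g : k[T;T⁻¹]} (hg : g ≠ 0) :
    {e : ℚ | PowerSeries.constantCoeff (tP hU e g) = 0}.Finite := by
  obtain ⟨n, P, hP⟩ := g.exists_T_pow
  have hP0 : P ≠ 0 := by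
    rintro rfl
    rw [map_zero] at hP
    have h4 : g * T n * T (-n) = 0 := by rw [← hP, zero_mul]
    rw [mul_assoc, ← T_add, add_neg_cancel, T_zero, mul_one] at h4
    exact hg h4
  have h1 : (U ⁻¹' {x | Polynomial.IsRoot P x}).Finite :=
    (Polynomial.finite_setOfPred_isRoot hP0).preimage (fun a _ b _ h => U_inj hU h)
  refine h1.subset fun e he => ?_
  have h2 : PowerSeries.constantCoeff (tP hU e (Polynomial.toLaurent P)) = 0 := by
    rw [hP, map_mul, map_mul]
    have he' : PowerSeries.constantCoeff (tP hU e g) = 0 := he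
    rw [he', zero_mul]
  rw [tP_poly, Polynomial.hom_eval₂] at h2
  have h3 : (PowerSeries.constantCoeff (R := k)).comp PowerSeries.C = RingHom.id k := by
    ext a
    simp
  have h4 : PowerSeries.constantCoeff ((u hU e : (k⟦X⟧)ˣ) : k⟦X⟧) = U e := by
    rw [u_val]
    simp
  rw [h3, h4, Polynomial.eval₂_id] at h2
  exact h2

theorem filOk [CharZero k] (hU : UOk U) {σ : KX k ≃+* KX k} (hσ : Sg U σ) :
    FilOk U σ (Fil hU) where
  mono e m n hmn a ha := by
    rw [mem_Fil] at ha ⊢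
    refine le_trans ?_ ha
    exact_mod_cast (by omega : -n ≤ -m)
  mul e m n a b ha hb := by
    rw [mem_Fil] at ha hb ⊢
    rw [map_mul, HahnSeries.orderTop_mul]
    have h1 : ((-(m + n) : ℤ) : WithTop ℤ) = ((-m : ℤ) : WithTop ℤ) + ((-n : ℤ) : WithTop ℤ) := by
      rw [← WithTop.coe_add]
      congr 1
      ring
    rw [h1]
    exact add_le_add ha hb
  unit e y n := by
    rw [mem_Fil, map_mul, tau_cst, tau_xe, ← map_mul, neg_zero]
    exact ord_nonneg _
  sg e m a := by
    rw [mem_Fil, mem_Fil, tau_sg hU hσ]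
  fin a := by
    obtain ⟨f, g, hg, rfl⟩ := IsFractionRing.div_surjective (A := k[T;T⁻¹]) a
    have hg0 : g ≠ 0 := nonZeroDivisors.ne_zero hg
    refine (fin_zero hU hg0).subset fun e he => ?_
    by_contra hcon
    apply he
    have hcon' : PowerSeries.constantCoeff (tP hU e g) ≠ 0 := hcon
    have h1 := ord_inv (ord_zero hcon')
    rw [mem_Fil, map_div₀, tau_alg, tau_alg, div_eq_mul_inv, HahnSeries.orderTop_mul, h1]
    simp only [neg_zero, WithTop.coe_zero, add_zero]
    exact ord_nonneg _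
  ph1 e W s j hW := by
    obtain ⟨o, ho1, ho0, ho⟩ := ord_ph hU e W s hW
    rw [mem_Fil, map_zpow₀, ord_zpow_neg ho j]
    have h1 : -(j : ℤ) ≤ -(j * o) := by
      have : (j : ℤ) * o ≤ j * 1 := mul_le_mul_of_nonneg_left ho1 (Int.natCast_nonneg j)
      linarith
    exact_mod_cast h1
  ph0 e W s j _ h := by
    have h' : (e : ℚ) * W + s ≠ 0 := by exact_mod_cast h
    rw [mem_Fil, map_zpow₀, ord_zpow_neg (ord_ph0 hU h') j]
    simp
  phn e W s j y n hW h hj hy := by
    have h' : (e : ℚ) * W + s = 0 := by exact_mod_cast h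
    rw [mem_Fil, map_mul, map_mul, map_zpow₀, tau_cst, tau_xe, HahnSeries.orderTop_mul,
      HahnSeries.orderTop_mul, ord_zpow_neg (ord_ph1 hU hW h') j, ord_zero, ord_zero]
    · rw [← WithTop.coe_add, ← WithTop.coe_add]
      intro h1
      have h2 : -((j : ℤ) - 1) ≤ 0 + 0 + -(j * 1) := by exact_mod_cast h1
      omega
    · rw [cc_u]
      exact U_ne hU _
    · simpa using hy

end

end VAL

/-- VAL: pole orders exist. -/
theorem val (_h : BASE_Stmt) : VAL_Stmt := fun _ _ _ _ _ hU hσ => ⟨VAL.Fil hU, VAL.filOk hU hσ⟩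

end Pool.Agent.GK
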