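import Pool.Agent.GK.AStmts

/-!
# VMUL: products of elements of the spans of the monomials
-/

namespace Pool.Agent.GK

namespace VMUL

variable (C : Ctx)

theorem mono_add (M N : Multiset (Gen C.t)) : C.mono (M + N) = C.mono M * C.mono N := by
  unfold Ctx.mono
  rw [Multiset.map_add, Multiset.prod_add]

theorem lv_add (M N : Multiset (Gen C.t)) : lv (M + N) = lv M + lv N := by
  unfold lv
  rw [Multiset.map_add, Multiset.sum_add]

theorem V_mono {m n : ℕ} (h : m ≤ n) : C.V m ≤ C.V n := by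
  unfold Ctx.V
  refine Submodule.span_mono (Set.image_mono ?_)
  intro M hM
  exact lt_of_lt_of_le hM h

theorem V_mul {m n : ℕ} {a b : C.L} (ha : a ∈ C.V m) (hb : b ∈ C.V (n + 1)) :
    a * b ∈ C.V (m + n) := by
  have h1 : a * b ∈ C.V m * C.V (n + 1) := Submodule.mul_mem_mul ha hb
  have h2 : C.V m * C.V (n + 1) ≤ C.V (m + n) := by
    unfold Ctx.V
    rw [Submodule.span_mul_span]
    refine Submodule.span_mono ?_
    rintro _ ⟨_, ⟨M, hM, rfl⟩, _, ⟨N, hN, rfl⟩, rfl⟩
    refine ⟨M + N, ?_, mono_add C M N⟩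
    have hM' : lv M < m := hM
    have hN' : lv N < n + 1 := hN
    show lv (M + N) < m + n
    rw [lv_add]
    omega
  exact h2 h1

theorem mono_mem {n : ℕ} (M : Multiset (Gen C.t)) (h : lv M ≤ n) : C.mono M ∈ C.V (n + 1) :=
  Submodule.subset_span ⟨M, Nat.lt_succ_of_le h, rfl⟩

end VMUL

/-- VMUL: products. -/
theorem vmul : VMUL_Stmt := by
  intro C m n a b
  refine ⟨fun h ha => VMUL.V_mono C h ha, fun ha hb => VMUL.V_mul C ha hb,
    fun M hM => VMUL.mono_mem C M hM, ?_, fun M N => VMUL.mono_add C M N⟩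
  intro a' b' ha' hb' h1 h2
  have hb : b ∈ C.V (n + 1) := by
    have h3 := (C.V (n + 1)).add_mem (VMUL.V_mono C (Nat.le_succ n) h2) hb'
    rwa [sub_add_cancel] at h3
  have h4 : a * b - a' * b' = (a - a') * b + (b - b') * a' := by ring
  rw [h4]
  refine (C.V (m + n)).add_mem (VMUL.V_mul C h1 hb) ?_
  have h5 := VMUL.V_mul C h2 ha'
  rwa [Nat.add_comm n m] at h5

end Pool.Agent.GK
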