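import Pool.Agent.GK.TStmts
import Pool.Agent.IT.Row

/-!
YBF: two neighbouring strands cross a block of `m` strands and then each other.
-/

namespace Pool.Agent.GK

open Pool.Agent.LibH11 Pool.Agent.IT

namespace YBFM

lemma evA_succ (N s m : ℕ) : ev N (Aw s (m + 1)) = ev N (Aw s m) * gen N (s + m, true) := by
  rw [ROW.Aw_succ, ev_append, ev_single]

lemma evM_succ (N s m : ℕ) :
    ev N (mir (Aw s (m + 1))) = ev N (mir (Aw s m)) * (gen N (s + m, true))⁻¹ := by
  rw [ROW.Aw_succ, mir_append, ev_append]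
  have e : mir [(s + m, true)] = [(s + m, false)] := rfl
  rw [e, ev_single, gen_false]

lemma commA (N n m : ℕ) : Commute (gen N (n + m + 1, true)) (ev N (Aw n m)) := by
  rw [← ev_single N (n + m + 1, true)]
  refine ev_far N _ _ fun x hx y hy => ?_
  rw [List.mem_singleton] at hx
  subst hx
  have := ROW.mem_Aw hy
  right
  simp only
  omega

lemma commM (N n m : ℕ) : Commute (gen N (n + m + 1, true)) (ev N (mir (Aw n m))) := by
  rw [← ev_single N (n + m + 1, true)]
  refine ev_far N _ _ fun x hx y hy => ?_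
  rw [List.mem_singleton] at hx
  subst hx
  unfold mir at hy
  obtain ⟨z, hz, rfl⟩ := List.mem_map.1 hy
  have := ROW.mem_Aw hz
  right
  simp only
  omega

end YBFM

open YBFM in
theorem ybf : YBF_Stmt := by
  intro N n m
  induction m with
  | zero =>
    intro _
    have h1 : ∀ s, Aw s 0 = [] := fun s => rfl
    have h2 : mir ([] : Word) = [] := rfl
    simp only [h1, h2, ev_nil, one_mul, mul_one, Nat.add_zero, and_self]
  | succ m ih =>
    intro hm
    obtain ⟨i1, i2, i3⟩ := ih (by omega)
    have hbr := gen_braid (N := N) (i := n + m) (by omega)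
    have cA := commA N n m
    have cM := commM N n m
    have e1 : n + 1 + m = n + m + 1 := by omega
    have e2 : n + (m + 1) = n + m + 1 := rfl
    rw [evA_succ, evA_succ, evM_succ, evM_succ, e1, e2]
    set a := gen N (n + m, true) with ha
    set b := gen N (n + m + 1, true) with hb
    set S := ev N (Aw (n + 1) m)
    set S' := ev N (mir (Aw (n + 1) m))
    set R := ev N (Aw n m)
    set R' := ev N (mir (Aw n m))
    set s := gen N (n, true)
    have hbr2 : b⁻¹ * a⁻¹ * b = a * b⁻¹ * a⁻¹ := by
      have : b⁻¹ * a * b = a * b * a⁻¹ := by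
        rw [eq_mul_inv_iff_mul_eq, mul_assoc, mul_assoc, inv_mul_eq_iff_eq_mul, ← mul_assoc,
          ← mul_assoc]
        exact hbr
      have h2 := congrArg (·⁻¹) this
      simp only [mul_inv_rev, inv_inv] at h2
      rw [← mul_assoc, ← mul_assoc] at h2
      exact h2
    have hbr3 : b⁻¹ * a * b = a * b * a⁻¹ := by
      rw [eq_mul_inv_iff_mul_eq, mul_assoc, mul_assoc, inv_mul_eq_iff_eq_mul, ← mul_assoc,
        ← mul_assoc]
      exact hbr
    have cAi : b⁻¹ * R = R * b⁻¹ := cA.inv_left.eq
    have cMi : b⁻¹ * R' = R' * b⁻¹ := cM.inv_left.eq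
    refine ⟨?_, ?_, ?_⟩
    · calc S * b * (R * a) * b = S * (b * R) * a * b := by group
        _ = S * R * (b * a * b) := by rw [cA.eq]; group
        _ = (S * R * a) * b * a := by rw [← hbr]; group
        _ = s * S * (R * b) * a := by rw [i1]; group
        _ = s * (S * b) * (R * a) := by rw [← cA.eq]; group
    · calc S' * b⁻¹ * (R' * a⁻¹) * b = S' * (b⁻¹ * R') * a⁻¹ * b := by group
        _ = S' * R' * (b⁻¹ * a⁻¹ * b) := by rw [cMi]; group
        _ = (S' * R' * a) * b⁻¹ * a⁻¹ := by rw [hbr2]; group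
        _ = s * S' * (R' * b⁻¹) * a⁻¹ := by rw [i2]; group
        _ = s * (S' * b⁻¹) * (R' * a⁻¹) := by rw [← cMi]; group
    · calc S' * b⁻¹ * (R * a) * b = S' * (b⁻¹ * R) * a * b := by group
        _ = S' * R * (b⁻¹ * a * b) := by rw [cAi]; group
        _ = (S' * R * a) * b * a⁻¹ := by rw [hbr3]; group
        _ = s * S * (R' * b) * a⁻¹ := by rw [i3]; group
        _ = s * (S * b) * (R' * a⁻¹) := by rw [← cM.eq]; group

end Pool.Agent.GK
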