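import Pool.Agent.GK.Main
import Pool.Agent.GK.YBF
import Pool.Agent.GK.EXC
import Pool.Agent.GK.DAG
import Pool.Agent.GK.CINV
import Pool.Agent.GK.CSTB
import Pool.Agent.GK.CWL
import Pool.Agent.GK.FLP
import Pool.Agent.GK.CWB
import Pool.Agent.GK.KSUM
import Pool.Agent.GK.OPS
import Pool.Agent.GK.GNF
import Pool.Agent.GK.BASE
import Pool.Agent.GK.SIMP
import Pool.Agent.GK.VAL
import Pool.Agent.GK.POLE
import Pool.Agent.GK.LAM
import Pool.Agent.GK.ATL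
import Pool.Agent.GK.LFIX
import Pool.Agent.GK.LEAF
import Pool.Agent.GK.BI2
import Pool.Agent.GK.BI1
import Pool.Agent.GK.BI0
import Pool.Agent.GK.MINR
import Pool.Agent.GK.VMUL
import Pool.Agent.GK.RED
import Pool.Agent.GK.PRD
import Pool.Agent.GK.SQA
import Pool.Agent.GK.DIF
import Pool.Agent.GK.EXPN
import Pool.Agent.GK.SHP
import Pool.Agent.GK.PSI
import Pool.Agent.GK.COEF
import Pool.Agent.GK.STEP
import Pool.Agent.GK.SUMJ
import Pool.Agent.GK.CJK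
import Pool.Agent.GK.RH1
import Pool.Agent.GK.RH2
import Pool.Agent.GK.SERC
import Pool.Agent.GK.SERS
import Pool.Agent.GK.P2
import Pool.Agent.GK.FAM
import Pool.Agent.GK.FRAME
import Pool.Agent.GK.CTX

/-!
# Graph knots: assembly
-/

namespace Pool.Agent.GK
open Pool.Agent.LibH11 Pool.Agent.IT

namespace Fin

theorem gYBF : YBF_Stmt := ybf
theorem gEXC : EXC_Stmt := exc gYBF
theorem gDAG : DAG_Stmt := dag topRow topMir gEXC
theorem gCINV : CINV_Stmt := cinv topRow gDAG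
theorem gCSTB : CSTB_Stmt := cstb topRow topMir gCINV
theorem gCWL : CWL_Stmt := cwl gCINV gCSTB
theorem gFLP : FLP_Stmt := flp_thm topDel
theorem gCWB : CWB_Stmt := cwb gCWL gFLP
theorem gKSUM : KSUM_Stmt := ksum
theorem gOPS : OPS_Stmt := ops gCWB gKSUM
theorem gGNF : GNF_Stmt := gnf
theorem gBASE : BASE_Stmt := base
theorem gSIMP : SIMP_Stmt := simp_mod gBASE
theorem gVAL : VAL_Stmt := val gBASE
theorem gPOLE : POLE_Stmt := pole gBASE
theorem gLAM : LAM_Stmt := lam gBASE gSIMP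
theorem gATL : ATL_Stmt := atl gBASE
theorem gLFIX : LFIX_Stmt := lfix
theorem gLEAF : LEAF_Stmt := leaf gLFIX
theorem gBI2 : BI2_Stmt := bi2 gBASE gVAL gPOLE
theorem gBI1 : BI1_Stmt := bi1 gBASE gLAM gATL
theorem gBI0 : BI0_Stmt := bi0 gBASE gLAM gATL gLEAF
theorem gBI : BI_Stmt := bi gBI0 gBI1 gBI2
theorem gMINR : MINR_Stmt := minr gBASE gSIMP
theorem gVMUL : VMUL_Stmt := vmul
theorem gRED : RED_Stmt := red_mod gVMUL
theorem gPRD : PRD_Stmt := prd gVMUL gRED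
theorem gSQA : SQA_Stmt := sqa gBASE gVMUL gPRD
theorem gDIF : DIF_Stmt := dif gBASE gVMUL gPRD
theorem gEXPN : EXPN_Stmt := expn gBASE gVMUL gPRD gDIF
theorem gSHP : SHP_Stmt := shp_mod
theorem gPSI : PSI_Stmt := psi gSHP
theorem gCOEF : COEF_Stmt := coef gBASE gVMUL gSQA gEXPN gSHP
theorem gSTEP : STEP_Stmt := step gBASE gVMUL gSQA gMINR gBI gSHP gPSI gCOEF
theorem gAI : AI_Stmt := ai gSTEP
theorem gSUMJ : SUMJ_Stmt := sumj
theorem gCJK : CJK_Stmt := cjk gKSUM gSUMJ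
theorem gRH1 : RH1_Stmt := rh1 IT.Fin.fESER
theorem gRH2 : RH2_Stmt := rh2 IT.Fin.fESER IT.Fin.fEVB IT.Fin.fEVI gRH1
theorem gSERU : SERU_Stmt := seru IT.Fin.fESER gRH1 gRH2
theorem gSERC : SERC_Stmt := serc IT.Fin.fESER gRH1 gRH2 IT.Fin.fSOLV IT.Fin.fEVREC
theorem gSERS : SERS_Stmt := sers IT.Fin.fESER gRH1 gRH2
theorem gP2 : P2_Stmt := p2 IT.Fin.fESER gRH2
theorem gFAM : FAM_Stmt := fam IT.Fin.fEVI gSERU gSERC gSERS
theorem gUQ : UQ_Stmt := uq IT.Fin.fESER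
theorem gFRAME : FRAME_Stmt := frame IT.Fin.fESER gRH2 gBASE gSIMP
theorem gCTX : CTX_Stmt := ctx IT.Fin.fESER gRH2 gBASE gP2 gUQ gFRAME gAI

end Fin

/-- Rational finite type invariants separate graph knots. -/
theorem main_thm : MAIN_Stmt :=
  main_thm' Fin.gOPS Fin.gGNF Fin.gCJK Fin.gFAM IT.Fin.fESER IT.Fin.fEVI Fin.gCTX

end Pool.Agent.GK
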