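import Pool.Agent.GK.AStmts
import Pool.Agent.IT.Stmts

/-!
# Graph knots: statements of the quantum part, of the series part and of the assembly
-/

namespace Pool.Agent.GK
open Pool.Agent.LibH11 Pool.Agent.IT
open scoped BigOperators
open PowerSeries

/-! ## A. Coloured Jones polynomials of connected sums -/

/-- SUMJ: the framed invariant of a connected sum. -/
def SUMJ_Stmt : Prop :=
  ∀ (K : Type) [Field K] (s : K), IT.Gen s → ∀ (N n m : ℕ) (u w : Word), Bd n u → Bd m w →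
    (∑ i, (RD s (V s N)).κ i) * Jfr (RD s (V s N)) (n + m) (csum n u w) =
      Jfr (RD s (V s N)) n u * Jfr (RD s (V s N)) m w

/-- The properties of the coloured Jones polynomials that are used. -/
structure VOk (M : CommMonoid Knot) (cb : ℕ → ℤ → Knot → Knot) (v : ℕ → Knot → ℚ⟦X⟧) :
    Prop where
  ft : ∀ (N : ℕ) (K K' : Knot), (∀ u : Knot → ℚ, IsFiniteType u → u K = u K') → v N K = v N K'
  zero : ∀ K, v 0 K = 0
  one : ∀ K, v 1 K = 1
  unit : ∀ N : ℕ, (E 1 - E (-1)) * v N unknot = E N - E (-N)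
  cab : ∀ (p : ℕ) (q : ℤ) (K : Knot), 1 ≤ p → Int.gcd p q = 1 →
    Recur p q (fun N => v N K) (fun N => v N (cb p q K))
  sum : ∀ (N : ℕ) (K K' : Knot),
    (E N - E (-N)) * v N (M.mul K K') = (E 1 - E (-1)) * v N K * v N K'

/-- CJK: the coloured Jones polynomials exist. -/
def CJK_Stmt : Prop :=
  ∀ (M : CommMonoid Knot) (cb : ℕ → ℤ → Knot → Knot), Ops M cb → ∃ v, VOk M cb v

/-! ## B. Series in two variables -/

/-- the constants `ℚ⟦h⟧` -/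
noncomputable def hB : ℚ⟦X⟧ →+* B := PowerSeries.map (PowerSeries.C (R := ℚ))

/-- the functions of `z` -/
noncomputable def zB : ℚ⟦X⟧ →+* B := PowerSeries.C (R := ℚ⟦X⟧)

/-- `exp z - exp (-z)` -/
noncomputable def fu : B := zB (E 1 - E (-1))

/-- RH1: evaluation is a ring homomorphism. -/
def RH1_Stmt : Prop :=
  (∀ (x : ℚ) (F G : B), evB x (F * G) = evB x F * evB x G) ∧ (∀ x : ℚ, evB x 1 = 1) ∧
  (∀ (x : ℚ) (f : ℚ⟦X⟧), evB x (hB f) = f) ∧ (∀ (x : ℚ) (g : ℚ⟦X⟧), evB x (zB g) = dl x g)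

/-- RH2: shifts and dilations are ring homomorphisms. -/
def RH2_Stmt : Prop :=
  (∀ (t : ℚ) (F G : B), sh t (F * G) = sh t F * sh t G) ∧ (∀ t : ℚ, sh t 1 = 1) ∧
  (∀ (t : ℚ) (F G : B), sh t (F + G) = sh t F + sh t G) ∧
  (∀ (s t : ℚ) (F : B), sh s (sh t F) = sh (s + t) F) ∧ (∀ F : B, sh 0 F = F) ∧
  (∀ (x : ℚ) (F G : B), cw (dl x) (F * G) = cw (dl x) F * cw (dl x) G) ∧
  (∀ x : ℚ, cw (dl x) 1 = 1) ∧
  (∀ (x : ℚ) (F G : B), cw (dl x) (F + G) = cw (dl x) F + cw (dl x) G) ∧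
  (∀ F : B, cw (dl 1) F = F) ∧
  (∀ (x y : ℚ) (F : B), cw (dl x) (cw (dl y) F) = cw (dl (x * y)) F) ∧
  (∀ (t x : ℚ) (F : B), sh t (cw (dl x) F) = cw (dl x) (sh (x * t) F)) ∧
  (∀ (g : ℚ⟦X⟧) (F : B), cw (ml g) F = zB g * F) ∧
  (∀ t a : ℚ, sh t (zB (E a)) = hB (E (a * t)) * zB (E a)) ∧
  (∀ (t : ℚ) (f : ℚ⟦X⟧), sh t (hB f) = hB f) ∧
  (∀ x a : ℚ, cw (dl x) (zB (E a)) = zB (E (a * x))) ∧
  (∀ (x : ℚ) (f : ℚ⟦X⟧), cw (dl x) (hB f) = hB f) ∧
  (∀ x : ℚ, x ≠ 0 → ∀ F : B, cw (dl x) F = 0 → F = 0) ∧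
  (∀ F : B, OddB F ↔ cw (dl (-1)) F = -F)

/-- The series of a knot. -/
def Ser (v : ℕ → Knot → ℚ⟦X⟧) (K : Knot) (G : B) : Prop :=
  OddB G ∧ ∀ N : ℕ, evB N G = (E 1 - E (-1)) * v N K

/-- SERU: the unknot. -/
def SERU_Stmt : Prop :=
  ∀ (M : CommMonoid Knot) (cb : ℕ → ℤ → Knot → Knot) (v : ℕ → Knot → ℚ⟦X⟧), VOk M cb v →
    Ser v unknot fu

/-- SERC: cables. -/
def SERC_Stmt : Prop :=
  ∀ (M : CommMonoid Knot) (cb : ℕ → ℤ → Knot → Knot) (v : ℕ → Knot → ℚ⟦X⟧), VOk M cb v →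
    ∀ (K : Knot) (G : B) (p : ℕ) (q : ℤ), Ser v K G → 1 ≤ p → q ≠ 0 → Int.gcd p q = 1 →
      ∃ G', Ser v (cb p q K) G' ∧ FunEq p q G G'

/-- SERS: connected sums. -/
def SERS_Stmt : Prop :=
  ∀ (M : CommMonoid Knot) (cb : ℕ → ℤ → Knot → Knot) (v : ℕ → Knot → ℚ⟦X⟧), VOk M cb v →
    ∀ (K K' : Knot) (G G' : B), Ser v K G → Ser v K' G' →
      ∃ G'', Ser v (M.mul K K') G'' ∧ G'' * fu = G * G'

/-- P2: the functional equation of a `(2, q)`-cable is of first order. -/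
def P2_Stmt : Prop :=
  ∀ (q : ℤ) (F F' : B), q ≠ 0 → FunEq 2 q F F' →
    zB (E q) * sh 1 F' + hB (E (-q)) * zB (E (-q)) * F' = cw (dl 2) (sh 1 F)

/-- A family of series that satisfies the functional equations of a family of primes. -/
def FamOk {ι : Type} (t : Tr ι) (G : ι → B) : Prop :=
  ∀ i : ι, ∃ H : B, H * fu ^ (Multiset.card (t.ch i)) = fu * ((t.ch i).map G).prod ∧
    FunEq (t.p i) (t.q i) H (G i)

/-- FAM: the series of the primes and of their sums. -/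
def FAM_Stmt : Prop :=
  ∀ (M : CommMonoid Knot) (cb : ℕ → ℤ → Knot → Knot) (v : ℕ → Knot → ℚ⟦X⟧), Ops M cb →
    VOk M cb v → ∀ (ι : Type) (t : Tr ι) (kn : ι → Knot),
    (∀ i, kn i = cb (t.p i) (t.q i) (@Multiset.prod Knot M ((t.ch i).map kn))) →
    ∃ G : ι → B, FamOk t G ∧ ∀ S : Multiset ι, ∃ H : B,
      Ser v (@Multiset.prod Knot M (S.map kn)) H ∧
      H * fu ^ (Multiset.card S) = fu * (S.map G).prod

/-! ## C. The field -/

/-- `u ^ a = exp (a h)` -/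
noncomputable def UQ (a : ℚ) : KQ := toK (E a)

/-- UQ: the exponential parameters. -/
def UQ_Stmt : Prop := UOk UQ

/-- FRAME: the field of fractions of the series. -/
def FRAME_Stmt : Prop :=
  ∀ s0 : KX KQ ≃+* KX KQ, Sg UQ s0 →
    ∃ (L : Type) (_ : Field L) (_ : Algebra (KX KQ) L) (sg : L ≃+* L) (emb : B →+* L),
      Function.Injective emb ∧
      (∀ r, sg (algebraMap (KX KQ) L r) = algebraMap (KX KQ) L (s0 r)) ∧
      (∀ F : B, sg (emb F) = emb (sh 1 F)) ∧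
      (∀ n : ℤ, emb (zB (E n)) = algebraMap (KX KQ) L (xe n)) ∧
      (∀ a : ℚ, emb (hB (E a)) = algebraMap (KX KQ) L (cst (UQ a)))

/-- CTX: unique factorisation of the products of the series of the primes. -/
def CTX_Stmt : Prop :=
  ∀ (ι : Type) (t : Tr ι) (G : ι → B), FamOk t G → ∀ S S' : Multiset ι,
    fu ^ (Multiset.card S') * (S.map G).prod = fu ^ (Multiset.card S) * (S'.map G).prod → S = S'

/-- The theorem, for rational invariants. -/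
def MAIN_Stmt : Prop :=
  ∀ K K' : Knot, GraphKnot K → GraphKnot K' →
    (∀ u : Knot → ℚ, IsFiniteType u → u K = u K') → K = K'

end Pool.Agent.GK
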