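import Pool.Agent.GK.JStmts
import Pool.Agent.IT.Final

/-!
# Graph knots: the main theorem from the modules
-/

namespace Pool.Agent.GK
open Pool.Agent.LibH11 Pool.Agent.IT
open PowerSeries

theorem fu_ne_zero (_ : ESER_Stmt) : fu ≠ 0 := by
  intro h
  have h1 : (E 1 - E (-1) : ℚ⟦X⟧) = 0 := by
    have h2 := congrArg (fun F : B => coeff 0 F) h
    simpa [fu, zB] using h2
  have h3 := congrArg (fun f : ℚ⟦X⟧ => coeff 1 f) h1
  simp [E] at h3

theorem main_thm' (hops : OPS_Stmt) (hgnf : GNF_Stmt) (hcjk : CJK_Stmt) (hfam : FAM_Stmt)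
    (he : ESER_Stmt) (hi : EVI_Stmt) (hctx : CTX_Stmt) : MAIN_Stmt := by
  intro K K' hK hK' hFT
  obtain ⟨M, cb, ho⟩ := hops
  obtain ⟨ι, t, kn, hkn, hall⟩ := hgnf M cb ho
  obtain ⟨v, hv⟩ := hcjk M cb ho
  obtain ⟨G, hG, hS⟩ := hfam M cb v ho hv ι t kn hkn
  obtain ⟨S, rfl⟩ := hall K hK
  obtain ⟨S', rfl⟩ := hall K' hK'
  obtain ⟨H, hH1, hH2⟩ := hS S
  obtain ⟨H', hH1', hH2'⟩ := hS S'
  have hHH : H = H' := by
    apply hi
    intro N
    rw [hH1.2, hH1'.2, hv.ft N _ _ hFT]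
  subst hHH
  have hfu := fu_ne_zero he
  have key : fu ^ (Multiset.card S') * (S.map G).prod = fu ^ (Multiset.card S) * (S'.map G).prod := by
    apply mul_left_cancel₀ hfu
    calc fu * (fu ^ (Multiset.card S') * (S.map G).prod)
        = (fu * (S.map G).prod) * fu ^ (Multiset.card S') := by ring
      _ = (H * fu ^ (Multiset.card S)) * fu ^ (Multiset.card S') := by rw [hH2]
      _ = (H * fu ^ (Multiset.card S')) * fu ^ (Multiset.card S) := by ring
      _ = (fu * (S'.map G).prod) * fu ^ (Multiset.card S) := by rw [hH2']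
      _ = fu * (fu ^ (Multiset.card S) * (S'.map G).prod) := by ring
  have := hctx ι t G hG S S' key
  rw [this]

end Pool.Agent.GK
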