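import Pool.Agent.IT.Top
import Pool.Agent.GK.Defs

/-!
# Graph knots: definitions and statements of the topological modules

Connected sums of closed braids.  Words on `n + 1` strands have letters `< n` (`Bd n w`).
All modules take the statements they need as hypotheses.
-/

namespace Pool.Agent.GK

open Pool.Agent.LibH11 Pool.Agent.IT

/-- the word turned upside down: `σ_i ↦ σ_(m-1-i)` -/
def flp (m : ℕ) (w : Word) : Word := w.map fun x => (m - 1 - x.1, x.2)

/-- YBF: two neighbouring strands cross a block of `m` strands and then each other. -/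
def YBF_Stmt : Prop :=
  ∀ N n m : ℕ, n + m < N →
    (ev N (Aw (n + 1) m) * ev N (Aw n m) * gen N (n + m, true) =
      gen N (n, true) * ev N (Aw (n + 1) m) * ev N (Aw n m)) ∧
    (ev N (mir (Aw (n + 1) m)) * ev N (mir (Aw n m)) * gen N (n + m, true) =
      gen N (n, true) * ev N (mir (Aw (n + 1) m)) * ev N (mir (Aw n m))) ∧
    (ev N (mir (Aw (n + 1) m)) * ev N (Aw n m) * gen N (n + m, true) =
      gen N (n, true) * ev N (Aw (n + 1) m) * ev N (mir (Aw n m)))

/-- EXC: the exchange move for a block of `m` strands. -/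
def EXC_Stmt : Prop :=
  ∀ (n m : ℕ) (A V : Word), Bd n A → Bd (n + m - 1) V →
    meq (n + m) (A ++ Aw n m ++ V ++ iw (Aw n m))
      (n + m) (A ++ mir (Aw n m) ++ V ++ iw (mir (Aw n m)))

/-- DAG: a full twist of the last two strands slides past a summand. -/
def DAG_Stmt : Prop :=
  ∀ (n m : ℕ) (X U : Word), 1 ≤ n → Bd n X → Bd m U →
    meq (n + m) (X ++ [(n - 1, true), (n - 1, true)] ++ shw n U)
      (n + m) (X ++ shw n U ++ [(n - 1, true), (n - 1, true)])

/-- CINV: conjugation of the first summand. -/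
def CINV_Stmt : Prop :=
  ∀ (n m : ℕ) (c y U : Word), Bd n c → Bd n y → Bd m U → IsKnot (ev n y) →
    meq (n + m) (csum n (c ++ y ++ iw c) U) (n + m) (csum n y U)

/-- CSTB: stabilisation of the first summand. -/
def CSTB_Stmt : Prop :=
  ∀ (n m : ℕ) (y U : Word) (e : Bool), Bd n y → Bd m U → IsKnot (ev n y) →
    meq (n + 1 + m) (csum (n + 1) (y ++ [(n, e)]) U) (n + m) (csum n y U)

/-- CWL: the connected sum depends on the closure of the first summand only. -/
def CWL_Stmt : Prop :=
  ∀ (n n' m : ℕ) (y y' U : Word), Bd n y → Bd n' y' → Bd m U → IsKnot (ev n y) →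
    meq n y n' y' → meq (n + m) (csum n y U) (n' + m) (csum n' y' U)

/-- FLP: turning a connected sum upside down. -/
def FLP_Stmt : Prop :=
  (∀ (m : ℕ) (w : Word), Bd m w → Bd m (flp m w) ∧ meq m (flp m w) m w) ∧
  ∀ (n m : ℕ) (u w : Word), Bd n u → Bd m w →
    meq (n + m) (csum n u w) (n + m) (csum m (flp m w) (flp n u))

/-- CWB: the connected sum is well defined and commutative. -/
def CWB_Stmt : Prop :=
  (∀ (n m : ℕ) (u w : Word), Bd n u → Bd m w → IsKnot (ev n u) → IsKnot (ev m w) →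
    meq (n + m) (csum n u w) (m + n) (csum m w u)) ∧
  (∀ (n n' m m' : ℕ) (u u' w w' : Word), Bd n u → Bd n' u' → Bd m w → Bd m' w' →
    IsKnot (ev n u) → IsKnot (ev m w) → meq n u n' u' → meq m w m' w' →
    meq (n + m) (csum n u w) (n' + m') (csum n' u' w'))

/-- KSUM: the connected sum of two knots is a knot. -/
def KSUM_Stmt : Prop :=
  ∀ (n m : ℕ) (u w : Word), Bd n u → Bd m w → IsKnot (ev n u) → IsKnot (ev m w) →
    IsKnot (ev (n + m) (csum n u w))

/-- Connected sum and cabling as operations on knots. -/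
structure Ops (M : CommMonoid Knot) (cb : ℕ → ℤ → Knot → Knot) : Prop where
  one : M.one = unknot
  sum : ∀ (n m : ℕ) (u w : Word) (hu : IsKnot (ev n u)) (hw : IsKnot (ev m w))
    (h : IsKnot (ev (n + m) (csum n u w))), Bd n u → Bd m w →
    M.mul (closure (ev n u) hu) (closure (ev m w) hw) = closure (ev (n + m) (csum n u w)) h
  cab : ∀ (n : ℕ) (w : Word) (h : IsKnot (ev n w)) (p : ℕ) (q : ℤ)
    (h' : IsKnot (ev (p * (n + 1) - 1) (cab p q w))), Bd n w → 1 ≤ p → Int.gcd p q = 1 →
    cb p q (closure (ev n w) h) = closure (ev (p * (n + 1) - 1) (cab p q w)) h'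
  cab_one : ∀ (q : ℤ) (K : Knot), cb 1 q K = K
  cab_unit : ∀ (p : ℕ) (q : ℤ), 1 ≤ p → q.natAbs = 1 → cb p q unknot = unknot
  cab_swap : ∀ (p q : ℕ), 1 ≤ p → 1 ≤ q → Nat.Coprime p q →
    cb p q unknot = cb q p unknot ∧ cb p (-q) unknot = cb q (-p) unknot

/-- OPS: the operations exist. -/
def OPS_Stmt : Prop := ∃ (M : CommMonoid Knot) (cb : ℕ → ℤ → Knot → Knot), Ops M cb

/-- Data of a family of primes: `(p, q)`-cables of sums of members of the family. -/
structure Tr (ι : Type) where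
  p : ι → ℕ
  q : ι → ℤ
  ch : ι → Multiset ι
  sz : ι → ℕ
  hsz : ∀ i, sz i = 1 + ((ch i).map sz).sum
  hp : ∀ i, 2 ≤ p i
  hg : ∀ i, Int.gcd (p i) (q i) = 1
  hn : ∀ i, ch i = 0 → (p i : ℤ) < |q i|
  inj : ∀ i j, p i = p j → q i = q j → ch i = ch j → i = j

/-- GNF: every graph knot is a sum of members of a family of primes. -/
def GNF_Stmt : Prop :=
  ∀ (M : CommMonoid Knot) (cb : ℕ → ℤ → Knot → Knot), Ops M cb →
    ∃ (ι : Type) (t : Tr ι) (kn : ι → Knot),
      (∀ i, kn i = cb (t.p i) (t.q i) (@Multiset.prod Knot M ((t.ch i).map kn))) ∧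
      ∀ K : Knot, GraphKnot K → ∃ S : Multiset ι, K = @Multiset.prod Knot M (S.map kn)

end Pool.Agent.GK
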